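import Mathlib
import Pool.Agent.Y126.OT.Pair

/-!
# Irreducible Lie algebras with an element whose square is one fourth
-/

set_option linter.unusedSectionVars false

namespace Pool.Agent.R930

open Module Pool.Agent.W528.Odd Pool.Agent.Y126.OT

noncomputable section

variable {K : Type} [Field K] [CharZero K] {V : Type} [AddCommGroup V] [Module K V]
  [FiniteDimensional K V]

section basic

variable {x : Module.End K V} (hx : x * x = (1 / 4 : K) • 1)

include hx in
theorem e1_of_range {v : V} (hv : v ∈ LinearMap.range (e1 x)) : e1 x v = v := by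
  obtain ⟨w, rfl⟩ := hv
  rw [← Module.End.mul_apply, e1_mul_e1 hx]

include hx in
theorem e0_of_range {v : V} (hv : v ∈ LinearMap.range (e0 x)) : e0 x v = v := by
  obtain ⟨w, rfl⟩ := hv
  rw [← Module.End.mul_apply, e0_mul_e0 hx]

include hx in
theorem e0_of_range1 {v : V} (hv : v ∈ LinearMap.range (e1 x)) : e0 x v = 0 := by
  obtain ⟨w, rfl⟩ := hv
  rw [← Module.End.mul_apply, e0_mul_e1 hx]
  rfl

include hx in
theorem e1_of_range0 {v : V} (hv : v ∈ LinearMap.range (e0 x)) : e1 x v = 0 := by
  obtain ⟨w, rfl⟩ := hv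
  rw [← Module.End.mul_apply, e1_mul_e0 hx]
  rfl

theorem y_apply (x y : Module.End K V) (v : V) : y v = y0 x y v + yp x y v + ym x y v := by
  conv_lhs => rw [y_eq x y]
  rfl

include hx in
theorem yp_of_range {y : Module.End K V} {v : V} (hv : v ∈ LinearMap.range (e1 x)) :
    yp x y v = 0 := by
  unfold yp
  rw [Module.End.mul_apply, e0_of_range1 hx hv, map_zero]

include hx in
theorem ym_of_range0 {y : Module.End K V} {v : V} (hv : v ∈ LinearMap.range (e0 x)) :
    ym x y v = 0 := by
  unfold ym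
  rw [Module.End.mul_apply, e1_of_range0 hx hv, map_zero]

theorem yp_range (x y : Module.End K V) (v : V) : yp x y v ∈ LinearMap.range (e1 x) :=
  ⟨(y * e0 x) v, rfl⟩

theorem ym_range (x y : Module.End K V) (v : V) : ym x y v ∈ LinearMap.range (e0 x) :=
  ⟨(y * e1 x) v, rfl⟩

include hx in
theorem y0_range {y : Module.End K V} {v : V} (hv : v ∈ LinearMap.range (e1 x)) :
    y0 x y v ∈ LinearMap.range (e1 x) := by
  refine ⟨(y * e1 x) v, ?_⟩
  unfold y0
  rw [LinearMap.add_apply, Module.End.mul_apply (e0 x * y), e0_of_range1 hx hv, map_zero, add_zero]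
  rfl

include hx in
theorem y0_range0 {y : Module.End K V} {v : V} (hv : v ∈ LinearMap.range (e0 x)) :
    y0 x y v ∈ LinearMap.range (e0 x) := by
  refine ⟨(y * e0 x) v, ?_⟩
  unfold y0
  rw [LinearMap.add_apply, Module.End.mul_apply (e1 x * y), e1_of_range0 hx hv, map_zero, zero_add]
  rfl

theorem range_inf (hx : x * x = (1 / 4 : K) • 1) {v : V} (h1 : v ∈ LinearMap.range (e1 x))
    (h0 : v ∈ LinearMap.range (e0 x)) : v = 0 := by
  rw [← e1_of_range hx h1, e1_of_range0 hx h0]

theorem neg_e1 (x : Module.End K V) : e1 (-x) = e0 x := by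
  unfold e1 e0
  module

theorem neg_e0 (x : Module.End K V) : e0 (-x) = e1 x := by
  unfold e1 e0
  module

theorem neg_sq {x : Module.End K V} (hx : x * x = (1 / 4 : K) • 1) :
    -x * -x = (1 / 4 : K) • 1 := by
  rw [neg_mul_neg, hx]

theorem finrank_ranges (hx : x * x = (1 / 4 : K) • 1) :
    finrank K (LinearMap.range (e1 x)) + finrank K (LinearMap.range (e0 x)) = finrank K V := by
  refine Submodule.finrank_add_eq_of_isCompl ⟨?_, ?_⟩
  · rw [Submodule.disjoint_def]
    intro v h1 h0
    exact range_inf hx h1 h0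
  · rw [codisjoint_iff, eq_top_iff]
    intro v _
    have h : v = e1 x v + e0 x v := by
      rw [← LinearMap.add_apply, e1_add_e0]
      rfl
    rw [h]
    exact Submodule.add_mem_sup ⟨v, rfl⟩ ⟨v, rfl⟩

/-- The component of degree one of a component of degree one. -/
theorem yp_yp (hx : x * x = (1 / 4 : K) • 1) (y : Module.End K V) : yp x (yp x y) = yp x y := by
  unfold yp
  calc e1 x * (e1 x * y * e0 x) * e0 x = (e1 x * e1 x) * y * (e0 x * e0 x) := by noncomm_ring
  _ = _ := by rw [e1_mul_e1 hx, e0_mul_e0 hx]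

theorem ym_ym (hx : x * x = (1 / 4 : K) • 1) (y : Module.End K V) : ym x (ym x y) = ym x y := by
  unfold ym
  calc e0 x * (e0 x * y * e1 x) * e1 x = (e0 x * e0 x) * y * (e1 x * e1 x) := by noncomm_ring
  _ = _ := by rw [e1_mul_e1 hx, e0_mul_e0 hx]

theorem yp_sq (hx : x * x = (1 / 4 : K) • 1) (y : Module.End K V) : yp x y * yp x y = 0 := by
  unfold yp
  calc e1 x * y * e0 x * (e1 x * y * e0 x) = e1 x * y * (e0 x * e1 x) * y * e0 x := by noncomm_ring
  _ = _ := by rw [e0_mul_e1 hx, mul_zero, zero_mul, zero_mul]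

theorem rk_yp_le1 (x y : Module.End K V) : rk (yp x y) ≤ finrank K (LinearMap.range (e1 x)) :=
  Submodule.finrank_mono (by
    rintro _ ⟨v, rfl⟩
    exact yp_range x y v)

theorem rk_yp_le0 (x y : Module.End K V) : rk (yp x y) ≤ finrank K (LinearMap.range (e0 x)) := by
  have h : LinearMap.range (yp x y) = (LinearMap.range (e0 x)).map (e1 x * y) := by
    unfold yp
    exact LinearMap.range_comp _ _
  unfold rk
  rw [h]
  exact Submodule.finrank_map_le _ _

end basic

section irr

variable {𝔥 : Submodule K (Module.End K V)} (hbr : ∀ X ∈ 𝔥, ∀ Y ∈ 𝔥, X * Y - Y * X ∈ 𝔥)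
  (hirr : ∀ W : Submodule K V, (∀ Y ∈ 𝔥, ∀ u ∈ W, Y u ∈ W) → W = ⊥ ∨ W = ⊤)
  {x : Module.End K V} (hx : x * x = (1 / 4 : K) • 1) (hxm : x ∈ 𝔥)

include hirr hx in
theorem exists_yp (h1 : e1 x ≠ 0) (h0 : e0 x ≠ 0) : ∃ y ∈ 𝔥, yp x y ≠ 0 := by
  by_contra hcon
  push Not at hcon
  rcases hirr (LinearMap.range (e0 x)) (by
    intro y hy u hu
    rw [y_apply x y u, hcon y hy, ym_of_range0 hx hu]
    rw [LinearMap.zero_apply, add_zero, add_zero]
    exact y0_range0 hx hu) with h | h
  · exact h0 (LinearMap.range_eq_bot.1 h)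
  · apply h1
    refine LinearMap.ext fun v => ?_
    have h2 : v ∈ LinearMap.range (e0 x) := by rw [h]; trivial
    rw [e1_of_range0 hx h2]
    rfl

include hirr hx in
theorem exists_ym (h1 : e1 x ≠ 0) (h0 : e0 x ≠ 0) : ∃ y ∈ 𝔥, ym x y ≠ 0 := by
  obtain ⟨y, hy, h⟩ := exists_yp hirr (neg_sq hx) (by rwa [neg_e1]) (by rwa [neg_e0])
  refine ⟨y, hy, fun h2 => h ?_⟩
  unfold yp
  rw [neg_e1, neg_e0]
  exact h2

include hbr hirr hx hxm in
/-- The eigenspaces are irreducible under the elements of degree zero. -/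
theorem irr_plus (W : Submodule K V) (hW1 : W ≤ LinearMap.range (e1 x))
    (hW : ∀ y ∈ 𝔥, ∀ w ∈ W, y0 x y w ∈ W) : W = ⊥ ∨ W = LinearMap.range (e1 x) := by
  obtain ⟨Z, hZ⟩ : ∃ Z : Submodule K V, Z = Submodule.span K {v | ∃ y ∈ 𝔥, ∃ w ∈ W, v = ym x y w} :=
    ⟨_, rfl⟩
  have hZ0 : Z ≤ LinearMap.range (e0 x) := by
    rw [hZ, Submodule.span_le]
    rintro _ ⟨y, hy, w, hw, rfl⟩
    exact ym_range x y w
  have hZy : ∀ y ∈ 𝔥, ∀ w ∈ W, ym x y w ∈ Z := by
    intro y hy w hw
    rw [hZ]
    exact Submodule.subset_span ⟨y, hy, w, hw, rfl⟩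
  have hst : ∀ y ∈ 𝔥, ∀ u ∈ W ⊔ Z, y u ∈ W ⊔ Z := by
    intro y hy u hu
    obtain ⟨w, hw, z, hz, rfl⟩ := Submodule.mem_sup.1 hu
    rw [map_add]
    refine Submodule.add_mem _ ?_ ?_
    · rw [y_apply x y w, yp_of_range hx (hW1 hw), add_zero]
      exact Submodule.add_mem_sup (hW y hy w hw) (hZy y hy w hw)
    · have hz' : z ∈ Submodule.span K {v | ∃ y ∈ 𝔥, ∃ w ∈ W, v = ym x y w} := by rwa [hZ] at hz
      refine Submodule.span_induction (p := fun z _ => y z ∈ W ⊔ Z) ?_ ?_ ?_ ?_ hz'
      · rintro _ ⟨y', hy', w, hw, rfl⟩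
        have hwr := hW1 hw
        -- degree zero
        have e1 : y0 x y (ym x y' w) ∈ Z := by
          have hb := hbr _ (y0_mem hx hbr hxm hy) _ (ym_mem hx hbr hxm hy')
          have h2 := hZy _ hb w hw
          have h3 : ym x (y0 x y * ym x y' - ym x y' * y0 x y) w =
              y0 x y (ym x y' w) - ym x y' (y0 x y w) := by
            have h4 : ∀ A : Module.End K V, ym x A w = e0 x (A w) := by
              intro A
              unfold ym
              rw [Module.End.mul_apply, Module.End.mul_apply, e1_of_range hx hwr]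
            rw [h4, LinearMap.sub_apply, map_sub, Module.End.mul_apply, Module.End.mul_apply,
              e0_of_range hx (y0_range0 hx (ym_range x y' w)),
              e0_of_range hx (ym_range x y' _)]
          rw [h3] at h2
          have h5 := Submodule.add_mem _ h2 (hZy y' hy' _ (hW y hy w hw))
          rwa [sub_add_cancel] at h5
        have e2 : yp x y (ym x y' w) ∈ W := by
          have hb := hbr _ (yp_mem hx hbr hxm hy) _ (ym_mem hx hbr hxm hy')
          have h2 := hW _ hb w hw
          have h3 : y0 x (yp x y * ym x y' - ym x y' * yp x y) w = yp x y (ym x y' w) := by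
            have h4 : ∀ A : Module.End K V, y0 x A w = Pool.Agent.Y126.OT.e1 x (A w) := by
              intro A
              unfold y0
              rw [LinearMap.add_apply, Module.End.mul_apply, Module.End.mul_apply,
                Module.End.mul_apply (e0 x * A), e0_of_range1 hx hwr, map_zero, add_zero,
                e1_of_range hx hwr]
            rw [h4, LinearMap.sub_apply, Module.End.mul_apply, Module.End.mul_apply,
              yp_of_range hx hwr, map_zero, sub_zero, e1_of_range hx (yp_range x y _)]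
          rwa [h3] at h2
        rw [y_apply x y, ym_of_range0 hx (ym_range x y' w), add_zero, add_comm]
        exact Submodule.add_mem_sup e2 e1
      · rw [map_zero]
        exact Submodule.zero_mem _
      · intro a b _ _ ha hb
        rw [map_add]
        exact Submodule.add_mem _ ha hb
      · intro c a _ ha
        rw [map_smul]
        exact Submodule.smul_mem _ _ ha
  rcases hirr _ hst with h | h
  · left
    rw [eq_bot_iff, ← h]
    exact le_sup_left
  · right
    apply le_antisymm hW1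
    intro v hv
    have h2 : v ∈ W ⊔ Z := by rw [h]; trivial
    obtain ⟨w, hw, z, hz, rfl⟩ := Submodule.mem_sup.1 h2
    have h3 : z = 0 := by
      apply range_inf hx _ (hZ0 hz)
      have h4 := Submodule.sub_mem _ hv (hW1 hw)
      rwa [add_sub_cancel_left] at h4
    rw [h3, add_zero]
    exact hw

include hbr hirr hx hxm in
theorem irr_minus (W : Submodule K V) (hW0 : W ≤ LinearMap.range (e0 x))
    (hW : ∀ y ∈ 𝔥, ∀ w ∈ W, y0 x y w ∈ W) : W = ⊥ ∨ W = LinearMap.range (e0 x) := by
  rw [← neg_e1]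
  refine irr_plus hbr hirr (neg_sq hx) (𝔥.neg_mem hxm) W (by rwa [neg_e1]) fun y hy w hw => ?_
  have h : y0 (-x) y = y0 x y := by
    unfold y0
    rw [neg_e1, neg_e0, add_comm]
  rw [h]
  exact hW y hy w hw

end irr

end

end Pool.Agent.R930
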