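import Mathlib
import Pool.Agent.R930.Grade
import Pool.Agent.W363.OT.Cart

/-!
# Two eigenvalues of coprime multiplicities

An irreducible Lie algebra of operators with nondegenerate trace form which contains an element
with two eigenvalues of coprime multiplicities contains a square-zero element of rank one.  The
classification of simple Lie algebras is not used.
-/

set_option linter.unusedSectionVars false

namespace Pool.Agent.R930

open Module Pool.Agent.W528.Odd Pool.Agent.Y126.OT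

noncomputable section

section form

variable {K : Type} [Field K] [CharZero K] [IsAlgClosed K] {V : Type} [AddCommGroup V] [Module K V]
  [FiniteDimensional K V] {G : Type} [Group G] (r : Representation K G V)
  {𝔥 : Submodule K (Module.End K V)}

/-- The trace form is nondegenerate. -/
theorem trace_nondeg (hirr : SIrr r) (hbr : ∀ X ∈ 𝔥, ∀ Y ∈ 𝔥, X * Y - Y * X ∈ 𝔥)
    (hconj : ∀ g, ∀ X ∈ 𝔥, r g * X * r g⁻¹ ∈ 𝔥) (z : Module.End K V) (hz : z ∈ 𝔥)
    (h : ∀ y ∈ 𝔥, LinearMap.trace K V (z * y) = 0) : z = 0 := by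
  have hinv : ∀ g : G, r g⁻¹ * r g = 1 := fun g => by rw [← map_mul, inv_mul_cancel, map_one]
  have hinv' : ∀ g : G, r g * r g⁻¹ = 1 := fun g => by rw [← map_mul, mul_inv_cancel, map_one]
  have hrad : ∀ z : Module.End K V, (∀ y ∈ 𝔥, LinearMap.trace K V (z * y) = 0) →
      ∀ g y, y ∈ 𝔥 → LinearMap.trace K V (r g * z * r g⁻¹ * y) = 0 := by
    intro z hz g y hy
    have h1 := hconj g⁻¹ y hy
    rw [inv_inv] at h1
    have h2 := hz _ h1
    have h3 : LinearMap.trace K V (r g * z * r g⁻¹ * y) =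
        LinearMap.trace K V (z * (r g⁻¹ * y * r g)) := by
      rw [mul_assoc, mul_assoc, LinearMap.trace_mul_comm, mul_assoc]
    rw [h3, h2]
  let 𝔞 : Submodule K (Module.End K V) :=
    { carrier := {z | z ∈ 𝔥 ∧ (∀ y ∈ 𝔥, LinearMap.trace K V (z * y) = 0) ∧
        LinearMap.trace K V z = 0}
      zero_mem' := ⟨𝔥.zero_mem, fun y _ => by rw [zero_mul, map_zero], map_zero _⟩
      add_mem' := fun {a b} ha hb => ⟨𝔥.add_mem ha.1 hb.1, fun y hy => by
        rw [add_mul, map_add, ha.2.1 y hy, hb.2.1 y hy, add_zero], by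
        rw [map_add, ha.2.2, hb.2.2, add_zero]⟩
      smul_mem' := fun c a ha => ⟨𝔥.smul_mem c ha.1, fun y hy => by
        rw [smul_mul_assoc, map_smul, ha.2.1 y hy, smul_zero], by
        rw [map_smul, ha.2.2, smul_zero]⟩ }
  have hbrt : ∀ a b : Module.End K V, LinearMap.trace K V (a * b - b * a) = 0 := by
    intro a b
    rw [map_sub, LinearMap.trace_mul_comm, sub_self]
  have hbra : ∀ a ∈ 𝔥, (∀ y ∈ 𝔥, LinearMap.trace K V (a * y) = 0) → ∀ b ∈ 𝔥,
      a * b - b * a ∈ 𝔞 := by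
    intro a ha h1 b hb
    refine ⟨hbr a ha b hb, fun y hy => ?_, hbrt a b⟩
    have h2 := h1 _ (hbr b hb y hy)
    have h3 : LinearMap.trace K V ((a * b - b * a) * y) =
        LinearMap.trace K V (a * (b * y - y * b)) := by
      have e1 : (a * b - b * a) * y = a * b * y - b * (a * y) := by noncomm_ring
      have e2 : a * (b * y - y * b) = a * b * y - (a * y) * b := by noncomm_ring
      rw [e1, e2, map_sub, map_sub, LinearMap.trace_mul_comm K b (a * y)]
    rw [h3, h2]
  have hbot : 𝔞 = ⊥ := by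
    refine Pool.Agent.W363.OT.Cart.main K V G r hirr 𝔞 ?_ ?_ (fun x hx => hx.2.2) ?_
    · intro a ha b hb
      exact hbra a ha.1 ha.2.1 b hb.1
    · intro g a ha
      refine ⟨hconj g a ha.1, fun y hy => hrad a ha.2.1 g y hy, ?_⟩
      rw [LinearMap.trace_mul_comm, ← mul_assoc, hinv, one_mul]
      exact ha.2.2
    · intro a ha b hb
      exact ha.2.1 b hb.1
  by_cases h0 : LinearMap.trace K V z = 0
  · have h1 : z ∈ 𝔞 := ⟨hz, h, h0⟩
    rwa [hbot, Submodule.mem_bot] at h1
  · exfalso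
    have hcomm : ∀ g, r g * z = z * r g := by
      intro g
      have h1 : r g * z * r g⁻¹ - z ∈ 𝔞 := by
        refine ⟨𝔥.sub_mem (hconj g z hz) hz, fun y hy => ?_, ?_⟩
        · rw [sub_mul, map_sub, hrad z h g y hy, h y hy, sub_zero]
        · rw [map_sub, LinearMap.trace_mul_comm, ← mul_assoc, hinv, one_mul, sub_self]
      rw [hbot, Submodule.mem_bot, sub_eq_zero] at h1
      calc r g * z = r g * z * r g⁻¹ * r g := by rw [mul_assoc _ (r g⁻¹), hinv, mul_one]
      _ = z * r g := by rw [h1]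
    have hnt : Nontrivial V := by
      by_contra hcon
      rw [not_nontrivial_iff_subsingleton] at hcon
      apply h0
      have h1 : z = 0 := LinearMap.ext fun v => Subsingleton.elim _ _
      rw [h1, map_zero]
    obtain ⟨c, hc⟩ := Module.End.exists_eigenvalue z
    have h1 := hirr ⊤ inferInstance (Module.End.eigenspace z c) (by
      intro g _ u hu
      rw [Module.End.mem_eigenspace_iff] at hu ⊢
      have h2 := congrArg (fun f : Module.End K V => f u) (hcomm g)
      have h3 : r g (z u) = z (r g u) := h2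
      rw [← h3, hu, map_smul])
    rcases h1 with h1 | h1
    · exact hc h1
    · have h2 : z = c • 1 := by
        refine LinearMap.ext fun v => ?_
        have h3 : v ∈ Module.End.eigenspace z c := by rw [h1]; trivial
        rw [Module.End.mem_eigenspace_iff] at h3
        rw [h3]
        rfl
      have h3 := h z hz
      have h4 : z * z = c • z := by
        nth_rewrite 1 [h2]
        rw [smul_mul_assoc, one_mul]
      rw [h4, map_smul, smul_eq_mul] at h3
      rcases mul_eq_zero.1 h3 with h5 | h5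
      · apply h0
        rw [h2, h5, zero_smul, map_zero]
      · exact h0 h5

end form

section cas

variable {K : Type} [Field K] [CharZero K] [IsAlgClosed K] {V : Type} [AddCommGroup V] [Module K V]
  [FiniteDimensional K V]
  {𝔥 : Submodule K (Module.End K V)} (hbr : ∀ X ∈ 𝔥, ∀ Y ∈ 𝔥, X * Y - Y * X ∈ 𝔥)
  (hirr : ∀ W : Submodule K V, (∀ Y ∈ 𝔥, ∀ u ∈ W, Y u ∈ W) → W = ⊥ ∨ W = ⊤)
  (hnd : ∀ z ∈ 𝔥, (∀ y ∈ 𝔥, LinearMap.trace K V (z * y) = 0) → z = 0)
  {x : Module.End K V} (hx : x * x = (1 / 4 : K) • 1) (hxm : x ∈ 𝔥)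

/-- The part of degree one. -/
def Wp (𝔥 : Submodule K (Module.End K V)) (x : Module.End K V) :
    Submodule K (Module.End K V) where
  carrier := {z | z ∈ 𝔥 ∧ yp x z = z}
  zero_mem' := ⟨𝔥.zero_mem, by unfold yp; rw [mul_zero, zero_mul]⟩
  add_mem' := fun {a b} ha hb => ⟨𝔥.add_mem ha.1 hb.1, by
    have h1 := ha.2
    have h2 := hb.2
    unfold yp at h1 h2 ⊢
    rw [mul_add, add_mul, h1, h2]⟩
  smul_mem' := fun c a ha => ⟨𝔥.smul_mem c ha.1, by
    have h1 := ha.2
    unfold yp at h1 ⊢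
    rw [mul_smul_comm, smul_mul_assoc, h1]⟩

/-- The part of degree minus one. -/
def Wm (𝔥 : Submodule K (Module.End K V)) (x : Module.End K V) :
    Submodule K (Module.End K V) where
  carrier := {z | z ∈ 𝔥 ∧ ym x z = z}
  zero_mem' := ⟨𝔥.zero_mem, by unfold ym; rw [mul_zero, zero_mul]⟩
  add_mem' := fun {a b} ha hb => ⟨𝔥.add_mem ha.1 hb.1, by
    have h1 := ha.2
    have h2 := hb.2
    unfold ym at h1 h2 ⊢
    rw [mul_add, add_mul, h1, h2]⟩
  smul_mem' := fun c a ha => ⟨𝔥.smul_mem c ha.1, by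
    have h1 := ha.2
    unfold ym at h1 ⊢
    rw [mul_smul_comm, smul_mul_assoc, h1]⟩

section rels

include hx

theorem Wp_e1 {z : Module.End K V} (hz : z ∈ Wp 𝔥 x) : e1 x * z = z := by
  have h := hz.2
  unfold yp at h
  calc e1 x * z = e1 x * (e1 x * z * e0 x) := by rw [h]
  _ = (e1 x * e1 x) * z * e0 x := by noncomm_ring
  _ = z := by rw [e1_mul_e1 hx, h]

theorem Wp_e0 {z : Module.End K V} (hz : z ∈ Wp 𝔥 x) : z * e0 x = z := by
  have h := hz.2
  unfold yp at h
  calc z * e0 x = (e1 x * z * e0 x) * e0 x := by rw [h]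
  _ = e1 x * z * (e0 x * e0 x) := by noncomm_ring
  _ = z := by rw [e0_mul_e0 hx, h]

theorem Wm_e0 {z : Module.End K V} (hz : z ∈ Wm 𝔥 x) : e0 x * z = z := by
  have h := hz.2
  unfold ym at h
  calc e0 x * z = e0 x * (e0 x * z * e1 x) := by rw [h]
  _ = (e0 x * e0 x) * z * e1 x := by noncomm_ring
  _ = z := by rw [e0_mul_e0 hx, h]

theorem Wm_e1 {z : Module.End K V} (hz : z ∈ Wm 𝔥 x) : z * e1 x = z := by
  have h := hz.2
  unfold ym at h
  calc z * e1 x = (e0 x * z * e1 x) * e1 x := by rw [h]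
  _ = e0 x * z * (e1 x * e1 x) := by noncomm_ring
  _ = z := by rw [e1_mul_e1 hx, h]

theorem Wp_mul {z z' : Module.End K V} (hz : z ∈ Wp 𝔥 x) (hz' : z' ∈ Wp 𝔥 x) : z * z' = 0 := by
  calc z * z' = (z * e0 x) * (e1 x * z') := by rw [Wp_e0 hx hz, Wp_e1 hx hz']
  _ = z * (e0 x * e1 x) * z' := by noncomm_ring
  _ = 0 := by rw [e0_mul_e1 hx, mul_zero, zero_mul]

theorem Wm_mul {z z' : Module.End K V} (hz : z ∈ Wm 𝔥 x) (hz' : z' ∈ Wm 𝔥 x) : z * z' = 0 := by
  calc z * z' = (z * e1 x) * (e0 x * z') := by rw [Wm_e1 hx hz, Wm_e0 hx hz']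
  _ = z * (e1 x * e0 x) * z' := by noncomm_ring
  _ = 0 := by rw [e1_mul_e0 hx, mul_zero, zero_mul]

theorem Wp_of {z : Module.End K V} (hz : z ∈ 𝔥) (h1 : e1 x * z = z) (h0 : z * e0 x = z) :
    z ∈ Wp 𝔥 x := ⟨hz, by unfold yp; rw [h1, h0]⟩

theorem Wm_of {z : Module.End K V} (hz : z ∈ 𝔥) (h1 : e0 x * z = z) (h0 : z * e1 x = z) :
    z ∈ Wm 𝔥 x := ⟨hz, by unfold ym; rw [h1, h0]⟩

include hbr in
/-- The triple product. -/
theorem tri_p {z y z' : Module.End K V} (hz : z ∈ Wp 𝔥 x) (hy : y ∈ Wm 𝔥 x)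
    (hz' : z' ∈ Wp 𝔥 x) : z * y * z' + z' * y * z ∈ Wp 𝔥 x := by
  have h1 := hbr _ (hbr _ hz.1 _ hy.1) _ hz'.1
  have h2 : (z * y - y * z) * z' - z' * (z * y - y * z) =
      z * y * z' + z' * y * z - (y * (z * z') + (z' * z) * y) := by noncomm_ring
  rw [h2, Wp_mul hx hz hz', Wp_mul hx hz' hz, mul_zero, zero_mul, add_zero, sub_zero] at h1
  refine Wp_of hx h1 ?_ ?_
  · rw [mul_add, ← mul_assoc, ← mul_assoc, ← mul_assoc, ← mul_assoc, Wp_e1 hx hz, Wp_e1 hx hz']
  · rw [add_mul, mul_assoc _ z', mul_assoc _ z, Wp_e0 hx hz, Wp_e0 hx hz']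

include hbr in
theorem tri_m {z y z' : Module.End K V} (hz : z ∈ Wm 𝔥 x) (hy : y ∈ Wp 𝔥 x)
    (hz' : z' ∈ Wm 𝔥 x) : z * y * z' + z' * y * z ∈ Wm 𝔥 x := by
  have h1 := hbr _ (hbr _ hz.1 _ hy.1) _ hz'.1
  have h2 : (z * y - y * z) * z' - z' * (z * y - y * z) =
      z * y * z' + z' * y * z - (y * (z * z') + (z' * z) * y) := by noncomm_ring
  rw [h2, Wm_mul hx hz hz', Wm_mul hx hz' hz, mul_zero, zero_mul, add_zero, sub_zero] at h1
  refine Wm_of hx h1 ?_ ?_
  · rw [mul_add, ← mul_assoc, ← mul_assoc, ← mul_assoc, ← mul_assoc, Wm_e0 hx hz, Wm_e0 hx hz']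
  · rw [add_mul, mul_assoc _ z', mul_assoc _ z, Wm_e1 hx hz, Wm_e1 hx hz']

include hbr in
theorem eye_p {z y : Module.End K V} (hz : z ∈ Wp 𝔥 x) (hy : y ∈ Wm 𝔥 x) :
    z * y * z ∈ Wp 𝔥 x := by
  have h := (Wp 𝔥 x).smul_mem (1 / 2 : K) (tri_p hbr hx hz hy hz)
  rw [← two_smul K, smul_smul] at h
  norm_num at h
  exact h

include hbr in
theorem eye_m {z y : Module.End K V} (hz : z ∈ Wm 𝔥 x) (hy : y ∈ Wp 𝔥 x) :
    z * y * z ∈ Wm 𝔥 x := by
  have h := (Wm 𝔥 x).smul_mem (1 / 2 : K) (tri_m hbr hx hz hy hz)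
  rw [← two_smul K, smul_smul] at h
  norm_num at h
  exact h

end rels

section nd

include hbr hnd hx hxm

theorem nd_p {z : Module.End K V} (hz : z ∈ Wp 𝔥 x)
    (h : ∀ y ∈ Wm 𝔥 x, LinearMap.trace K V (z * y) = 0) : z = 0 := by
  refine hnd z hz.1 fun y hy => ?_
  have h1 : ym x y ∈ Wm 𝔥 x := ⟨ym_mem hx hbr hxm hy, ym_ym hx y⟩
  have h2 := h _ h1
  have h3 : LinearMap.trace K V (z * ym x y) = LinearMap.trace K V (z * y) := by
    unfold ym
    have e1' : z * (e0 x * y * e1 x) = (z * e0 x * y) * e1 x := by noncomm_ring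
    rw [e1', Wp_e0 hx hz, LinearMap.trace_mul_comm, ← mul_assoc, Wp_e1 hx hz]
  rw [← h3, h2]

theorem nd_m {y : Module.End K V} (hy : y ∈ Wm 𝔥 x)
    (h : ∀ z ∈ Wp 𝔥 x, LinearMap.trace K V (z * y) = 0) : y = 0 := by
  refine hnd y hy.1 fun z hz => ?_
  have h1 : yp x z ∈ Wp 𝔥 x := ⟨yp_mem hx hbr hxm hz, yp_yp hx z⟩
  have h2 := h _ h1
  have h3 : LinearMap.trace K V (yp x z * y) = LinearMap.trace K V (y * z) := by
    unfold yp
    have e1' : e1 x * z * e0 x * y = (e1 x * z) * (e0 x * y) := by noncomm_ring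
    rw [e1', Wm_e0 hx hy, LinearMap.trace_mul_comm, ← mul_assoc, Wm_e1 hx hy]
  rw [← h3, h2]

/-- Dual families. -/
theorem exists_dual : ∃ (b : Basis (Fin (finrank K (Wp 𝔥 x))) K (Wp 𝔥 x))
    (y : Fin (finrank K (Wp 𝔥 x)) → Module.End K V), (∀ i, y i ∈ Wm 𝔥 x) ∧
    (∀ i j, LinearMap.trace K V ((b i : Module.End K V) * y j) = if i = j then 1 else 0) ∧
    (∀ z ∈ Wp 𝔥 x, z = ∑ i, LinearMap.trace K V (z * y i) • (b i : Module.End K V)) ∧
    (∀ w ∈ Wm 𝔥 x, w = ∑ i, LinearMap.trace K V ((b i : Module.End K V) * w) • y i) := by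
  classical
  let b : Basis (Fin (finrank K (Wp 𝔥 x))) K (Wp 𝔥 x) := Module.finBasis K (Wp 𝔥 x)
  let Φ : Wm 𝔥 x →ₗ[K] Dual K (Wp 𝔥 x) :=
    { toFun := fun w =>
        { toFun := fun z => LinearMap.trace K V ((z : Module.End K V) * (w : Module.End K V))
          map_add' := fun a c => by
            change LinearMap.trace K V (((a : Module.End K V) + c) * w) = _
            rw [add_mul, map_add]
          map_smul' := fun c a => by
            change LinearMap.trace K V ((c • (a : Module.End K V)) * w) = _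
            rw [smul_mul_assoc, map_smul]
            rfl }
      map_add' := fun a c => by
        refine LinearMap.ext fun z => ?_
        change LinearMap.trace K V ((z : Module.End K V) * ((a : Module.End K V) + c)) = _
        rw [mul_add, map_add]
        rfl
      map_smul' := fun c a => by
        refine LinearMap.ext fun z => ?_
        change LinearMap.trace K V ((z : Module.End K V) * (c • (a : Module.End K V))) = _
        rw [mul_smul_comm, map_smul]
        rfl }
  have hΦ : ∀ (w : Wm 𝔥 x) (z : Wp 𝔥 x), Φ w z =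
      LinearMap.trace K V ((z : Module.End K V) * (w : Module.End K V)) := fun w z => rfl
  have hsurj : LinearMap.range Φ = ⊤ := by
    have h1 : (LinearMap.range Φ).dualCoannihilator = ⊥ := by
      rw [eq_bot_iff]
      intro z hz
      rw [Submodule.mem_dualCoannihilator] at hz
      rw [Submodule.mem_bot]
      apply Subtype.ext
      refine nd_p hbr hnd hx hxm z.2 fun y hy => ?_
      exact hz (Φ ⟨y, hy⟩) ⟨_, rfl⟩
    have h2 := Subspace.dualCoannihilator_dualAnnihilator_eq (W := LinearMap.range Φ)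
    rw [← h2, h1, Submodule.dualAnnihilator_bot]
  have hex : ∀ j, ∃ w : Wm 𝔥 x, Φ w = b.coord j := by
    intro j
    have h1 : b.coord j ∈ LinearMap.range Φ := by rw [hsurj]; trivial
    exact h1
  choose w hw using hex
  have hwb : ∀ i j, LinearMap.trace K V ((b i : Module.End K V) * (w j : Module.End K V)) =
      if i = j then 1 else 0 := by
    intro i j
    rw [← hΦ, hw, Basis.coord_apply, Basis.repr_self, Finsupp.single_apply]
  refine ⟨b, fun j => w j, fun j => (w j).2, hwb, ?_, ?_⟩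
  · intro z hz
    have h1 := congrArg Subtype.val (b.sum_repr ⟨z, hz⟩)
    rw [Submodule.coe_sum] at h1
    conv_lhs => rw [show z = ((⟨z, hz⟩ : Wp 𝔥 x) : Module.End K V) from rfl, ← h1]
    refine Finset.sum_congr rfl fun i _ => ?_
    rw [Submodule.coe_smul]
    congr 1
    have h2 := hΦ (w i) ⟨z, hz⟩
    rw [hw, Basis.coord_apply] at h2
    exact h2
  · intro y hy
    rw [← sub_eq_zero]
    have hsum : ∑ i, LinearMap.trace K V ((b i : Module.End K V) * y) • (w i : Module.End K V) ∈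
        Wm 𝔥 x := Submodule.sum_mem _ fun i _ => Submodule.smul_mem _ _ (w i).2
    refine nd_m hbr hnd hx hxm (Submodule.sub_mem _ hy hsum) fun z hz => ?_
    have h1 : ∀ j, LinearMap.trace K V ((b j : Module.End K V) * (y - ∑ i,
        LinearMap.trace K V ((b i : Module.End K V) * y) • (w i : Module.End K V))) = 0 := by
      intro j
      rw [mul_sub, map_sub, Finset.mul_sum, map_sum]
      have h2 : ∀ i, LinearMap.trace K V ((b j : Module.End K V) *
          (LinearMap.trace K V ((b i : Module.End K V) * y) • (w i : Module.End K V))) =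
          LinearMap.trace K V ((b i : Module.End K V) * y) * (if j = i then 1 else 0) := by
        intro i
        rw [mul_smul_comm, map_smul, hwb, smul_eq_mul]
      rw [Finset.sum_congr rfl fun i _ => h2 i]
      simp
    obtain ⟨z', hz'⟩ : ∃ z' : Wp 𝔥 x, z' = ⟨z, hz⟩ := ⟨_, rfl⟩
    have h3 := congrArg Subtype.val (b.sum_repr z')
    rw [Submodule.coe_sum, hz'] at h3
    change _ = z at h3
    rw [← h3, Finset.sum_mul, map_sum]
    refine Finset.sum_eq_zero fun j _ => ?_
    rw [Submodule.coe_smul, smul_mul_assoc, map_smul, h1, smul_zero]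

end nd

section zero

include hx

theorem y0_comm1 (y : Module.End K V) : e1 x * y0 x y = y0 x y * e1 x := by
  unfold y0
  calc e1 x * (e1 x * y * e1 x + e0 x * y * e0 x) =
      (e1 x * e1 x) * y * e1 x + (e1 x * e0 x) * y * e0 x := by noncomm_ring
  _ = e1 x * y * (e1 x * e1 x) + e0 x * y * (e0 x * e1 x) := by
    rw [e1_mul_e1 hx, e1_mul_e0 hx, e0_mul_e1 hx, zero_mul, zero_mul, mul_zero]
  _ = _ := by noncomm_ring

theorem y0_comm0 (y : Module.End K V) : e0 x * y0 x y = y0 x y * e0 x := by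
  unfold y0
  calc e0 x * (e1 x * y * e1 x + e0 x * y * e0 x) =
      (e0 x * e1 x) * y * e1 x + (e0 x * e0 x) * y * e0 x := by noncomm_ring
  _ = e1 x * y * (e1 x * e0 x) + e0 x * y * (e0 x * e0 x) := by
    rw [e0_mul_e0 hx, e1_mul_e0 hx, e0_mul_e1 hx, zero_mul, zero_mul, mul_zero]
  _ = _ := by noncomm_ring

include hbr

theorem y0_Wp {u z : Module.End K V} (hu : u ∈ 𝔥) (hu1 : e1 x * u = u * e1 x)
    (hu0 : e0 x * u = u * e0 x) (hz : z ∈ Wp 𝔥 x) : u * z - z * u ∈ Wp 𝔥 x := by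
  refine Wp_of hx (hbr _ hu _ hz.1) ?_ ?_
  · rw [mul_sub, ← mul_assoc, ← mul_assoc, hu1, mul_assoc, Wp_e1 hx hz]
  · rw [sub_mul, mul_assoc, mul_assoc z u, ← hu0, ← mul_assoc z, Wp_e0 hx hz]

theorem y0_Wm {u z : Module.End K V} (hu : u ∈ 𝔥) (hu1 : e1 x * u = u * e1 x)
    (hu0 : e0 x * u = u * e0 x) (hz : z ∈ Wm 𝔥 x) : u * z - z * u ∈ Wm 𝔥 x := by
  refine Wm_of hx (hbr _ hu _ hz.1) ?_ ?_
  · rw [mul_sub, ← mul_assoc, ← mul_assoc, hu0, mul_assoc, Wm_e0 hx hz]
  · rw [sub_mul, mul_assoc, mul_assoc z u, ← hu1, ← mul_assoc z, Wm_e1 hx hz]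

end zero

section sums

variable {ι : Type} [Fintype ι] {b y : ι → Module.End K V}
  (hb : ∀ i, b i ∈ Wp 𝔥 x) (hy : ∀ i, y i ∈ Wm 𝔥 x)
  (hzb : ∀ z ∈ Wp 𝔥 x, z = ∑ i, LinearMap.trace K V (z * y i) • b i)
  (hwb : ∀ w ∈ Wm 𝔥 x, w = ∑ i, LinearMap.trace K V (b i * w) • y i)

include hb hy hzb hwb in
theorem cas_comm {u : Module.End K V} (hup : ∀ z ∈ Wp 𝔥 x, u * z - z * u ∈ Wp 𝔥 x)
    (hum : ∀ z ∈ Wm 𝔥 x, u * z - z * u ∈ Wm 𝔥 x) :
    u * (∑ i, b i * y i) = (∑ i, b i * y i) * u ∧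
      u * (∑ i, y i * b i) = (∑ i, y i * b i) * u := by
  have htr : ∀ i j, LinearMap.trace K V (b i * (u * y j - y j * u)) =
      -LinearMap.trace K V ((u * b i - b i * u) * y j) := by
    intro i j
    have h1 : b i * (u * y j - y j * u) = b i * u * y j - (b i * y j) * u := by noncomm_ring
    have h2 : (u * b i - b i * u) * y j = u * (b i * y j) - b i * u * y j := by noncomm_ring
    rw [h1, h2, map_sub, map_sub, LinearMap.trace_mul_comm K u]
    ring
  have h1 : ∀ i, u * b i - b i * u = ∑ j, LinearMap.trace K V ((u * b i - b i * u) * y j) • b j :=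
    fun i => hzb _ (hup _ (hb i))
  have h2 : ∀ i, u * y i - y i * u = ∑ j, -LinearMap.trace K V ((u * b j - b j * u) * y i) • y j := by
    intro i
    have h3 := hwb _ (hum _ (hy i))
    rw [h3]
    exact Finset.sum_congr rfl fun j _ => by rw [htr]
  constructor
  · rw [← sub_eq_zero, Finset.mul_sum, Finset.sum_mul, ← Finset.sum_sub_distrib]
    have h3 : ∀ i, u * (b i * y i) - b i * y i * u =
        (u * b i - b i * u) * y i + b i * (u * y i - y i * u) := by
      intro i
      noncomm_ring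
    rw [Finset.sum_congr rfl fun i _ => h3 i, Finset.sum_add_distrib]
    have h4 : ∑ i, (u * b i - b i * u) * y i =
        ∑ i, ∑ j, LinearMap.trace K V ((u * b i - b i * u) * y j) • (b j * y i) := by
      refine Finset.sum_congr rfl fun i _ => ?_
      conv_lhs => rw [h1 i]
      rw [Finset.sum_mul]
      exact Finset.sum_congr rfl fun j _ => by rw [smul_mul_assoc]
    have h5 : ∑ i, b i * (u * y i - y i * u) =
        -∑ i, ∑ j, LinearMap.trace K V ((u * b j - b j * u) * y i) • (b i * y j) := by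
      rw [← Finset.sum_neg_distrib]
      refine Finset.sum_congr rfl fun i _ => ?_
      conv_lhs => rw [h2 i]
      rw [Finset.mul_sum, ← Finset.sum_neg_distrib]
      exact Finset.sum_congr rfl fun j _ => by rw [mul_smul_comm, neg_smul]
    rw [h4, h5, Finset.sum_comm, add_neg_eq_zero]
  · rw [← sub_eq_zero, Finset.mul_sum, Finset.sum_mul, ← Finset.sum_sub_distrib]
    have h3 : ∀ i, u * (y i * b i) - y i * b i * u =
        (u * y i - y i * u) * b i + y i * (u * b i - b i * u) := by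
      intro i
      noncomm_ring
    rw [Finset.sum_congr rfl fun i _ => h3 i, Finset.sum_add_distrib]
    have h4 : ∑ i, y i * (u * b i - b i * u) =
        ∑ i, ∑ j, LinearMap.trace K V ((u * b i - b i * u) * y j) • (y i * b j) := by
      refine Finset.sum_congr rfl fun i _ => ?_
      conv_lhs => rw [h1 i]
      rw [Finset.mul_sum]
      exact Finset.sum_congr rfl fun j _ => by rw [mul_smul_comm]
    have h5 : ∑ i, (u * y i - y i * u) * b i =
        -∑ i, ∑ j, LinearMap.trace K V ((u * b j - b j * u) * y i) • (y j * b i) := by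
      rw [← Finset.sum_neg_distrib]
      refine Finset.sum_congr rfl fun i _ => ?_
      conv_lhs => rw [h2 i]
      rw [Finset.sum_mul, ← Finset.sum_neg_distrib]
      exact Finset.sum_congr rfl fun j _ => by rw [smul_mul_assoc, neg_smul]
    rw [h4, h5, Finset.sum_comm, neg_add_eq_zero]

end sums

/-- Schur's lemma. -/
theorem schur_plus (hbr : ∀ X ∈ 𝔥, ∀ Y ∈ 𝔥, X * Y - Y * X ∈ 𝔥)
    (hirr : ∀ W : Submodule K V, (∀ Y ∈ 𝔥, ∀ u ∈ W, Y u ∈ W) → W = ⊥ ∨ W = ⊤)
    (hx : x * x = (1 / 4 : K) • 1) (hxm : x ∈ 𝔥) (hn1 : e1 x ≠ 0) {C : Module.End K V}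
    (h1 : e1 x * C = C) (h2 : C * e1 x = C) (hC : ∀ y ∈ 𝔥, y0 x y * C = C * y0 x y) :
    ∃ c : K, C = c • e1 x := by
  have hst : ∀ v ∈ LinearMap.range (e1 x), C v ∈ LinearMap.range (e1 x) := by
    intro v _
    rw [← h1]
    exact ⟨C v, rfl⟩
  have hnt : Nontrivial (LinearMap.range (e1 x)) := by
    rw [Submodule.nontrivial_iff_ne_bot, ne_eq, LinearMap.range_eq_bot]
    exact hn1
  obtain ⟨c, hc⟩ := Module.End.exists_eigenvalue (C.restrict hst)
  obtain ⟨⟨w, hw⟩, hw1⟩ := hc.exists_hasEigenvector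
  have hw2 : C w = c • w := congrArg Subtype.val hw1.apply_eq_smul
  have hw0 : w ≠ 0 := fun h => hw1.2 (Subtype.ext h)
  let W : Submodule K V := LinearMap.range (e1 x) ⊓ Module.End.eigenspace C c
  have hmem : ∀ v, v ∈ W ↔ v ∈ LinearMap.range (e1 x) ∧ C v = c • v := by
    intro v
    rw [Submodule.mem_inf, Module.End.mem_eigenspace_iff]
  rcases irr_plus hbr hirr hx hxm W inf_le_left (by
    intro y hy v hv
    rw [hmem] at hv ⊢
    refine ⟨y0_range hx hv.1, ?_⟩
    have h3 := congrArg (fun f : Module.End K V => f v) (hC y hy)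
    have h4 : y0 x y (C v) = C (y0 x y v) := h3
    rw [← h4, hv.2, map_smul]) with h | h
  · exfalso
    have h3 : w ∈ W := (hmem w).2 ⟨hw, hw2⟩
    rw [h, Submodule.mem_bot] at h3
    exact hw0 h3
  · refine ⟨c, LinearMap.ext fun v => ?_⟩
    have h3 : e1 x v ∈ W := by rw [h]; exact ⟨v, rfl⟩
    have h4 := ((hmem _).1 h3).2
    rw [LinearMap.smul_apply, ← h4]
    conv_lhs => rw [← h2]
    rfl

theorem trace_range {p : Module.End K V} (hp : p * p = p) :
    LinearMap.trace K V p = finrank K (LinearMap.range p) :=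
  (LinearMap.IsIdempotentElem.isProj_range p hp).trace

include hbr hirr hnd hx hxm in
/-- The Casimir elements. -/
theorem exists_cas (hn1 : e1 x ≠ 0) (hn0 : e0 x ≠ 0) (p q : Module.End K V)
    (T : Wp 𝔥 x →ₗ[K] Wp 𝔥 x)
    (hp : p * e1 x = p) (hq : q * e0 x = q)
    (hT : ∀ z : Wp 𝔥 x, ((T z : Wp 𝔥 x) : Module.End K V) = p * z + z * q) :
    (finrank K (LinearMap.range (e1 x)) * finrank K (LinearMap.range (e0 x)) : K) *
      LinearMap.trace K _ T = (finrank K (Wp 𝔥 x) : K) *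
        (finrank K (LinearMap.range (e0 x)) * LinearMap.trace K V p +
          finrank K (LinearMap.range (e1 x)) * LinearMap.trace K V q) := by
  classical
  obtain ⟨b, y, hy, hby, hzb, hwb⟩ := exists_dual hbr hnd hx hxm
  have hbm : ∀ i, ((b i : Wp 𝔥 x) : Module.End K V) ∈ Wp 𝔥 x := fun i => (b i).2
  obtain ⟨C, hC⟩ : ∃ C, C = ∑ i, (b i : Module.End K V) * y i := ⟨_, rfl⟩
  obtain ⟨D, hD⟩ : ∃ D, D = ∑ i, y i * (b i : Module.End K V) := ⟨_, rfl⟩
  have hcomm : ∀ u ∈ 𝔥, y0 x u * C = C * y0 x u ∧ y0 x u * D = D * y0 x u := by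
    intro u hu
    rw [hC, hD]
    exact cas_comm hbm hy hzb hwb
      (fun z hz => y0_Wp hbr hx (y0_mem hx hbr hxm hu) (y0_comm1 hx u) (y0_comm0 hx u) hz)
      (fun z hz => y0_Wm hbr hx (y0_mem hx hbr hxm hu) (y0_comm1 hx u) (y0_comm0 hx u) hz)
  obtain ⟨c, hc⟩ := schur_plus hbr hirr hx hxm hn1 (C := C) (by
    rw [hC, Finset.mul_sum]
    exact Finset.sum_congr rfl fun i _ => by rw [← mul_assoc, Wp_e1 hx (hbm i)]) (by
    rw [hC, Finset.sum_mul]
    exact Finset.sum_congr rfl fun i _ => by rw [mul_assoc, Wm_e1 hx (hy i)])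
    (fun u hu => (hcomm u hu).1)
  obtain ⟨c', hc'⟩ := schur_plus hbr hirr (neg_sq hx) (𝔥.neg_mem hxm) (by rwa [neg_e1])
    (C := D) (by
    rw [hD, Finset.mul_sum, neg_e1]
    exact Finset.sum_congr rfl fun i _ => by rw [← mul_assoc, Wm_e0 hx (hy i)]) (by
    rw [hD, Finset.sum_mul, neg_e1]
    exact Finset.sum_congr rfl fun i _ => by rw [mul_assoc, Wp_e0 hx (hbm i)])
    (fun u hu => by
      have h : y0 (-x) u = y0 x u := by
        unfold y0
        rw [neg_e1, neg_e0, add_comm]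
      rw [h]
      exact (hcomm u hu).2)
  rw [neg_e1] at hc'
  have htrC : LinearMap.trace K V C = finrank K (Wp 𝔥 x) := by
    rw [hC, map_sum, Finset.sum_congr rfl fun i _ => hby i i]
    simp
  have htrD : LinearMap.trace K V D = finrank K (Wp 𝔥 x) := by
    rw [hD, map_sum, Finset.sum_congr rfl fun i _ => (LinearMap.trace_mul_comm K (y i)
      (b i : Module.End K V)).trans (hby i i)]
    simp
  have hca : c * finrank K (LinearMap.range (e1 x)) = finrank K (Wp 𝔥 x) := by
    rw [← htrC, hc, map_smul, trace_range (e1_mul_e1 hx), smul_eq_mul]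
  have hcb : c' * finrank K (LinearMap.range (e0 x)) = finrank K (Wp 𝔥 x) := by
    rw [← htrD, hc', map_smul, trace_range (e0_mul_e0 hx), smul_eq_mul]
  have htrT : LinearMap.trace K _ T = c * LinearMap.trace K V p + c' * LinearMap.trace K V q := by
    rw [LinearMap.trace_eq_matrix_trace K b, Matrix.trace]
    have h1 : ∀ i, (LinearMap.toMatrix b b T).diag i =
        LinearMap.trace K V ((T (b i) : Module.End K V) * y i) := by
      intro i
      rw [Matrix.diag_apply, LinearMap.toMatrix_apply]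
      have h2 := congrArg Subtype.val (b.sum_repr (T (b i)))
      rw [Submodule.coe_sum] at h2
      rw [← h2, Finset.sum_mul, map_sum]
      have h3 : ∀ j, LinearMap.trace K V (((b.repr (T (b i)) j • b j : Wp 𝔥 x) :
          Module.End K V) * y i) = b.repr (T (b i)) j * (if j = i then 1 else 0) := by
        intro j
        rw [Submodule.coe_smul, smul_mul_assoc, map_smul, hby, smul_eq_mul]
      rw [Finset.sum_congr rfl fun j _ => h3 j]
      simp
    rw [Finset.sum_congr rfl fun i _ => h1 i]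
    have h2 : ∀ i, LinearMap.trace K V ((T (b i) : Module.End K V) * y i) =
        LinearMap.trace K V (p * ((b i : Module.End K V) * y i)) +
        LinearMap.trace K V (q * (y i * (b i : Module.End K V))) := by
      intro i
      rw [hT, add_mul, map_add, mul_assoc p, mul_assoc _ q, LinearMap.trace_mul_comm K _ (q * y i),
        mul_assoc q]
    rw [Finset.sum_congr rfl fun i _ => h2 i, Finset.sum_add_distrib, ← map_sum, ← map_sum,
      ← Finset.mul_sum, ← Finset.mul_sum, ← hC, ← hD, hc, hc', mul_smul_comm, mul_smul_comm,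
      map_smul, map_smul, hp, hq, smul_eq_mul, smul_eq_mul]
  rw [htrT]
  linear_combination (finrank K (LinearMap.range (e0 x)) * LinearMap.trace K V p : K) * hca +
    (finrank K (LinearMap.range (e1 x)) * LinearMap.trace K V q : K) * hcb

end cas

end

end Pool.Agent.R930
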