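import Mathlib
import Pool.Agent.R930.Coprime
import Pool.Agent.Y126.Toric.Alt

/-!
# Stable subspaces of operators with nondegenerate trace form are ideals

The projection to a stable space of operators on a self-dual subspace `U` with nondegenerate trace
form gives a Tate form in four variables, so that it commutes with the Lie algebra.
-/

set_option linter.unusedSectionVars false

namespace Pool.Agent.R930

open Module Pool.Agent.H204R3.SP Pool.Agent.H204R3.GP Pool.Agent.W522.U Pool.Agent.W529.Ta
open Pool.Agent.W528.Odd Pool.Agent.Y126.OT Pool.Agent.TH118.CR Pool.Agent.Y126.Toric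

noncomputable section

section quad

variable {K : Type} [Field K] {X : Type} [AddCommGroup X] [Module K X]

/-- A form in four variables. -/
def quad (Ψ : X →ₗ[K] X →ₗ[K] X →ₗ[K] X →ₗ[K] K) :
    MultilinearMap K (fun _ : Fin 2 × Fin 2 => X) K where
  toFun v := Ψ (v (0, 0)) (v (0, 1)) (v (1, 0)) (v (1, 1))
  map_update_add' := by
    intro _ v i x y
    obtain ⟨i, j⟩ := i
    fin_cases i <;> fin_cases j <;> simp [Function.update, Prod.ext_iff]
  map_update_smul' := by
    intro _ v i c x
    obtain ⟨i, j⟩ := i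
    fin_cases i <;> fin_cases j <;> simp [Function.update, Prod.ext_iff]

theorem quad_apply (Ψ : X →ₗ[K] X →ₗ[K] X →ₗ[K] X →ₗ[K] K) (v : Fin 2 × Fin 2 → X) :
    quad Ψ v = Ψ (v (0, 0)) (v (0, 1)) (v (1, 0)) (v (1, 1)) := rfl

theorem quad_kills {Ψ : X →ₗ[K] X →ₗ[K] X →ₗ[K] X →ₗ[K] K} {x : Module.End K X}
    (h : Kills x (quad Ψ)) (a b c d : X) :
    Ψ (x a) b c d + Ψ a (x b) c d + Ψ a b (x c) d + Ψ a b c (x d) = 0 := by
  have h1 := h (fun k => if k = (0, 0) then a else if k = (0, 1) then b else
    if k = (1, 0) then c else d)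
  rw [Fintype.sum_prod_type, Fin.sum_univ_two, Fin.sum_univ_two, Fin.sum_univ_two] at h1
  simp only [quad_apply] at h1
  simp [Function.update, Prod.ext_iff] at h1
  rw [← h1]
  ring

end quad

section proj

variable {K : Type} [Field K] {V : Type} [AddCommGroup V] [Module K V]
  [FiniteDimensional K V] {𝔫 : Submodule K (Module.End K V)}
  (hnd : ∀ z ∈ 𝔫, (∀ y ∈ 𝔫, LinearMap.trace K V (z * y) = 0) → z = 0)

include hnd in
/-- The orthogonal projection. -/
theorem exists_orth : ∃ π : Module.End K V →ₗ[K] Module.End K V, (∀ y, π y ∈ 𝔫) ∧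
    ∀ y, ∀ n ∈ 𝔫, LinearMap.trace K V (π y * n) = LinearMap.trace K V (y * n) := by
  let Φ' : Module.End K V →ₗ[K] Dual K 𝔫 :=
    { toFun := fun y =>
        { toFun := fun n => LinearMap.trace K V (y * (n : Module.End K V))
          map_add' := fun a b => by
            rw [Submodule.coe_add, mul_add, map_add]
          map_smul' := fun c a => by
            rw [Submodule.coe_smul, mul_smul_comm, map_smul]
            rfl }
      map_add' := fun a b => by
        refine LinearMap.ext fun n => ?_
        change LinearMap.trace K V ((a + b) * (n : Module.End K V)) = _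
        rw [add_mul, map_add]
        rfl
      map_smul' := fun c a => by
        refine LinearMap.ext fun n => ?_
        change LinearMap.trace K V ((c • a) * (n : Module.End K V)) = _
        rw [smul_mul_assoc, map_smul]
        rfl }
  have hΦ' : ∀ y (n : 𝔫), Φ' y n = LinearMap.trace K V (y * (n : Module.End K V)) :=
    fun _ _ => rfl
  let Φ : 𝔫 →ₗ[K] Dual K 𝔫 := Φ'.comp 𝔫.subtype
  have hinj : Function.Injective Φ := by
    rw [injective_iff_map_eq_zero]
    intro z hz
    apply Subtype.ext
    refine hnd z z.2 fun y hy => ?_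
    have h1 := congrArg (fun f : Dual K 𝔫 => f ⟨y, hy⟩) hz
    exact h1
  let e : 𝔫 ≃ₗ[K] Dual K 𝔫 := LinearMap.linearEquivOfInjective Φ hinj
    (Subspace.dual_finrank_eq (K := K) (V := 𝔫)).symm
  refine ⟨𝔫.subtype.comp (e.symm.toLinearMap.comp Φ'), fun y => (e.symm (Φ' y)).2,
    fun y n hn => ?_⟩
  have h1 : e (e.symm (Φ' y)) = Φ' y := e.apply_symm_apply _
  have h2 := congrArg (fun f : Dual K 𝔫 => f ⟨n, hn⟩) h1
  exact h2

/-- A linear map on the operators is determined by its values on operators of rank one. -/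
theorem ext_rank_one {M : Type} [AddCommGroup M] [Module K M] {F G : Module.End K V →ₗ[K] M}
    (h : ∀ (φ : Dual K V) (v : V), F (φ.smulRight v) = G (φ.smulRight v)) : F = G := by
  refine LinearMap.ext fun y => ?_
  let b := Module.finBasis K V
  have h1 : y = ∑ i, ((b.coord i).smulRight (y (b i)) : Module.End K V) := by
    refine b.ext fun j => ?_
    rw [LinearMap.sum_apply, Finset.sum_eq_single j]
    · rw [LinearMap.smulRight_apply, Basis.coord_apply, Basis.repr_self, Finsupp.single_eq_same,
        one_smul]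
    · intro i _ hij
      rw [LinearMap.smulRight_apply, Basis.coord_apply, Basis.repr_self,
        Finsupp.single_eq_of_ne hij, zero_smul]
    · intro hj
      exact absurd (Finset.mem_univ _) hj
  rw [h1, map_sum, map_sum]
  exact Finset.sum_congr rfl fun i _ => h _ _

end proj

variable {K : Type} [Field K] [CharZero K] [IsAlgClosed K] {X : Type} [AddCommGroup X] [Module K X]
  [FiniteDimensional K X] {Γ : Type} [Group Γ] {R : Representation K Γ X} {χ : Γ →* K}
  (ω : X →ₗ[K] X →ₗ[K] K) (hnd : ∀ u, (∀ v, ω u v = 0) → u = 0)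
  (hωR : ∀ g u v, ω (R g u) (R g v) = χ g * ω u v) (hss : HasProj R) {U : Submodule K X}
  (hU : SI R U)

include hnd hωR hss hU in
/-- **Stable spaces with nondegenerate trace form are ideals.** -/
theorem ideal_res {Δ : Subgroup Γ} (hΔ : Δ.FiniteIndex) (hUΔ : ∀ g ∈ Δ, ∀ u ∈ U, R g u ∈ U)
    (B : X →ₗ[K] X →ₗ[K] K) (hB0 : ∃ u ∈ U, ∃ v ∈ U, B u v ≠ 0)
    (hB : ∀ g ∈ Δ, ∀ u ∈ U, ∀ v ∈ U, B (R g u) (R g v) = χ g * B u v)
    {𝔫 : Submodule K (Module.End K U)}
    (hconj : ∀ g : Δ, ∀ Y ∈ 𝔫, resR R Δ U hUΔ g * Y * resR R Δ U hUΔ g⁻¹ ∈ 𝔫)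
    (hn𝔫 : ∀ z ∈ 𝔫, (∀ y ∈ 𝔫, LinearMap.trace K U (z * y) = 0) → z = 0)
    {x : Module.End K X} (hx : x ∈ lieT R χ) {xU : Module.End K U}
    (hxU : ∀ u : U, ((xU u : U) : X) = x u) {n : Module.End K U} (hn : n ∈ 𝔫) :
    xU * n - n * xU ∈ 𝔫 := by
  obtain ⟨r, hr⟩ : ∃ r, r = resR R Δ U hUΔ := ⟨_, rfl⟩
  have hrv : ∀ (g : Δ) (u : U), ((r g u : U) : X) = R g.1 u := fun g u => by rw [hr]; rfl
  rw [← hr] at hconj
  have hinv : ∀ g : Δ, r g⁻¹ * r g = 1 := fun g => by rw [← map_mul, inv_mul_cancel, map_one]
  have hinv' : ∀ g : Δ, r g * r g⁻¹ = 1 := fun g => by rw [← map_mul, mul_inv_cancel, map_one]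
  obtain ⟨π, hπ1, hπ2⟩ := exists_orth hn𝔫
  have huniq : ∀ z ∈ 𝔫, ∀ z' ∈ 𝔫, (∀ y ∈ 𝔫, LinearMap.trace K U (z * y) =
      LinearMap.trace K U (z' * y)) → z = z' := by
    intro z hz z' hz' h
    rw [← sub_eq_zero]
    refine hn𝔫 _ (𝔫.sub_mem hz hz') fun y hy => ?_
    rw [sub_mul, map_sub, h y hy, sub_self]
  have hπn : ∀ y ∈ 𝔫, π y = y := fun y hy => huniq _ (hπ1 y) _ hy fun n hn => hπ2 y n hn
  have hπg : ∀ (g : Δ) y, π (r g * y * r g⁻¹) = r g * π y * r g⁻¹ := by
    intro g y
    refine huniq _ (hπ1 _) _ (hconj g _ (hπ1 y)) fun n hn => ?_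
    rw [hπ2 _ n hn]
    have h1 := hconj g⁻¹ n hn
    rw [inv_inv] at h1
    have h2 := hπ2 y _ h1
    have h3 : ∀ z : Module.End K U, LinearMap.trace K U (r g * z * r g⁻¹ * n) =
        LinearMap.trace K U (z * (r g⁻¹ * n * r g)) := by
      intro z
      have e1 : r g * z * r g⁻¹ * n = r g * (z * r g⁻¹ * n) := by noncomm_ring
      have e2 : z * (r g⁻¹ * n * r g) = (z * r g⁻¹ * n) * r g := by noncomm_ring
      rw [e1, e2, LinearMap.trace_mul_comm]
    rw [h3, h3, h2]
  -- the form on `U`
  obtain ⟨om, hom⟩ : ∃ om : U →ₗ[K] U →ₗ[K] K, om = B.compl₁₂ U.subtype U.subtype := ⟨_, rfl⟩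
  have hom' : ∀ u v : U, om u v = B u v := fun u v => by rw [hom]; rfl
  have hndl : ∀ u, (∀ v, om u v = 0) → u = 0 := by
    intro u hu
    apply Subtype.ext
    exact du_left hU hU.2.1 hΔ hB0 hB u u.2 (fun v hv => by
      have := hu ⟨v, hv⟩
      rwa [hom'] at this)
  have homg : ∀ (g : Δ) (u v : U), om (r g u) (r g v) = χ g.1 * om u v := by
    intro g u v
    rw [hom', hom', hrv, hrv]
    exact hB g.1 g.2 u u.2 v v.2
  have homx : ∀ u v : U, om (xU u) v = - om u (xU v) := by
    intro u v
    have h1 := lieT_skew ω hnd hωR hss hU.2.1 hΔ B hB hx u u.2 v v.2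
    rw [← hxU, ← hxU, ← hom', ← hom'] at h1
    linear_combination h1
  let E : U →ₗ[K] U →ₗ[K] Module.End K U :=
    { toFun := fun a =>
        { toFun := fun b => (om a).smulRight b
          map_add' := fun b b' => by
            refine LinearMap.ext fun u => ?_
            rw [LinearMap.smulRight_apply, smul_add]
            rfl
          map_smul' := fun c b => by
            refine LinearMap.ext fun u => ?_
            rw [LinearMap.smulRight_apply, smul_comm]
            rfl }
      map_add' := fun a a' => by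
        refine LinearMap.ext fun b => LinearMap.ext fun u => ?_
        change (om (a + a') u) • b = om a u • b + om a' u • b
        rw [map_add, LinearMap.add_apply, add_smul]
      map_smul' := fun c a => by
        refine LinearMap.ext fun b => LinearMap.ext fun u => ?_
        change (om (c • a) u) • b = c • (om a u • b)
        rw [map_smul, LinearMap.smul_apply, smul_eq_mul, mul_smul] }
  have hE : ∀ a b u, E a b u = om a u • b := fun _ _ _ => rfl
  have hEg : ∀ (g : Δ) a b, E (r g a) (r g b) = χ g.1 • (r g * E a b * r g⁻¹) := by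
    intro g a b
    refine LinearMap.ext fun u => ?_
    have h1 : u = r g (r g⁻¹ u) := by
      have h2 := congrArg (fun f : Module.End K U => f u) (hinv' g)
      exact h2.symm
    rw [hE, LinearMap.smul_apply, Module.End.mul_apply, Module.End.mul_apply, hE, map_smul,
      smul_smul]
    conv_lhs => rw [h1]
    rw [homg]
  obtain ⟨q, hq1, hq2, hq3⟩ := hss Δ hΔ U hUΔ
  let qU : X →ₗ[K] U := q.codRestrict U hq1
  have hqU : ∀ u : U, qU (u : X) = u := fun u => Subtype.ext (hq2 u u.2)
  have hqg : ∀ (g : Δ) (v : X), qU (R g.1 v) = r g (qU v) := by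
    intro g v
    apply Subtype.ext
    rw [hrv]
    exact hq3 g.1 g.2 v
  -- the form in four variables
  let Ψ0 : U →ₗ[K] U →ₗ[K] U →ₗ[K] U →ₗ[K] K :=
    LinearMap.mk₂ K (fun a b => LinearMap.mk₂ K (fun c d => om (π (E c d) a) b)
        (fun c c' d => by rw [map_add, LinearMap.add_apply, map_add, LinearMap.add_apply, map_add,
          LinearMap.add_apply])
        (fun t c d => by rw [map_smul, LinearMap.smul_apply, map_smul, LinearMap.smul_apply,
          map_smul, LinearMap.smul_apply])
        (fun c d d' => by rw [map_add, map_add, LinearMap.add_apply, map_add,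
          LinearMap.add_apply])
        (fun t c d => by rw [map_smul, map_smul, LinearMap.smul_apply, map_smul,
          LinearMap.smul_apply]))
      (fun a a' b => by
        refine LinearMap.ext fun c => LinearMap.ext fun d => ?_
        change om (π (E c d) (a + a')) b = om (π (E c d) a) b + om (π (E c d) a') b
        rw [map_add, map_add, LinearMap.add_apply])
      (fun t a b => by
        refine LinearMap.ext fun c => LinearMap.ext fun d => ?_
        change om (π (E c d) (t • a)) b = t • om (π (E c d) a) b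
        rw [map_smul, map_smul, LinearMap.smul_apply])
      (fun a b b' => by
        refine LinearMap.ext fun c => LinearMap.ext fun d => ?_
        change om (π (E c d) a) (b + b') = om (π (E c d) a) b + om (π (E c d) a) b'
        rw [map_add])
      (fun t a b => by
        refine LinearMap.ext fun c => LinearMap.ext fun d => ?_
        change om (π (E c d) a) (t • b) = t • om (π (E c d) a) b
        rw [map_smul])
  have hΨ0 : ∀ a b c d, Ψ0 a b c d = om (π (E c d) a) b := fun _ _ _ _ => rfl
  let Ψ : X →ₗ[K] X →ₗ[K] X →ₗ[K] X →ₗ[K] K :=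
    LinearMap.mk₂ K (fun a b => (Ψ0 (qU a) (qU b)).compl₁₂ qU qU)
      (fun a a' b => by
        refine LinearMap.ext fun c => LinearMap.ext fun d => ?_
        change Ψ0 (qU (a + a')) (qU b) (qU c) (qU d) = Ψ0 (qU a) (qU b) (qU c) (qU d) +
          Ψ0 (qU a') (qU b) (qU c) (qU d)
        rw [map_add, map_add]
        rfl)
      (fun t a b => by
        refine LinearMap.ext fun c => LinearMap.ext fun d => ?_
        change Ψ0 (qU (t • a)) (qU b) (qU c) (qU d) = t • Ψ0 (qU a) (qU b) (qU c) (qU d)
        rw [map_smul, map_smul]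
        rfl)
      (fun a b b' => by
        refine LinearMap.ext fun c => LinearMap.ext fun d => ?_
        change Ψ0 (qU a) (qU (b + b')) (qU c) (qU d) = Ψ0 (qU a) (qU b) (qU c) (qU d) +
          Ψ0 (qU a) (qU b') (qU c) (qU d)
        rw [map_add, map_add]
        rfl)
      (fun t a b => by
        refine LinearMap.ext fun c => LinearMap.ext fun d => ?_
        change Ψ0 (qU a) (qU (t • b)) (qU c) (qU d) = t • Ψ0 (qU a) (qU b) (qU c) (qU d)
        rw [map_smul, map_smul]
        rfl)
  have hΨ : ∀ a b c d, Ψ a b c d = om (π (E (qU c) (qU d)) (qU a)) (qU b) := fun _ _ _ _ => rfl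
  have htate : IsTate R χ 2 (quad Ψ) := by
    refine ⟨Δ, hΔ, fun g hg v => ?_⟩
    rw [quad_apply, quad_apply, hΨ, hΨ]
    have h1 : ∀ v, qU (R g v) = r ⟨g, hg⟩ (qU v) := fun v => hqg ⟨g, hg⟩ v
    rw [h1, h1, h1, h1, hEg, map_smul, hπg, LinearMap.smul_apply, map_smul, LinearMap.smul_apply,
      Module.End.mul_apply, Module.End.mul_apply]
    have h2 : r ⟨g, hg⟩⁻¹ (r ⟨g, hg⟩ (qU (v (0, 0)))) = qU (v (0, 0)) := by
      have h3 := congrArg (fun f : Module.End K U => f (qU (v (0, 0)))) (hinv ⟨g, hg⟩)
      exact h3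
    rw [h2, homg, smul_eq_mul]
    ring
  have hk := quad_kills (hx 2 _ htate)
  have hk' : ∀ a b c d : U, om ((π (E c d) * xU - xU * π (E c d) +
      π (xU * E c d - E c d * xU)) a) b = 0 := by
    intro a b c d
    have h1 := hk a b c d
    rw [hΨ, hΨ, hΨ, hΨ, ← hxU, ← hxU, ← hxU, ← hxU, hqU, hqU, hqU, hqU, hqU, hqU, hqU, hqU] at h1
    have h2 : xU * E c d - E c d * xU = E (xU c) d + E c (xU d) := by
      refine LinearMap.ext fun u => ?_
      rw [LinearMap.sub_apply, LinearMap.add_apply, Module.End.mul_apply, Module.End.mul_apply,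
        hE, hE, hE, hE, map_smul, homx]
      module
    rw [h2, map_add, LinearMap.add_apply, LinearMap.sub_apply, LinearMap.add_apply,
      Module.End.mul_apply, Module.End.mul_apply, map_add, map_sub, map_add, LinearMap.add_apply,
      LinearMap.sub_apply, LinearMap.add_apply, homx (π (E c d) a) b]
    linear_combination h1
  have hcomm : ∀ y : Module.End K U, π (xU * y - y * xU) = xU * π y - π y * xU := by
    let F : Module.End K U →ₗ[K] Module.End K U :=
      π.comp (LinearMap.mulLeft K xU - LinearMap.mulRight K xU)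
    let G : Module.End K U →ₗ[K] Module.End K U :=
      (LinearMap.mulLeft K xU - LinearMap.mulRight K xU).comp π
    have hFG : F = G := by
      refine ext_rank_one fun φ v => ?_
      have hbij : Function.Surjective om := by
        have hinj : Function.Injective om := by
          rw [injective_iff_map_eq_zero]
          intro u hu
          exact hndl u fun v => by rw [hu]; rfl
        exact (LinearMap.injective_iff_surjective_of_finrank_eq_finrank
          (Subspace.dual_finrank_eq (K := K) (V := U)).symm).1 hinj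
      obtain ⟨c, rfl⟩ := hbij φ
      have h1 : ((om c).smulRight v : Module.End K U) = E c v := rfl
      rw [h1]
      change π (xU * E c v - E c v * xU) = xU * π (E c v) - π (E c v) * xU
      have h2 : π (E c v) * xU - xU * π (E c v) + π (xU * E c v - E c v * xU) = 0 := by
        refine LinearMap.ext fun a => ?_
        exact hndl _ fun b => hk' a b c v
      have h3 : π (xU * E c v - E c v * xU) = -(π (E c v) * xU - xU * π (E c v)) :=
        eq_neg_of_add_eq_zero_right h2
      rw [h3]
      abel
    intro y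
    exact congrArg (fun H : Module.End K U →ₗ[K] Module.End K U => H y) hFG
  have h1 := hcomm n
  rw [hπn n hn] at h1
  rw [← h1]
  exact hπ1 _

end

end Pool.Agent.R930
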