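import Mathlib
import Pool.Agent.TH118.CR.Torus

/-!
# Elements of the Lie algebra from the Jordan decomposition of an element of the group
-/

set_option linter.unusedSectionVars false

namespace Pool.Agent.R930

open Module Polynomial Pool.Agent.H204R3.SP Pool.Agent.H204R3.GP Pool.Agent.W522.U
open Pool.Agent.TH118.CR

noncomputable section

section inv

variable {K : Type} [Field K] {X : Type} [AddCommGroup X] [Module K X] {κ : Type} [Fintype κ]
  [DecidableEq κ]

/-- An invariant form vanishes on generalized eigenvectors if the product of the eigenvalues is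
different from one. -/
theorem zero_of_prod {T : Module.End K X} {φ : MultilinearMap K (fun _ : κ => X) K}
    (hφ : ∀ v : κ → X, φ (fun k => T (v k)) = φ v) (a : κ → K) (ha : ∏ k, a k ≠ 1) (N : ℕ) :
    ∀ (d : κ → ℕ) (v : κ → X), ∑ k, d k ≤ N →
      (∀ k, ((T - a k • (1 : Module.End K X)) ^ d k) (v k) = 0) → φ v = 0 := by
  induction N with
  | zero =>
    intro d v hd hv
    obtain ⟨k, -⟩ : (Finset.univ : Finset κ).Nonempty := by
      by_contra hcon
      rw [Finset.not_nonempty_iff_eq_empty] at hcon
      apply ha
      rw [hcon, Finset.prod_empty]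
    have h1 : d k = 0 := by
      have := Finset.single_le_sum (f := d) (fun i _ => Nat.zero_le _) (Finset.mem_univ k)
      omega
    have h2 := hv k
    rw [h1, pow_zero, Module.End.one_apply] at h2
    exact φ.map_coord_zero k h2
  | succ N ih =>
    intro d v hd hv
    by_cases h0 : ∃ k, d k = 0
    · obtain ⟨k, h1⟩ := h0
      have h2 := hv k
      rw [h1, pow_zero, Module.End.one_apply] at h2
      exact φ.map_coord_zero k h2
    push Not at h0
    let w : κ → X := fun k => (T - a k • (1 : Module.End K X)) (v k)
    have h1 : (fun k => T (v k)) = w + fun k => a k • v k := by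
      funext k
      change T (v k) = (T - a k • (1 : Module.End K X)) (v k) + a k • v k
      rw [LinearMap.sub_apply, LinearMap.smul_apply, Module.End.one_apply]
      abel
    have h2 := hφ v
    rw [h1, MultilinearMap.map_add_univ, ← Finset.add_sum_erase _ _ (Finset.mem_univ ∅)] at h2
    have h3 : ∀ s ∈ (Finset.univ : Finset (Finset κ)).erase ∅,
        φ (s.piecewise w fun k => a k • v k) = 0 := by
      intro s hs
      have hs0 : s.Nonempty := Finset.nonempty_iff_ne_empty.2 (Finset.ne_of_mem_erase hs)
      refine ih (fun k => if k ∈ s then d k - 1 else d k) _ ?_ ?_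
      · have h4 : ∑ k, (if k ∈ s then d k - 1 else d k) < ∑ k, d k := by
          obtain ⟨k, hk⟩ := hs0
          refine Finset.sum_lt_sum (fun i _ => ?_) ⟨k, Finset.mem_univ _, ?_⟩
          · split_ifs <;> omega
          · rw [if_pos hk]
            have := h0 k
            omega
        omega
      · intro k
        by_cases hk : k ∈ s
        · rw [if_pos hk, Finset.piecewise_eq_of_mem _ _ _ hk]
          change ((T - a k • (1 : Module.End K X)) ^ (d k - 1))
            ((T - a k • (1 : Module.End K X)) (v k)) = 0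
          rw [← Module.End.mul_apply, ← pow_succ]
          have h5 : d k - 1 + 1 = d k := by
            have := h0 k
            omega
          rw [h5]
          exact hv k
        · rw [if_neg hk, Finset.piecewise_eq_of_notMem _ _ _ hk, map_smul, hv k, smul_zero]
    rw [Finset.sum_eq_zero h3, add_zero, Finset.piecewise_empty, MultilinearMap.map_smul_univ,
      smul_eq_mul] at h2
    have h4 : (∏ k, a k - 1) * φ v = 0 := by linear_combination h2
    exact (mul_eq_zero.1 h4).resolve_left (sub_ne_zero.2 ha)

end inv

section log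

variable (K : Type) [Field K] [CharZero K]

/-- The binomial coefficients as polynomials. -/
def binP (j : ℕ) : K[X] := C ((j.factorial : K)⁻¹) * descPochhammer K j

theorem binP_eval (k j : ℕ) : (binP K j).eval (k : K) = (k.choose j : K) := by
  unfold binP
  rw [eval_mul, eval_C, descPochhammer_eval_eq_descFactorial,
    Nat.descFactorial_eq_factorial_mul_choose]
  push_cast
  rw [← mul_assoc, inv_mul_cancel₀ (Nat.cast_ne_zero.2 (Nat.factorial_ne_zero j)), one_mul]

theorem binP_zero (j : ℕ) : (binP K j).eval 0 = if j = 0 then 1 else 0 := by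
  have h := binP_eval K 0 j
  rw [Nat.cast_zero] at h
  rw [h]
  by_cases hj : j = 0
  · subst hj
    simp
  · rw [if_neg hj, Nat.choose_eq_zero_of_lt (Nat.pos_of_ne_zero hj), Nat.cast_zero]

/-- The coefficients of the logarithm. -/
def lc (j : ℕ) : K := (derivative (binP K j)).eval 0

theorem lc_zero : lc K 0 = 0 := by
  unfold lc binP
  simp

theorem lc_one : lc K 1 = 1 := by
  unfold lc binP
  simp

variable {K} {X : Type} [AddCommGroup X] [Module K X] {κ : Type} [Fintype κ] [DecidableEq κ]

theorem one_add_pow {v : Module.End K X} {d : ℕ} (hd : v ^ d = 0) (k : ℕ) :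
    (1 + v) ^ k = ∑ j : Fin d, ((k.choose j : K)) • v ^ (j : ℕ) := by
  have h1 : (1 + v) ^ k = ∑ j ∈ Finset.range (k + 1), ((k.choose j : K)) • v ^ j := by
    rw [add_comm, (Commute.one_right v).add_pow]
    refine Finset.sum_congr rfl fun j _ => ?_
    rw [one_pow, mul_one, ← nsmul_eq_mul', Nat.cast_smul_eq_nsmul]
  rw [h1, Fin.sum_univ_eq_sum_range (fun j => ((k.choose j : K)) • v ^ j) d]
  have h2 : ∀ j, (k + 1 ≤ j ∨ d ≤ j) → ((k.choose j : K)) • v ^ j = 0 := by
    rintro j (hj | hj)
    · rw [Nat.choose_eq_zero_of_lt (by omega), Nat.cast_zero, zero_smul]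
    · rw [pow_eq_zero_of_le hj hd, smul_zero]
  rcases le_total (k + 1) d with h | h
  · refine Finset.sum_subset (Finset.range_mono h) fun j _ hj => ?_
    rw [Finset.mem_range, not_lt] at hj
    exact h2 j (Or.inl hj)
  · symm
    refine Finset.sum_subset (Finset.range_mono h) fun j _ hj => ?_
    rw [Finset.mem_range, not_lt] at hj
    exact h2 j (Or.inr hj)

/-- The logarithm of a unipotent operator kills the forms fixed by a power. -/
theorem log_kills {v : Module.End K X} {d : ℕ} (hd : v ^ d = 0)
    {φ : MultilinearMap K (fun _ : κ => X) K} {M : ℕ} (hM : M ≠ 0)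
    (hφ : ∀ w : κ → X, φ (fun k => ((1 + v) ^ M) (w k)) = φ w) :
    Kills (∑ j : Fin d, lc K j • v ^ (j : ℕ)) φ := by
  intro w
  let Q : K[X] := ∑ J : κ → Fin d, (∏ k, binP K (J k)) * C (φ fun k => (v ^ (J k : ℕ)) (w k))
  have hpow : ∀ r : ℕ, φ (fun k => ((1 + v) ^ (r * M)) (w k)) = φ w := by
    intro r
    induction r with
    | zero => simp
    | succ r ih =>
      have h1 := hφ (fun k => ((1 + v) ^ (r * M)) (w k))
      have h2 : (1 + v) ^ ((r + 1) * M) = (1 + v) ^ M * (1 + v) ^ (r * M) := by
        rw [← pow_add]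
        congr 1
        ring
      rw [← ih, ← h1, h2]
      rfl
  have hQ : ∀ r : ℕ, Q.eval ((r * M : ℕ) : K) = φ w := by
    intro r
    rw [← hpow r]
    have h1 : (fun k => ((1 + v) ^ (r * M)) (w k)) = fun k => ∑ j : Fin d,
        (((r * M).choose j : ℕ) : K) • (v ^ (j : ℕ)) (w k) := by
      funext k
      rw [one_add_pow (K := K) hd, LinearMap.sum_apply]
      rfl
    rw [h1, MultilinearMap.map_sum]
    simp only [Q]
    rw [eval_finsetSum]
    refine Finset.sum_congr rfl fun J _ => ?_
    rw [MultilinearMap.map_smul_univ, smul_eq_mul, eval_mul, eval_C, eval_prod]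
    congr 1
    refine Finset.prod_congr rfl fun k _ => ?_
    rw [binP_eval]
  have hQ0 : Q - C (φ w) = 0 := by
    refine Polynomial.eq_zero_of_infinite_isRoot _ ?_
    refine Set.infinite_of_injective_forall_mem (f := fun k : ℕ => ((k * M : ℕ) : K)) ?_ ?_
    · intro a b hab
      have h3 : a * M = b * M := Nat.cast_injective (R := K) hab
      exact Nat.eq_of_mul_eq_mul_right (Nat.pos_of_ne_zero hM) h3
    · intro k
      change (Q - C (φ w)).IsRoot _
      rw [IsRoot, eval_sub, hQ, eval_C, sub_self]
  have h1 : (derivative Q).eval 0 = 0 := by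
    rw [sub_eq_zero.1 hQ0, derivative_C, eval_zero]
  simp only [Q] at h1
  rw [derivative_sum, eval_finsetSum] at h1
  have h2 : ∀ J : κ → Fin d, eval 0 (derivative ((∏ k, binP K (J k)) *
      C (φ fun k => (v ^ (J k : ℕ)) (w k)))) =
      ∑ k, ((∏ k' ∈ Finset.univ.erase k, if (J k' : ℕ) = 0 then (1 : K) else 0) * lc K (J k)) *
        φ fun k => (v ^ (J k : ℕ)) (w k) := by
    intro J
    rw [derivative_mul, derivative_C, mul_zero, add_zero, eval_mul, eval_C, derivative_prod_finset,
      eval_finsetSum, Finset.sum_mul]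
    refine Finset.sum_congr rfl fun k _ => ?_
    rw [eval_mul, eval_prod]
    congr 2
    refine Finset.prod_congr rfl fun k' _ => ?_
    rw [binP_zero]
  rw [Finset.sum_congr rfl fun J _ => h2 J, Finset.sum_comm] at h1
  rw [← h1]
  refine Finset.sum_congr rfl fun k _ => ?_
  rw [LinearMap.sum_apply, MultilinearMap.map_update_sum]
  symm
  rcases Nat.eq_zero_or_pos d with h0 | hdpos
  · subst h0
    trans 0
    · exact Finset.sum_eq_zero fun J _ => (J k).elim0
    · exact (Finset.sum_of_isEmpty (ι := Fin 0) _).symm
  refine Finset.sum_bij_ne_zero (fun J _ _ => J k) (fun _ _ _ => Finset.mem_univ _) ?_ ?_ ?_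
  · intro J _ hJ J' _ hJ' h
    have e : ∀ J : κ → Fin d, ((∏ k' ∈ Finset.univ.erase k,
        if (J k' : ℕ) = 0 then (1 : K) else 0) * lc K (J k)) *
        (φ fun k => (v ^ (J k : ℕ)) (w k)) ≠ 0 → ∀ k', k' ≠ k → (J k' : ℕ) = 0 := by
      intro J hJ k' hk'
      by_contra hcon
      apply hJ
      rw [Finset.prod_eq_zero (Finset.mem_erase.2 ⟨hk', Finset.mem_univ _⟩) (if_neg hcon),
        zero_mul, zero_mul]
    funext k'
    by_cases hk' : k' = k
    · rw [hk']
      exact h
    · exact Fin.ext ((e J hJ k' hk').trans (e J' hJ' k' hk').symm)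
  · intro j _ hj
    refine ⟨Function.update (fun _ => ⟨0, hdpos⟩) k j, Finset.mem_univ _, ?_, ?_⟩
    · have e1 : (φ fun k' => (v ^ ((Function.update (fun _ => (⟨0, hdpos⟩ : Fin d)) k j k' : Fin d) :
          ℕ)) (w k')) = φ (Function.update w k ((v ^ (j : ℕ)) (w k))) := by
        congr 1
        funext k'
        by_cases hk' : k' = k
        · subst hk'
          rw [Function.update_self, Function.update_self]
        · rw [Function.update_of_ne hk', Function.update_of_ne hk', pow_zero,
            Module.End.one_apply]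
      rw [e1, Function.update_self]
      have e2 : (∏ k' ∈ Finset.univ.erase k,
          if ((Function.update (fun _ => (⟨0, hdpos⟩ : Fin d)) k j k' : Fin d) : ℕ) = 0
          then (1 : K) else 0) = 1 := by
        refine Finset.prod_eq_one fun k' hk' => ?_
        rw [Function.update_of_ne (Finset.ne_of_mem_erase hk'), if_pos rfl]
      rw [e2, one_mul]
      rw [LinearMap.smul_apply, MultilinearMap.map_update_smul, smul_eq_mul] at hj
      exact hj
    · exact Function.update_self _ _ _
  · intro J _ hJ
    have e : ∀ k', k' ≠ k → (J k' : ℕ) = 0 := by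
      intro k' hk'
      by_contra hcon
      apply hJ
      rw [Finset.prod_eq_zero (Finset.mem_erase.2 ⟨hk', Finset.mem_univ _⟩) (if_neg hcon),
        zero_mul, zero_mul]
    rw [Finset.prod_eq_one (fun k' hk' => if_pos (e k' (Finset.ne_of_mem_erase hk'))), one_mul,
      LinearMap.smul_apply, MultilinearMap.map_update_smul, smul_eq_mul]
    congr 2
    funext k'
    by_cases hk' : k' = k
    · subst hk'
      rw [Function.update_self]
    · rw [Function.update_of_ne hk', e k' hk', pow_zero, Module.End.one_apply]

end log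

section jordan

variable {K : Type} [Field K] [CharZero K] [IsAlgClosed K] {X : Type} [AddCommGroup X] [Module K X]
  [FiniteDimensional K X]

/-- An eigenbasis of a semisimple operator. -/
theorem exists_eigen {s : Module.End K X} (hs : s.IsSemisimple) :
    ∃ (b : Basis (Fin (finrank K X)) K X) (a : Fin (finrank K X) → K),
      ∀ i, s (b i) = a i • b i := by
  classical
  have htop := hs.iSup_eigenspace_eq_top
  have hint : DirectSum.IsInternal s.eigenspace :=
    DirectSum.isInternal_submodule_of_iSupIndep_of_iSup_eq_top s.eigenspaces_iSupIndep htop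
  set b0 := hint.collectedBasis (fun μ => Module.finBasis K (s.eigenspace μ)) with hb0
  have hfin : Finite (Σ μ : K, Fin (Module.finrank K (s.eigenspace μ))) :=
    Module.Finite.finite_basis b0
  have : Fintype (Σ μ : K, Fin (Module.finrank K (s.eigenspace μ))) := Fintype.ofFinite _
  have hcard : Fintype.card (Σ μ : K, Fin (Module.finrank K (s.eigenspace μ))) =
      Fintype.card (Fin (finrank K X)) := by
    rw [← Module.finrank_eq_card_basis b0, Fintype.card_fin]
  have e := Fintype.equivOfCardEq hcard
  refine ⟨b0.reindex e, fun i => (e.symm i).1, fun i => ?_⟩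
  have h1 : (b0.reindex e) i = b0 (e.symm i) := by rw [Module.Basis.reindex_apply]
  have h2 : (b0.reindex e) i ∈ s.eigenspace (e.symm i).1 := by
    rw [h1]
    exact hint.collectedBasis_mem _ _
  rwa [Module.End.mem_eigenspace_iff] at h2

theorem exists_jordan (T : Module.End K X) (hT : ∀ v, T v = 0 → v = 0) :
    ∃ (s n : Module.End K X) (b : Basis (Fin (finrank K X)) K X) (a : Fin (finrank K X) → Kˣ),
      T = s + n ∧ s * n = n * s ∧ IsNilpotent n ∧ s.IsSemisimple ∧
      (∀ i, s (b i) = (a i : K) • b i) ∧
      ∀ U : Submodule K X, (∀ u ∈ U, T u ∈ U) → ∀ u ∈ U, s u ∈ U ∧ n u ∈ U := by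
  obtain ⟨n, hn, s, hs, hnil, hss, hTe⟩ := T.exists_isNilpotent_isSemisimple
  have hcomm : s * n = n * s := by
    have h1 : ∀ y ∈ Algebra.adjoin K {T}, y * T = T * y := by
      intro y hy
      induction hy using Algebra.adjoin_induction with
      | mem x hx => rw [Set.mem_singleton_iff.1 hx]
      | algebraMap c => exact Algebra.commutes c T
      | add x y _ _ hx hy => rw [add_mul, mul_add, hx, hy]
      | mul x y _ _ hx hy => rw [mul_assoc, hy, ← mul_assoc, hx, mul_assoc]
    have h2 := h1 s hs
    rw [hTe, mul_add, add_mul] at h2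
    exact add_right_cancel h2
  have hst : ∀ U : Submodule K X, (∀ u ∈ U, T u ∈ U) → ∀ y ∈ Algebra.adjoin K {T},
      ∀ u ∈ U, y u ∈ U := by
    intro U hU y hy
    induction hy using Algebra.adjoin_induction with
    | mem x hx => rw [Set.mem_singleton_iff.1 hx]; exact hU
    | algebraMap c => exact fun u hu => U.smul_mem c hu
    | add x y _ _ hx hy => exact fun u hu => U.add_mem (hx u hu) (hy u hu)
    | mul x y _ _ hx hy => exact fun u hu => hx _ (hy u hu)
  obtain ⟨b, a, hb⟩ := exists_eigen hss
  obtain ⟨d, hd⟩ := id hnil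
  have ha : ∀ i, a i ≠ 0 := by
    intro i h0
    have h1 : ∀ k : ℕ, s ((n ^ k) (b i)) = 0 ∧ (n ^ k) (b i) ≠ 0 := by
      intro k
      induction k with
      | zero =>
        refine ⟨?_, ?_⟩
        · rw [pow_zero, Module.End.one_apply, hb, h0, zero_smul]
        · rw [pow_zero, Module.End.one_apply]
          exact b.ne_zero i
      | succ k ih =>
        have h2 : (n ^ (k + 1)) (b i) = n ((n ^ k) (b i)) := by
          rw [pow_succ', Module.End.mul_apply]
        rw [h2]
        refine ⟨?_, fun h3 => ih.2 (hT _ ?_)⟩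
        · rw [← Module.End.mul_apply, hcomm, Module.End.mul_apply, ih.1, map_zero]
        · rw [hTe, LinearMap.add_apply, h3, ih.1, add_zero]
    apply (h1 d).2
    rw [hd]
    rfl
  refine ⟨s, n, b, fun i => Units.mk0 _ (ha i), by rw [hTe, add_comm], hcomm, hnil, hss, hb,
    fun U hU u hu => ⟨hst U hU s hs u hu, hst U hU n hn u hu⟩⟩

theorem pow_sub_pow_apply {T : Module.End K X} {a : K} {d : ℕ} {v : X}
    (h : ((T - a • (1 : Module.End K X)) ^ d) v = 0) (M : ℕ) :
    ((T ^ M - (a ^ M) • (1 : Module.End K X)) ^ d) v = 0 := by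
  have h1 : Commute T (a • (1 : Module.End K X)) := (Commute.one_right T).smul_right a
  have h2 := h1.geom_sum₂_mul M
  have h3 : (a • (1 : Module.End K X)) ^ M = (a ^ M) • (1 : Module.End K X) := by
    rw [_root_.smul_pow, one_pow]
  rw [h3] at h2
  have h4 : Commute (∑ i ∈ Finset.range M, T ^ i * (a • (1 : Module.End K X)) ^ (M - 1 - i))
      (T - a • (1 : Module.End K X)) := by
    refine Commute.sum_left _ _ _ fun i _ => ?_
    refine Commute.mul_left ?_ ?_
    · exact Commute.sub_right (Commute.pow_left (Commute.refl T) i) (h1.pow_left i)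
    · exact Commute.sub_right (h1.symm.pow_left _) (Commute.pow_left (Commute.refl _) _)
  rw [← h2, h4.mul_pow, Module.End.mul_apply, h, map_zero]

variable {Γ : Type} [Group Γ] {R : Representation K Γ X} {χ : Γ →* K} {g : Γ}

/-- An element of the group with trivial multiplier which acts nontrivially on a stable subspace,
all of whose eigenvalues there are one or of infinite order, gives an element of the Lie algebra
that does not vanish on the subspace. -/
theorem jordan_elem (hχ : χ g = 1) {U : Submodule K X} (hU : ∀ u ∈ U, R g u ∈ U)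
    (hne : ∃ u ∈ U, R g u ≠ u)
    (hroot : ∀ z : K, (∃ u ∈ U, u ≠ 0 ∧ R g u = z • u) → ∀ k : ℕ, 0 < k → z ^ k = 1 → z = 1) :
    ∃ x ∈ lieT R χ, ∃ u ∈ U, x u ≠ 0 := by
  classical
  obtain ⟨T, hTd⟩ : ∃ T, T = R g := ⟨_, rfl⟩
  have hTinj : ∀ v, T v = 0 → v = 0 := by
    intro v hv
    rw [hTd] at hv
    by_contra h0
    exact Rne g h0 hv
  obtain ⟨s, n, b, a, hT, hsn, ⟨d, hd⟩, hss, hb, hst⟩ := exists_jordan T hTinj
  rw [← hTd] at hU hne hroot
  have hTn : ∀ i, ((T - (a i : K) • (1 : Module.End K X)) ^ d) (b i) = 0 := by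
    intro i
    have h1 : ∀ k : ℕ, ((T - (a i : K) • (1 : Module.End K X)) ^ k) (b i) = (n ^ k) (b i) ∧
        s ((n ^ k) (b i)) = (a i : K) • (n ^ k) (b i) := by
      intro k
      induction k with
      | zero => exact ⟨rfl, hb i⟩
      | succ k ih =>
        have h2 : (n ^ (k + 1)) (b i) = n ((n ^ k) (b i)) := by
          rw [pow_succ', Module.End.mul_apply]
        have h3 : s (n ((n ^ k) (b i))) = (a i : K) • n ((n ^ k) (b i)) := by
          rw [← Module.End.mul_apply, hsn, Module.End.mul_apply, ih.2, map_smul]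
        rw [h2, pow_succ', Module.End.mul_apply, ih.1]
        refine ⟨?_, h3⟩
        rw [LinearMap.sub_apply, hT, LinearMap.add_apply, ih.2, LinearMap.smul_apply,
          Module.End.one_apply]
        abel
    rw [(h1 d).1, hd]
    rfl
  -- the eigenvalues of invariant forms
  have key : ∀ (m : ℕ) (φ : MultilinearMap K (fun _ : Fin m × Fin 2 => X) K), IsTate R χ m φ →
      ∃ M : ℕ, M ≠ 0 ∧ (∀ v, φ (fun k => (T ^ M) (v k)) = φ v) ∧
        ∀ I : Fin m × Fin 2 → Fin (finrank K X), φ (fun k => b (I k)) ≠ 0 →
          ∏ k, a (I k) ^ M = 1 := by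
    rintro m φ ⟨Δ, hΔ, hφ⟩
    obtain ⟨M, hM0, hM⟩ := exists_pow_mem Δ hΔ g
    have h1 : ∀ v, φ (fun k => (T ^ M) (v k)) = φ v := by
      intro v
      have h2 := hφ _ hM v
      rw [map_pow χ, hχ, one_pow, one_pow, one_mul, map_pow R, ← hTd] at h2
      exact h2
    refine ⟨M, hM0, h1, fun I hI => ?_⟩
    by_contra hcon
    apply hI
    refine zero_of_prod h1 (fun k => (a (I k) : K) ^ M) (fun h => hcon (Units.ext ?_)) _
      (fun _ => d) _ le_rfl fun k => pow_sub_pow_apply (hTn (I k)) M
    push_cast
    exact h
  by_cases hcase : ∃ z : K, z ≠ 1 ∧ ∃ u ∈ U, u ≠ 0 ∧ T u = z • u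
  · obtain ⟨z, hz1, u, hu, hu0, hTu⟩ := hcase
    have hsz : s u = z • u := by
      obtain ⟨h1, h2⟩ := hst (Submodule.span K {u}) (by
        intro w hw
        obtain ⟨c, rfl⟩ := Submodule.mem_span_singleton.1 hw
        rw [map_smul, hTu]
        exact Submodule.smul_mem _ _ (Submodule.smul_mem _ _ (Submodule.mem_span_singleton_self u)))
        u (Submodule.mem_span_singleton_self u)
      obtain ⟨c, hc⟩ := Submodule.mem_span_singleton.1 h1
      have h3 : n u = (z - c) • u := by
        have h4 : T u = s u + n u := by rw [hT]; rfl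
        rw [hTu, ← hc] at h4
        rw [sub_smul, h4]
        abel
      have h4 : ∀ k : ℕ, (n ^ k) u = (z - c) ^ k • u := by
        intro k
        induction k with
        | zero => rw [pow_zero, pow_zero, one_smul]; rfl
        | succ k ih =>
          rw [pow_succ', Module.End.mul_apply, ih, map_smul, h3, smul_smul, pow_succ]
      have h5 := h4 d
      rw [hd, LinearMap.zero_apply] at h5
      have h6 := (smul_eq_zero.1 h5.symm).resolve_right hu0
      have h7 : z - c = 0 := eq_zero_of_pow_eq_zero h6
      rw [← hc, sub_eq_zero.1 h7]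
    have hz0 : z ≠ 0 := by
      rintro rfl
      rw [zero_smul] at hTu
      exact hu0 (hTinj u hTu)
    obtain ⟨f, hf⟩ := exists_add (Units.mk0 z hz0) (fun k hk h => hz1 (hroot z ⟨u, hu, hu0, hTu⟩ k hk
      (by
        have h1 := congrArg (fun y : Kˣ => (y : K)) h
        simpa using h1)))
    have hdg : ∀ (t : Kˣ → K), dg b (fun k => t (a k)) u = t (Units.mk0 z hz0) • u := by
      intro t
      have h1 : ∀ k, b.repr u k * ((a k : K) - z) = 0 := by
        intro k
        have h2 : s u = ∑ k, (b.repr u k * (a k : K)) • b k := by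
          conv_lhs => rw [← b.sum_repr u]
          rw [map_sum]
          refine Finset.sum_congr rfl fun k _ => ?_
          rw [map_smul, hb, smul_smul]
        have h3 : b.repr (s u) k = b.repr u k * (a k : K) := by
          rw [h2, Basis.repr_sum_self]
        rw [hsz, map_smul, Finsupp.smul_apply, smul_eq_mul] at h3
        linear_combination -h3
      conv_lhs => rw [← b.sum_repr u]
      conv_rhs => rw [← b.sum_repr u]
      rw [map_sum, Finset.smul_sum]
      refine Finset.sum_congr rfl fun k _ => ?_
      rw [map_smul, dg_basis]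
      rcases mul_eq_zero.1 (h1 k) with h2 | h2
      · rw [h2, zero_smul, zero_smul, smul_zero]
      · have h3 : a k = Units.mk0 z hz0 := Units.ext (sub_eq_zero.1 h2)
        rw [h3, smul_comm]
    refine ⟨dg b (fun k => f (Additive.ofMul (a k))), ?_, u, hu, ?_⟩
    · intro m φ hφ
      obtain ⟨M, hM0, -, hprod⟩ := key m φ hφ
      refine kills_of_basis b _ _ fun I => ?_
      have h1 : ∀ l : Fin m × Fin 2, φ (Function.update (fun l => b (I l)) l
          (dg b (fun k => f (Additive.ofMul (a k))) (b (I l)))) =
          f (Additive.ofMul (a (I l))) * φ (fun l => b (I l)) := by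
        intro l
        rw [dg_basis, MultilinearMap.map_update_smul, smul_eq_mul, Function.update_eq_self]
      rw [Finset.sum_congr rfl fun l _ => h1 l, ← Finset.sum_mul]
      by_cases h0 : φ (fun l => b (I l)) = 0
      · rw [h0, mul_zero]
      have h2 := congrArg (fun x : Kˣ => f (Additive.ofMul x)) (hprod I h0)
      simp only [ofMul_prod, ofMul_pow, map_sum, map_nsmul, nsmul_eq_mul, ofMul_one,
        map_zero] at h2
      rw [← Finset.mul_sum] at h2
      rw [(mul_eq_zero.1 h2).resolve_left (Nat.cast_ne_zero.2 hM0), zero_mul]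
    · rw [hdg (fun y => f (Additive.ofMul y))]
      exact smul_ne_zero hf hu0
  · push Not at hcase
    have hUs : ∀ u ∈ U, s u = u := by
      have h1 : ∀ c : K, c ≠ 1 → U ⊓ s.eigenspace c = ⊥ := by
        intro c hc
        by_contra hbot
        obtain ⟨w, ⟨hwU, hwc⟩, hw0⟩ := (Submodule.ne_bot_iff _).1 hbot
        have hwc' : s w = c • w := Module.End.mem_eigenspace_iff.1 hwc
        have hex : ∃ j : ℕ, (n ^ j) w = 0 := ⟨d, by rw [hd]; rfl⟩
        obtain ⟨j, hj⟩ : ∃ j, j = Nat.find hex := ⟨_, rfl⟩
        have hj0 : j ≠ 0 := by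
          intro h0
          have h2 := Nat.find_spec hex
          rw [← hj, h0] at h2
          exact hw0 h2
        have hj1 : (n ^ (j - 1)) w ≠ 0 := fun h => by
          have h2 := Nat.find_min' hex h
          omega
        have hall : ∀ k : ℕ, (n ^ k) w ∈ U ∧ s ((n ^ k) w) = c • (n ^ k) w := by
          intro k
          induction k with
          | zero => exact ⟨hwU, hwc'⟩
          | succ k ih =>
            rw [pow_succ', Module.End.mul_apply]
            refine ⟨(hst U hU _ ih.1).2, ?_⟩
            rw [← Module.End.mul_apply, hsn, Module.End.mul_apply, ih.2, map_smul]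
        refine hcase c hc _ (hall (j - 1)).1 hj1 ?_
        rw [hT, LinearMap.add_apply, (hall (j - 1)).2]
        have h3 : n ((n ^ (j - 1)) w) = 0 := by
          rw [← Module.End.mul_apply, ← pow_succ']
          have h4 : j - 1 + 1 = j := by omega
          rw [h4, hj]
          exact Nat.find_spec hex
        rw [h3, add_zero]
      have h2 := Submodule.inf_iSup_genEigenspace (p := U) (f := s)
        (fun x hx => (hst U hU x hx).1) 1
      have h3 : ⨆ μ, s.genEigenspace μ 1 = ⊤ := hss.iSup_eigenspace_eq_top
      rw [h3, inf_top_eq] at h2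
      intro u hu
      have h4 : U ≤ s.eigenspace 1 := by
        rw [h2]
        refine iSup_le fun μ => ?_
        by_cases hμ : μ = 1
        · rw [hμ]
          exact inf_le_right
        · have h5 := h1 μ hμ
          change U ⊓ s.eigenspace μ ≤ _
          rw [h5]
          exact bot_le
      have h5 := Module.End.mem_eigenspace_iff.1 (h4 hu)
      rwa [one_smul] at h5
    -- the inverse of `s`
    obtain ⟨s', hs'd⟩ : ∃ s', s' = dg b (fun i => ((a i)⁻¹ : Kˣ).val) := ⟨_, rfl⟩
    have hs'b : ∀ i, s' (b i) = (((a i)⁻¹ : Kˣ) : K) • b i := fun i => by rw [hs'd, dg_basis]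
    have hs's : s' * s = 1 := by
      refine b.ext fun i => ?_
      rw [Module.End.mul_apply, hb, map_smul, hs'b, smul_smul, Module.End.one_apply]
      rw [Units.mul_inv, one_smul]
    have hss' : s * s' = 1 := by
      refine b.ext fun i => ?_
      rw [Module.End.mul_apply, hs'b, map_smul, hb, smul_smul, Module.End.one_apply]
      rw [Units.inv_mul, one_smul]
    have hs'n : s' * n = n * s' := by
      calc s' * n = s' * n * (s * s') := by rw [hss', mul_one]
      _ = s' * (n * s) * s' := by noncomm_ring
      _ = s' * (s * n) * s' := by rw [hsn]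
      _ = (s' * s) * n * s' := by noncomm_ring
      _ = n * s' := by rw [hs's, one_mul]
    have hcomm : Commute s' T := by
      change s' * T = T * s'
      rw [hT, mul_add, add_mul, hs's, hss', hs'n]
    have hv : 1 + s' * n = s' * T := by rw [hT, mul_add, hs's]
    have hvd : (s' * n) ^ d = 0 := by
      have h1 : Commute s' n := hs'n
      rw [h1.mul_pow, hd, mul_zero]
    obtain ⟨u₀, hu₀, hu₀'⟩ := hne
    have hn0 : n u₀ ≠ 0 := by
      intro h
      apply hu₀'
      rw [hT, LinearMap.add_apply, hUs u₀ hu₀, h, add_zero]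
    have hex : ∃ j : ℕ, (n ^ j) u₀ = 0 := ⟨d, by rw [hd]; rfl⟩
    obtain ⟨j, hj⟩ : ∃ j, j = Nat.find hex := ⟨_, rfl⟩
    have hjs : (n ^ j) u₀ = 0 := by rw [hj]; exact Nat.find_spec hex
    have hj2 : 2 ≤ j := by
      by_contra hcon
      have h1 : j = 0 ∨ j = 1 := by omega
      rcases h1 with h1 | h1
      · rw [h1, pow_zero, Module.End.one_apply] at hjs
        rw [hjs, map_zero] at hn0
        exact hn0 rfl
      · rw [h1, pow_one] at hjs
        exact hn0 hjs
    have hj1 : (n ^ (j - 1)) u₀ ≠ 0 := fun h => by
      have h2 := Nat.find_min' hex h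
      omega
    obtain ⟨u, hud⟩ : ∃ u, u = (n ^ (j - 2)) u₀ := ⟨_, rfl⟩
    have hnU : ∀ k : ℕ, (n ^ k) u₀ ∈ U := by
      intro k
      induction k with
      | zero => exact hu₀
      | succ k ih =>
        rw [pow_succ', Module.End.mul_apply]
        exact (hst U hU _ ih).2
    have huU : u ∈ U := by rw [hud]; exact hnU _
    have hnu : n u ≠ 0 := by
      rw [hud, ← Module.End.mul_apply, ← pow_succ']
      have h1 : j - 2 + 1 = j - 1 := by omega
      rw [h1]
      exact hj1
    have hnnu : n (n u) = 0 := by
      have h1 : n (n u) = (n ^ j) u₀ := by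
        rw [hud, ← Module.End.mul_apply, ← Module.End.mul_apply, ← pow_two, ← pow_add]
        have h2 : 2 + (j - 2) = j := by omega
        rw [h2]
      rw [h1, hjs]
    have hs'U : ∀ u ∈ U, s' u = u := by
      intro u hu
      have h1 := congrArg (fun F : Module.End K X => F u) hs's
      have h2 : s' (s u) = u := h1
      rwa [hUs u hu] at h2
    have hvu : (s' * n) u = n u := by
      rw [Module.End.mul_apply]
      exact hs'U _ (hst U hU u huU).2
    have hvvu : ∀ k : ℕ, 2 ≤ k → ((s' * n) ^ k) u = 0 := by
      intro k hk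
      obtain ⟨k', rfl⟩ : ∃ k', k = k' + 2 := ⟨k - 2, by omega⟩
      rw [pow_add, Module.End.mul_apply, pow_two, Module.End.mul_apply, hvu,
        Module.End.mul_apply, hnnu, map_zero, map_zero]
    have hd2 : 2 ≤ d := by
      by_contra hcon
      have h1 : d = 0 ∨ d = 1 := by omega
      rcases h1 with h1 | h1
      · rw [h1, pow_zero] at hd
        have h2 := congrArg (fun F : Module.End K X => F (n u)) hd
        exact hnu h2
      · rw [h1, pow_one] at hd
        rw [hd] at hnu
        exact hnu rfl
    refine ⟨∑ j : Fin d, lc K j • (s' * n) ^ (j : ℕ), ?_, u, huU, ?_⟩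
    · intro m φ hφ
      obtain ⟨M, hM0, hM, hprod⟩ := key m φ hφ
      refine log_kills hvd hM0 fun w => ?_
      have hsM : ∀ w, φ (fun k => (s ^ M) (w k)) = φ w := by
        have h1 : φ.compLinearMap (fun _ => s ^ M) = φ := by
          refine Basis.ext_multilinear (fun _ => b) fun I => ?_
          change φ (fun k => (s ^ M) (b (I k))) = φ (fun k => b (I k))
          have h2 : ∀ i, ∀ r : ℕ, (s ^ r) (b i) = ((a i : K) ^ r) • b i := by
            intro i r
            induction r with
            | zero => rw [pow_zero, pow_zero, one_smul]; rfl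
            | succ r ih =>
              rw [pow_succ', Module.End.mul_apply, ih, map_smul, hb, smul_smul, pow_succ]
          have h3 : (fun k => (s ^ M) (b (I k))) = fun k => ((a (I k) : K) ^ M) • b (I k) := by
            funext k
            exact h2 _ _
          rw [h3, MultilinearMap.map_smul_univ, smul_eq_mul]
          by_cases h0 : φ (fun k => b (I k)) = 0
          · rw [h0, mul_zero]
          · have h4 := congrArg (fun y : Kˣ => (y : K)) (hprod I h0)
            push_cast at h4
            rw [h4, one_mul]
        intro w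
        exact congrArg (fun ψ : MultilinearMap K (fun _ : Fin m × Fin 2 => X) K => ψ w) h1
      have hs'M : ∀ w, φ (fun k => (s' ^ M) (w k)) = φ w := by
        intro w
        rw [← hsM (fun k => (s' ^ M) (w k))]
        congr 1
        funext k
        rw [← Module.End.mul_apply]
        have h1 : Commute s s' := by
          change s * s' = s' * s
          rw [hss', hs's]
        rw [← h1.mul_pow, hss', one_pow]
        rfl
      rw [hv, hcomm.mul_pow, ← hM w]
      exact hs'M (fun k => (T ^ M) (w k))
    · rw [LinearMap.sum_apply, Finset.sum_eq_single (⟨1, by omega⟩ : Fin d)]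
      · rw [LinearMap.smul_apply]
        change lc K 1 • ((s' * n) ^ 1) u ≠ 0
        rw [lc_one, one_smul, pow_one, hvu]
        exact hnu
      · intro k _ hk
        rw [LinearMap.smul_apply]
        by_cases h0 : (k : ℕ) = 0
        · rw [h0, lc_zero, zero_smul]
        · rw [hvvu k (by
            have h1 : (k : ℕ) ≠ 1 := fun h => hk (Fin.ext h)
            omega), smul_zero]
      · intro h
        exact absurd (Finset.mem_univ _) h

end jordan

end

end Pool.Agent.R930
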