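import Mathlib
import Pool.Agent.W529.Ta.Clifford
import Pool.Agent.Y126.Notions

/-!
# Restriction of semisimple representations to normal subgroups
-/

set_option linter.unusedSectionVars false
set_option linter.deprecated false

namespace Pool.Agent.R930

open Module Pool.Agent.H204R3.GP Pool.Agent.W529.Ta

noncomputable section

/-- **Clifford's theorem** for normal subgroups. -/
theorem clifford_normal {k : Type*} [Field k] [CharZero k] {W : Type*} [AddCommGroup W] [Module k W]
    [FiniteDimensional k W] {Γ : Type*} [Group Γ] (T : Representation k Γ W)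
    (hss : ∀ U : Submodule k W, (∀ s, ∀ u ∈ U, T s u ∈ U) →
      ∃ U' : Submodule k W, (∀ s, ∀ u ∈ U', T s u ∈ U') ∧ IsCompl U U')
    (Δ0 : Subgroup Γ) (hΔ0n : Δ0.Normal) : SemiUnder (T '' (Δ0 : Set Γ)) := by
  classical
  intro U hU
  obtain ⟨A, hA⟩ : ∃ A : Subalgebra k (Module.End k W), A = Algebra.adjoin k (T '' (Δ0 : Set Γ)) :=
    ⟨_, rfl⟩
  have hTT : ∀ (s t : Γ), T s * T t = T (s * t) := fun s t => (map_mul T s t).symm
  have hTi : ∀ s : Γ, T s⁻¹ * T s = 1 := fun s => by rw [hTT, inv_mul_cancel, map_one]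
  have hTi' : ∀ s : Γ, T s * T s⁻¹ = 1 := fun s => by rw [hTT, mul_inv_cancel, map_one]
  have hconj : ∀ g : Γ, ∀ x ∈ A, T g * x * T g⁻¹ ∈ A := by
    intro g x hx
    rw [hA] at hx
    induction hx using Algebra.adjoin_induction with
    | mem x hx =>
      obtain ⟨s, hs, rfl⟩ := hx
      rw [hTT, hTT, hA]
      exact Algebra.subset_adjoin ⟨_, hΔ0n.conj_mem s hs g, rfl⟩
    | algebraMap c =>
      rw [← Algebra.commutes, mul_assoc, hTi', mul_one]
      exact A.algebraMap_mem c
    | add x y _ _ hx hy =>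
      rw [mul_add, add_mul]
      exact A.add_mem hx hy
    | mul x y _ _ hx hy =>
      have e1 : T g * (x * y) * T g⁻¹ = (T g * x * T g⁻¹) * (T g * y * T g⁻¹) := by
        calc T g * (x * y) * T g⁻¹ = T g * x * (1 * y * T g⁻¹) := by
              rw [one_mul, mul_assoc, mul_assoc, mul_assoc]
          _ = T g * x * ((T g⁻¹ * T g) * y * T g⁻¹) := by rw [hTi]
          _ = _ := by simp only [mul_assoc]
      rw [e1]
      exact A.mul_mem hx hy
  -- conjugation preserves the radical
  have hJ : ∀ (g : Γ) (x : A), x ∈ Ring.jacobson A →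
      (⟨T g * x * T g⁻¹, hconj g x x.2⟩ : A) ∈ Ring.jacobson A := by
    intro g x hx
    rw [← Ideal.jacobson_bot, Ideal.mem_jacobson_iff] at hx ⊢
    intro y
    obtain ⟨z, hz⟩ := hx ⟨T g⁻¹ * y * T g⁻¹⁻¹, hconj g⁻¹ y y.2⟩
    refine ⟨⟨T g * z * T g⁻¹, hconj g z z.2⟩, ?_⟩
    rw [Submodule.mem_bot] at hz ⊢
    have h1 : (z : Module.End k W) * (T g⁻¹ * (y : Module.End k W) * T g⁻¹⁻¹) *
        (x : Module.End k W) + z - 1 = 0 := congrArg (fun w : A => (w : Module.End k W)) hz
    rw [inv_inv] at h1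
    apply Subtype.ext
    change (T g * (z : Module.End k W) * T g⁻¹) * (y : Module.End k W) *
      (T g * (x : Module.End k W) * T g⁻¹) + (T g * (z : Module.End k W) * T g⁻¹) - 1 = 0
    have h2 : T g * ((z : Module.End k W) * (T g⁻¹ * (y : Module.End k W) * T g) *
        (x : Module.End k W) + z - 1) * T g⁻¹ = 0 := by
      rw [h1, mul_zero, zero_mul]
    rw [← h2, mul_sub, mul_add, sub_mul, add_mul, mul_one, hTi']
    simp only [mul_assoc]
  have hart : IsArtinianRing A := IsArtinianRing.of_finite k A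
  have hsp : IsSemiprimaryRing A := inferInstance
  obtain ⟨n, hn⟩ := hsp.isNilpotent
  -- the radical times `W`
  let JW : ℕ → Submodule k W := fun i =>
    Submodule.span k {w | ∃ (x : A) (v : W), x ∈ Ring.jacobson A ^ i ∧ w = (x : Module.End k W) v}
  have hJst : ∀ s, ∀ u ∈ JW 1, T s u ∈ JW 1 := by
    intro s u hu
    induction hu using Submodule.span_induction with
    | mem u hu =>
      obtain ⟨x, v, hx, rfl⟩ := hu
      rw [Submodule.pow_one] at hx
      refine Submodule.subset_span ⟨⟨T s * x * T s⁻¹, hconj s x x.2⟩, T s v, ?_, ?_⟩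
      · rw [Submodule.pow_one]
        exact hJ s x hx
      · change T s ((x : Module.End k W) v) = T s ((x : Module.End k W) (T s⁻¹ (T s v)))
        have h1 : T s⁻¹ (T s v) = v := by
          have h2 := congrArg (fun F : Module.End k W => F v) (hTi s)
          exact h2
        rw [h1]
    | zero => rw [map_zero]; exact Submodule.zero_mem _
    | add a b _ _ ha hb => rw [map_add]; exact Submodule.add_mem _ ha hb
    | smul c a _ ha => rw [map_smul]; exact Submodule.smul_mem _ _ ha
  obtain ⟨C, hC, hJC⟩ := hss (JW 1) hJst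
  have hCA : ∀ x ∈ A, ∀ c ∈ C, x c ∈ C := by
    intro x hx
    rw [hA] at hx
    induction hx using Algebra.adjoin_induction with
    | mem x hx =>
      obtain ⟨s, hs, rfl⟩ := hx
      exact hC s
    | algebraMap c => exact fun u hu => C.smul_mem c hu
    | add x y _ _ hx hy => exact fun u hu => C.add_mem (hx u hu) (hy u hu)
    | mul x y _ _ hx hy => exact fun u hu => hx _ (hy u hu)
  have hJC0 : ∀ x : A, x ∈ Ring.jacobson A → ∀ c ∈ C, (x : Module.End k W) c = 0 := by
    intro x hx c hc
    refine (Submodule.disjoint_def.1 hJC.disjoint) _ ?_ (hCA x x.2 c hc)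
    exact Submodule.subset_span ⟨x, c, by rw [Submodule.pow_one]; exact hx, rfl⟩
  have hmul : ∀ x : A, x ∈ Ring.jacobson A → ∀ i, ∀ y ∈ JW i,
      (x : Module.End k W) y ∈ JW (i + 1) := by
    intro x hx i y hy
    induction hy using Submodule.span_induction with
    | mem u hu =>
      obtain ⟨z, w, hz, rfl⟩ := hu
      refine Submodule.subset_span ⟨x * z, w, ?_, rfl⟩
      rw [Ideal.IsTwoSided.pow_succ]
      exact Ideal.mul_mem_mul hx hz
    | zero => rw [map_zero]; exact Submodule.zero_mem _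
    | add a b _ _ ha hb => rw [map_add]; exact Submodule.add_mem _ ha hb
    | smul c a _ ha => rw [map_smul]; exact Submodule.smul_mem _ _ ha
  have hstep : ∀ i, JW 1 ≤ JW i := by
    intro i
    induction i with
    | zero =>
      refine Submodule.span_le.2 ?_
      rintro _ ⟨x, v, _, rfl⟩
      refine Submodule.subset_span ⟨x, v, ?_, rfl⟩
      rw [Submodule.pow_zero, Ideal.one_eq_top]
      trivial
    | succ i ih =>
      refine Submodule.span_le.2 ?_
      rintro _ ⟨x, v, hx, rfl⟩
      rw [Submodule.pow_one] at hx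
      have hv : v ∈ JW 1 ⊔ C := by rw [hJC.sup_eq_top]; trivial
      obtain ⟨y, hy, c, hc, rfl⟩ := Submodule.mem_sup.1 hv
      rw [map_add, hJC0 x hx c hc, add_zero]
      exact hmul x hx i y (ih hy)
  have hJ0 : Ring.jacobson A = ⊥ := by
    rw [eq_bot_iff]
    intro x hx
    rw [Submodule.mem_bot]
    apply Subtype.ext
    refine LinearMap.ext fun v => ?_
    have h1 : (x : Module.End k W) v ∈ JW n :=
      hstep n (Submodule.subset_span ⟨x, v, by rw [Submodule.pow_one]; exact hx, rfl⟩)
    have h2 : JW n ≤ ⊥ := by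
      refine Submodule.span_le.2 ?_
      rintro _ ⟨z, w, hz, rfl⟩
      rw [hn] at hz
      have h3 : z = 0 := hz
      rw [h3]
      rfl
    exact h2 h1
  have hssA : IsSemisimpleRing A := IsArtinianRing.isSemisimpleRing_iff_jacobson.2 hJ0
  have hUA : ∀ x ∈ A, ∀ u ∈ U, x u ∈ U := by
    intro x hx
    rw [hA] at hx
    induction hx using Algebra.adjoin_induction with
    | mem x hx =>
      obtain ⟨s, hs, rfl⟩ := hx
      exact hU _ ⟨s, hs, rfl⟩
    | algebraMap c => exact fun u hu => U.smul_mem c hu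
    | add x y _ _ hx hy => exact fun u hu => U.add_mem (hx u hu) (hy u hu)
    | mul x y _ _ hx hy => exact fun u hu => hx _ (hy u hu)
  obtain ⟨P, hP1, hP2, hP3⟩ := exists_proj_of_semisimple A U hUA
  refine compl_of_proj _ U P hP1 hP2 ?_
  rintro _ ⟨s, hs, rfl⟩ v
  exact hP3 _ (by rw [hA]; exact Algebra.subset_adjoin ⟨s, hs, rfl⟩) v

/-- Restriction of potentially semisimple representations to normal subgroups. -/
theorem semisimple_normal {k V Γ : Type} [Field k] [CharZero k] [AddCommGroup V] [Module k V]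
    [FiniteDimensional k V] [Group Γ] (ρ : Representation k Γ V) (N : Subgroup Γ)
    (hN : N.Normal) (hss : Pool.Agent.Y126.Notions.PotentiallySemisimple ρ) :
    Pool.Agent.Y126.Notions.PotentiallySemisimple (ρ.comp N.subtype : Representation k N V) := by
  have h1 : ∀ U : Submodule k V, (∀ s, ∀ u ∈ U, ρ s u ∈ U) →
      ∃ U' : Submodule k V, (∀ s, ∀ u ∈ U', ρ s u ∈ U') ∧ IsCompl U U' := by
    intro U hU
    obtain ⟨U', h2, h3⟩ := hss ⊤ inferInstance U (fun s _ => hU s)
    exact ⟨U', fun s => h2 s trivial, h3⟩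
  have h2 := clifford_normal ρ h1 N hN
  have h3 : ∀ U : Submodule k V, (∀ s : N, ∀ u ∈ U, (ρ.comp N.subtype : Representation k N V) s u ∈ U) →
      ∃ U' : Submodule k V, (∀ s : N, ∀ u ∈ U', (ρ.comp N.subtype : Representation k N V) s u ∈ U') ∧
        IsCompl U U' := by
    intro U hU
    obtain ⟨U', h4, h5⟩ := h2 U (by
      rintro _ ⟨s, hs, rfl⟩ u hu
      exact hU ⟨s, hs⟩ u hu)
    exact ⟨U', fun s u hu => h4 _ ⟨s.1, s.2, rfl⟩ u hu, h5⟩
  intro Δ hΔ U hU
  obtain ⟨U', h4, h5⟩ := Pool.Agent.W529.Ta.clifford (ρ.comp N.subtype : Representation k N V) h3 Δ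
    hΔ U (by
    rintro _ ⟨s, hs, rfl⟩ u hu
    exact hU s hs u hu)
  exact ⟨U', fun s hs u hu => h4 _ ⟨s, hs, rfl⟩ u hu, h5⟩

end

end Pool.Agent.R930
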