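import Mathlib
import Pool.Agent.R930.Coprime

/-!
# Two eigenvalues of coprime multiplicities: the key lemma
-/

set_option linter.unusedSectionVars false

namespace Pool.Agent.R930

open Module Pool.Agent.W528.Odd Pool.Agent.Y126.OT

noncomputable section

theorem arith {a b d m k : ℕ} (hcop : Nat.Coprime a b) (hm : 1 ≤ m)
    (hk : k + 2 * m ≤ a + b) (h : a * b * (2 + k) = d * (b * m + a * m)) : m = 1 := by
  have h1 : d * (b * m + a * m) = d * m * (a + b) := by ring
  rw [h1] at h
  have hab : Nat.Coprime (a + b) (a * b) := by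
    refine Nat.Coprime.mul_right ?_ ?_
    · rw [Nat.coprime_self_add_left]
      exact hcop.symm
    · rw [Nat.coprime_add_self_left]
      exact hcop
  have h2 : (a + b) ∣ a * b * (2 + k) := ⟨d * m, by rw [h]; ring⟩
  have h3 : (a + b) ∣ (2 + k) := hab.dvd_of_dvd_mul_left h2
  have h4 : a + b ≤ 2 + k := Nat.le_of_dvd (by omega) h3
  omega

variable {K : Type} [Field K] [CharZero K] [IsAlgClosed K] {V : Type} [AddCommGroup V] [Module K V]
  [FiniteDimensional K V]
  {𝔥 : Submodule K (Module.End K V)} (hbr : ∀ X ∈ 𝔥, ∀ Y ∈ 𝔥, X * Y - Y * X ∈ 𝔥)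
  (hirr : ∀ W : Submodule K V, (∀ Y ∈ 𝔥, ∀ u ∈ W, Y u ∈ W) → W = ⊥ ∨ W = ⊤)
  (hnd : ∀ z ∈ 𝔥, (∀ y ∈ 𝔥, LinearMap.trace K V (z * y) = 0) → z = 0)
  {x : Module.End K V} (hx : x * x = (1 / 4 : K) • 1) (hxm : x ∈ 𝔥)

include hbr hnd hx hxm in
/-- A partner of an element of minimal rank. -/
theorem exists_partner {e : Module.End K V} (he : e ∈ Wp 𝔥 x) (he0 : e ≠ 0)
    (hmin : ∀ a ∈ Wp 𝔥 x, a ≠ 0 → rk e ≤ rk a) :
    (∀ y ∈ Wm 𝔥 x, ∃ c : K, e * y * e = c • e) ∧
    ∃ f ∈ Wm 𝔥 x, e * f * e = e ∧ f * e * f = f := by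
  have hext : ∀ y ∈ Wm 𝔥 x, ∃ c : K, e * y * e = c • e := fun y hy =>
    extremal (Wp 𝔥 x) he he0 hmin y (eye_p hbr hx he hy)
  refine ⟨hext, ?_⟩
  obtain ⟨y, hy, hty⟩ : ∃ y ∈ Wm 𝔥 x, LinearMap.trace K V (e * y) ≠ 0 := by
    by_contra hcon
    push Not at hcon
    exact he0 (nd_p hbr hnd hx hxm he hcon)
  obtain ⟨c, hc⟩ := hext y hy
  have hc0 : c ≠ 0 := by
    rintro rfl
    rw [zero_smul] at hc
    apply hty
    have h1 : IsNilpotent (e * y) := ⟨2, by
      rw [pow_two, ← mul_assoc, hc, zero_mul]⟩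
    exact (LinearMap.isNilpotent_trace_of_isNilpotent h1).eq_zero
  obtain ⟨f₀, hf₀⟩ : ∃ f₀, f₀ = c⁻¹ • y := ⟨_, rfl⟩
  have hf₀m : f₀ ∈ Wm 𝔥 x := by rw [hf₀]; exact Submodule.smul_mem _ _ hy
  have h1 : e * f₀ * e = e := by
    rw [hf₀, mul_smul_comm, smul_mul_assoc, hc, smul_smul, inv_mul_cancel₀ hc0, one_smul]
  refine ⟨f₀ * e * f₀, eye_m hbr hx hf₀m he, ?_, ?_⟩
  · calc e * (f₀ * e * f₀) * e = (e * f₀ * e) * f₀ * e := by noncomm_ring
    _ = e := by rw [h1, h1]
  · calc f₀ * e * f₀ * e * (f₀ * e * f₀) = f₀ * ((e * f₀ * e) * f₀ * e) * f₀ := by noncomm_ring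
    _ = _ := by rw [h1, h1]

include hbr hirr hnd hx hxm in
/-- **The key lemma.** The minimal rank of the elements of degree one. -/
theorem exists_numbers (hn1 : e1 x ≠ 0) (hn0 : e0 x ≠ 0) :
    ∃ e ∈ Wp 𝔥 x, e ≠ 0 ∧ (∀ y ∈ Wp 𝔥 x, y ≠ 0 → rk e ≤ rk y) ∧ ∃ k N : ℕ,
      k + 2 * rk e ≤ finrank K (LinearMap.range (e1 x)) + finrank K (LinearMap.range (e0 x)) ∧
      finrank K (LinearMap.range (e1 x)) * finrank K (LinearMap.range (e0 x)) * (2 + k) =
        N * (finrank K (LinearMap.range (e0 x)) * rk e +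
          finrank K (LinearMap.range (e1 x)) * rk e) := by
  classical
  obtain ⟨e, ⟨he, he0⟩, hmin⟩ : ∃ e, (e ∈ Wp 𝔥 x ∧ e ≠ 0) ∧
      ∀ y, (y ∈ Wp 𝔥 x ∧ y ≠ 0) → rk e ≤ rk y := by
    obtain ⟨y, hy, hy0⟩ := exists_yp hirr hx hn1 hn0
    have hne : {y : Module.End K V | y ∈ Wp 𝔥 x ∧ y ≠ 0}.Nonempty :=
      ⟨yp x y, ⟨yp_mem hx hbr hxm hy, yp_yp hx y⟩, hy0⟩
    obtain ⟨e, he, hmin⟩ := WellFounded.has_min (measure (fun y : Module.End K V => rk y)).wf _ hne
    exact ⟨e, he, fun y hy => not_lt.1 (hmin y hy)⟩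
  obtain ⟨hext, f, hf, hefe, hfef⟩ := exists_partner hbr hnd hx hxm he he0
    (fun a ha ha0 => hmin a ⟨ha, ha0⟩)
  obtain ⟨p, hp⟩ : ∃ p, p = e * f := ⟨_, rfl⟩
  obtain ⟨q, hq⟩ : ∃ q, q = f * e := ⟨_, rfl⟩
  have hpp : p * p = p := by rw [hp, ← mul_assoc, hefe]
  have hqq : q * q = q := by rw [hq, ← mul_assoc, hfef]
  have hpe : p * e = e := by rw [hp, hefe]
  have heq : e * q = e := by rw [hq, ← mul_assoc, hefe]
  have hqf : q * f = f := by rw [hq, hfef]
  have hfp : f * p = f := by rw [hp, ← mul_assoc, hfef]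
  have hpE : p * e1 x = p := by rw [hp, mul_assoc, Wm_e1 hx hf]
  have hEp : e1 x * p = p := by rw [hp, ← mul_assoc, Wp_e1 hx he]
  have hqE : q * e0 x = q := by rw [hq, mul_assoc, Wp_e0 hx he]
  have hEq : e0 x * q = q := by rw [hq, ← mul_assoc, Wm_e0 hx hf]
  -- the operators
  have hTmem : ∀ z ∈ Wp 𝔥 x, p * z + z * q ∈ Wp 𝔥 x := by
    intro z hz
    have h1 := tri_p hbr hx he hf hz
    rwa [← hp, mul_assoc z, ← hq] at h1
  have h2mem : ∀ z ∈ Wp 𝔥 x, p * z * q ∈ Wp 𝔥 x := by
    intro z hz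
    have h1 := eye_p hbr hx he (eye_m hbr hx hf hz)
    have h2 : e * (f * z * f) * e = p * z * q := by rw [hp, hq]; noncomm_ring
    rwa [h2] at h1
  have hone : ∀ z ∈ Wp 𝔥 x, p * z * q = z → ∃ c : K, z = c • e := by
    intro z hz h
    obtain ⟨c, hc⟩ := hext _ (eye_m hbr hx hf hz)
    refine ⟨c, ?_⟩
    rw [← hc, ← h, hp, hq]
    have h3 : f * (e * f * z * (f * e)) * f = (f * e * f) * z * (f * e * f) := by noncomm_ring
    rw [h3, hfef]
    noncomm_ring
  obtain ⟨T, hT⟩ : ∃ T : Wp 𝔥 x →ₗ[K] Wp 𝔥 x, ∀ z : Wp 𝔥 x,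
      ((T z : Wp 𝔥 x) : Module.End K V) = p * z + z * q :=
    ⟨{ toFun := fun z => ⟨p * z + z * q, hTmem z z.2⟩
       map_add' := fun z y => Subtype.ext (by
        change p * ((z : Module.End K V) + y) + (z + y) * q = (p * z + z * q) + (p * y + y * q)
        noncomm_ring)
       map_smul' := fun c z => Subtype.ext (by
        change p * (c • (z : Module.End K V)) + (c • (z : Module.End K V)) * q =
          c • (p * z + z * q)
        rw [mul_smul_comm, smul_mul_assoc, smul_add]) }, fun _ => rfl⟩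
  obtain ⟨π2, hπ2⟩ : ∃ T : Wp 𝔥 x →ₗ[K] Wp 𝔥 x, ∀ z : Wp 𝔥 x,
      ((T z : Wp 𝔥 x) : Module.End K V) = p * z * q :=
    ⟨{ toFun := fun z => ⟨p * z * q, h2mem z z.2⟩
       map_add' := fun z y => Subtype.ext (by
        change p * ((z : Module.End K V) + y) * q = p * z * q + p * y * q
        noncomm_ring)
       map_smul' := fun c z => Subtype.ext (by
        change p * (c • (z : Module.End K V)) * q = c • (p * z * q)
        rw [mul_smul_comm, smul_mul_assoc]) }, fun _ => rfl⟩
  obtain ⟨π1, hπ1e⟩ : ∃ π1, π1 = T - (2 : K) • π2 := ⟨_, rfl⟩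
  have hπ1 : ∀ z : Wp 𝔥 x, ((π1 z : Wp 𝔥 x) : Module.End K V) =
      p * z + z * q - (2 : K) • (p * z * q) := by
    intro z
    rw [hπ1e, ← hT, ← hπ2]
    rfl
  have hTeq : T = (2 : K) • π2 + π1 := by
    rw [hπ1e]
    abel
  have hid2 : π2 * π2 = π2 := by
    refine LinearMap.ext fun z => Subtype.ext ?_
    rw [Module.End.mul_apply, hπ2, hπ2]
    calc p * (p * z * q) * q = (p * p) * z * (q * q) := by noncomm_ring
    _ = _ := by rw [hpp, hqq]
  have hx1 : ∀ z : Wp 𝔥 x, p * ((π1 z : Wp 𝔥 x) : Module.End K V) * q = 0 := by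
    intro z
    rw [hπ1]
    have h3 : p * (p * z + z * q - (2 : K) • (p * z * q)) * q =
        (p * p) * z * q + p * z * (q * q) - (2 : K) • ((p * p) * z * (q * q)) := by
      rw [mul_sub, sub_mul, mul_smul_comm, smul_mul_assoc]
      noncomm_ring
    rw [h3, hpp, hqq, two_smul]
    abel
  have hid1 : π1 * π1 = π1 := by
    refine LinearMap.ext fun z => Subtype.ext ?_
    rw [Module.End.mul_apply, hπ1 (π1 z), hx1, smul_zero, sub_zero, hπ1]
    have h3 : p * (p * z + z * q - (2 : K) • (p * z * q)) +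
        (p * z + z * q - (2 : K) • (p * z * q)) * q =
        (p * p) * z + p * z * q - (2 : K) • ((p * p) * z * q) +
        (p * z * q + z * (q * q) - (2 : K) • (p * z * (q * q))) := by
      rw [mul_sub, sub_mul, mul_smul_comm, smul_mul_assoc]
      noncomm_ring
    rw [h3, hpp, hqq, two_smul]
    abel
  have hW1 : ∀ z : Wp 𝔥 x, z ∈ LinearMap.range π1 → p * (z : Module.End K V) * q = 0 ∧
      p * (z : Module.End K V) + z * q = z := by
    rintro _ ⟨z, rfl⟩
    refine ⟨hx1 z, ?_⟩
    have h3 := congrArg Subtype.val (congrArg (fun F : Module.End K (Wp 𝔥 x) => F z) hid1)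
    change ((π1 (π1 z) : Wp 𝔥 x) : Module.End K V) = _ at h3
    rw [hπ1 (π1 z), hx1, smul_zero, sub_zero] at h3
    exact h3
  -- the dimensions
  have htr2 : finrank K (LinearMap.range π2) = 1 := by
    have hmem : (⟨e, he⟩ : Wp 𝔥 x) ∈ LinearMap.range π2 := ⟨⟨e, he⟩, Subtype.ext (by
      rw [hπ2]
      change p * e * q = e
      rw [hpe, heq])⟩
    have hsp : LinearMap.range π2 = Submodule.span K {(⟨e, he⟩ : Wp 𝔥 x)} := by
      apply le_antisymm
      · rintro _ ⟨y, rfl⟩
        obtain ⟨c, hc⟩ := hone _ (π2 y).2 (by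
          have h3 := congrArg Subtype.val (congrArg (fun F : Module.End K (Wp 𝔥 x) => F y) hid2)
          change ((π2 (π2 y) : Wp 𝔥 x) : Module.End K V) = _ at h3
          rw [hπ2 (π2 y)] at h3
          exact h3)
        rw [Submodule.mem_span_singleton]
        exact ⟨c, Subtype.ext hc.symm⟩
      · rw [Submodule.span_le, Set.singleton_subset_iff]
        exact hmem
    rw [hsp]
    exact finrank_span_singleton fun h0 => he0 (congrArg (fun z : Wp 𝔥 x => (z : Module.End K V)) h0)
  obtain ⟨k, hk⟩ : ∃ k, k = finrank K (LinearMap.range π1) := ⟨_, rfl⟩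
  obtain ⟨m, hm⟩ : ∃ m, m = rk e := ⟨_, rfl⟩
  have hrp : rk p = rk e := by
    apply le_antisymm
    · rw [hp]
      exact Submodule.finrank_mono (LinearMap.range_comp_le_range f e)
    · conv_lhs => rw [← hpe]
      exact Submodule.finrank_mono (LinearMap.range_comp_le_range e p)
  have hrq : LinearMap.trace K V q = LinearMap.trace K V p := by
    rw [hq, hp, LinearMap.trace_mul_comm]
  have htrp : LinearMap.trace K V p = m := by rw [trace_range hpp, hm, ← hrp]; rfl
  have htrq : LinearMap.trace K V q = m := by rw [hrq, htrp]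
  have hm1 : 1 ≤ m := by
    rw [Nat.one_le_iff_ne_zero, hm]
    intro h
    exact he0 (rk_eq_zero.1 h)
  have htrT : LinearMap.trace K _ T = 2 + k := by
    rw [hTeq, map_add, map_smul, trace_range hid2, trace_range hid1, htr2, ← hk, smul_eq_mul]
    push_cast
    ring
  obtain ⟨a, ha⟩ : ∃ a, a = finrank K (LinearMap.range (e1 x)) := ⟨_, rfl⟩
  obtain ⟨b, hb⟩ : ∃ b, b = finrank K (LinearMap.range (e0 x)) := ⟨_, rfl⟩
  -- the bound
  have hbound : k + 2 * m ≤ a + b := by
    obtain ⟨v₀, hv₀⟩ : ∃ v, e v ≠ 0 := by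
      by_contra hcon
      push Not at hcon
      exact he0 (LinearMap.ext hcon)
    obtain ⟨v, hv⟩ : ∃ v, v = q v₀ := ⟨_, rfl⟩
    have hqv : q v = v := by rw [hv, ← Module.End.mul_apply, hqq]
    have hev : e v ≠ 0 := by rw [hv, ← Module.End.mul_apply, heq]; exact hv₀
    obtain ⟨w₀, hw₀⟩ : ∃ w₀ : Dual K V, w₀ (e v) ≠ 0 := by
      by_contra hcon
      push Not at hcon
      exact hev ((Module.forall_dual_apply_eq_zero_iff K _).1 hcon)
    obtain ⟨w, hw⟩ : ∃ w : Dual K V, w = w₀.comp p := ⟨_, rfl⟩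
    have hwp : w.comp p = w := by
      rw [hw, LinearMap.comp_assoc]
      congr 1
    have hwp' : ∀ u, w (p u) = w u := fun u => congrArg (fun F : Dual K V => F u) hwp
    have hwev : w (e v) ≠ 0 := by
      rw [hw, LinearMap.comp_apply, ← Module.End.mul_apply, hpe]
      exact hw₀
    obtain ⟨A, hA⟩ : ∃ A : Submodule K V, A = LinearMap.range (e1 x - p) := ⟨_, rfl⟩
    obtain ⟨B, hB⟩ : ∃ B : Submodule K V, B = LinearMap.range (e0 x - q) := ⟨_, rfl⟩
    have hAid : (e1 x - p) * (e1 x - p) = e1 x - p := by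
      rw [mul_sub, sub_mul, sub_mul, e1_mul_e1 hx, hpE, hEp, hpp]
      abel
    have hBid : (e0 x - q) * (e0 x - q) = e0 x - q := by
      rw [mul_sub, sub_mul, sub_mul, e0_mul_e0 hx, hqE, hEq, hqq]
      abel
    have hAdim : finrank K A + m = a := by
      have h1 := trace_range hAid
      rw [map_sub, trace_range (e1_mul_e1 hx), htrp, ← ha, ← hA, sub_eq_iff_eq_add] at h1
      exact_mod_cast h1.symm
    have hBdim : finrank K B + m = b := by
      have h1 := trace_range hBid
      rw [map_sub, trace_range (e0_mul_e0 hx), htrq, ← hb, ← hB, sub_eq_iff_eq_add] at h1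
      exact_mod_cast h1.symm
    -- the map
    let Ψ : LinearMap.range π1 →ₗ[K] A × Dual K B :=
      { toFun := fun z => (⟨((z : Wp 𝔥 x) : Module.End K V) v, by
          obtain ⟨h1, h2⟩ := hW1 z.1 z.2
          rw [hA]
          refine ⟨((z : Wp 𝔥 x) : Module.End K V) v, ?_⟩
          rw [LinearMap.sub_apply, ← Module.End.mul_apply, Wp_e1 hx z.1.2]
          have h5 : p (((z : Wp 𝔥 x) : Module.End K V) v) = 0 := by
            have h6 : p (((z : Wp 𝔥 x) : Module.End K V) v) =
                (p * ((z : Wp 𝔥 x) : Module.End K V) * q) v := by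
              conv_lhs => rw [← hqv]
              rfl
            rw [h6, h1]
            rfl
          rw [h5, sub_zero]⟩, (w.comp ((z : Wp 𝔥 x) : Module.End K V)).comp B.subtype)
        map_add' := fun z z' => by
          refine Prod.ext (Subtype.ext ?_) (LinearMap.ext fun u => ?_)
          · rfl
          · change w ((((z : Wp 𝔥 x) : Module.End K V) + ((z' : Wp 𝔥 x) : Module.End K V)) u) = _
            rw [LinearMap.add_apply, map_add]
            rfl
        map_smul' := fun c z => by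
          refine Prod.ext (Subtype.ext ?_) (LinearMap.ext fun u => ?_)
          · rfl
          · change w ((c • ((z : Wp 𝔥 x) : Module.End K V)) u) = _
            rw [LinearMap.smul_apply, map_smul]
            rfl }
    have hΨ0 : ∀ z', Ψ z' = 0 → z' = 0 := by
      intro z' hz'
      obtain ⟨h1, h2⟩ := hW1 z'.1 z'.2
      have hzv0 := congrArg Subtype.val (congrArg Prod.fst hz')
      have hzw0 := congrArg Prod.snd hz'
      obtain ⟨z, hz⟩ : ∃ z, z = ((z' : Wp 𝔥 x) : Module.End K V) := ⟨_, rfl⟩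
      have hzW : z ∈ Wp 𝔥 x := by rw [hz]; exact z'.1.2
      rw [← hz] at h1 h2
      have hzv : z v = 0 := by
        rw [hz]
        exact hzv0
      have hzw : ∀ u, w (z u) = 0 := by
        intro u
        have e1' : z u = z (q u) + z ((e0 x - q) u) := by
          rw [← map_add, LinearMap.sub_apply, add_sub_cancel, ← Module.End.mul_apply,
            Wp_e0 hx hzW]
        have e2 : w (z (q u)) = 0 := by
          rw [← hwp']
          change w ((p * z * q) u) = 0
          rw [h1, LinearMap.zero_apply, map_zero]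
        have e3 : w (z ((e0 x - q) u)) = 0 := by
          have h3 : (e0 x - q) u ∈ B := by rw [hB]; exact ⟨u, rfl⟩
          have h4 := congrArg (fun F : Dual K B => F ⟨_, h3⟩) hzw0
          rw [hz]
          exact h4
        rw [e1', map_add, e2, e3, add_zero]
      apply Subtype.ext
      apply Subtype.ext
      rw [← hz]
      change z = 0
      refine nd_p hbr hnd hx hxm hzW fun y hy => ?_
      obtain ⟨c, hc⟩ := hext y hy
      obtain ⟨y', hy'⟩ : ∃ y', y' = y - q * y * p := ⟨_, rfl⟩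
      have hqyp : q * y * p = c • f := by
        calc q * y * p = f * (e * y * e) * f := by rw [hq, hp]; noncomm_ring
        _ = c • f := by rw [hc, mul_smul_comm, smul_mul_assoc, hfef]
      have hy'm : y' ∈ Wm 𝔥 x := by
        rw [hy', hqyp]
        exact Submodule.sub_mem _ hy (Submodule.smul_mem _ _ hf)
      have hqyp' : q * y' * p = 0 := by
        rw [hy', mul_sub, sub_mul]
        have h3 : q * (q * y * p) * p = (q * q) * y * (p * p) := by noncomm_ring
        rw [h3, hqq, hpp, sub_self]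
      have htry : LinearMap.trace K V (z * y) = LinearMap.trace K V (z * y') := by
        have h3 : LinearMap.trace K V (z * (q * y * p)) = 0 := by
          have h4 : z * (q * y * p) = (z * q * y) * p := by noncomm_ring
          rw [h4, LinearMap.trace_mul_comm]
          have h5 : p * (z * q * y) = (p * z * q) * y := by noncomm_ring
          rw [h5, h1, zero_mul, map_zero]
        rw [hy', mul_sub, map_sub, h3, sub_zero]
      rw [htry]
      obtain ⟨t, ht⟩ : ∃ t, t = z * y' * e + e * y' * z := ⟨_, rfl⟩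
      have htW : t ∈ Wp 𝔥 x := by rw [ht]; exact tri_p hbr hx hzW hy'm he
      have h5 : q * y' * e = 0 := by
        rw [← hpe, ← mul_assoc, hqyp', zero_mul]
      have h6 : e * y' * p = 0 := by
        rw [← heq, mul_assoc e, mul_assoc e, hqyp', mul_zero]
      have h7 : z * y' * e = p * (z * y' * e) := by
        have h8 : (p * z + z * q) * y' * e = p * (z * y' * e) + z * (q * y' * e) := by
          noncomm_ring
        rw [h2, h5, mul_zero, add_zero] at h8
        exact h8
      have h8 : e * y' * z = e * y' * z * q := by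
        have h9 : e * y' * (p * z + z * q) = (e * y' * p) * z + e * y' * z * q := by
          noncomm_ring
        rw [h2, h6, zero_mul, zero_add] at h9
        exact h9
      have hptq : p * t * q = t := by
        rw [ht]
        have h9 : p * (z * y' * e + e * y' * z) * q =
            p * (z * y') * (e * q) + (p * e) * y' * z * q := by noncomm_ring
        rw [h9, heq, hpe, mul_assoc p, ← h7, ← h8]
      obtain ⟨c', hc'⟩ := hone t htW hptq
      have hwtv : w (t v) = 0 := by
        rw [ht, LinearMap.add_apply, Module.End.mul_apply, Module.End.mul_apply,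
          Module.End.mul_apply (e * y'), hzv, map_zero, add_zero]
        exact hzw _
      have hc0 : c' = 0 := by
        rw [hc', LinearMap.smul_apply, map_smul, smul_eq_mul] at hwtv
        exact (mul_eq_zero.1 hwtv).resolve_right hwev
      have ht0 : t = 0 := by rw [hc', hc0, zero_smul]
      have htr : LinearMap.trace K V (t * f) = LinearMap.trace K V (z * y') := by
        rw [ht, add_mul, map_add]
        have e1' : LinearMap.trace K V (z * y' * e * f) = LinearMap.trace K V (p * z * y') := by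
          rw [mul_assoc (z * y'), ← hp, LinearMap.trace_mul_comm, mul_assoc]
        have e2 : LinearMap.trace K V (e * y' * z * f) = LinearMap.trace K V (z * q * y') := by
          have h9 : e * y' * z * f = (e * y') * (z * f) := by noncomm_ring
          rw [h9, LinearMap.trace_mul_comm]
          congr 1
          rw [hq]
          noncomm_ring
        rw [e1', e2, ← map_add, ← add_mul, h2]
      rw [← htr, ht0, zero_mul, map_zero]
    have hΨ : Function.Injective Ψ := by
      intro c d hcd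
      have h1 := hΨ0 (c + (-1 : K) • d) (by
        rw [map_add, map_smul, hcd]
        nth_rewrite 1 [← one_smul K (Ψ d)]
        rw [← add_smul, add_neg_cancel, zero_smul])
      have h2 := congrArg (fun z : LinearMap.range π1 => ((z : Wp 𝔥 x) : Module.End K V)) h1
      change ((c : Wp 𝔥 x) : Module.End K V) + (-1 : K) • ((d : Wp 𝔥 x) : Module.End K V) = 0 at h2
      rw [neg_smul, one_smul, ← sub_eq_add_neg, sub_eq_zero] at h2
      exact Subtype.ext (Subtype.ext h2)
    have hle := LinearMap.finrank_le_finrank_of_injective hΨ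
    rw [Module.finrank_prod, Subspace.dual_finrank_eq, ← hk] at hle
    omega
  have hcas := exists_cas hbr hirr hnd hx hxm hn1 hn0 p q T hpE hqE hT
  rw [htrT, htrp, htrq, ← ha, ← hb] at hcas
  have hnat : a * b * (2 + k) = finrank K (Wp 𝔥 x) * (b * m + a * m) := by exact_mod_cast hcas
  refine ⟨e, he, he0, fun y hy hy0 => hmin y ⟨hy, hy0⟩, k, finrank K (Wp 𝔥 x), ?_, ?_⟩
  · rw [← ha, ← hb, ← hm]
    exact hbound
  · rw [← ha, ← hb, ← hm]
    exact hnat

include hbr hirr hnd hx hxm in
/-- If the multiplicities are coprime there is an element of rank one. -/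
theorem rank_one_of_coprime (hn1 : e1 x ≠ 0) (hn0 : e0 x ≠ 0)
    (hcop : Nat.Coprime (finrank K (LinearMap.range (e1 x))) (finrank K (LinearMap.range (e0 x)))) :
    ∃ e ∈ Wp 𝔥 x, rk e = 1 := by
  obtain ⟨e, he, he0, -, k, N, hb, hN⟩ := exists_numbers hbr hirr hnd hx hxm hn1 hn0
  refine ⟨e, he, arith hcop ?_ hb hN⟩
  rw [Nat.one_le_iff_ne_zero]
  intro h
  exact he0 (rk_eq_zero.1 h)

end

end Pool.Agent.R930
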