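import Mathlib
import Pool.Agent.Y126.Toric.Alt

/-!
# Irreducibility of a strongly irreducible subspace under a set of elements of the Lie algebra
-/

set_option linter.unusedSectionVars false

namespace Pool.Agent.R930

open Module Pool.Agent.H204R3.SP Pool.Agent.H204R3.GP Pool.Agent.W522.U Pool.Agent.W529.Ta
open Pool.Agent.W528.Odd Pool.Agent.Y126.OT Pool.Agent.TH118.CR Pool.Agent.Y126.Toric

noncomputable section

variable {K : Type} [Field K] [CharZero K] {X : Type} [AddCommGroup X] [Module K X]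
  [FiniteDimensional K X] {Γ : Type} [Group Γ] {R : Representation K Γ X} {χ : Γ →* K}

theorem irr_gen (ω : X →ₗ[K] X →ₗ[K] K) (hnd : ∀ u, (∀ v, ω u v = 0) → u = 0)
    (hωR : ∀ g u v, ω (R g u) (R g v) = χ g * ω u v) (hss : HasProj R)
    (S₀ : Set (Module.End K X)) (hS₀ : ∀ x ∈ S₀, x ∈ lieT R χ)
    (hSc : ∀ (g : Γ), ∀ x ∈ S₀, R g * x * R g⁻¹ ∈ S₀)
    (hP : ∀ P : Module.End K X, (∀ x ∈ S₀, P * x = x * P) →
      ∃ Δ : Subgroup Γ, Δ.FiniteIndex ∧ ∀ g ∈ Δ, P * R g = R g * P)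
    {U : Submodule K X} (hU : SI R U) (W : Submodule K U)
    (hW : ∀ Y : Module.End K U, (∃ x₀ ∈ S₀, ∀ u : U, ((Y u : U) : X) = x₀ u) →
      ∀ u ∈ W, Y u ∈ W) : W = ⊥ ∨ W = ⊤ := by
  obtain ⟨Δ, hΔ, hUΔ⟩ := id hU.2.1
  obtain ⟨q, hq1, hq2, hq3⟩ := hss Δ hΔ U hUΔ
  have hqc : ∀ x₀ ∈ lieT R χ, ∀ v, x₀ (q v) = q (x₀ v) := fun x₀ hx₀ v =>
    Pool.Agent.W839.OT.HTFam.comm R χ ω hnd hωR Δ hΔ q hq3 x₀ hx₀ v
  let S : Set (Module.End K U) := {Y | ∃ x₀ ∈ S₀, ∀ u : U, ((Y u : U) : X) = x₀ u}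
  have hS : ∀ g : Δ, ∀ x ∈ S, resR R Δ U hUΔ g * x * resR R Δ U hUΔ g⁻¹ ∈ S := by
    rintro g Y ⟨x₀, hx₀, hYx⟩
    refine ⟨R g.1 * x₀ * R g.1⁻¹, hSc g.1 _ hx₀, fun u => ?_⟩
    change R g.1 ((Y (resR R Δ U hUΔ g⁻¹ u) : U) : X) = R g.1 (x₀ (R g.1⁻¹ u))
    rw [hYx]
    rfl
  have hirrU : ∀ W : Submodule K U, (∀ g : Δ, ∀ u ∈ W, resR R Δ U hUΔ g u ∈ W) →
      W = ⊥ ∨ W = ⊤ := fun W h => sIrr_res hU Δ hΔ hUΔ ⊤ inferInstance W (fun g _ => h g)
  obtain ⟨P, hP1, hP2, hP3⟩ := clifford hirrU hS (W := W) (fun Y hY => hW Y hY)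
  let Q : Module.End K X := U.subtype.comp (P.comp (q.codRestrict U hq1))
  obtain ⟨Δ', hΔ', hc⟩ := hP Q (by
    intro x₀ hx₀
    have hst : ∀ u ∈ U, x₀ u ∈ U := by
      intro u hu
      have h1 := hqc x₀ (hS₀ _ hx₀) u
      rw [hq2 u hu] at h1
      rw [h1]
      exact hq1 _
    have h1 := hP3 (x₀.restrict hst) ⟨x₀, hx₀, fun u => rfl⟩
    refine LinearMap.ext fun v => ?_
    change ((P (q.codRestrict U hq1 (x₀ v)) : U) : X) = x₀ ((P (q.codRestrict U hq1 v) : U) : X)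
    have h2 : q.codRestrict U hq1 (x₀ v) = x₀.restrict hst (q.codRestrict U hq1 v) :=
      Subtype.ext (hqc x₀ (hS₀ _ hx₀) v).symm
    rw [h2]
    have h3 := congrArg (fun f : Module.End K U => f (q.codRestrict U hq1 v)) h1
    exact congrArg Subtype.val h3)
  have hQW : ∀ v, Q v ∈ W.map U.subtype := fun v => ⟨_, hP1 _, rfl⟩
  have hQW' : ∀ w ∈ W.map U.subtype, Q w = w := by
    rintro _ ⟨w, hw, rfl⟩
    change ((P (q.codRestrict U hq1 (w : X)) : U) : X) = w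
    have h2 : q.codRestrict U hq1 (w : X) = w := Subtype.ext (hq2 w w.2)
    rw [h2, hP2 w hw]
  have hpot : Pot R (W.map U.subtype) := by
    refine ⟨Δ', hΔ', fun g hg u hu => ?_⟩
    have h1 := congrArg (fun f : Module.End K X => f u) (hc g hg)
    have h2 : Q (R g u) = R g (Q u) := h1
    rw [← hQW' u hu, ← h2]
    exact hQW _
  rcases hU.2.2 _ (Submodule.map_subtype_le _ _) hpot with h2 | h2
  · left
    rw [eq_bot_iff]
    intro u hu
    have h3 : (u : X) ∈ W.map U.subtype := ⟨u, hu, rfl⟩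
    rw [h2, Submodule.mem_bot] at h3
    rw [Submodule.mem_bot]
    exact Subtype.ext h3
  · right
    rw [eq_top_iff]
    intro u _
    have h3 : (u : X) ∈ W.map U.subtype := by
      rw [h2]
      exact u.2
    obtain ⟨u', hu', huu⟩ := h3
    have h4 : u' = u := Subtype.ext huu
    rw [← h4]
    exact hu'

/-- The operators that commute with the Lie algebra commute with a subgroup of finite index. -/
def LieGenerate (R : Representation K Γ X) (χ : Γ →* K) : Prop :=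
  ∀ P : Module.End K X, (∀ x ∈ lieT R χ, P * x = x * P) →
    ∃ Δ : Subgroup Γ, Δ.FiniteIndex ∧ ∀ g ∈ Δ, P * R g = R g * P

theorem LieGenerate.of_weak (h : Pool.Agent.W528.Odd.WeakHodgeGenerate R χ) :
    LieGenerate R χ := fun P hP => h P fun x hx _ => hP x hx

/-- A strongly irreducible subspace is irreducible under the Lie algebra. -/
theorem irr_lie (ω : X →ₗ[K] X →ₗ[K] K) (hnd : ∀ u, (∀ v, ω u v = 0) → u = 0)
    (hωR : ∀ g u v, ω (R g u) (R g v) = χ g * ω u v) (hss : HasProj R) (hP : LieGenerate R χ)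
    {U : Submodule K X} (hU : SI R U) (W : Submodule K U)
    (hW : ∀ Y ∈ resL R χ U, ∀ u ∈ W, Y u ∈ W) : W = ⊥ ∨ W = ⊤ :=
  irr_gen ω hnd hωR hss (lieT R χ) (fun _ h => h) (fun g _ hx => lieT_conj R χ g hx) hP hU W
    fun Y ⟨x₀, hx₀, h⟩ => hW Y ⟨x₀, hx₀, h⟩

end

end Pool.Agent.R930
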