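import Mathlib
import Pool.Agent.R930.Coprime2
import Pool.Agent.R930.Irr

/-!
# Square-zero elements of rank one from weak Hodge elements
-/

set_option linter.unusedSectionVars false

namespace Pool.Agent.R930

open Module Pool.Agent.H204R3.SP Pool.Agent.H204R3.GP Pool.Agent.W522.U Pool.Agent.W529.Ta
open Pool.Agent.W528.Odd Pool.Agent.Y126.OT Pool.Agent.TH118.CR Pool.Agent.Y126.Toric
open Pool.Agent.W528.Tor (AltDual)

noncomputable section

variable {K : Type} [Field K] [CharZero K] [IsAlgClosed K] {X : Type} [AddCommGroup X] [Module K X]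
  [FiniteDimensional K X] {Γ : Type} [Group Γ] {R : Representation K Γ X} {χ : Γ →* K}
  (ω : X →ₗ[K] X →ₗ[K] K) (hnd : ∀ u, (∀ v, ω u v = 0) → u = 0)
  (hωR : ∀ g u v, ω (R g u) (R g v) = χ g * ω u v) (hss : HasProj R) {U : Submodule K X}
  (hU : SI R U)

include hnd hωR hss hU in
theorem irr_res (hP : LieGenerate R χ) (W : Submodule K U)
    (hW : ∀ Y ∈ resL R χ U, ∀ u ∈ W, Y u ∈ W) : W = ⊥ ∨ W = ⊤ :=
  irr_lie ω hnd hωR hss hP hU W hW

include hU in
theorem nd_res (z : Module.End K U) (hz : z ∈ resL R χ U)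
    (h : ∀ y ∈ resL R χ U, LinearMap.trace K U (z * y) = 0) : z = 0 := by
  obtain ⟨Δ, hΔ, hUΔ⟩ := id hU.2.1
  exact trace_nondeg (resR R Δ U hUΔ) (sIrr_res hU Δ hΔ hUΔ) resL_br (resL_conj Δ hUΔ) z hz h

include hnd hωR hss hU in
/-- A subspace of dimension at least two has a weak Hodge element that is not a scalar. -/
theorem exists_nonscalar_weak (hP : WeakHodgeGenerate R χ) (h2 : 2 ≤ finrank K U) :
    ∃ x ∈ lieT R χ, x * x = (1 / 4 : K) • 1 ∧ ∃ xU : Module.End K U,
      (∀ u : U, ((xU u : U) : X) = x u) ∧ e1 xU ≠ 0 ∧ e0 xU ≠ 0 := by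
  obtain ⟨Δ, hΔ, hUΔ⟩ := id hU.2.1
  by_contra hcon
  push Not at hcon
  have hsc : ∀ W : Submodule K U, W = ⊥ ∨ W = ⊤ := by
    intro W
    refine irr_weak ω hnd hωR hss hP hU Δ hΔ hUΔ W ?_
    rintro Y ⟨x₀, hx₀, hxx, hY⟩ u hu
    by_cases h1 : e1 Y = 0
    · have h3 : Y = (-(1 / 2) : K) • 1 := by
        have h4 : Y = e1 Y - (1 / 2 : K) • 1 := by unfold e1; abel
        rw [h4, h1]
        module
      rw [h3]
      exact W.smul_mem _ hu
    · have h0 := hcon x₀ hx₀ hxx Y hY h1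
      have h3 : Y = (1 / 2 : K) • 1 := by
        have h4 : Y = (1 / 2 : K) • 1 - e0 Y := by unfold e0; abel
        rw [h4, h0]
        module
      rw [h3]
      exact W.smul_mem _ hu
  obtain ⟨u, hu⟩ : ∃ u : U, u ≠ 0 := by
    by_contra hcon
    push Not at hcon
    have h3 : finrank K U = 0 := by
      rw [finrank_eq_zero_iff_of_free, subsingleton_iff_forall_eq 0]
      exact hcon
    omega
  rcases hsc (Submodule.span K {u}) with h | h
  · exact hu (Submodule.span_singleton_eq_bot.1 h)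
  · have h3 : finrank K (Submodule.span K {u}) = finrank K U := by rw [h, finrank_top]
    rw [finrank_span_singleton hu] at h3
    omega

section elt

variable {x : Module.End K X} (hx : x ∈ lieT R χ) (hxx : x * x = (1 / 4 : K) • 1)
  {xU : Module.End K U} (hxU : ∀ u : U, ((xU u : U) : X) = x u) (h1 : e1 xU ≠ 0)
  (h0 : e0 xU ≠ 0)

theorem yp_res {xU yU : Module.End K U} {x y : Module.End K X}
    (hxU : ∀ u : U, ((xU u : U) : X) = x u) (hyU : ∀ u : U, ((yU u : U) : X) = y u) (u : U) :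
    ((yp xU yU u : U) : X) = yp x y u := by
  unfold yp e1 e0
  simp only [Module.End.mul_apply, LinearMap.add_apply, LinearMap.sub_apply, LinearMap.smul_apply,
    Module.End.one_apply, Submodule.coe_add, Submodule.coe_sub, Submodule.coe_smul, hxU, hyU]

include hx hxx hxU in
/-- An element of degree one on `U` comes from a global square-zero element. -/
theorem exists_global {n : Module.End K U} (hn : n ∈ Wp (resL R χ U) xU) (hn0 : n ≠ 0) :
    ∃ N ∈ lieT R χ, N * N = 0 ∧ U.map N ≠ ⊥ := by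
  have hbr : ∀ X' ∈ lieT R χ, ∀ Y ∈ lieT R χ, X' * Y - Y * X' ∈ lieT R χ :=
    fun _ h _ h' => lieT_bracket R χ h h'
  obtain ⟨⟨y, hy, hyn⟩, hyp⟩ := hn
  refine ⟨yp x y, yp_mem hxx hbr hx hy, yp_sq hxx y, fun h => hn0 ?_⟩
  rw [← hyp]
  refine LinearMap.ext fun u => Subtype.ext ?_
  rw [yp_res hxU hyn]
  have h4 : yp x y u ∈ U.map (yp x y) := Submodule.mem_map_of_mem u.2
  rw [h, Submodule.mem_bot] at h4
  rw [h4]
  rfl

include hnd hωR hss hU hx hxx hxU h1 h0 in
/-- **Coprime multiplicities.** -/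
theorem one_of_coprime (hP : LieGenerate R χ)
    (hcop : Nat.Coprime (finrank K (LinearMap.range (e1 xU)))
      (finrank K (LinearMap.range (e0 xU)))) :
    ∃ e ∈ lieT R χ, e * e = 0 ∧ finrank K (U.map e) = 1 := by
  have hx2 : xU * xU = (1 / 4 : K) • 1 := sq_res hxU _ hxx
  obtain ⟨e, he, hr⟩ := rank_one_of_coprime resL_br (irr_res ω hnd hωR hss hU hP) (nd_res hU) hx2
    ⟨x, hx, hxU⟩ h1 h0 hcop
  have he0 : e ≠ 0 := by
    intro h
    rw [h, rk_eq_zero.2 rfl] at hr
    exact zero_ne_one hr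
  obtain ⟨N, hN, hN2, hN0⟩ := exists_global hx hxx hxU he he0
  exact one_of_rank_one ω hnd hωR hss hU hN hN2 hN0 he.1 (Wp_mul hx2 he he) hr

include hnd hωR hss hU hx hxx hxU in
/-- On symplectic subspaces the multiplicities are equal. -/
theorem mult_eq (halt : AltDual R χ U) :
    finrank K (LinearMap.range (e1 xU)) = finrank K (LinearMap.range (e0 xU)) := by
  obtain ⟨Δ₁, hΔ₁, hUΔ₁⟩ := id hU.2.1
  obtain ⟨Δ₂, hΔ₂, B, hB0, hBalt, hB⟩ := id halt
  have hx2 : xU * xU = (1 / 4 : K) • 1 := sq_res hxU _ hxx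
  obtain ⟨om, hom⟩ : ∃ om : U →ₗ[K] U →ₗ[K] K, om = B.compl₁₂ U.subtype U.subtype := ⟨_, rfl⟩
  have hom' : ∀ u v : U, om u v = B u v := fun u v => by rw [hom]; rfl
  have hndl : ∀ u, (∀ v, om u v = 0) → u = 0 := by
    intro u hu
    apply Subtype.ext
    exact du_left hU hU.2.1 hΔ₂ hB0 hB u u.2 (fun v hv => by
      have := hu ⟨v, hv⟩
      rwa [hom'] at this)
  have hsk : ∀ a b, om (xU a) b + om a (xU b) = 0 := by
    intro a b
    rw [hom', hom', hxU, hxU]
    exact lieT_skew ω hnd hωR hss hU.2.1 hΔ₂ B hB hx a a.2 b b.2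
  have htr := trace_sp om hndl hsk
  have h3 : e1 xU - e0 xU = (2 : K) • xU := by unfold e1 e0; module
  have h4 := congrArg (LinearMap.trace K U) h3
  rw [map_sub, map_smul, htr, smul_zero, trace_range (e1_mul_e1 hx2), trace_range (e0_mul_e0 hx2),
    sub_eq_zero] at h4
  exact_mod_cast h4

include hnd hωR hss hU hx hxx hxU h1 h0 in
/-- Symplectic subspaces of dimension four, six or ten. -/
theorem one_of_symp (hP : WeakHodgeGenerate R χ) (halt : AltDual R χ U)
    (hdim : finrank K U = 4 ∨ finrank K U = 6 ∨ finrank K U = 10) :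
    ∃ e ∈ lieT R χ, e * e = 0 ∧ finrank K (U.map e) = 1 := by
  have hx2 : xU * xU = (1 / 4 : K) • 1 := sq_res hxU _ hxx
  have hlie : LieGenerate R χ := LieGenerate.of_weak hP
  have hirr := irr_res ω hnd hωR hss hU hlie
  obtain ⟨e, he, he0, hmin, k, N', hb, hN'⟩ := exists_numbers resL_br hirr (nd_res hU) hx2
    ⟨x, hx, hxU⟩ h1 h0
  obtain ⟨N, hN, hN2, hN0⟩ := exists_global hx hxx hxU he he0
  have heq := mult_eq ω hnd hωR hss hU hx hxx hxU halt
  have hsum := finrank_ranges hx2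
  have hr0 : rk e ≠ 0 := fun h => he0 (rk_eq_zero.1 h)
  refine one_of_alt_gen ω hnd hωR hss hU halt hN hN2 hN0 he.1 (Wp_mul hx2 he he) rfl hr0 ?_
  have hle : rk e ≤ finrank K (LinearMap.range (e0 xU)) := by
    rw [← he.2]
    exact rk_yp_le0 xU e
  rw [heq] at hb hN' hsum
  obtain ⟨m, hm⟩ : ∃ m, m = finrank K (LinearMap.range (e0 xU)) := ⟨_, rfl⟩
  obtain ⟨s, hs⟩ : ∃ s, s = rk e := ⟨_, rfl⟩
  rw [← hm, ← hs] at hb hN'
  rw [← hm] at hsum
  rw [← hm, ← hs] at hle
  rw [← hs] at hr0 ⊢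
  have hcase : s = 2 ∨ Odd s := by
    rcases hdim with h | h | h
    · have hm2 : m = 2 := by omega
      subst hm2
      interval_cases s
      · exact absurd rfl hr0
      · right; decide
      · left; rfl
    · have hm2 : m = 3 := by omega
      subst hm2
      interval_cases s
      · exact absurd rfl hr0
      · right; decide
      · left; rfl
      · right; decide
    · have hm2 : m = 5 := by omega
      subst hm2
      interval_cases s
      · exact absurd rfl hr0
      · right; decide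
      · left; rfl
      · right; decide
      · exfalso
        omega
      · right; decide
  rcases hcase with h | h
  · exact Or.inl h
  · exact Or.inr (Or.inl ⟨h, hP⟩)

end elt

include hnd hωR hss hU in
/-- **Prime dimension.** -/
theorem one_of_prime (hP : WeakHodgeGenerate R χ) (hprime : (finrank K U).Prime) :
    ∃ e ∈ lieT R χ, e * e = 0 ∧ finrank K (U.map e) = 1 := by
  obtain ⟨x, hx, hxx, xU, hxU, h1, h0⟩ :=
    exists_nonscalar_weak ω hnd hωR hss hU hP hprime.two_le
  refine one_of_coprime ω hnd hωR hss hU hx hxx hxU h1 h0 (LieGenerate.of_weak hP) ?_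
  have hsum := finrank_ranges (sq_res hxU _ hxx)
  have hne : finrank K (LinearMap.range (e1 xU)) ≠ 0 := fun h => h1 (rk_eq_zero.1 h)
  have hne0 : finrank K (LinearMap.range (e0 xU)) ≠ 0 := fun h => h0 (rk_eq_zero.1 h)
  have h3 : Nat.Coprime (finrank K (LinearMap.range (e1 xU))) (finrank K U) := by
    rw [Nat.coprime_comm, Nat.Prime.coprime_iff_not_dvd hprime]
    intro hdvd
    have h4 := Nat.le_of_dvd (Nat.pos_of_ne_zero hne) hdvd
    omega
  rw [← hsum] at h3
  exact (Nat.coprime_self_add_right).1 h3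

include hnd hωR hss hU in
/-- Symplectic subspaces of dimension four, six or ten. -/
theorem one_of_symp' (hP : WeakHodgeGenerate R χ) (halt : AltDual R χ U)
    (hdim : finrank K U = 4 ∨ finrank K U = 6 ∨ finrank K U = 10) :
    ∃ e ∈ lieT R χ, e * e = 0 ∧ finrank K (U.map e) = 1 := by
  obtain ⟨x, hx, hxx, xU, hxU, h1, h0⟩ :=
    exists_nonscalar_weak ω hnd hωR hss hU hP (by omega)
  exact one_of_symp ω hnd hωR hss hU hx hxx hxU h1 h0 hP halt hdim

end

section base

open TensorProduct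

variable {k : Type} [Field k] {V Γ : Type} [AddCommGroup V] [Module k V] [Group Γ]
  (Ω : Type) [Field Ω] [Algebra k Ω] {ρ : Representation k Γ V}

theorem bcr_quadratic {γ : Γ} (hγ : (ρ γ - 1) * (ρ γ - 1) = 0) :
    (bcr ρ Ω γ - 1) * (bcr ρ Ω γ - 1) = 0 := by
  have h3 : bcr ρ Ω γ - 1 = (ρ γ - 1).baseChange Ω := by
    rw [LinearMap.baseChange_sub]
    congr 1
    exact LinearMap.baseChange_id.symm
  have h4 := LinearMap.baseChange_comp (A := Ω) (ρ γ - 1) (ρ γ - 1)
  change (ρ γ - 1).comp (ρ γ - 1) = 0 at hγ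
  rw [hγ, LinearMap.baseChange_zero] at h4
  rw [h3]
  exact h4.symm

end base

end Pool.Agent.R930
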