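import Mathlib
import Pool.Agent.Y126.Glue

/-!
# A neat subgroup of finite index of an integral `ℓ`-adic representation
-/

set_option linter.unusedSectionVars false

namespace Pool.Agent.R930

open Module TensorProduct Pool.Agent.H204R3.SP

noncomputable section

variable {ℓ : ℕ} [Fact ℓ.Prime] {V Γ : Type} [AddCommGroup V] [Module ℚ_[ℓ] V]
    [FiniteDimensional ℚ_[ℓ] V] [Group Γ] [TopologicalSpace Γ]
    (ρ : Representation ℚ_[ℓ] Γ V) {ι : Type} [Fintype ι] [DecidableEq ι] (b : Basis ι ℚ_[ℓ] V)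

/-- The matrix of an element over the integers. -/
def intMat (hint : ∀ g i j, ‖LinearMap.toMatrix b b (ρ g) i j‖ ≤ 1) (g : Γ) :
    Matrix ι ι ℤ_[ℓ] := fun i j => ⟨LinearMap.toMatrix b b (ρ g) i j, hint g i j⟩

theorem intMat_map (hint : ∀ g i j, ‖LinearMap.toMatrix b b (ρ g) i j‖ ≤ 1) (g : Γ) :
    (intMat ρ b hint g).map (PadicInt.Coe.ringHom) = LinearMap.toMatrix b b (ρ g) := rfl

/-- The homomorphism to the matrices over the integers. -/
def intHom (hint : ∀ g i j, ‖LinearMap.toMatrix b b (ρ g) i j‖ ≤ 1) :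
    Γ →* Matrix ι ι ℤ_[ℓ] where
  toFun := intMat ρ b hint
  map_one' := by
    have hinj : Function.Injective (fun A : Matrix ι ι ℤ_[ℓ] => A.map (PadicInt.Coe.ringHom)) :=
      Matrix.map_injective Subtype.coe_injective
    apply hinj
    change (intMat ρ b hint 1).map (PadicInt.Coe.ringHom) =
      (1 : Matrix ι ι ℤ_[ℓ]).map (PadicInt.Coe.ringHom)
    rw [intMat_map, map_one, LinearMap.toMatrix_one, Matrix.map_one _ (map_zero _) (map_one _)]
  map_mul' g h := by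
    have hinj : Function.Injective (fun A : Matrix ι ι ℤ_[ℓ] => A.map (PadicInt.Coe.ringHom)) :=
      Matrix.map_injective Subtype.coe_injective
    apply hinj
    change (intMat ρ b hint (g * h)).map (PadicInt.Coe.ringHom) =
      (intMat ρ b hint g * intMat ρ b hint h).map (PadicInt.Coe.ringHom)
    rw [Matrix.map_mul, intMat_map, intMat_map, intMat_map, map_mul, LinearMap.toMatrix_mul]

/-- The subgroup of the elements congruent to one modulo `ℓ ^ 2`. -/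
def neat (hint : ∀ g i j, ‖LinearMap.toMatrix b b (ρ g) i j‖ ≤ 1) : Subgroup Γ :=
  ((((PadicInt.toZModPow (p := ℓ) 2).mapMatrix : Matrix ι ι ℤ_[ℓ] →+* _) :
    Matrix ι ι ℤ_[ℓ] →* Matrix ι ι (ZMod (ℓ ^ 2))).comp (intHom ρ b hint)).toHomUnits.ker

variable {ρ b}

theorem mem_neat {hint : ∀ g i j, ‖LinearMap.toMatrix b b (ρ g) i j‖ ≤ 1} {g : Γ} :
    g ∈ neat ρ b hint ↔
      ∀ i j, ‖LinearMap.toMatrix b b (ρ g) i j - (1 : Matrix ι ι ℚ_[ℓ]) i j‖ ≤ (ℓ : ℝ) ^ (-2 : ℤ) := by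
  have h1 : g ∈ neat ρ b hint ↔ (intMat ρ b hint g).map (PadicInt.toZModPow (p := ℓ) 2) = 1 := by
    unfold neat
    rw [MonoidHom.mem_ker, Units.ext_iff, MonoidHom.coe_toHomUnits]
    rfl
  rw [h1, ← Matrix.ext_iff]
  refine forall_congr' fun i => forall_congr' fun j => ?_
  have h2 : (1 : Matrix ι ι (ZMod (ℓ ^ 2))) i j =
      PadicInt.toZModPow (p := ℓ) 2 ((1 : Matrix ι ι ℤ_[ℓ]) i j) := by
    rw [Matrix.one_apply, Matrix.one_apply]
    split_ifs
    · rw [map_one]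
    · rw [map_zero]
  rw [h2, Matrix.map_apply, ← sub_eq_zero, ← map_sub, ← RingHom.mem_ker, PadicInt.ker_toZModPow,
    ← PadicInt.norm_le_pow_iff_mem_span_pow]
  have h3 : ‖intMat ρ b hint g i j - (1 : Matrix ι ι ℤ_[ℓ]) i j‖ =
      ‖LinearMap.toMatrix b b (ρ g) i j - (1 : Matrix ι ι ℚ_[ℓ]) i j‖ := by
    rw [PadicInt.norm_def, PadicInt.coe_sub]
    congr 2
    rw [Matrix.one_apply, Matrix.one_apply]
    split_ifs
    · rfl
    · rfl
  rw [h3]
  rfl

theorem neat_finiteIndex (hint : ∀ g i j, ‖LinearMap.toMatrix b b (ρ g) i j‖ ≤ 1) :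
    (neat ρ b hint).FiniteIndex := by
  have : NeZero (ℓ ^ 2) := ⟨pow_ne_zero _ (Fact.out : ℓ.Prime).ne_zero⟩
  have : Finite (Matrix ι ι (ZMod (ℓ ^ 2)))ˣ := inferInstance
  unfold neat
  infer_instance

theorem neat_isOpen (hint : ∀ g i j, ‖LinearMap.toMatrix b b (ρ g) i j‖ ≤ 1)
    (hcont : ∀ i j, Continuous fun g => LinearMap.toMatrix b b (ρ g) i j) :
    IsOpen (neat ρ b hint : Set Γ) := by
  have h1 : (neat ρ b hint : Set Γ) = ⋂ i, ⋂ j, (fun g => LinearMap.toMatrix b b (ρ g) i j) ⁻¹'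
      Metric.closedBall ((1 : Matrix ι ι ℚ_[ℓ]) i j) ((ℓ : ℝ) ^ (-2 : ℤ)) := by
    ext g
    rw [SetLike.mem_coe, mem_neat]
    simp only [Set.mem_iInter, Set.mem_preimage, Metric.mem_closedBall, dist_eq_norm]
  rw [h1]
  refine isOpen_iInter_of_finite fun i => isOpen_iInter_of_finite fun j => ?_
  refine IsOpen.preimage (hcont i j) (IsUltrametricDist.isOpen_closedBall _ ?_)
  have : (0 : ℝ) < ℓ := by exact_mod_cast (Fact.out : ℓ.Prime).pos
  positivity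

/-- The eigenvalues are congruent to one. -/
theorem eig_close {g : Γ} {c : ℝ} (hc : 0 ≤ c)
    (hg : ∀ i j, ‖LinearMap.toMatrix b b (ρ g) i j - (1 : Matrix ι ι ℚ_[ℓ]) i j‖ ≤ c)
    {u : PadicAlgCl ℓ ⊗[ℚ_[ℓ]] V} (hu0 : u ≠ 0) {z : PadicAlgCl ℓ}
    (hu : bcr ρ (PadicAlgCl ℓ) g u = z • u) : ‖z - 1‖ ≤ c := by
  obtain ⟨bK, hbK⟩ : ∃ bK, bK = Algebra.TensorProduct.basis (PadicAlgCl ℓ) b := ⟨_, rfl⟩
  have hne : Nonempty ι := by
    by_contra hcon
    rw [not_nonempty_iff] at hcon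
    apply hu0
    rw [← bK.sum_repr u]
    exact Finset.sum_of_isEmpty _
  obtain ⟨i, hi⟩ := Finite.exists_max (fun i => ‖bK.repr u i‖)
  have hi0 : 0 < ‖bK.repr u i‖ := by
    by_contra hcon
    apply hu0
    have h1 : ∀ j, bK.repr u j = 0 := fun j => by
      rw [← norm_le_zero_iff]
      exact (hi j).trans (not_lt.1 hcon)
    rw [← bK.sum_repr u]
    exact Finset.sum_eq_zero fun j _ => by rw [h1, zero_smul]
  have hM := LinearMap.toMatrix_baseChange (PadicAlgCl ℓ) (ρ g) b b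
  have h2 := congrFun (LinearMap.toMatrix_mulVec_repr bK bK ((ρ g).baseChange (PadicAlgCl ℓ)) u) i
  have hu' : (ρ g).baseChange (PadicAlgCl ℓ) u = z • u := hu
  rw [hu', hbK, hM, ← hbK, Matrix.mulVec, dotProduct, map_smul, Finsupp.smul_apply, smul_eq_mul] at h2
  have h3 : (z - 1) * bK.repr u i = ∑ j, algebraMap ℚ_[ℓ] (PadicAlgCl ℓ)
      (LinearMap.toMatrix b b (ρ g) i j - (1 : Matrix ι ι ℚ_[ℓ]) i j) * bK.repr u j := by
    have h4 : ∀ j, algebraMap ℚ_[ℓ] (PadicAlgCl ℓ)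
        (LinearMap.toMatrix b b (ρ g) i j - (1 : Matrix ι ι ℚ_[ℓ]) i j) * bK.repr u j =
        ((LinearMap.toMatrix b b (ρ g)).map (algebraMap ℚ_[ℓ] (PadicAlgCl ℓ))) i j * bK.repr u j -
          (if i = j then 1 else 0) * bK.repr u j := by
      intro j
      rw [map_sub, sub_mul, Matrix.map_apply, Matrix.one_apply]
      split_ifs
      · rw [map_one]
      · rw [map_zero]
    rw [Finset.sum_congr rfl fun j _ => h4 j, Finset.sum_sub_distrib, h2, sub_mul]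
    congr 1
    simp
  have h4 : ‖z - 1‖ * ‖bK.repr u i‖ ≤ c * ‖bK.repr u i‖ := by
    rw [← norm_mul, h3]
    refine IsUltrametricDist.norm_sum_le_of_forall_le_of_nonneg (by positivity) fun j _ => ?_
    rw [norm_mul]
    have h5 : ‖algebraMap ℚ_[ℓ] (PadicAlgCl ℓ)
        (LinearMap.toMatrix b b (ρ g) i j - (1 : Matrix ι ι ℚ_[ℓ]) i j)‖ ≤ c := by
      rw [norm_algebraMap']
      exact hg i j
    exact mul_le_mul h5 (hi j) (norm_nonneg _) hc
  exact le_of_mul_le_mul_right h4 hi0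

/-- A root of unity that is congruent to one modulo `ℓ ^ 2` is one. -/
theorem eq_one_of_close {z : PadicAlgCl ℓ} (hz : ‖z - 1‖ ≤ (ℓ : ℝ) ^ (-2 : ℤ)) {r : ℕ}
    (hr : 0 < r) (h : z ^ r = 1) : z = 1 := by
  have hℓ : (1 : ℝ) < ℓ := by exact_mod_cast (Fact.out : ℓ.Prime).one_lt
  have hn1 : ∀ z : PadicAlgCl ℓ, ‖z - 1‖ ≤ (ℓ : ℝ) ^ (-2 : ℤ) → ‖z‖ ≤ 1 := by
    intro z hz
    have h1 : z = (z - 1) + 1 := by ring
    rw [h1]
    refine (IsUltrametricDist.norm_add_le_max _ _).trans (max_le (hz.trans ?_) ?_)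
    · exact zpow_le_one_of_nonpos₀ hℓ.le (by norm_num)
    · rw [norm_one]
  have hsum : ∀ z : PadicAlgCl ℓ, ‖z - 1‖ ≤ (ℓ : ℝ) ^ (-2 : ℤ) → ∀ k : ℕ,
      ‖z ^ k - 1‖ ≤ ‖z - 1‖ := by
    intro z hz k
    rw [← geom_sum_mul z k, norm_mul]
    have h2 : ‖∑ i ∈ Finset.range k, z ^ i‖ ≤ 1 := by
      refine IsUltrametricDist.norm_sum_le_of_forall_le_of_nonneg zero_le_one fun i _ => ?_
      rw [norm_pow]
      exact pow_le_one₀ (norm_nonneg _) (hn1 z hz)
    nlinarith [norm_nonneg (z - 1)]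
  have hprime : ∀ q : ℕ, q.Prime → ∀ z : PadicAlgCl ℓ, ‖z - 1‖ ≤ (ℓ : ℝ) ^ (-2 : ℤ) →
      z ^ q = 1 → z = 1 := by
    intro q hq z hz hzq
    by_contra hne
    have hs : ∑ i ∈ Finset.range q, z ^ i = 0 := by
      have h1 := geom_sum_mul z q
      rw [hzq, sub_self] at h1
      exact (mul_eq_zero.1 h1).resolve_right (sub_ne_zero.2 hne)
    have h2 : (q : PadicAlgCl ℓ) = -∑ i ∈ Finset.range q, (z ^ i - 1) := by
      rw [Finset.sum_sub_distrib, hs]
      simp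
    have h3 : ‖(q : PadicAlgCl ℓ)‖ ≤ (ℓ : ℝ) ^ (-2 : ℤ) := by
      rw [h2, norm_neg]
      refine IsUltrametricDist.norm_sum_le_of_forall_le_of_nonneg (by positivity) fun i _ => ?_
      exact (hsum z hz i).trans hz
    have h4 : ‖(q : PadicAlgCl ℓ)‖ = ‖(q : ℚ_[ℓ])‖ := by
      rw [← PadicAlgCl.norm_extends]
      congr 1
    rw [h4] at h3
    have h5 : ‖((q : ℤ) : ℚ_[ℓ])‖ ≤ (ℓ : ℝ) ^ (-(2 : ℕ) : ℤ) := by exact_mod_cast h3
    rw [Padic.norm_int_le_pow_iff_dvd] at h5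
    have h6 : ℓ ^ 2 ∣ q := by exact_mod_cast h5
    have h7 : ℓ ∣ q := (dvd_pow_self ℓ two_ne_zero).trans h6
    have h8 : ℓ = q := (Nat.prime_dvd_prime_iff_eq Fact.out hq).1 h7
    rw [← h8] at h6
    have h9 := Nat.le_of_dvd (Fact.out : ℓ.Prime).pos h6
    have h10 := (Fact.out : ℓ.Prime).one_lt
    nlinarith
  induction r using Nat.recOnPosPrimePosCoprime generalizing z with
  | prime_pow p n hp hn =>
    clear hr
    induction n with
    | zero => rwa [pow_zero, pow_one] at h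
    | succ n ih =>
      by_cases hn0 : n = 0
      · subst hn0
        rw [zero_add, pow_one] at h
        exact hprime p hp z hz h
      · apply ih (Nat.pos_of_ne_zero hn0)
        rw [pow_succ, pow_mul] at h
        exact hprime p hp _ ((hsum z hz _).trans hz) h
  | zero => exact absurd hr (lt_irrefl 0)
  | one => rwa [pow_one] at h
  | coprime a b ha hb _ iha ihb =>
    rw [pow_mul] at h
    exact iha hz (by omega) (ihb ((hsum z hz _).trans hz) (by omega) h)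

/-- The subgroup is neat. -/
theorem neat_neat {hint : ∀ g i j, ‖LinearMap.toMatrix b b (ρ g) i j‖ ≤ 1} {g : Γ}
    (hg : g ∈ neat ρ b hint) {u v : PadicAlgCl ℓ ⊗[ℚ_[ℓ]] V} (hu0 : u ≠ 0) (hv0 : v ≠ 0)
    {z z' : PadicAlgCl ℓ} (hu : bcr ρ (PadicAlgCl ℓ) g u = z • u)
    (hv : bcr ρ (PadicAlgCl ℓ) g v = z' • v) {r : ℕ} (hr : 0 < r) (h : (z / z') ^ r = 1) :
    z = z' := by
  have hℓ : (1 : ℝ) < ℓ := by exact_mod_cast (Fact.out : ℓ.Prime).one_lt
  have hc : (0 : ℝ) ≤ (ℓ : ℝ) ^ (-2 : ℤ) := by positivity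
  have hc1 : (ℓ : ℝ) ^ (-2 : ℤ) < 1 := by
    rw [zpow_neg]
    exact inv_lt_one_of_one_lt₀ (one_lt_zpow₀ hℓ (by norm_num))
  have h1 := eig_close hc (mem_neat.1 hg) hu0 hu
  have h2 := eig_close hc (mem_neat.1 hg) hv0 hv
  have h3 : ‖z'‖ = 1 := by
    have h4 : z' = 1 + (z' - 1) := by ring
    rw [h4]
    have h5 : ‖(z' - 1)‖ < ‖(1 : PadicAlgCl ℓ)‖ := by
      rw [norm_one]
      exact h2.trans_lt hc1
    rw [IsUltrametricDist.norm_add_eq_max_of_norm_ne_norm h5.ne', max_eq_left h5.le, norm_one]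
  have hz' : z' ≠ 0 := by
    rintro rfl
    rw [norm_zero] at h3
    exact zero_ne_one h3
  have h4 : ‖z / z' - 1‖ ≤ (ℓ : ℝ) ^ (-2 : ℤ) := by
    have h5 : z / z' - 1 = ((z - 1) - (z' - 1)) / z' := by
      field_simp
      ring
    rw [h5, norm_div, h3, div_one]
    rw [sub_eq_add_neg]
    refine (IsUltrametricDist.norm_add_le_max _ _).trans (max_le h1 ?_)
    rw [norm_neg]
    exact h2
  have h5 := eq_one_of_close h4 hr h
  rwa [div_eq_one_iff_eq hz'] at h5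

end

end Pool.Agent.R930
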