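import Mathlib
import Pool.Agent.R930.Neat

/-!
# Closed conditions on the elements of the group
-/

set_option linter.unusedSectionVars false

namespace Pool.Agent.R930

open Module TensorProduct Pool.Agent.H204R3.SP

noncomputable section

variable {ℓ : ℕ} [Fact ℓ.Prime] {V Γ : Type} [AddCommGroup V] [Module ℚ_[ℓ] V]
    [FiniteDimensional ℚ_[ℓ] V] [Group Γ] [TopologicalSpace Γ]
    {ρ : Representation ℚ_[ℓ] Γ V} {ι : Type} [Fintype ι] [DecidableEq ι] {b : Basis ι ℚ_[ℓ] V}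

/-- Linear functions of the operators are continuous. -/
theorem cont_lin (hcont : ∀ i j, Continuous fun g => LinearMap.toMatrix b b (ρ g) i j)
    (Λ : Module.End (PadicAlgCl ℓ) (PadicAlgCl ℓ ⊗[ℚ_[ℓ]] V) →ₗ[PadicAlgCl ℓ] PadicAlgCl ℓ) :
    Continuous fun g => Λ (bcr ρ (PadicAlgCl ℓ) g) := by
  let L₀ : Matrix ι ι ℚ_[ℓ] →ₗ[ℚ_[ℓ]] PadicAlgCl ℓ :=
    ((Λ.restrictScalars ℚ_[ℓ]).comp (LinearMap.baseChangeHom ℚ_[ℓ] (PadicAlgCl ℓ) V V)).comp
      (Matrix.toLin b b).toLinearMap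
  have h1 : ∀ g, Λ (bcr ρ (PadicAlgCl ℓ) g) = L₀ (LinearMap.toMatrix b b (ρ g)) := by
    intro g
    change _ = Λ ((Matrix.toLin b b (LinearMap.toMatrix b b (ρ g))).baseChange (PadicAlgCl ℓ))
    rw [Matrix.toLin_toMatrix]
    rfl
  have h2 : (fun g => Λ (bcr ρ (PadicAlgCl ℓ) g)) = fun g => ∑ i, ∑ j,
      (LinearMap.toMatrix b b (ρ g) i j) • L₀ (Matrix.single i j 1) := by
    funext g
    rw [h1]
    conv_lhs => rw [Matrix.matrix_eq_sum_single (LinearMap.toMatrix b b (ρ g))]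
    rw [map_sum]
    refine Finset.sum_congr rfl fun i _ => ?_
    rw [map_sum]
    refine Finset.sum_congr rfl fun j _ => ?_
    rw [← map_smul, Matrix.smul_single, smul_eq_mul, mul_one]
  rw [h2]
  refine continuous_finsetSum _ fun i _ => continuous_finsetSum _ fun j _ => ?_
  exact (hcont i j).smul continuous_const

theorem closed_lin (hcont : ∀ i j, Continuous fun g => LinearMap.toMatrix b b (ρ g) i j)
    {W : Type} [AddCommGroup W] [Module (PadicAlgCl ℓ) W]
    (Λ : Module.End (PadicAlgCl ℓ) (PadicAlgCl ℓ ⊗[ℚ_[ℓ]] V) →ₗ[PadicAlgCl ℓ] W) :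
    IsClosed {g | Λ (bcr ρ (PadicAlgCl ℓ) g) = 0} := by
  have h1 : {g | Λ (bcr ρ (PadicAlgCl ℓ) g) = 0} =
      ⋂ φ : Dual (PadicAlgCl ℓ) W, {g | (φ.comp Λ) (bcr ρ (PadicAlgCl ℓ) g) = 0} := by
    ext g
    simp only [Set.mem_ofPred_eq, Set.mem_iInter, LinearMap.comp_apply]
    exact (Module.forall_dual_apply_eq_zero_iff (PadicAlgCl ℓ) _).symm
  rw [h1]
  exact isClosed_iInter fun φ => isClosed_eq (cont_lin hcont _) continuous_const

/-- The commutator with `Q`. -/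
def commLin {K X : Type} [Field K] [AddCommGroup X] [Module K X] (Q : Module.End K X) :
    Module.End K X →ₗ[K] Module.End K X :=
  LinearMap.mulLeft K Q - LinearMap.mulRight K Q

theorem commLin_eq_zero {K X : Type} [Field K] [AddCommGroup X] [Module K X]
    {Q T : Module.End K X} : commLin Q T = 0 ↔ Q * T = T * Q := by
  unfold commLin
  rw [LinearMap.sub_apply, LinearMap.mulLeft_apply, LinearMap.mulRight_apply, sub_eq_zero]

/-- A closed set that contains the elements of a dense set in an open set contains the open set. -/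
theorem of_dense {D U C : Set Γ} (hD : Dense D) (hU : IsOpen U) (hC : IsClosed C)
    (h : D ∩ U ⊆ C) : U ⊆ C := by
  intro g hg
  have h1 : g ∈ closure (U ∩ D) := hD.open_subset_closure_inter hU hg
  rw [Set.inter_comm] at h1
  exact closure_minimal h hC h1

theorem commute_of_dense
    (hcont : ∀ i j, Continuous fun g => LinearMap.toMatrix b b (ρ g) i j) {D : Set Γ}
    (hD : Dense D) {U : Set Γ} (hU : IsOpen U)
    {Q : Module.End (PadicAlgCl ℓ) (PadicAlgCl ℓ ⊗[ℚ_[ℓ]] V)}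
    (h : ∀ g ∈ D, g ∈ U → Q * bcr ρ (PadicAlgCl ℓ) g = bcr ρ (PadicAlgCl ℓ) g * Q) :
    ∀ g ∈ U, Q * bcr ρ (PadicAlgCl ℓ) g = bcr ρ (PadicAlgCl ℓ) g * Q := by
  intro g hg
  have h1 := of_dense hD hU (closed_lin (ρ := ρ) hcont (commLin Q)) (by
    rintro g' ⟨hg'D, hg'U⟩
    exact commLin_eq_zero.2 (h g' hg'D hg'U)) hg
  exact commLin_eq_zero.1 h1

end

end Pool.Agent.R930
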