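import Mathlib
import Pool.Agent.Y126.Glue

/-!
# Slope operators of diagonalizable elements with two slopes
-/

set_option linter.unusedSectionVars false

namespace Pool.Agent.R930

open Module Pool.Agent.H204R3.SP Pool.Agent.H204R3.GP Pool.Agent.W522.U Pool.Agent.TH118.CR

noncomputable section

/-- An additive map on the real numbers with a given value. -/
theorem exists_kappa {K : Type} [Field K] [CharZero K] (r : ℝ) (hr : r ≠ 0) (k : K) :
    ∃ κ : ℝ →+ K, κ r = k := by
  have hB : Module.Baer ℤ K := Module.Baer.of_divisible K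
  let f : ℤ →ₗ[ℤ] ℝ := LinearMap.toSpanSingleton ℤ ℝ r
  have hf : Function.Injective f := by
    rw [injective_iff_map_eq_zero]
    intro n hn
    have h2 : f n = (n : ℝ) * r := by
      change n • r = _
      rw [zsmul_eq_mul]
    rw [h2] at hn
    exact_mod_cast (mul_eq_zero.1 hn).resolve_right hr
  obtain ⟨h, hh⟩ := Module.Baer.extension_property hB f hf (LinearMap.toSpanSingleton ℤ K k)
  refine ⟨h.toAddMonoidHom, ?_⟩
  have h1 := congrArg (fun F : ℤ →ₗ[ℤ] K => F 1) hh
  have h2 : f 1 = r := one_smul _ _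
  simp only [LinearMap.comp_apply, h2, LinearMap.toSpanSingleton_apply, one_smul] at h1
  exact h1

/-- The logarithm of an absolute value on a subfield extends to the multiplicative group. -/
theorem exists_log {K : Type} [Field K] [CharZero K] (L : Subfield K) {F : Type} [NormedField F]
    (τ : L →+* F) (κ : ℝ →+ K) :
    ∃ f : Additive Kˣ →+ K, ∀ (u : Kˣ) (z : L), (z : K) = u →
      f (Additive.ofMul u) = κ (Real.log ‖τ z‖) := by
  have hB : Module.Baer ℤ K := Module.Baer.of_divisible K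
  let j : Lˣ →* Kˣ := Units.map (L.subtype : L →* K)
  have hj : Function.Injective j := Units.map_injective L.subtype.injective
  let f : Additive Lˣ →ₗ[ℤ] Additive Kˣ := (MonoidHom.toAdditive j).toIntLinearMap
  have hf : Function.Injective f := hj
  let g₀ : Additive Lˣ →+ K :=
    { toFun := fun u => κ (Real.log ‖τ ((u.toMul : Lˣ) : L)‖)
      map_zero' := by
        change κ (Real.log ‖τ ((1 : Lˣ) : L)‖) = 0
        rw [Units.val_one, map_one, norm_one, Real.log_one, map_zero]
      map_add' := fun u v => by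
        change κ (Real.log ‖τ ((u.toMul * v.toMul : Lˣ) : L)‖) = _
        rw [Units.val_mul, map_mul, norm_mul, Real.log_mul, map_add]
        · exact norm_ne_zero_iff.2 ((map_ne_zero _).2 (Units.ne_zero _))
        · exact norm_ne_zero_iff.2 ((map_ne_zero _).2 (Units.ne_zero _)) }
  obtain ⟨h, hh⟩ := Module.Baer.extension_property hB f hf g₀.toIntLinearMap
  refine ⟨h.toAddMonoidHom, fun u z hz => ?_⟩
  have hz0 : z ≠ 0 := by
    rintro rfl
    exact u.ne_zero hz.symm
  have h1 := congrArg (fun F : Additive Lˣ →ₗ[ℤ] K => F (Additive.ofMul (Units.mk0 z hz0))) hh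
  have h2 : f (Additive.ofMul (Units.mk0 z hz0)) = Additive.ofMul u := by
    change Additive.ofMul (j (Units.mk0 z hz0)) = _
    congr 1
    exact Units.ext hz
  simp only [LinearMap.comp_apply, h2] at h1
  exact h1

variable {K : Type} [Field K] [CharZero K] {X : Type} [AddCommGroup X] [Module K X]
  [FiniteDimensional K X] {Γ : Type} [Group Γ] {R : Representation K Γ X} {χ : Γ →* K}

/-- The slope operator of a diagonalizable element with two slopes. -/
theorem two_slope_op {ι : Type} [Fintype ι] [DecidableEq ι] (γ : Γ) (b : Basis ι K X)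
    (a : ι → Kˣ) (hγ : ∀ i, R γ (b i) = (a i : K) • b i) (c : Kˣ) (hc : (c : K) = χ γ)
    (L : Subfield K) {F : Type} [NormedField F] (τ : L →+* F) (z : ι → L)
    (hz : ∀ i, (z i : K) = a i) (zc : L) (hzc : (zc : K) = c) (t : ℝ) (ht : 0 < t)
    (ht2 : t * t ≠ ‖τ zc‖) (hs : ∀ i, ‖τ (z i)‖ = t ∨ ‖τ (z i)‖ * t = ‖τ zc‖) :
    ∃ x ∈ lieT R χ, x * x = (1 / 4 : K) • 1 ∧
      ∀ i, (‖τ (z i)‖ = t → x (b i) = (1 / 2 : K) • b i) ∧
        (‖τ (z i)‖ ≠ t → x (b i) = (-(1 / 2) : K) • b i) := by
  have hzc0 : zc ≠ 0 := by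
    rintro rfl
    exact c.ne_zero hzc.symm
  have hn0 : 0 < ‖τ zc‖ := norm_pos_iff.2 ((map_ne_zero _).2 hzc0)
  have hr : 2 * Real.log t - Real.log ‖τ zc‖ ≠ 0 := by
    intro h
    apply ht2
    have h1 : Real.log (t * t) = Real.log ‖τ zc‖ := by
      rw [Real.log_mul ht.ne' ht.ne']
      linarith
    exact Real.log_injOn_pos (Set.mem_Ioi.2 (by positivity)) (Set.mem_Ioi.2 hn0) h1
  obtain ⟨κ, hκ⟩ := exists_kappa (K := K) _ hr 1
  have hκ' : 2 * κ (Real.log t) - κ (Real.log ‖τ zc‖) = 1 := by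
    rw [← hκ, map_sub, two_mul, two_mul, map_add]
  obtain ⟨f, hf⟩ := exists_log L τ κ
  have hmem := dg_mem R χ γ b a hγ c hc f
  obtain ⟨s, hsd⟩ : ∃ s : ι → K, s = fun k => f (Additive.ofMul (a k)) -
      f (Additive.ofMul c) / 2 := ⟨_, rfl⟩
  rw [← hsd] at hmem
  have h1 : ∀ i, ‖τ (z i)‖ = t → s i = 1 / 2 := by
    intro i hi
    rw [hsd]
    change f (Additive.ofMul (a i)) - f (Additive.ofMul c) / 2 = _
    rw [hf (a i) (z i) (hz i), hf c zc hzc, hi]
    linear_combination (1 / 2 : K) * hκ'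
  have h2 : ∀ i, ‖τ (z i)‖ ≠ t → s i = -(1 / 2) := by
    intro i hi
    have hi2 := (hs i).resolve_left hi
    rw [hsd]
    change f (Additive.ofMul (a i)) - f (Additive.ofMul c) / 2 = _
    rw [hf (a i) (z i) (hz i), hf c zc hzc]
    have h3 : Real.log ‖τ (z i)‖ = Real.log ‖τ zc‖ - Real.log t := by
      rw [← hi2, Real.log_mul _ ht.ne']
      · ring
      · intro h0
        rw [h0, zero_mul] at hi2
        exact hn0.ne hi2
    rw [h3, map_sub]
    linear_combination (-(1 / 2) : K) * hκ'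
  refine ⟨dg b s, hmem, ?_, fun i => ⟨fun hi => ?_, fun hi => ?_⟩⟩
  · refine b.ext fun i => ?_
    rw [Module.End.mul_apply, dg_basis, map_smul, dg_basis, smul_smul, LinearMap.smul_apply,
      Module.End.one_apply]
    congr 1
    by_cases hi : ‖τ (z i)‖ = t
    · rw [h1 i hi]; norm_num
    · rw [h2 i hi]; norm_num
  · rw [dg_basis, h1 i hi]
  · rw [dg_basis, h2 i hi]

end

end Pool.Agent.R930
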