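import Mathlib
import Pool.Agent.H485R3.Kron

/-!
# Separation of Weil numbers by `p`-adic absolute values
-/

set_option linter.unusedSectionVars false

namespace Pool.Agent.R930

open Module Polynomial

noncomputable section

theorem norm_int_le_one {l : ℕ} [Fact l.Prime] (n : ℤ) : ‖(n : PadicAlgCl l)‖ ≤ 1 := by
  have h1 : (n : PadicAlgCl l) = algebraMap ℚ_[l] (PadicAlgCl l) (n : ℚ_[l]) :=
    (map_intCast (algebraMap ℚ_[l] (PadicAlgCl l)) n).symm
  rw [h1, norm_algebraMap']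
  exact Padic.norm_int_le_one _

/-- Roots of monic integral polynomials are integral. -/
theorem norm_root_le_one {l : ℕ} [Fact l.Prime] {P : ℤ[X]} (hP : P.Monic) {y : PadicAlgCl l}
    (hy : aeval y P = 0) : ‖y‖ ≤ 1 := by
  by_contra hlt
  rw [not_le] at hlt
  rw [aeval_def, eval₂_eq_sum_range, Finset.sum_range_succ, hP.coeff_natDegree, map_one,
    one_mul, add_comm, add_eq_zero_iff_eq_neg] at hy
  have h2 : ‖y ^ P.natDegree‖ < ‖y ^ P.natDegree‖ := by
    conv_lhs => rw [hy, norm_neg]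
    have hpos : (0 : ℝ) < ‖y ^ P.natDegree‖ := by
      rw [norm_pow]
      exact pow_pos (zero_lt_one.trans hlt) _
    rcases Finset.eq_empty_or_nonempty (Finset.range P.natDegree) with hem | hne
    · rw [hem, Finset.sum_empty, norm_zero]
      exact hpos
    · obtain ⟨i, hi, hmax⟩ := IsUltrametricDist.exists_norm_finsetSum_le_of_nonempty hne
        (fun i => (algebraMap ℤ (PadicAlgCl l)) (P.coeff i) * y ^ i)
      refine hmax.trans_lt ?_
      rw [norm_mul, norm_pow, norm_pow]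
      have h3 : ‖(algebraMap ℤ (PadicAlgCl l)) (P.coeff i)‖ ≤ 1 := norm_int_le_one _
      have h4 : ‖y‖ ^ i < ‖y‖ ^ P.natDegree := pow_lt_pow_right₀ hlt (Finset.mem_range.1 hi)
      have h5 : 0 ≤ ‖y‖ ^ i := by positivity
      nlinarith
  exact lt_irrefl _ h2

/-- The constant coefficient of a Weil polynomial. -/
theorem coeff_zero_sq {P : ℤ[X]} (hP : P.Monic) {q : ℕ}
    (hC : ∀ z : ℂ, aeval z P = 0 → ‖z‖ ^ 2 = q) : P.coeff 0 ^ 2 = (q : ℤ) ^ P.natDegree := by
  obtain ⟨Q, hQ⟩ : ∃ Q, Q = P.map (algebraMap ℤ ℂ) := ⟨_, rfl⟩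
  have hQm : Q.Monic := by rw [hQ]; exact hP.map _
  have hs : Q.Splits := IsAlgClosed.splits Q
  have h1 := hs.coeff_zero_eq_prod_roots_of_monic hQm
  have h2 : ‖Q.coeff 0‖ ^ 2 = (q : ℝ) ^ P.natDegree := by
    rw [h1, norm_mul, norm_pow, norm_neg, norm_one, one_pow, one_mul]
    have h3 : ‖Q.roots.prod‖ ^ 2 = (Q.roots.map (fun z : ℂ => ‖z‖ ^ 2)).prod := by
      have h4 : ‖Q.roots.prod‖ = (Q.roots.map (fun z : ℂ => ‖z‖)).prod :=
        map_multiset_prod (normHom : ℂ →*₀ ℝ) _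
      rw [h4, ← Multiset.prod_map_pow]
    rw [h3]
    have h4 : Q.roots.map (fun z : ℂ => ‖z‖ ^ 2) = Q.roots.map (fun _ => (q : ℝ)) := by
      refine Multiset.map_congr rfl fun z hz => hC z ?_
      rw [mem_roots hQm.ne_zero, hQ, IsRoot.def, eval_map_algebraMap] at hz
      exact hz
    rw [h4, Multiset.map_const', Multiset.prod_replicate, ← hs.natDegree_eq_card_roots, hQ,
      hP.natDegree_map]
  rw [hQ, coeff_map] at h2
  have h5 : ‖(algebraMap ℤ ℂ) (P.coeff 0)‖ = |((P.coeff 0 : ℤ) : ℝ)| := by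
    change ‖((P.coeff 0 : ℤ) : ℂ)‖ = _
    rw [Complex.norm_intCast]
  rw [h5, sq_abs] at h2
  exact_mod_cast h2

/-- Outside `p` the roots are units. -/
theorem norm_root_eq_one {l p : ℕ} [Fact l.Prime] (hp : p.Prime) (hl : l ≠ p) {a : ℕ} {P : ℤ[X]}
    (hP : P.Monic) (hC : ∀ z : ℂ, aeval z P = 0 → ‖z‖ ^ 2 = ((p ^ a : ℕ) : ℝ))
    {y : PadicAlgCl l} (hy : aeval y P = 0) : ‖y‖ = 1 := by
  apply le_antisymm (norm_root_le_one hP hy)
  have h1 := coeff_zero_sq hP hC
  have h2 : ‖((P.coeff 0 : ℤ) : PadicAlgCl l)‖ = 1 := by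
    have h3 : ‖((P.coeff 0 : ℤ) : PadicAlgCl l)‖ ^ 2 = 1 := by
      rw [← norm_pow, ← Int.cast_pow, h1]
      have h4 : ((((p ^ a : ℕ) : ℤ) ^ P.natDegree : ℤ) : PadicAlgCl l) =
          algebraMap ℚ_[l] (PadicAlgCl l) (((p : ℕ) : ℚ_[l]) ^ (a * P.natDegree)) := by
        push_cast
        rw [pow_mul]
      rw [h4, norm_algebraMap', norm_pow]
      have h5 : ‖(p : ℚ_[l])‖ = 1 := by
        rw [Padic.norm_natCast_eq_one_iff]
        exact (Nat.coprime_primes (Fact.out : l.Prime) hp).2 hl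
      rw [h5, one_pow]
    have h4 := norm_nonneg ((P.coeff 0 : ℤ) : PadicAlgCl l)
    nlinarith
  have h3 : y * aeval y P.divX = -((P.coeff 0 : ℤ) : PadicAlgCl l) := by
    have h4 := P.divX_mul_X_add
    have h5 : aeval y P = aeval y P.divX * y + ((P.coeff 0 : ℤ) : PadicAlgCl l) := by
      conv_lhs => rw [← h4]
      rw [map_add, map_mul, aeval_X, aeval_C]
      rfl
    rw [hy] at h5
    linear_combination -h5
  have h4 : ‖aeval y P.divX‖ ≤ 1 := by
    rw [aeval_def, eval₂_eq_sum_range]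
    refine IsUltrametricDist.norm_sum_le_of_forall_le_of_nonneg zero_le_one fun i _ => ?_
    rw [norm_mul, norm_pow]
    have h5 : ‖(algebraMap ℤ (PadicAlgCl l)) (P.divX.coeff i)‖ ≤ 1 := norm_int_le_one _
    exact mul_le_one₀ h5 (by positivity) (pow_le_one₀ (norm_nonneg _) (norm_root_le_one hP hy))
  have h5 := congrArg norm h3
  rw [norm_mul, norm_neg, h2] at h5
  nlinarith [norm_nonneg y, norm_nonneg (aeval y P.divX)]

section field

variable {K : Type} [Field K] [CharZero K] [IsAlgClosed K] (P : ℤ[X])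

/-- The field generated by the roots. -/
def rootField (K : Type) [Field K] [CharZero K] : IntermediateField ℚ K :=
  IntermediateField.adjoin ℚ ((P.map (algebraMap ℤ ℚ)).rootSet K)

instance : IsSplittingField ℚ (rootField P K) (P.map (algebraMap ℤ ℚ)) :=
  IntermediateField.adjoin_rootSet_isSplittingField (IsAlgClosed.splits _)

instance : Normal ℚ (rootField P K) := Normal.of_isSplittingField (P.map (algebraMap ℤ ℚ))

instance : FiniteDimensional ℚ (rootField P K) :=
  Polynomial.IsSplittingField.finiteDimensional _ (P.map (algebraMap ℤ ℚ))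

variable {P}

theorem aeval_map_rat {A : Type} [CommRing A] [Algebra ℚ A] (z : A) :
    aeval z (P.map (algebraMap ℤ ℚ)) = aeval z P := by
  rw [aeval_map_algebraMap]

theorem mem_rootField (hP : P.Monic) {z : K} (hz : aeval z P = 0) : z ∈ rootField P K := by
  refine IntermediateField.subset_adjoin _ _ ?_
  rw [mem_rootSet]
  refine ⟨(hP.map _).ne_zero, ?_⟩
  rw [aeval_map_rat]
  exact hz

theorem aeval_coe {z : rootField P K} (hz : aeval (z : K) P = 0) : aeval z P = 0 := by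
  have h1 : algebraMap (rootField P K) K (aeval z P) = 0 := by
    rw [← aeval_algebraMap_apply]
    exact hz
  exact (map_eq_zero_iff _ (algebraMap (rootField P K) K).injective).1 h1

theorem aeval_emb {F : Type} [Field F] {z : rootField P K} (hz : aeval (z : K) P = 0)
    (τ : rootField P K →+* F) : aeval (τ z) P = 0 := by
  have h1 := congrArg τ (aeval_coe hz)
  rw [map_zero, aeval_def, hom_eval₂] at h1
  rw [aeval_def]
  have h2 : τ.comp (algebraMap ℤ (rootField P K)) = algebraMap ℤ F := RingHom.ext_int _ _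
  rw [← h2]
  exact h1

/-- Two Weil numbers whose quotient is not a root of unity are separated by a `p`-adic absolute
value. -/
theorem exists_sep {p : ℕ} [Fact p.Prime] {a : ℕ} (hP : P.Monic)
    (hC : ∀ z : ℂ, aeval z P = 0 → ‖z‖ ^ 2 = ((p ^ a : ℕ) : ℝ)) {z z' : rootField P K}
    (hz : aeval (z : K) P = 0) (hz' : aeval (z' : K) P = 0)
    (hne : ∀ r : ℕ, 0 < r → ((z : K) / z') ^ r ≠ 1) :
    ∃ τ : rootField P K →+* PadicAlgCl p, ‖τ z‖ ≠ ‖τ z'‖ := by
  by_contra hcon
  push Not at hcon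
  have hcz : ∀ z : rootField P K, aeval (z : K) P = 0 → ∀ φ : rootField P K →ₐ[ℚ] ℂ,
      ‖φ z‖ ^ 2 = ((p ^ a : ℕ) : ℝ) := fun z hz φ => hC _ (aeval_emb hz φ.toRingHom)
  have hpa : (0 : ℝ) < ((p ^ a : ℕ) : ℝ) := by
    exact_mod_cast pow_pos (Fact.out : p.Prime).pos _
  have hz'0 : z' ≠ 0 := by
    obtain ⟨φ⟩ : Nonempty (rootField P K →ₐ[ℚ] ℂ) := ⟨IsAlgClosed.lift⟩
    rintro rfl
    have h1 := hcz 0 hz' φ
    rw [map_zero, norm_zero, zero_pow two_ne_zero] at h1
    exact hpa.ne h1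
  have h1 : ∀ (l : ℕ) [Fact l.Prime] (e : rootField P K →ₐ[ℚ] PadicAlgCl l), ‖e (z / z')‖ ≤ 1 := by
    intro l _ e
    rw [map_div₀, norm_div]
    by_cases hl : l = p
    · subst hl
      have h2 := hcon e.toRingHom
      change ‖e z‖ = ‖e z'‖ at h2
      rw [h2]
      exact div_self_le_one _
    · have h2 : ‖e z‖ = 1 := norm_root_eq_one Fact.out hl hP hC (aeval_emb hz e.toRingHom)
      have h3 : ‖e z'‖ = 1 := norm_root_eq_one Fact.out hl hP hC (aeval_emb hz' e.toRingHom)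
      rw [h2, h3, div_one]
  have h2 : ∀ φ : rootField P K →ₐ[ℚ] ℂ, ‖φ (z / z')‖ = 1 := by
    intro φ
    have h3 := hcz z hz φ
    have h4 := hcz z' hz' φ
    have h5 : ‖φ z‖ = ‖φ z'‖ := by
      rw [← h4] at h3
      exact (pow_left_inj₀ (norm_nonneg _) (norm_nonneg _) two_ne_zero).1 h3
    rw [map_div₀, norm_div, h5, div_self]
    intro h6
    rw [h6, zero_pow two_ne_zero] at h4
    exact hpa.ne h4
  obtain ⟨r, hr, h3⟩ := Pool.Agent.H485R3.pow_eq_one_of_norm (z / z')
    (Pool.Agent.H485R3.isIntegral_of_norm_le (z / z') h1) h2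
  apply hne r hr
  have h4 := congrArg (algebraMap (rootField P K) K) h3
  rw [map_pow, map_div₀, map_one] at h4
  exact h4

end field

end

end Pool.Agent.R930
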