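import Mathlib
import Pool.Agent.R930.Log
import Pool.Agent.R930.Neat
import Pool.Agent.R930.RootU

/-!
# Frobenius elements and their slope operators
-/

set_option linter.unusedSectionVars false

namespace Pool.Agent.R930

open Module TensorProduct Polynomial Pool.Agent.H204R3.SP Pool.Agent.H204R3.GP
open Pool.Agent.W522.U Pool.Agent.TH118.CR

noncomputable section

/-- The element `γ` acts on the Tate module like the Frobenius element of a place with a residue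
field with `p ^ a` elements, `p ≠ ℓ`: it is semisimple, its characteristic polynomial `P` has integral
coefficients, the complex roots of `P` have absolute value `p ^ (a / 2)`, and `χ γ = p ^ a`. -/
structure IsFrobenius {ℓ : ℕ} [Fact ℓ.Prime] {V Γ : Type} [AddCommGroup V] [Module ℚ_[ℓ] V]
    [FiniteDimensional ℚ_[ℓ] V] [Group Γ] (ρ : Representation ℚ_[ℓ] Γ V) (χ : Γ →* ℚ_[ℓ])
    (γ : Γ) (p a : ℕ) (P : ℤ[X]) : Prop where
  ne : p ≠ ℓ
  semisimple : Module.End.IsSemisimple (ρ γ)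
  monic : P.Monic
  charpoly : (ρ γ).charpoly = P.map (Int.castRingHom ℚ_[ℓ])
  cyclotomic : χ γ = (p : ℚ_[ℓ]) ^ a
  weil : ∀ z : ℂ, aeval z P = 0 → ‖z‖ ^ 2 = (p : ℝ) ^ a

variable {ℓ : ℕ} [Fact ℓ.Prime] {V Γ : Type} [AddCommGroup V] [Module ℚ_[ℓ] V]
    [FiniteDimensional ℚ_[ℓ] V] [Group Γ] {ρ : Representation ℚ_[ℓ] Γ V} {χ : Γ →* ℚ_[ℓ]}
    {γ : Γ} {p a : ℕ} [Fact p.Prime] {P : ℤ[X]}

theorem eig_root (hF : IsFrobenius ρ χ γ p a P) {z : AlgebraicClosure ℚ_[ℓ]}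
    {u : AlgebraicClosure ℚ_[ℓ] ⊗[ℚ_[ℓ]] V} (hu0 : u ≠ 0)
    (hu : bcr ρ (AlgebraicClosure ℚ_[ℓ]) γ u = z • u) : aeval z P = 0 := by
  have h1 : aeval (bcr ρ (AlgebraicClosure ℚ_[ℓ]) γ) ((ρ γ).charpoly.map
      (algebraMap ℚ_[ℓ] (AlgebraicClosure ℚ_[ℓ]))) = 0 := by
    have h2 := LinearMap.aeval_self_charpoly (bcr ρ (AlgebraicClosure ℚ_[ℓ]) γ)
    rw [← LinearMap.charpoly_baseChange]
    exact h2
  have h2 := Module.End.aeval_apply_of_hasEigenvector (p := (ρ γ).charpoly.map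
      (algebraMap ℚ_[ℓ] (AlgebraicClosure ℚ_[ℓ])))
    (⟨Module.End.mem_eigenspace_iff.2 hu, hu0⟩ :
      Module.End.HasEigenvector (bcr ρ (AlgebraicClosure ℚ_[ℓ]) γ) z u)
  rw [h1, LinearMap.zero_apply] at h2
  have h3 := (smul_eq_zero.1 h2.symm).resolve_right hu0
  rw [hF.charpoly, Polynomial.map_map, eval_map] at h3
  rw [aeval_def]
  have h4 : (algebraMap ℚ_[ℓ] (AlgebraicClosure ℚ_[ℓ])).comp (Int.castRingHom ℚ_[ℓ]) =
      algebraMap ℤ (AlgebraicClosure ℚ_[ℓ]) := RingHom.ext_int _ _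
  rw [← h4]
  exact h3

theorem exists_eigenbasis {f : Module.End ℚ_[ℓ] V} (hf : f.IsSemisimple) :
    ∃ (b : Basis (Fin (finrank ℚ_[ℓ] V)) (AlgebraicClosure ℚ_[ℓ])
      (AlgebraicClosure ℚ_[ℓ] ⊗[ℚ_[ℓ]] V)) (a : Fin (finrank ℚ_[ℓ] V) → AlgebraicClosure ℚ_[ℓ]),
      ∀ i, f.baseChange (AlgebraicClosure ℚ_[ℓ]) (b i) = a i • b i := by
  classical
  obtain ⟨F, hFd⟩ : ∃ F : Module.End (AlgebraicClosure ℚ_[ℓ]) (AlgebraicClosure ℚ_[ℓ] ⊗[ℚ_[ℓ]] V),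
    F = f.baseChange (AlgebraicClosure ℚ_[ℓ]) := ⟨_, rfl⟩
  have hsq : Squarefree (minpoly ℚ_[ℓ] f) := hf.minpoly_squarefree
  have hsep : (minpoly ℚ_[ℓ] f).Separable := PerfectField.separable_iff_squarefree.2 hsq
  have hsepK := hsep.map (f := algebraMap ℚ_[ℓ] (AlgebraicClosure ℚ_[ℓ]))
  have hss : F.IsSemisimple := by
    apply Module.End.isSemisimple_of_squarefree_aeval_eq_zero hsepK.squarefree
    have h1 : aeval F ((minpoly ℚ_[ℓ] f).map (algebraMap ℚ_[ℓ] (AlgebraicClosure ℚ_[ℓ]))) =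
        (aeval f (minpoly ℚ_[ℓ] f)).baseChange (AlgebraicClosure ℚ_[ℓ]) := by
      rw [aeval_map_algebraMap, hFd]
      have h2 := Polynomial.aeval_algHom_apply
        (Module.End.baseChangeHom ℚ_[ℓ] (AlgebraicClosure ℚ_[ℓ]) V) f (minpoly ℚ_[ℓ] f)
      exact h2
    rw [h1, minpoly.aeval, LinearMap.baseChange_zero]
  have htop := hss.iSup_eigenspace_eq_top
  have hint : DirectSum.IsInternal F.eigenspace :=
    DirectSum.isInternal_submodule_of_iSupIndep_of_iSup_eq_top F.eigenspaces_iSupIndep htop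
  set b0 := hint.collectedBasis (fun μ => Module.finBasis (AlgebraicClosure ℚ_[ℓ])
    (F.eigenspace μ)) with hb0
  have hfin : Finite (Σ μ : AlgebraicClosure ℚ_[ℓ],
      Fin (Module.finrank (AlgebraicClosure ℚ_[ℓ]) (F.eigenspace μ))) :=
    Module.Finite.finite_basis b0
  have : Fintype (Σ μ : AlgebraicClosure ℚ_[ℓ],
      Fin (Module.finrank (AlgebraicClosure ℚ_[ℓ]) (F.eigenspace μ))) := Fintype.ofFinite _
  have hcard : Fintype.card (Σ μ : AlgebraicClosure ℚ_[ℓ],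
      Fin (Module.finrank (AlgebraicClosure ℚ_[ℓ]) (F.eigenspace μ))) =
      Fintype.card (Fin (finrank ℚ_[ℓ] V)) := by
    rw [← Module.finrank_eq_card_basis b0, Module.finrank_baseChange, Fintype.card_fin]
  have e := Fintype.equivOfCardEq hcard
  refine ⟨b0.reindex e, fun i => (e.symm i).1, fun i => ?_⟩
  have h1 : (b0.reindex e) i = b0 (e.symm i) := by rw [Module.Basis.reindex_apply]
  have h2 : (b0.reindex e) i ∈ F.eigenspace (e.symm i).1 := by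
    rw [h1]
    exact hint.collectedBasis_mem _ _
  rw [Module.End.mem_eigenspace_iff] at h2
  have h3 := congrArg (fun T : Module.End (AlgebraicClosure ℚ_[ℓ])
    (AlgebraicClosure ℚ_[ℓ] ⊗[ℚ_[ℓ]] V) => T ((b0.reindex e) i)) hFd
  exact h3.symm.trans h2

theorem bcr_ne_zero {g : Γ} {u : AlgebraicClosure ℚ_[ℓ] ⊗[ℚ_[ℓ]] V} (hu0 : u ≠ 0)
    {z : AlgebraicClosure ℚ_[ℓ]} (hu : bcr ρ (AlgebraicClosure ℚ_[ℓ]) g u = z • u) : z ≠ 0 := by
  rintro rfl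
  rw [zero_smul] at hu
  apply hu0
  have h1 := congrArg (bcr ρ (AlgebraicClosure ℚ_[ℓ]) g⁻¹) hu
  rwa [Rinv, map_zero] at h1

theorem norm_p_pow {F : Type} [Field F] (τ : F →+* PadicAlgCl p) (a : ℕ) :
    ‖τ ((p : F) ^ a)‖ = ((p : ℝ) ^ a)⁻¹ := by
  rw [map_pow, map_natCast, norm_pow]
  have h4 : (p : PadicAlgCl p) = algebraMap ℚ_[p] (PadicAlgCl p) (p : ℚ_[p]) :=
    (map_natCast (algebraMap ℚ_[p] (PadicAlgCl p)) p).symm
  rw [h4, norm_algebraMap', Padic.norm_p, inv_pow]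

theorem p_pow_pos : (0 : ℝ) < ((p : ℝ) ^ a)⁻¹ := by
  have h : (0 : ℝ) < p := by exact_mod_cast (Fact.out : p.Prime).pos
  positivity

/-- The value of the slope operator. -/
def sval (τ : rootField P (AlgebraicClosure ℚ_[ℓ]) →+* PadicAlgCl p)
    (κ : ℝ →+ AlgebraicClosure ℚ_[ℓ]) (a : ℕ) (z : rootField P (AlgebraicClosure ℚ_[ℓ])) :
    AlgebraicClosure ℚ_[ℓ] := κ (Real.log ‖τ z‖) - κ (Real.log (((p : ℝ) ^ a)⁻¹)) / 2

/-- The slope operators. -/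
theorem slope_op (hF : IsFrobenius ρ χ γ p a P)
    (τ : rootField P (AlgebraicClosure ℚ_[ℓ]) →+* PadicAlgCl p)
    (κ : ℝ →+ AlgebraicClosure ℚ_[ℓ]) :
    ∃ x ∈ lieT (bcr ρ (AlgebraicClosure ℚ_[ℓ])) (bcc χ (AlgebraicClosure ℚ_[ℓ])),
      ∀ (z : rootField P (AlgebraicClosure ℚ_[ℓ])) (u : AlgebraicClosure ℚ_[ℓ] ⊗[ℚ_[ℓ]] V),
        bcr ρ (AlgebraicClosure ℚ_[ℓ]) γ u = (z : AlgebraicClosure ℚ_[ℓ]) • u →
        x u = sval τ κ a z • u := by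
  classical
  obtain ⟨b, a', hb⟩ := exists_eigenbasis hF.semisimple
  have hb' : ∀ i, bcr ρ (AlgebraicClosure ℚ_[ℓ]) γ (b i) = a' i • b i := hb
  obtain ⟨f, hf⟩ := exists_log (rootField P (AlgebraicClosure ℚ_[ℓ])).toSubfield
    (F := PadicAlgCl p) τ κ
  have hp0 : (p : AlgebraicClosure ℚ_[ℓ]) ^ a ≠ 0 :=
    pow_ne_zero _ (Nat.cast_ne_zero.2 (Fact.out : p.Prime).ne_zero)
  have hc : ((Units.mk0 _ hp0 : (AlgebraicClosure ℚ_[ℓ])ˣ) : AlgebraicClosure ℚ_[ℓ]) =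
      bcc χ (AlgebraicClosure ℚ_[ℓ]) γ := by
    rw [Units.val_mk0, bcc_apply, hF.cyclotomic, map_pow, map_natCast]
  have hne : ∀ i, a' i ≠ 0 := fun i => bcr_ne_zero (b.ne_zero i) (hb' i)
  have hmem := dg_mem (bcr ρ (AlgebraicClosure ℚ_[ℓ])) (bcc χ (AlgebraicClosure ℚ_[ℓ])) γ b
    (fun i => Units.mk0 _ (hne i)) hb' _ hc f
  refine ⟨_, hmem, fun z u hu => ?_⟩
  by_cases hu0 : u = 0
  · rw [hu0, map_zero, smul_zero]
  have hz0 : (z : AlgebraicClosure ℚ_[ℓ]) ≠ 0 := bcr_ne_zero hu0 hu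
  have h1 := dg_eig (R := bcr ρ (AlgebraicClosure ℚ_[ℓ])) γ b (fun i => Units.mk0 _ (hne i)) hb'
    (fun y => f (Additive.ofMul y) - f (Additive.ofMul (Units.mk0 _ hp0)) / 2)
    (Units.mk0 _ hz0) (u := u) hu
  rw [h1]
  congr 1
  unfold sval
  rw [hf (Units.mk0 _ hz0) z rfl]
  congr 2
  rw [hf (Units.mk0 _ hp0) ⟨(p : AlgebraicClosure ℚ_[ℓ]) ^ a,
    pow_mem (natCast_mem (rootField P (AlgebraicClosure ℚ_[ℓ])).toSubfield p) a⟩ rfl]
  congr 2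
  exact norm_p_pow (F := rootField P (AlgebraicClosure ℚ_[ℓ])) τ a

end

end Pool.Agent.R930
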