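import Mathlib
import Pool.Agent.R930.Frob
import Pool.Agent.R930.Cont
import Pool.Agent.R930.Irr

/-!
# The slope operators of a dense set of Frobenius elements generate
-/

set_option linter.unusedSectionVars false

namespace Pool.Agent.R930

open Module TensorProduct Polynomial Pool.Agent.H204R3.SP Pool.Agent.H204R3.GP
open Pool.Agent.W522.U Pool.Agent.TH118.CR

noncomputable section

section diag

variable {K X ι : Type} [Field K] [AddCommGroup X] [Module K X] [Fintype ι] [DecidableEq ι]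

theorem repr_zero (b : Basis ι K X) {T Q : Module.End K X} {s : ι → K}
    (hT : ∀ k, T (b k) = s k • b k) (h : Q * T = T * Q) {i j : ι} (hij : s i ≠ s j) :
    b.repr (Q (b j)) i = 0 := by
  have h1 : T (Q (b j)) = s j • Q (b j) := by
    have h2 := congrArg (fun F : Module.End K X => F (b j)) h
    have h3 : Q (T (b j)) = T (Q (b j)) := h2
    rw [← h3, hT, map_smul]
  have h2 : b.repr (T (Q (b j))) i = s i * b.repr (Q (b j)) i := by
    conv_lhs => rw [← b.sum_repr (Q (b j))]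
    rw [map_sum, map_sum, Finset.sum_apply']
    have h3 : ∀ k, (b.repr (T (b.repr (Q (b j)) k • b k))) i =
        if k = i then s i * b.repr (Q (b j)) i else 0 := by
      intro k
      rw [map_smul, hT, map_smul, map_smul, Basis.repr_self, Finsupp.smul_apply,
        Finsupp.smul_apply, Finsupp.single_apply, smul_eq_mul, smul_eq_mul]
      split_ifs with hk
      · rw [hk]; ring
      · ring
    rw [Finset.sum_congr rfl fun k _ => h3 k]
    simp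
  rw [h1, map_smul, Finsupp.smul_apply, smul_eq_mul] at h2
  have h3 : (s i - s j) * b.repr (Q (b j)) i = 0 := by rw [sub_mul, ← h2, sub_self]
  exact (mul_eq_zero.1 h3).resolve_left (sub_ne_zero.2 hij)

theorem comm_of_repr (b : Basis ι K X) {T Q : Module.End K X} {s : ι → K}
    (hT : ∀ k, T (b k) = s k • b k) (h : ∀ i j, s i ≠ s j → b.repr (Q (b j)) i = 0) :
    Q * T = T * Q := by
  refine b.ext fun j => ?_
  change Q (T (b j)) = T (Q (b j))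
  rw [hT, map_smul]
  conv_rhs => rw [← b.sum_repr (Q (b j)), map_sum]
  conv_lhs => rw [← b.sum_repr (Q (b j)), Finset.smul_sum]
  refine Finset.sum_congr rfl fun i _ => ?_
  rw [map_smul, hT]
  by_cases hij : s i = s j
  · rw [hij, smul_comm]
  · rw [h i j hij, zero_smul, zero_smul, smul_zero]

end diag

variable {ℓ : ℕ} [Fact ℓ.Prime] {V Γ : Type} [AddCommGroup V] [Module ℚ_[ℓ] V]
    [FiniteDimensional ℚ_[ℓ] V] [Group Γ] {ρ : Representation ℚ_[ℓ] Γ V} {χ : Γ →* ℚ_[ℓ]}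

/-- An operator that commutes with enough slope operators of a Frobenius element commutes with the
Frobenius element. -/
theorem commute_of_sep [TopologicalSpace Γ] {ι : Type} [Fintype ι] [DecidableEq ι]
    {b₀ : Basis ι ℚ_[ℓ] V} {hint : ∀ g i j, ‖LinearMap.toMatrix b₀ b₀ (ρ g) i j‖ ≤ 1}
    {γ : Γ} {p a : ℕ} [Fact p.Prime] {P : ℤ[X]}
    (hF : IsFrobenius ρ χ γ p a P) (hγ : γ ∈ neat ρ b₀ hint)
    {Q : Module.End (AlgebraicClosure ℚ_[ℓ]) (AlgebraicClosure ℚ_[ℓ] ⊗[ℚ_[ℓ]] V)}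
    (hQ : ∀ (τ : rootField P (AlgebraicClosure ℚ_[ℓ]) →+* PadicAlgCl p)
      (z z' : rootField P (AlgebraicClosure ℚ_[ℓ])), aeval (z : AlgebraicClosure ℚ_[ℓ]) P = 0 →
      aeval (z' : AlgebraicClosure ℚ_[ℓ]) P = 0 → ‖τ z‖ ≠ ‖τ z'‖ →
      ∃ (x : Module.End (AlgebraicClosure ℚ_[ℓ]) (AlgebraicClosure ℚ_[ℓ] ⊗[ℚ_[ℓ]] V))
        (s : rootField P (AlgebraicClosure ℚ_[ℓ]) → AlgebraicClosure ℚ_[ℓ]), Q * x = x * Q ∧
        (∀ (y : rootField P (AlgebraicClosure ℚ_[ℓ])) (u : AlgebraicClosure ℚ_[ℓ] ⊗[ℚ_[ℓ]] V),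
          bcr ρ (AlgebraicClosure ℚ_[ℓ]) γ u = (y : AlgebraicClosure ℚ_[ℓ]) • u →
          x u = s y • u) ∧ s z ≠ s z') :
    Q * bcr ρ (AlgebraicClosure ℚ_[ℓ]) γ = bcr ρ (AlgebraicClosure ℚ_[ℓ]) γ * Q := by
  obtain ⟨b, a', hb⟩ := exists_eigenbasis hF.semisimple
  have hb' : ∀ i, bcr ρ (AlgebraicClosure ℚ_[ℓ]) γ (b i) = a' i • b i := hb
  have hroot : ∀ i, aeval (a' i) P = 0 := fun i => eig_root hF (b.ne_zero i) (hb' i)
  refine comm_of_repr b hb' fun i j hij => ?_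
  obtain ⟨τ, hτ⟩ := exists_sep (p := p) (a := a) hF.monic (by
    intro z hz
    rw [hF.weil z hz]
    push_cast
    rfl) (z := ⟨a' i, mem_rootField hF.monic (hroot i)⟩)
    (z' := ⟨a' j, mem_rootField hF.monic (hroot j)⟩) (hroot i) (hroot j) (by
    intro r hr h
    exact hij (neat_neat hγ (b.ne_zero i) (b.ne_zero j) (hb' i) (hb' j) hr h))
  obtain ⟨x, s, hx, hxs, hs⟩ := hQ τ _ _ (hroot i) (hroot j) hτ
  exact repr_zero b (T := x) (s := fun k => s ⟨a' k, mem_rootField hF.monic (hroot k)⟩)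
    (fun k => hxs ⟨a' k, mem_rootField hF.monic (hroot k)⟩ (b k) (hb' k)) hx hs

theorem commute_of_lie [TopologicalSpace Γ] {ι : Type} [Fintype ι] [DecidableEq ι]
    {b₀ : Basis ι ℚ_[ℓ] V} {hint : ∀ g i j, ‖LinearMap.toMatrix b₀ b₀ (ρ g) i j‖ ≤ 1}
    {γ : Γ} {p a : ℕ} [Fact p.Prime] {P : ℤ[X]}
    (hF : IsFrobenius ρ χ γ p a P) (hγ : γ ∈ neat ρ b₀ hint)
    {Q : Module.End (AlgebraicClosure ℚ_[ℓ]) (AlgebraicClosure ℚ_[ℓ] ⊗[ℚ_[ℓ]] V)}
    (hQ : ∀ x ∈ lieT (bcr ρ (AlgebraicClosure ℚ_[ℓ])) (bcc χ (AlgebraicClosure ℚ_[ℓ])),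
      Q * x = x * Q) :
    Q * bcr ρ (AlgebraicClosure ℚ_[ℓ]) γ = bcr ρ (AlgebraicClosure ℚ_[ℓ]) γ * Q := by
  refine commute_of_sep hF hγ fun τ z z' hz hz' hne => ?_
  have hpos : ∀ z : rootField P (AlgebraicClosure ℚ_[ℓ]), aeval (z : AlgebraicClosure ℚ_[ℓ]) P = 0 →
      0 < ‖τ z‖ := by
    intro z hz
    rw [norm_pos_iff, ne_eq, map_eq_zero]
    rintro rfl
    obtain ⟨φ⟩ : Nonempty (rootField P (AlgebraicClosure ℚ_[ℓ]) →ₐ[ℚ] ℂ) := ⟨IsAlgClosed.lift⟩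
    have h1 := hF.weil _ (aeval_emb hz φ.toRingHom)
    rw [map_zero, norm_zero, zero_pow two_ne_zero] at h1
    have h2 : (0 : ℝ) < p := by exact_mod_cast (Fact.out : p.Prime).pos
    exact (pow_pos h2 a).ne h1
  have hne' : Real.log ‖τ z‖ - Real.log ‖τ z'‖ ≠ 0 := by
    intro h
    exact hne (Real.log_injOn_pos (Set.mem_Ioi.2 (hpos z hz)) (Set.mem_Ioi.2 (hpos z' hz'))
      (sub_eq_zero.1 h))
  obtain ⟨κ, hκ⟩ := exists_kappa (K := AlgebraicClosure ℚ_[ℓ]) _ hne' 1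
  obtain ⟨x, hx, hxs⟩ := slope_op hF τ κ
  refine ⟨x, sval τ κ a, hQ x hx, hxs, fun h => ?_⟩
  unfold sval at h
  rw [map_sub] at hκ
  have h1 := sub_left_injective h
  rw [h1, sub_self] at hκ
  exact zero_ne_one hκ

/-- The element `γ` is a Frobenius element. -/
def IsFrob (ρ : Representation ℚ_[ℓ] Γ V) (χ : Γ →* ℚ_[ℓ]) (γ : Γ) : Prop :=
  ∃ (p : ℕ) (_ : Fact p.Prime) (a : ℕ) (P : ℤ[X]), IsFrobenius ρ χ γ p a P

theorem lieGenerate_of_dense [TopologicalSpace Γ] {ι : Type} [Fintype ι] [DecidableEq ι]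
    {b₀ : Basis ι ℚ_[ℓ] V} (hint : ∀ g i j, ‖LinearMap.toMatrix b₀ b₀ (ρ g) i j‖ ≤ 1)
    (hcont : ∀ i j, Continuous fun g => LinearMap.toMatrix b₀ b₀ (ρ g) i j)
    (hD : Dense {γ | IsFrob ρ χ γ}) :
    LieGenerate (bcr ρ (AlgebraicClosure ℚ_[ℓ])) (bcc χ (AlgebraicClosure ℚ_[ℓ])) := by
  intro Q hQ
  refine ⟨neat ρ b₀ hint, neat_finiteIndex hint, ?_⟩
  refine commute_of_dense hcont hD (neat_isOpen hint hcont) ?_
  rintro γ ⟨p, hp, a, P, hF⟩ hγ
  exact commute_of_lie hF hγ hQ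

end

end Pool.Agent.R930
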