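import Mathlib
import Pool.Agent.R930.Gen

/-!
# Frobenius elements with two slopes
-/

set_option linter.unusedSectionVars false

namespace Pool.Agent.R930

open Module TensorProduct Polynomial Pool.Agent.H204R3.SP Pool.Agent.H204R3.GP
open Pool.Agent.W522.U Pool.Agent.TH118.CR

noncomputable section

/-- The roots of `P` in the algebraic closure of `ℚ_p` have at most two absolute values, `t` and
`p ^ (- a) / t`, and these are different. -/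
def TwoSlopes (p a : ℕ) [Fact p.Prime] (P : ℤ[X]) (t : ℝ) : Prop :=
  0 < t ∧ t * t ≠ ((p : ℝ) ^ a)⁻¹ ∧
    ∀ z : PadicAlgCl p, aeval z P = 0 → ‖z‖ = t ∨ ‖z‖ * t = ((p : ℝ) ^ a)⁻¹

variable {ℓ : ℕ} [Fact ℓ.Prime] {V Γ : Type} [AddCommGroup V] [Module ℚ_[ℓ] V]
    [FiniteDimensional ℚ_[ℓ] V] [Group Γ] {ρ : Representation ℚ_[ℓ] Γ V} {χ : Γ →* ℚ_[ℓ]}
    {γ : Γ} {p a : ℕ} [Fact p.Prime] {P : ℤ[X]} {t : ℝ}

/-- The slope operators of a Frobenius element with two slopes. -/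
theorem two_op (hF : IsFrobenius ρ χ γ p a P) (ht : TwoSlopes p a P t)
    (τ : rootField P (AlgebraicClosure ℚ_[ℓ]) →+* PadicAlgCl p) :
    ∃ x ∈ lieT (bcr ρ (AlgebraicClosure ℚ_[ℓ])) (bcc χ (AlgebraicClosure ℚ_[ℓ])),
      x * x = (1 / 4 : AlgebraicClosure ℚ_[ℓ]) • 1 ∧
      ∃ s : rootField P (AlgebraicClosure ℚ_[ℓ]) → AlgebraicClosure ℚ_[ℓ],
      (∀ (y : rootField P (AlgebraicClosure ℚ_[ℓ])) (u : AlgebraicClosure ℚ_[ℓ] ⊗[ℚ_[ℓ]] V),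
        bcr ρ (AlgebraicClosure ℚ_[ℓ]) γ u = (y : AlgebraicClosure ℚ_[ℓ]) • u →
        x u = s y • u) ∧ (∀ y, ‖τ y‖ = t → s y = 1 / 2) ∧
        (∀ y : rootField P (AlgebraicClosure ℚ_[ℓ]), aeval (y : AlgebraicClosure ℚ_[ℓ]) P = 0 →
          ‖τ y‖ ≠ t → s y = -(1 / 2)) := by
  classical
  obtain ⟨ht0, ht2, hts⟩ := ht
  have hpa : 0 < ((p : ℝ) ^ a)⁻¹ := p_pow_pos
  have hr : 2 * Real.log t - Real.log ((p : ℝ) ^ a)⁻¹ ≠ 0 := by
    intro h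
    apply ht2
    have h1 : Real.log (t * t) = Real.log ((p : ℝ) ^ a)⁻¹ := by
      rw [Real.log_mul ht0.ne' ht0.ne']
      linarith
    exact Real.log_injOn_pos (Set.mem_Ioi.2 (by positivity)) (Set.mem_Ioi.2 hpa) h1
  obtain ⟨κ, hκ⟩ := exists_kappa (K := AlgebraicClosure ℚ_[ℓ]) _ hr 1
  have hκ' : 2 * κ (Real.log t) - κ (Real.log ((p : ℝ) ^ a)⁻¹) = 1 := by
    rw [← hκ, map_sub, two_mul, two_mul, map_add]
  obtain ⟨x, hx, hxs⟩ := slope_op hF τ κ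
  have h1 : ∀ y, ‖τ y‖ = t → sval τ κ a y = 1 / 2 := by
    intro y hy
    unfold sval
    rw [hy]
    linear_combination (1 / 2 : AlgebraicClosure ℚ_[ℓ]) * hκ'
  have h2 : ∀ y : rootField P (AlgebraicClosure ℚ_[ℓ]), aeval (y : AlgebraicClosure ℚ_[ℓ]) P = 0 →
      ‖τ y‖ ≠ t → sval τ κ a y = -(1 / 2) := by
    intro y hy0 hy
    have hy2 := (hts _ (aeval_emb hy0 τ)).resolve_left hy
    unfold sval
    have h3 : Real.log ‖τ y‖ = Real.log ((p : ℝ) ^ a)⁻¹ - Real.log t := by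
      rw [← hy2, Real.log_mul _ ht0.ne']
      · ring
      · intro h0
        rw [h0, zero_mul] at hy2
        exact hpa.ne hy2
    rw [h3, map_sub]
    linear_combination (-(1 / 2) : AlgebraicClosure ℚ_[ℓ]) * hκ'
  refine ⟨x, hx, ?_, sval τ κ a, hxs, h1, h2⟩
  obtain ⟨b, a', hb⟩ := exists_eigenbasis hF.semisimple
  have hb' : ∀ i, bcr ρ (AlgebraicClosure ℚ_[ℓ]) γ (b i) = a' i • b i := hb
  have hroot : ∀ i, aeval (a' i) P = 0 := fun i => eig_root hF (b.ne_zero i) (hb' i)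
  refine b.ext fun i => ?_
  have h3 := hxs ⟨a' i, mem_rootField hF.monic (hroot i)⟩ (b i) (hb' i)
  rw [Module.End.mul_apply, h3, map_smul, h3, smul_smul, LinearMap.smul_apply,
    Module.End.one_apply]
  congr 1
  by_cases hi : ‖τ ⟨a' i, mem_rootField hF.monic (hroot i)⟩‖ = t
  · rw [h1 _ hi]; norm_num
  · rw [h2 _ (hroot i) hi]; norm_num

theorem commute_of_weak [TopologicalSpace Γ] {ι : Type} [Fintype ι] [DecidableEq ι]
    {b₀ : Basis ι ℚ_[ℓ] V} {hint : ∀ g i j, ‖LinearMap.toMatrix b₀ b₀ (ρ g) i j‖ ≤ 1}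
    (hF : IsFrobenius ρ χ γ p a P) (ht : TwoSlopes p a P t) (hγ : γ ∈ neat ρ b₀ hint)
    {Q : Module.End (AlgebraicClosure ℚ_[ℓ]) (AlgebraicClosure ℚ_[ℓ] ⊗[ℚ_[ℓ]] V)}
    (hQ : ∀ x ∈ lieT (bcr ρ (AlgebraicClosure ℚ_[ℓ])) (bcc χ (AlgebraicClosure ℚ_[ℓ])),
      x * x = (1 / 4 : AlgebraicClosure ℚ_[ℓ]) • 1 → Q * x = x * Q) :
    Q * bcr ρ (AlgebraicClosure ℚ_[ℓ]) γ = bcr ρ (AlgebraicClosure ℚ_[ℓ]) γ * Q := by
  refine commute_of_sep hF hγ fun τ z z' hz hz' hne => ?_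
  obtain ⟨x, hx, hxx, s, hxs, h1, h2⟩ := two_op hF ht τ
  refine ⟨x, s, hQ x hx hxx, hxs, fun h => ?_⟩
  have h3 : (1 / 2 : AlgebraicClosure ℚ_[ℓ]) ≠ -(1 / 2) := by
    intro h4
    have h5 : (1 : AlgebraicClosure ℚ_[ℓ]) = 0 := by linear_combination h4
    exact one_ne_zero h5
  by_cases ha : ‖τ z‖ = t
  · have hb : ‖τ z'‖ ≠ t := fun h4 => hne (ha.trans h4.symm)
    rw [h1 z ha, h2 z' hz' hb] at h
    exact h3 h
  · by_cases hb : ‖τ z'‖ = t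
    · rw [h1 z' hb, h2 z hz ha] at h
      exact h3 h.symm
    · have hza := (ht.2.2 _ (aeval_emb hz τ)).resolve_left ha
      have hzb := (ht.2.2 _ (aeval_emb hz' τ)).resolve_left hb
      exact hne (mul_right_cancel₀ ht.1.ne' (hza.trans hzb.symm))

/-- The element `γ` is a Frobenius element with two slopes. -/
def IsTwoSlope (ρ : Representation ℚ_[ℓ] Γ V) (χ : Γ →* ℚ_[ℓ]) (γ : Γ) : Prop :=
  ∃ (p : ℕ) (_ : Fact p.Prime) (a : ℕ) (P : ℤ[X]) (t : ℝ), IsFrobenius ρ χ γ p a P ∧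
    TwoSlopes p a P t

theorem weakGenerate_of_dense [TopologicalSpace Γ] {ι : Type} [Fintype ι] [DecidableEq ι]
    {b₀ : Basis ι ℚ_[ℓ] V} (hint : ∀ g i j, ‖LinearMap.toMatrix b₀ b₀ (ρ g) i j‖ ≤ 1)
    (hcont : ∀ i j, Continuous fun g => LinearMap.toMatrix b₀ b₀ (ρ g) i j)
    (hD : Dense {γ | IsTwoSlope ρ χ γ}) :
    Pool.Agent.W528.Odd.WeakHodgeGenerate (bcr ρ (AlgebraicClosure ℚ_[ℓ]))
      (bcc χ (AlgebraicClosure ℚ_[ℓ])) := by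
  intro Q hQ
  refine ⟨neat ρ b₀ hint, neat_finiteIndex hint, ?_⟩
  refine commute_of_dense hcont hD (neat_isOpen hint hcont) ?_
  rintro γ ⟨p, hp, a, P, t, hF, ht⟩ hγ
  exact commute_of_weak hF ht hγ hQ

end

end Pool.Agent.R930
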