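import Mathlib
import Pool.Agent.R930.Two
import Pool.Agent.R930.Pieces

/-!
# Slope operators normalize all stable subspaces of operators
-/

set_option linter.unusedSectionVars false

namespace Pool.Agent.R930

open Module TensorProduct Polynomial Pool.Agent.H204R3.SP Pool.Agent.H204R3.GP
open Pool.Agent.W522.U Pool.Agent.TH118.CR Pool.Agent.W528.Odd Pool.Agent.Y126.Toric

noncomputable section

section def_

variable {K : Type} [Field K] {X : Type} [AddCommGroup X] [Module K X] {Γ : Type} [Group Γ]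

/-- The operator `x` normalizes all spaces of operators that are stable under the group. -/
def Normalizes (R : Representation K Γ X) (x : Module.End K X) : Prop :=
  ∀ 𝔫 : Submodule K (Module.End K X), (∀ g, ∀ n ∈ 𝔫, R g * n * R g⁻¹ ∈ 𝔫) →
    ∀ n ∈ 𝔫, x * n - n * x ∈ 𝔫

theorem Normalizes.conj {R : Representation K Γ X} {x : Module.End K X} (h : Normalizes R x)
    (g : Γ) : Normalizes R (R g * x * R g⁻¹) := by
  intro 𝔫 h𝔫 n hn
  have hinv : R g⁻¹ * R g = 1 := by rw [← map_mul, inv_mul_cancel, map_one]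
  have hinv' : R g * R g⁻¹ = 1 := by rw [← map_mul, mul_inv_cancel, map_one]
  have h1 := h𝔫 g⁻¹ n hn
  rw [inv_inv] at h1
  have h2 := h𝔫 g _ (h 𝔫 h𝔫 _ h1)
  have h3 : R g * (x * (R g⁻¹ * n * R g) - R g⁻¹ * n * R g * x) * R g⁻¹ =
      R g * x * R g⁻¹ * n - n * (R g * x * R g⁻¹) := by
    calc R g * (x * (R g⁻¹ * n * R g) - R g⁻¹ * n * R g * x) * R g⁻¹ =
        R g * x * R g⁻¹ * n * (R g * R g⁻¹) - (R g * R g⁻¹) * n * (R g * x * R g⁻¹) := by
          noncomm_ring
    _ = _ := by rw [hinv', mul_one, one_mul]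
  rwa [h3] at h2

/-- A diagonal operator whose differences of eigenvalues depend only on the quotients of the
eigenvalues of an element of the group normalizes. -/
theorem normalizes_of_diag {R : Representation K Γ X} {γ : Γ} {ι : Type} [Fintype ι] [DecidableEq ι]
    (b : Basis ι K X) (a : ι → K) (ha : ∀ i, a i ≠ 0) (hb : ∀ i, R γ (b i) = a i • b i)
    {x : Module.End K X} (t : ι → K) (hx : ∀ i, x (b i) = t i • b i)
    (ht : ∀ i j k l, a i / a j = a k / a l → t i - t j = t k - t l) : Normalizes R x := by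
  classical
  intro 𝔫 h𝔫 n hn
  -- interpolation
  obtain ⟨F, hF⟩ : ∃ F : K → K, ∀ i j, F (a i / a j) = t i - t j := by
    refine ⟨fun c => if h : ∃ ij : ι × ι, a ij.1 / a ij.2 = c then t h.choose.1 - t h.choose.2
      else 0, fun i j => ?_⟩
    have h : ∃ ij : ι × ι, a ij.1 / a ij.2 = a i / a j := ⟨(i, j), rfl⟩
    dsimp only
    rw [dif_pos h]
    exact ht _ _ _ _ h.choose_spec
  let S : Finset K := Finset.univ.image (fun ij : ι × ι => a ij.1 / a ij.2)
  let P : K[X] := Lagrange.interpolate S id F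
  have hP : ∀ i j, P.eval (a i / a j) = t i - t j := by
    intro i j
    have h1 : a i / a j ∈ S := Finset.mem_image.2 ⟨(i, j), Finset.mem_univ _, rfl⟩
    have h2 := Lagrange.eval_interpolate_at_node (r := F) (v := id) (s := S)
      (Set.injOn_id _) h1
    rw [← hF]
    exact h2
  -- conjugation
  let T : Module.End K (Module.End K X) := (LinearMap.mulLeft K (R γ)).comp
    (LinearMap.mulRight K (R γ⁻¹))
  have hT : ∀ y, T y = R γ * y * R γ⁻¹ := fun y => by
    change R γ * (y * R γ⁻¹) = _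
    rw [mul_assoc]
  have hstab : ∀ Q : K[X], ∀ y ∈ 𝔫, aeval T Q y ∈ 𝔫 := by
    intro Q
    induction Q using Polynomial.induction_on' with
    | add p q hp hq =>
      intro y hy
      rw [map_add, LinearMap.add_apply]
      exact 𝔫.add_mem (hp y hy) (hq y hy)
    | monomial k c =>
      intro y hy
      rw [aeval_monomial, Module.End.mul_apply]
      have h1 : ∀ k : ℕ, (T ^ k) y ∈ 𝔫 := by
        intro k
        induction k with
        | zero => exact hy
        | succ k ih =>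
          rw [pow_succ', Module.End.mul_apply, hT]
          exact h𝔫 γ _ ih
      exact 𝔫.smul_mem _ (h1 k)
  have hγinv : ∀ j, R γ⁻¹ (b j) = (a j)⁻¹ • b j := by
    intro j
    have h1 : b j = (a j)⁻¹ • R γ (b j) := by
      rw [hb, smul_smul, inv_mul_cancel₀ (ha j), one_smul]
    conv_lhs => rw [h1]
    rw [map_smul, Rinv]
  have hTE : ∀ i j, T ((b.coord j).smulRight (b i)) =
      (a i / a j) • ((b.coord j).smulRight (b i) : Module.End K X) := by
    intro i j
    rw [hT]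
    refine b.ext fun k => ?_
    rw [Module.End.mul_apply, Module.End.mul_apply, hγinv, map_smul, LinearMap.smulRight_apply,
      LinearMap.smul_apply, LinearMap.smulRight_apply, Basis.coord_apply, Basis.repr_self]
    by_cases hkj : k = j
    · subst hkj
      rw [Finsupp.single_eq_same, one_smul, map_smul, hb, smul_smul]
      congr 1
      field_simp
    · rw [Finsupp.single_eq_of_ne (Ne.symm hkj), zero_smul, smul_zero, map_zero, smul_zero]
  have hTQ : ∀ Q : K[X], ∀ i j, aeval T Q ((b.coord j).smulRight (b i)) =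
      Q.eval (a i / a j) • ((b.coord j).smulRight (b i) : Module.End K X) := by
    intro Q i j
    have h0 : ((b.coord j).smulRight (b i) : Module.End K X) ≠ 0 := by
      intro h
      have h1 := congrArg (fun f : Module.End K X => f (b j)) h
      simp only [LinearMap.smulRight_apply, Basis.coord_apply, Basis.repr_self,
        Finsupp.single_eq_same, one_smul, LinearMap.zero_apply] at h1
      exact b.ne_zero i h1
    exact Module.End.aeval_apply_of_hasEigenvector
      (⟨Module.End.mem_eigenspace_iff.2 (hTE i j), h0⟩ : Module.End.HasEigenvector T _ _)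
  have hexp : ∀ y : Module.End K X, y = ∑ j, ∑ i, b.repr (y (b j)) i •
      ((b.coord j).smulRight (b i) : Module.End K X) := by
    intro y
    refine b.ext fun k => ?_
    rw [LinearMap.sum_apply, Finset.sum_eq_single k]
    · rw [LinearMap.sum_apply]
      conv_lhs => rw [← b.sum_repr (y (b k))]
      refine Finset.sum_congr rfl fun i _ => ?_
      rw [LinearMap.smul_apply, LinearMap.smulRight_apply, Basis.coord_apply, Basis.repr_self,
        Finsupp.single_eq_same, one_smul]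
    · intro j _ hj
      rw [LinearMap.sum_apply]
      refine Finset.sum_eq_zero fun i _ => ?_
      rw [LinearMap.smul_apply, LinearMap.smulRight_apply, Basis.coord_apply, Basis.repr_self,
        Finsupp.single_eq_of_ne hj, zero_smul, smul_zero]
    · intro hk
      exact absurd (Finset.mem_univ _) hk
  have hmain : aeval T P n = x * n - n * x := by
    have h1 : ∀ i j, x * ((b.coord j).smulRight (b i) : Module.End K X) -
        ((b.coord j).smulRight (b i) : Module.End K X) * x = (t i - t j) •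
        ((b.coord j).smulRight (b i) : Module.End K X) := by
      intro i j
      refine b.ext fun k => ?_
      rw [LinearMap.sub_apply, Module.End.mul_apply, Module.End.mul_apply, hx, map_smul,
        LinearMap.smulRight_apply, LinearMap.smul_apply, LinearMap.smulRight_apply,
        Basis.coord_apply, Basis.repr_self]
      by_cases hkj : k = j
      · subst hkj
        rw [Finsupp.single_eq_same, one_smul, hx]
        module
      · rw [Finsupp.single_eq_of_ne (Ne.symm hkj), zero_smul, smul_zero, map_zero, smul_zero,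
          sub_zero]
    have h2 : x * n - n * x = (LinearMap.mulLeft K x - LinearMap.mulRight K x) n := rfl
    rw [h2]
    conv_lhs => rw [hexp n]
    conv_rhs => rw [hexp n]
    rw [map_sum, map_sum]
    refine Finset.sum_congr rfl fun j _ => ?_
    rw [map_sum, map_sum]
    refine Finset.sum_congr rfl fun i _ => ?_
    rw [map_smul, map_smul, hTQ, hP]
    congr 1
    exact (h1 i j).symm
  rw [← hmain]
  exact hstab P n hn

end def_

section frob

variable {ℓ : ℕ} [Fact ℓ.Prime] {V Γ : Type} [AddCommGroup V] [Module ℚ_[ℓ] V]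
    [FiniteDimensional ℚ_[ℓ] V] [Group Γ] {ρ : Representation ℚ_[ℓ] Γ V} {χ : Γ →* ℚ_[ℓ]}
    {γ : Γ} {p a : ℕ} [Fact p.Prime] {P : ℤ[X]} {t : ℝ}

/-- The slope operators of a Frobenius element normalize. -/
theorem slope_normalizes (hF : IsFrobenius ρ χ γ p a P)
    (τ : rootField P (AlgebraicClosure ℚ_[ℓ]) →+* PadicAlgCl p)
    (κ : ℝ →+ AlgebraicClosure ℚ_[ℓ])
    {x : Module.End (AlgebraicClosure ℚ_[ℓ]) (AlgebraicClosure ℚ_[ℓ] ⊗[ℚ_[ℓ]] V)}
    (hx : ∀ (z : rootField P (AlgebraicClosure ℚ_[ℓ])) (u : AlgebraicClosure ℚ_[ℓ] ⊗[ℚ_[ℓ]] V),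
        bcr ρ (AlgebraicClosure ℚ_[ℓ]) γ u = (z : AlgebraicClosure ℚ_[ℓ]) • u →
        x u = sval τ κ a z • u) : Normalizes (bcr ρ (AlgebraicClosure ℚ_[ℓ])) x := by
  classical
  obtain ⟨b, a', hb⟩ := exists_eigenbasis hF.semisimple
  have hb' : ∀ i, bcr ρ (AlgebraicClosure ℚ_[ℓ]) γ (b i) = a' i • b i := hb
  have hroot : ∀ i, aeval (a' i) P = 0 := fun i => eig_root hF (b.ne_zero i) (hb' i)
  have hne : ∀ i, a' i ≠ 0 := fun i => bcr_ne_zero (b.ne_zero i) (hb' i)
  obtain ⟨z, hz⟩ : ∃ z : Fin (finrank ℚ_[ℓ] V) → rootField P (AlgebraicClosure ℚ_[ℓ]),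
      ∀ i, (z i : AlgebraicClosure ℚ_[ℓ]) = a' i :=
    ⟨fun i => ⟨a' i, mem_rootField hF.monic (hroot i)⟩, fun i => rfl⟩
  have hz0 : ∀ i, z i ≠ 0 := by
    intro i h
    apply hne i
    rw [← hz, h]
    rfl
  refine normalizes_of_diag b a' hne hb' (fun i => sval τ κ a (z i))
    (fun i => hx (z i) (b i) (by rw [hz]; exact hb' i)) fun i j k l h => ?_
  have h1 : z i / z j = z k / z l := by
    apply Subtype.ext
    change (z i : AlgebraicClosure ℚ_[ℓ]) / z j = z k / z l
    rw [hz, hz, hz, hz]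
    exact h
  have h2 : ∀ i j, sval τ κ a (z i) - sval τ κ a (z j) = κ (Real.log ‖τ (z i / z j)‖) := by
    intro i j
    unfold sval
    rw [map_div₀, norm_div, Real.log_div, map_sub]
    · ring
    · exact norm_ne_zero_iff.2 ((map_ne_zero τ).2 (hz0 i))
    · exact norm_ne_zero_iff.2 ((map_ne_zero τ).2 (hz0 j))
  rw [h2, h2, h1]

/-- The slope operators of a Frobenius element with two slopes. -/
theorem two_op' (hF : IsFrobenius ρ χ γ p a P) (ht : TwoSlopes p a P t)
    (τ : rootField P (AlgebraicClosure ℚ_[ℓ]) →+* PadicAlgCl p) :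
    ∃ x ∈ lieT (bcr ρ (AlgebraicClosure ℚ_[ℓ])) (bcc χ (AlgebraicClosure ℚ_[ℓ])),
      Normalizes (bcr ρ (AlgebraicClosure ℚ_[ℓ])) x ∧
      x * x = (1 / 4 : AlgebraicClosure ℚ_[ℓ]) • 1 ∧
      ∃ s : rootField P (AlgebraicClosure ℚ_[ℓ]) → AlgebraicClosure ℚ_[ℓ],
      (∀ (y : rootField P (AlgebraicClosure ℚ_[ℓ])) (u : AlgebraicClosure ℚ_[ℓ] ⊗[ℚ_[ℓ]] V),
        bcr ρ (AlgebraicClosure ℚ_[ℓ]) γ u = (y : AlgebraicClosure ℚ_[ℓ]) • u →
        x u = s y • u) ∧ (∀ y, ‖τ y‖ = t → s y = 1 / 2) ∧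
        (∀ y : rootField P (AlgebraicClosure ℚ_[ℓ]), aeval (y : AlgebraicClosure ℚ_[ℓ]) P = 0 →
          ‖τ y‖ ≠ t → s y = -(1 / 2)) := by
  classical
  obtain ⟨ht0, ht2, hts⟩ := ht
  have hpa : 0 < ((p : ℝ) ^ a)⁻¹ := p_pow_pos
  have hr : 2 * Real.log t - Real.log ((p : ℝ) ^ a)⁻¹ ≠ 0 := by
    intro h
    apply ht2
    have h1 : Real.log (t * t) = Real.log ((p : ℝ) ^ a)⁻¹ := by
      rw [Real.log_mul ht0.ne' ht0.ne']
      linarith
    exact Real.log_injOn_pos (Set.mem_Ioi.2 (by positivity)) (Set.mem_Ioi.2 hpa) h1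
  obtain ⟨κ, hκ⟩ := exists_kappa (K := AlgebraicClosure ℚ_[ℓ]) _ hr 1
  have hκ' : 2 * κ (Real.log t) - κ (Real.log ((p : ℝ) ^ a)⁻¹) = 1 := by
    rw [← hκ, map_sub, two_mul, two_mul, map_add]
  obtain ⟨x, hx, hxs⟩ := slope_op hF τ κ
  have h1 : ∀ y, ‖τ y‖ = t → sval τ κ a y = 1 / 2 := by
    intro y hy
    unfold sval
    rw [hy]
    linear_combination (1 / 2 : AlgebraicClosure ℚ_[ℓ]) * hκ'
  have h2 : ∀ y : rootField P (AlgebraicClosure ℚ_[ℓ]), aeval (y : AlgebraicClosure ℚ_[ℓ]) P = 0 →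
      ‖τ y‖ ≠ t → sval τ κ a y = -(1 / 2) := by
    intro y hy0 hy
    have hy2 := (hts _ (aeval_emb hy0 τ)).resolve_left hy
    unfold sval
    have h3 : Real.log ‖τ y‖ = Real.log ((p : ℝ) ^ a)⁻¹ - Real.log t := by
      rw [← hy2, Real.log_mul _ ht0.ne']
      · ring
      · intro h0
        rw [h0, zero_mul] at hy2
        exact hpa.ne hy2
    rw [h3, map_sub]
    linear_combination (-(1 / 2) : AlgebraicClosure ℚ_[ℓ]) * hκ'
  refine ⟨x, hx, slope_normalizes hF τ κ hxs, ?_, sval τ κ a, hxs, h1, h2⟩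
  obtain ⟨b, a', hb⟩ := exists_eigenbasis hF.semisimple
  have hb' : ∀ i, bcr ρ (AlgebraicClosure ℚ_[ℓ]) γ (b i) = a' i • b i := hb
  have hroot : ∀ i, aeval (a' i) P = 0 := fun i => eig_root hF (b.ne_zero i) (hb' i)
  refine b.ext fun i => ?_
  have h3 := hxs ⟨a' i, mem_rootField hF.monic (hroot i)⟩ (b i) (hb' i)
  rw [Module.End.mul_apply, h3, map_smul, h3, smul_smul, LinearMap.smul_apply,
    Module.End.one_apply]
  congr 1
  by_cases hi : ‖τ ⟨a' i, mem_rootField hF.monic (hroot i)⟩‖ = t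
  · rw [h1 _ hi]; norm_num
  · rw [h2 _ (hroot i) hi]; norm_num

/-- The normalizing weak Hodge elements. -/
def nrmSet {K X Γ : Type} [Field K] [AddCommGroup X] [Module K X] [Group Γ]
    (R : Representation K Γ X) (χ : Γ →* K) : Set (Module.End K X) :=
  {x | x ∈ lieT R χ ∧ x * x = (1 / 4 : K) • 1 ∧ Normalizes R x}

theorem commute_of_nrm [TopologicalSpace Γ] {ι : Type} [Fintype ι] [DecidableEq ι]
    {b₀ : Basis ι ℚ_[ℓ] V} {hint : ∀ g i j, ‖LinearMap.toMatrix b₀ b₀ (ρ g) i j‖ ≤ 1}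
    (hF : IsFrobenius ρ χ γ p a P) (ht : TwoSlopes p a P t) (hγ : γ ∈ neat ρ b₀ hint)
    {Q : Module.End (AlgebraicClosure ℚ_[ℓ]) (AlgebraicClosure ℚ_[ℓ] ⊗[ℚ_[ℓ]] V)}
    (hQ : ∀ x ∈ nrmSet (bcr ρ (AlgebraicClosure ℚ_[ℓ])) (bcc χ (AlgebraicClosure ℚ_[ℓ])),
      Q * x = x * Q) :
    Q * bcr ρ (AlgebraicClosure ℚ_[ℓ]) γ = bcr ρ (AlgebraicClosure ℚ_[ℓ]) γ * Q := by
  refine commute_of_sep hF hγ fun τ z z' hz hz' hne => ?_
  obtain ⟨x, hx, hnx, hxx, s, hxs, h1, h2⟩ := two_op' hF ht τ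
  refine ⟨x, s, hQ x ⟨hx, hxx, hnx⟩, hxs, fun h => ?_⟩
  have h3 : (1 / 2 : AlgebraicClosure ℚ_[ℓ]) ≠ -(1 / 2) := by
    intro h4
    have h5 : (1 : AlgebraicClosure ℚ_[ℓ]) = 0 := by linear_combination h4
    exact one_ne_zero h5
  by_cases ha : ‖τ z‖ = t
  · have hb : ‖τ z'‖ ≠ t := fun h4 => hne (ha.trans h4.symm)
    rw [h1 z ha, h2 z' hz' hb] at h
    exact h3 h
  · by_cases hb : ‖τ z'‖ = t
    · rw [h1 z' hb, h2 z hz ha] at h
      exact h3 h.symm
    · have hza := (ht.2.2 _ (aeval_emb hz τ)).resolve_left ha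
      have hzb := (ht.2.2 _ (aeval_emb hz' τ)).resolve_left hb
      exact hne (mul_right_cancel₀ ht.1.ne' (hza.trans hzb.symm))

/-- The normalizing weak Hodge elements generate. -/
theorem nrm_generate [TopologicalSpace Γ] {ι : Type} [Fintype ι] [DecidableEq ι]
    {b₀ : Basis ι ℚ_[ℓ] V} (hint : ∀ g i j, ‖LinearMap.toMatrix b₀ b₀ (ρ g) i j‖ ≤ 1)
    (hcont : ∀ i j, Continuous fun g => LinearMap.toMatrix b₀ b₀ (ρ g) i j)
    (hD : Dense {γ | IsTwoSlope ρ χ γ})
    (Q : Module.End (AlgebraicClosure ℚ_[ℓ]) (AlgebraicClosure ℚ_[ℓ] ⊗[ℚ_[ℓ]] V))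
    (hQ : ∀ x ∈ nrmSet (bcr ρ (AlgebraicClosure ℚ_[ℓ])) (bcc χ (AlgebraicClosure ℚ_[ℓ])),
      Q * x = x * Q) :
    ∃ Δ : Subgroup Γ, Δ.FiniteIndex ∧ ∀ g ∈ Δ, Q * bcr ρ (AlgebraicClosure ℚ_[ℓ]) g =
      bcr ρ (AlgebraicClosure ℚ_[ℓ]) g * Q := by
  refine ⟨neat ρ b₀ hint, neat_finiteIndex hint, ?_⟩
  refine commute_of_dense hcont hD (neat_isOpen hint hcont) ?_
  rintro γ ⟨p, hp, a, P, t, hF, ht⟩ hγ
  exact commute_of_nrm hF ht hγ hQ

end frob

section piece

open Pool.Agent.Y126.OT Pool.Agent.W529.Ta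

variable {K : Type} [Field K] [CharZero K] [IsAlgClosed K] {X : Type} [AddCommGroup X] [Module K X]
  [FiniteDimensional K X] {Γ : Type} [Group Γ] {R : Representation K Γ X} {χ : Γ →* K}
  (ω : X →ₗ[K] X →ₗ[K] K) (hnd : ∀ u, (∀ v, ω u v = 0) → u = 0)
  (hωR : ∀ g u v, ω (R g u) (R g v) = χ g * ω u v) (hss : HasProj R) {U : Submodule K X}
  (hU : SI R U)

include hnd hωR hss hU in
/-- A piece of dimension at least two has a normalizing weak Hodge element which is not a scalar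
on it. -/
theorem exists_nonscalar_nrm
    (hP : ∀ P : Module.End K X, (∀ x ∈ nrmSet R χ, P * x = x * P) →
      ∃ Δ : Subgroup Γ, Δ.FiniteIndex ∧ ∀ g ∈ Δ, P * R g = R g * P) (h2 : 2 ≤ finrank K U) :
    ∃ x ∈ nrmSet R χ, ∃ xU : Module.End K U,
      (∀ u : U, ((xU u : U) : X) = x u) ∧ e1 xU ≠ 0 ∧ e0 xU ≠ 0 := by
  by_contra hcon
  push Not at hcon
  have hsc : ∀ W : Submodule K U, W = ⊥ ∨ W = ⊤ := by
    intro W
    refine irr_gen ω hnd hωR hss (nrmSet R χ) (fun x hx => hx.1) ?_ hP hU W ?_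
    · rintro g x ⟨h1, h2, h3⟩
      refine ⟨lieT_conj R χ g h1, ?_, h3.conj g⟩
      have hinv : R g⁻¹ * R g = 1 := by rw [← map_mul, inv_mul_cancel, map_one]
      have hinv' : R g * R g⁻¹ = 1 := by rw [← map_mul, mul_inv_cancel, map_one]
      calc R g * x * R g⁻¹ * (R g * x * R g⁻¹) = R g * x * (R g⁻¹ * R g) * x * R g⁻¹ := by
            noncomm_ring
      _ = R g * (x * x) * R g⁻¹ := by rw [hinv, mul_one, mul_assoc (R g)]
      _ = (1 / 4 : K) • 1 := by
            rw [h2, mul_smul_comm, mul_one, smul_mul_assoc, hinv']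
    rintro Y ⟨x₀, hx₀, hY⟩ u hu
    by_cases h1 : e1 Y = 0
    · have h3 : Y = (-(1 / 2) : K) • 1 := by
        have h4 : Y = e1 Y - (1 / 2 : K) • 1 := by unfold e1; abel
        rw [h4, h1]
        module
      rw [h3]
      exact W.smul_mem _ hu
    · have h0 := hcon x₀ hx₀ Y hY h1
      have h3 : Y = (1 / 2 : K) • 1 := by
        have h4 : Y = (1 / 2 : K) • 1 - e0 Y := by unfold e0; abel
        rw [h4, h0]
        module
      rw [h3]
      exact W.smul_mem _ hu
  obtain ⟨u, hu⟩ : ∃ u : U, u ≠ 0 := by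
    by_contra hcon
    push Not at hcon
    have h3 : finrank K U = 0 := by
      rw [finrank_eq_zero_iff_of_free, subsingleton_iff_forall_eq 0]
      exact hcon
    omega
  rcases hsc (Submodule.span K {u}) with h | h
  · exact hu (Submodule.span_singleton_eq_bot.1 h)
  · have h3 : finrank K (Submodule.span K {u}) = finrank K U := by rw [h, finrank_top]
    rw [finrank_span_singleton hu] at h3
    omega

end piece

end

end Pool.Agent.R930
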