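import Mathlib
import Pool.Agent.R930.Jordan
import Pool.Agent.R930.NSemi
import Pool.Agent.R930.Ideal
import Pool.Agent.R930.Nrm

/-!
# The Lie algebra of a normal subgroup
-/

set_option linter.unusedSectionVars false

namespace Pool.Agent.R930

open Module Pool.Agent.H204R3.SP Pool.Agent.H204R3.GP Pool.Agent.W522.U Pool.Agent.W529.Ta
open Pool.Agent.W528.Odd Pool.Agent.Y126.OT Pool.Agent.TH118.CR Pool.Agent.Y126.Toric
open Pool.Agent.W528.Tor (AltDual)

noncomputable section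

section one

variable {K : Type} [Field K] [CharZero K] {V : Type} [AddCommGroup V] [Module K V]
  [FiniteDimensional K V]

/-- All operators `om u ⊗ u` if there is one. -/
theorem full_one {G : Type} [Group G] {r : Representation K G V}
    {𝔥 : Submodule K (Module.End K V)} (hirr : SIrr r)
    (hbr : ∀ Y ∈ 𝔥, ∀ Y' ∈ 𝔥, Y * Y' - Y' * Y ∈ 𝔥)
    (hconj : ∀ g, ∀ Y ∈ 𝔥, r g * Y * r g⁻¹ ∈ 𝔥) (om : V →ₗ[K] V →ₗ[K] K)
    (halt : ∀ v, om v v = 0) (hnd : ∀ u, (∀ v, om u v = 0) → u = 0) (ψ : G → K)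
    (hsim : ∀ g u v, om (r g u) (r g v) = ψ g * om u v)
    (hsk : ∀ Y ∈ 𝔥, ∀ u w, om (Y u) w + om u (Y w) = 0) {u₀ : V} (hu₀ : u₀ ≠ 0)
    (h : ((om u₀).smulRight u₀ : Module.End K V) ∈ 𝔥) (u : V) :
    ((om u).smulRight u : Module.End K V) ∈ 𝔥 := by
  let 𝔥' : Submodule K (∀ _ : Unit, Module.End K V) := 𝔥.comap (LinearMap.proj ())
  have h1 : LieFam (fun _ : Unit => r) 𝔥' :=
    { br := fun X hX Y hY => hbr _ hX _ hY
      conj := fun g X hX => hconj g _ hX }
  have hinj : Function.Injective om := by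
    rw [injective_iff_map_eq_zero]
    intro u hu
    exact hnd u fun v => by rw [hu]; rfl
  have h0 : om u₀ ≠ 0 := fun h => hu₀ (hinj (by rw [h, map_zero]))
  have h2 : Types (fun _ : Unit => r) 𝔥' (fun _ => True) (fun _ => True) (fun _ => om) ψ :=
    { irr := fun _ _ => hirr
      alt := fun _ _ => halt
      inj := fun _ _ => hinj
      sim := fun _ _ => hsim
      sp := fun _ _ X hX => hsk _ hX
      nf := fun _ _ h => absurd trivial h
      nil := fun _ _ => ⟨fun _ => (om u₀).smulRight u₀, h, fun _ => by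
        refine LinearMap.ext fun v => ?_
        rw [Module.End.mul_apply, LinearMap.smulRight_apply, LinearMap.smulRight_apply, map_smul,
          halt, smul_zero, zero_smul]
        rfl, u₀, om u₀, hu₀, h0, halt u₀, rfl⟩ }
  obtain ⟨X, hX, hXi⟩ := full h1 h2 (i := ()) trivial u (om u)
    ⟨halt u, fun _ => ⟨1, (one_smul _ _).symm⟩⟩
  have h3 : X () ∈ 𝔥 := hX
  rw [hXi] at h3
  exact h3

theorem exists_rk_one {f : Module.End K V} (h : finrank K (LinearMap.range f) = 1) :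
    ∃ (φ : Dual K V) (v : V), v ≠ 0 ∧ φ ≠ 0 ∧ f = φ.smulRight v := by
  obtain ⟨⟨v, hv⟩, hv0, hspan⟩ := finrank_eq_one_iff'.1 h
  have hv0' : v ≠ 0 := fun h => hv0 (Subtype.ext h)
  obtain ⟨g, hg⟩ : ∃ g : Dual K V, g v = 1 := by
    obtain ⟨g, hg⟩ : ∃ g : Dual K V, g v ≠ 0 := by
      by_contra hcon
      push Not at hcon
      exact hv0' ((Module.forall_dual_apply_eq_zero_iff K _).1 hcon)
    exact ⟨(g v)⁻¹ • g, by rw [LinearMap.smul_apply, smul_eq_mul, inv_mul_cancel₀ hg]⟩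
  have h1 : f = (g.comp f).smulRight v := by
    refine LinearMap.ext fun u => ?_
    obtain ⟨c, hc⟩ := hspan ⟨f u, ⟨u, rfl⟩⟩
    have h2 : c • v = f u := congrArg Subtype.val hc
    rw [LinearMap.smulRight_apply, LinearMap.comp_apply, ← h2, map_smul, hg, smul_eq_mul, mul_one]
  refine ⟨g.comp f, v, hv0', fun h0 => ?_, h1⟩
  obtain ⟨w, hw⟩ := hv
  have h2 := congrArg (fun φ : Dual K V => φ w) h0
  have h3 : g (f w) = 0 := h2
  rw [hw, hg] at h3
  exact one_ne_zero h3

theorem skew_rk {om : V →ₗ[K] V →ₗ[K] K} (halt : ∀ v, om v v = 0)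
    (hnd : ∀ u, (∀ v, om u v = 0) → u = 0) {φ : Dual K V} {v : V} (hv : v ≠ 0)
    (hsk : ∀ u w, om ((φ.smulRight v : Module.End K V) u) w +
      om u ((φ.smulRight v : Module.End K V) w) = 0) : ∃ c : K, φ = c • om v := by
  obtain ⟨w, hw⟩ : ∃ w, om v w ≠ 0 := by
    by_contra hcon
    push Not at hcon
    exact hv (hnd v hcon)
  refine ⟨φ w / om v w, ?_⟩
  refine LinearMap.ext fun a => ?_
  have h1 := hsk a w
  have h2 := halt (a + v)
  simp only [map_add, LinearMap.add_apply, halt, zero_add, add_zero] at h2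
  rw [LinearMap.smulRight_apply, LinearMap.smulRight_apply, map_smul, map_smul,
    LinearMap.smul_apply, smul_eq_mul, smul_eq_mul] at h1
  rw [LinearMap.smul_apply, smul_eq_mul]
  field_simp
  linear_combination h1 - φ w * h2

end one

section kern

variable {K : Type} [Field K] {X : Type} [AddCommGroup X] [Module K X] {Γ : Type} [Group Γ]

/-- The restriction of a representation to a subgroup. -/
def rN (R : Representation K Γ X) (N : Subgroup Γ) : Representation K N X := R.comp N.subtype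

/-- The restriction of a character to a subgroup. -/
def cN (χ : Γ →* K) (N : Subgroup Γ) : N →* K := χ.comp N.subtype

theorem rN_apply (R : Representation K Γ X) (N : Subgroup Γ) (g : N) : rN R N g = R g.1 := rfl

theorem cN_apply (χ : Γ →* K) (N : Subgroup Γ) (g : N) : cN χ N g = χ g.1 := rfl

variable {R : Representation K Γ X} {χ : Γ →* K} {N : Subgroup Γ}

theorem lieN_le : lieT (rN R N) (cN χ N) ≤ lieT R χ := by
  rintro x hx m φ ⟨Δ, hΔ, hφ⟩
  exact hx m φ ⟨Δ.subgroupOf N, inferInstance, fun s hs v => hφ s.1 hs v⟩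

theorem lieN_conj (hN : N.Normal) (g : Γ) {x : Module.End K X}
    (hx : x ∈ lieT (rN R N) (cN χ N)) : R g * x * R g⁻¹ ∈ lieT (rN R N) (cN χ N) := by
  intro m φ hφ v
  obtain ⟨Δ, hΔ, hφ⟩ := hφ
  let φ' : MultilinearMap K (fun _ : Fin m × Fin 2 => X) K := φ.compLinearMap (fun _ => R g)
  have hφ' : IsTate (rN R N) (cN χ N) m φ' := by
    refine ⟨Δ.comap (MulAut.conjNormal g : MulAut N).toMonoidHom, ⟨by
      rw [Subgroup.index_comap_of_surjective Δ
        (f := (MulAut.conjNormal g : MulAut N).toMonoidHom) (MulEquiv.surjective _)]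
      exact hΔ.index_ne_zero⟩, fun t ht v => ?_⟩
    have h1 : (MulAut.conjNormal g : MulAut N) t ∈ Δ := ht
    have h2 := hφ _ h1 (fun k => R g (v k))
    change φ (fun k => R g (R t.1 (v k))) = χ t.1 ^ m * φ (fun k => R g (v k))
    have h3 : ∀ k, rN R N ((MulAut.conjNormal g : MulAut N) t) (R g (v k)) =
        R g (R t.1 (v k)) := by
      intro k
      rw [rN_apply, MulAut.conjNormal_apply, map_mul, map_mul, Module.End.mul_apply,
        Module.End.mul_apply, rho_inv]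
    have h4 : cN χ N ((MulAut.conjNormal g : MulAut N) t) = χ t.1 := by
      rw [cN_apply, MulAut.conjNormal_apply, map_mul, map_mul, mul_right_comm, ← map_mul,
        mul_inv_cancel, map_one, one_mul]
    simp only [h3, h4] at h2
    exact h2
  have h1 := hx m φ' hφ' (fun k => R g⁻¹ (v k))
  rw [← h1]
  refine Finset.sum_congr rfl fun k _ => ?_
  change _ = φ (fun l => R g (Function.update (fun k => R g⁻¹ (v k)) k (x (R g⁻¹ (v k))) l))
  congr 1
  funext l
  by_cases h : l = k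
  · subst h
    rw [Function.update_self, Function.update_self]
    rfl
  · rw [Function.update_of_ne h, Function.update_of_ne h, rho_inv']

theorem resN_conj (hN : N.Normal) {U : Submodule K X} (Δ : Subgroup Γ)
    (hUΔ : ∀ g ∈ Δ, ∀ u ∈ U, R g u ∈ U) : ∀ g : Δ, ∀ Y ∈ resL (rN R N) (cN χ N) U,
      resR R Δ U hUΔ g * Y * resR R Δ U hUΔ g⁻¹ ∈ resL (rN R N) (cN χ N) U := by
  rintro g Y ⟨x, hx, hY⟩
  refine ⟨R g.1 * x * R g.1⁻¹, lieN_conj hN g.1 hx, fun u => ?_⟩
  change R g.1 ((Y (resR R Δ U hUΔ g⁻¹ u) : U) : X) = R g.1 (x (R g.1⁻¹ u))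
  rw [hY]
  rfl

end kern

variable {K : Type} [Field K] [CharZero K] [IsAlgClosed K] {X : Type} [AddCommGroup X] [Module K X]
  [FiniteDimensional K X] {Γ : Type} [Group Γ] {R : Representation K Γ X} {χ : Γ →* K}
  {N : Subgroup Γ}
  (ω : X →ₗ[K] X →ₗ[K] K) (hnd : ∀ u, (∀ v, ω u v = 0) → u = 0)
  (hωR : ∀ g u v, ω (R g u) (R g v) = χ g * ω u v) (hss : HasProj R) {U : Submodule K X}
  (hU : SI R U)

include hnd hωR hss hU in
/-- The form, and all operators of rank one, on a symplectic piece. -/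
theorem kern_data (halt : AltDual R χ U) (hN : N.Normal)
    (hone : ∃ e ∈ lieT R χ, e * e = 0 ∧ finrank K (U.map e) = 1)
    (hne : ∃ x ∈ lieT (rN R N) (cN χ N), ∃ u ∈ U, x u ≠ 0) :
    ∃ (Δ : Subgroup Γ) (hUΔ : ∀ g ∈ Δ, ∀ u ∈ U, R g u ∈ U) (om : U →ₗ[K] U →ₗ[K] K),
      Δ.FiniteIndex ∧ (∀ v, om v v = 0) ∧ (∀ u, (∀ v, om u v = 0) → u = 0) ∧
      (∀ g (hg : g ∈ Δ) (u v : U), om ⟨R g u, hUΔ g hg u u.2⟩ ⟨R g v, hUΔ g hg v v.2⟩ =
        χ g * om u v) ∧
      (∀ Y ∈ resL R χ U, ∀ u w, om (Y u) w + om u (Y w) = 0) ∧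
      ∀ u, ((om u).smulRight u : Module.End K U) ∈ resL (rN R N) (cN χ N) U := by
  obtain ⟨Δ₁, hΔ₁, hUΔ₁⟩ := id hU.2.1
  obtain ⟨Δ₂, hΔ₂, B, hB0, hBalt, hB⟩ := id halt
  obtain ⟨Δ, hΔd⟩ : ∃ Δ, Δ = Δ₁ ⊓ Δ₂ := ⟨_, rfl⟩
  have hΔ : Δ.FiniteIndex := by rw [hΔd]; infer_instance
  have hUΔ : ∀ g ∈ Δ, ∀ u ∈ U, R g u ∈ U := fun g hg => hUΔ₁ g (by rw [hΔd] at hg; exact hg.1)
  have hB' : ∀ g ∈ Δ, ∀ u ∈ U, ∀ v ∈ U, B (R g u) (R g v) = χ g * B u v :=
    fun g hg => hB g (by rw [hΔd] at hg; exact hg.2)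
  obtain ⟨om, hom⟩ : ∃ om : U →ₗ[K] U →ₗ[K] K, om = B.compl₁₂ U.subtype U.subtype := ⟨_, rfl⟩
  have hom' : ∀ u v : U, om u v = B u v := fun u v => by rw [hom]; rfl
  have halt' : ∀ v, om v v = 0 := fun v => by rw [hom']; exact hBalt v v.2
  have hndl : ∀ u, (∀ v, om u v = 0) → u = 0 := by
    intro u hu
    apply Subtype.ext
    exact du_left hU hU.2.1 hΔ₂ hB0 hB u u.2 (fun v hv => by
      have := hu ⟨v, hv⟩
      rwa [hom'] at this)
  have hsp : ∀ Y ∈ resL R χ U, ∀ u w, om (Y u) w + om u (Y w) = 0 := by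
    rintro Y ⟨y, hy, hYy⟩ u w
    rw [hom', hom', hYy, hYy]
    exact lieT_skew ω hnd hωR hss hU.2.1 hΔ₂ B hB hy u u.2 w w.2
  have hsym : ∀ u v, om u v = - om v u := by
    intro u v
    have h1 := halt' (u + v)
    simp only [map_add, LinearMap.add_apply, halt', zero_add, add_zero] at h1
    linear_combination h1
  have homg : ∀ g (hg : g ∈ Δ) (u v : U), om ⟨R g u, hUΔ g hg u u.2⟩ ⟨R g v, hUΔ g hg v v.2⟩ =
        χ g * om u v := by
    intro g hg u v
    rw [hom', hom']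
    exact hB' g hg u u.2 v v.2
  have hirr := sIrr_res hU Δ hΔ hUΔ
  have hle : resL (rN R N) (cN χ N) U ≤ resL R χ U := by
    rintro Y ⟨y, hy, hYy⟩
    exact ⟨y, lieN_le hy, hYy⟩
  -- operators of rank one
  have hG : ∀ u, ((om u).smulRight u : Module.End K U) ∈ resL R χ U := by
    obtain ⟨e, he, he2, her⟩ := hone
    have hst := lieT_stable ω hnd hωR hss hU.2.1 he
    obtain ⟨eU, heU⟩ : ∃ eU : Module.End K U, ∀ u : U, ((eU u : U) : X) = e u :=
      ⟨e.restrict hst, fun u => rfl⟩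
    have hr : finrank K (LinearMap.range eU) = 1 := by
      have h1 : (LinearMap.range eU).map U.subtype = U.map e := by
        ext w
        constructor
        · rintro ⟨_, ⟨u, rfl⟩, rfl⟩
          exact ⟨u, u.2, (heU u).symm⟩
        · rintro ⟨u, hu, rfl⟩
          exact ⟨eU ⟨u, hu⟩, ⟨_, rfl⟩, heU ⟨u, hu⟩⟩
      rw [← her, ← h1]
      exact (LinearEquiv.finrank_eq (Submodule.equivMapOfInjective _ U.injective_subtype _))
    obtain ⟨φ, v, hv, hφ, hfv⟩ := exists_rk_one hr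
    have heL : eU ∈ resL R χ U := ⟨e, he, heU⟩
    obtain ⟨c, hc⟩ := skew_rk halt' hndl hv (φ := φ) (by
      rw [← hfv]
      exact hsp eU heL)
    have hc0 : c ≠ 0 := by
      rintro rfl
      rw [zero_smul] at hc
      exact hφ hc
    have h1 : ((om v).smulRight v : Module.End K U) ∈ resL R χ U := by
      have h2 : ((om v).smulRight v : Module.End K U) = c⁻¹ • eU := by
        rw [hfv, hc]
        refine LinearMap.ext fun u => ?_
        rw [LinearMap.smul_apply, LinearMap.smulRight_apply, LinearMap.smulRight_apply,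
          LinearMap.smul_apply, smul_eq_mul, smul_smul, ← mul_assoc, inv_mul_cancel₀ hc0, one_mul]
      rw [h2]
      exact Submodule.smul_mem _ _ heL
    exact full_one hirr resL_br (resL_conj Δ hUΔ) om halt' hndl (fun g => χ g.1)
      (fun g u v => homg g.1 g.2 u v) hsp hv h1
  -- the trace form
  have hnd𝔫 : ∀ z ∈ resL (rN R N) (cN χ N) U, (∀ y ∈ resL (rN R N) (cN χ N) U,
      LinearMap.trace K U (z * y) = 0) → z = 0 := fun z hz h =>
    trace_nondeg (resR R Δ U hUΔ) hirr resL_br (resN_conj hN Δ hUΔ) z hz h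
  -- a nonzero element
  obtain ⟨x, hx, u₁, hu₁, hxu₁⟩ := hne
  have hxst := lieT_stable ω hnd hωR hss hU.2.1 (lieN_le hx)
  obtain ⟨n, hn⟩ : ∃ n : Module.End K U, ∀ u : U, ((n u : U) : X) = x u :=
    ⟨x.restrict hxst, fun u => rfl⟩
  have hnL : n ∈ resL (rN R N) (cN χ N) U := ⟨x, hx, hn⟩
  have hn0 : n ⟨u₁, hu₁⟩ ≠ 0 := by
    intro h
    apply hxu₁
    have h1 := hn ⟨u₁, hu₁⟩
    rw [h] at h1
    exact h1.symm
  obtain ⟨v, hv⟩ : ∃ v, om v (n v) ≠ 0 := by
    by_contra hcon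
    push Not at hcon
    apply hn0
    apply hndl
    intro w
    have h1 := hcon (⟨u₁, hu₁⟩ + w)
    simp only [map_add, LinearMap.add_apply, hcon, zero_add, add_zero] at h1
    have h2 := hsp n (hle hnL) ⟨u₁, hu₁⟩ w
    have h3 := hsym w (n ⟨u₁, hu₁⟩)
    have h4 : (2 : K) * om (n ⟨u₁, hu₁⟩) w = 0 := by linear_combination h2 - h1 + h3
    exact (mul_eq_zero.1 h4).resolve_left two_ne_zero
  obtain ⟨E, hE⟩ : ∃ E : Module.End K U, E = (om v).smulRight v := ⟨_, rfl⟩
  have hEL : E ∈ resL R χ U := by rw [hE]; exact hG v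
  obtain ⟨y, hy, hyE⟩ := id hEL
  have h1 := ideal_res ω hnd hωR hss hU hΔ hUΔ B hB0 hB' (resN_conj hN Δ hUΔ) hnd𝔫 hy hyE hnL
  have h2 := ideal_res ω hnd hωR hss hU hΔ hUΔ B hB0 hB' (resN_conj hN Δ hUΔ) hnd𝔫 hy hyE h1
  have h3 : E * (E * n - n * E) - (E * n - n * E) * E = ((-2 : K) * om v (n v)) • E := by
    refine LinearMap.ext fun u => ?_
    simp only [LinearMap.sub_apply, Module.End.mul_apply, LinearMap.smul_apply, hE,
      LinearMap.smulRight_apply, map_sub, map_smul, halt', smul_smul]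
    module
  rw [h3] at h2
  have hv0 : v ≠ 0 := by
    rintro rfl
    rw [map_zero, LinearMap.zero_apply] at hv
    exact hv rfl
  have h4 : ((om v).smulRight v : Module.End K U) ∈ resL (rN R N) (cN χ N) U := by
    rw [← hE]
    exact (Submodule.smul_mem_iff _ (mul_ne_zero (by norm_num) hv)).1 h2
  exact ⟨Δ, hUΔ, om, hΔ, halt', hndl, homg, hsp, fun u => full_one hirr resL_br
    (resN_conj hN Δ hUΔ) om halt' hndl (fun g => χ g.1) (fun g u v => homg g.1 g.2 u v)
    (fun Y hY => hsp Y (hle hY)) hv0 h4 u⟩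

theorem rank_map_one {Y : Module.End K U} {y : Module.End K X}
    (hYy : ∀ u : U, ((Y u : U) : X) = y u) {φ : Dual K U} {v : U} (hv : v ≠ 0) (hφ : φ ≠ 0)
    (hY : Y = φ.smulRight v) : finrank K (U.map y) = 1 := by
  have h1 : U.map y = Submodule.span K {(v : X)} := by
    apply le_antisymm
    · rintro _ ⟨u, hu, rfl⟩
      have h2 := hYy ⟨u, hu⟩
      rw [hY, LinearMap.smulRight_apply] at h2
      rw [← h2]
      exact Submodule.smul_mem _ _ (Submodule.mem_span_singleton_self _)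
    · rw [Submodule.span_singleton_le_iff_mem]
      obtain ⟨w, hw⟩ : ∃ w, φ w ≠ 0 := by
        by_contra hcon
        push Not at hcon
        exact hφ (LinearMap.ext hcon)
      refine ⟨((φ w)⁻¹ • w : U), ((φ w)⁻¹ • w : U).2, ?_⟩
      rw [← hYy, hY, LinearMap.smulRight_apply, map_smul, smul_eq_mul, inv_mul_cancel₀ hw,
        one_smul]
  rw [h1, finrank_span_singleton]
  intro h
  exact hv (Subtype.ext h)

include hnd hωR hss hU in
/-- Square-zero elements of rank one for a normal subgroup. -/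
theorem one_kern (halt : AltDual R χ U) (hN : N.Normal)
    (hone : ∃ e ∈ lieT R χ, e * e = 0 ∧ finrank K (U.map e) = 1)
    (hne : ∃ x ∈ lieT (rN R N) (cN χ N), ∃ u ∈ U, x u ≠ 0)
    (hnrm : ∃ x ∈ nrmSet R χ, ∃ xU : Module.End K U,
      (∀ u : U, ((xU u : U) : X) = x u) ∧ e1 xU ≠ 0 ∧ e0 xU ≠ 0) :
    ∃ e ∈ lieT (rN R N) (cN χ N), e * e = 0 ∧ finrank K (U.map e) = 1 := by
  obtain ⟨Δ, hUΔ, om, hΔ, halt', hndl, homg, hsp, hall⟩ :=
    kern_data (N := N) ω hnd hωR hss hU halt hN hone hne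
  obtain ⟨x, ⟨hx, hxx, hxn⟩, xU, hxU, h1, h0⟩ := hnrm
  have hxx' : xU * xU = (1 / 4 : K) • 1 := sq_res hxU _ hxx
  obtain ⟨w, hw⟩ : ∃ w, e1 xU w ≠ 0 := by
    by_contra hcon
    push Not at hcon
    exact h1 (LinearMap.ext hcon)
  obtain ⟨v, hvd⟩ : ∃ v, v = e1 xU w := ⟨_, rfl⟩
  have hv0 : v ≠ 0 := by rw [hvd]; exact hw
  have hv1 : e1 xU v = v := by
    rw [hvd, ← Module.End.mul_apply, e1_mul_e1 hxx']
  have hxv : xU v = (1 / 2 : K) • v := by
    have h2 : xU v = e1 xU v - (1 / 2 : K) • v := by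
      unfold e1
      rw [LinearMap.add_apply, LinearMap.smul_apply, Module.End.one_apply]
      abel
    rw [h2, hv1]
    module
  obtain ⟨n, hn, hnv⟩ := hall v
  have hyp : yp x n ∈ lieT (rN R N) (cN χ N) := by
    have h2 := hxn _ (fun g y hy => lieN_conj hN g hy) n hn
    have h3 := hxn _ (fun g y hy => lieN_conj hN g hy) _ h2
    have h4 : yp x n = (1 / 2 : K) • (x * n - n * x) +
        (1 / 2 : K) • (x * (x * n - n * x) - (x * n - n * x) * x) := by
      have e1' : x * (x * n - n * x) - (x * n - n * x) * x =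
          (x * x) * n - (2 : K) • (x * n * x) + n * (x * x) := by
        rw [two_smul]
        noncomm_ring
      rw [e1', hxx]
      unfold yp e1 e0
      simp only [add_mul, mul_sub, smul_mul_assoc, mul_smul_comm, one_mul, mul_one]
      module
    rw [h4]
    exact Submodule.add_mem _ (Submodule.smul_mem _ _ h2) (Submodule.smul_mem _ _ h3)
  refine ⟨yp x n, hyp, yp_sq hxx n, ?_⟩
  have hsk := hsp xU ⟨x, hx, hxU⟩
  refine rank_map_one (Y := yp xU ((om v).smulRight v)) (yp_res hxU hnv) (v := v) (φ := om v) hv0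
    (fun h => hv0 (hndl v fun u => by rw [h]; rfl)) ?_
  refine LinearMap.ext fun u => ?_
  unfold yp
  rw [Module.End.mul_apply, Module.End.mul_apply, LinearMap.smulRight_apply,
    LinearMap.smulRight_apply, map_smul, hv1]
  congr 1
  have h2 := hsk v u
  rw [hxv, map_smul, LinearMap.smul_apply, smul_eq_mul] at h2
  unfold e0
  rw [LinearMap.sub_apply, LinearMap.smul_apply, Module.End.one_apply, map_sub, map_smul,
    smul_eq_mul]
  linear_combination -h2

end

end Pool.Agent.R930
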