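import Mathlib
import Pool.Agent.R930.Kern

/-!
# Operators that commute with a normal subgroup
-/

set_option linter.unusedSectionVars false

namespace Pool.Agent.R930

open Module Pool.Agent.H204R3.SP Pool.Agent.H204R3.GP Pool.Agent.W522.U Pool.Agent.W529.Ta
open Pool.Agent.W528.Odd Pool.Agent.Y126.OT Pool.Agent.TH118.CR Pool.Agent.Y126.Toric
open Pool.Agent.W528.Tor (AltDual)

noncomputable section

section rich

variable {K : Type} [Field K] {X : Type} [AddCommGroup X] [Module K X]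

/-- The space of operators contains all operators `om v ⊗ v` on `U`. -/
def Rich (L : Submodule K (Module.End K X)) (U : Submodule K X) : Prop :=
  ∃ om : U →ₗ[K] U →ₗ[K] K, (∀ u, (∀ v, om u v = 0) → u = 0) ∧ (∀ v, om v v = 0) ∧
    ∀ v : U, ∃ x ∈ L, ∀ u : U, x (u : X) = om v u • (v : X)

variable {L : Submodule K (Module.End K X)} {U U' : Submodule K X}

theorem Rich.irr (h : Rich L U) {W : Submodule K X} (hW : W ≤ U)
    (hst : ∀ x ∈ L, ∀ u ∈ W, x u ∈ W) : W = ⊥ ∨ W = U := by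
  obtain ⟨om, hnd, halt, hall⟩ := h
  by_cases h0 : W = ⊥
  · exact Or.inl h0
  right
  apply le_antisymm hW
  obtain ⟨u, hu, hu0⟩ := (Submodule.ne_bot_iff _).1 h0
  have h1 : ∀ v : U, om v ⟨u, hW hu⟩ ≠ 0 → (v : X) ∈ W := by
    intro v hv
    obtain ⟨x, hx, hxv⟩ := hall v
    have h2 := hst x hx u hu
    rw [hxv ⟨u, hW hu⟩] at h2
    exact (Submodule.smul_mem_iff _ hv).1 h2
  obtain ⟨v₀, hv₀⟩ : ∃ v₀ : U, om v₀ ⟨u, hW hu⟩ ≠ 0 := by
    by_contra hcon
    push Not at hcon
    apply hu0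
    have h2 : (⟨u, hW hu⟩ : U) = 0 := by
      apply hnd
      intro v
      have h3 := halt (⟨u, hW hu⟩ + v)
      simp only [map_add, LinearMap.add_apply, halt, zero_add, add_zero, hcon] at h3
      exact h3
    exact congrArg Subtype.val h2
  intro w hw
  by_cases h2 : om ⟨w, hw⟩ ⟨u, hW hu⟩ = 0
  · have h3 := h1 (⟨w, hw⟩ + v₀) (by rw [map_add, LinearMap.add_apply, h2, zero_add]; exact hv₀)
    have h4 : w = (((⟨w, hw⟩ + v₀ : U)) : X) - v₀ := by
      rw [Submodule.coe_add]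
      abel
    rw [h4]
    exact W.sub_mem h3 (h1 v₀ hv₀)
  · exact h1 ⟨w, hw⟩ h2

/-- Schur's lemma. -/
theorem schur_rich [IsAlgClosed K] [FiniteDimensional K X] (h : Rich L U) (h' : Rich L U')
    (hLU : ∀ x ∈ L, ∀ u ∈ U, x u ∈ U) (hLU' : ∀ x ∈ L, ∀ u ∈ U', x u ∈ U')
    {S T : Module.End K X} (hS : ∀ u ∈ U, S u ∈ U') (hT : ∀ u ∈ U, T u ∈ U')
    (hSL : ∀ x ∈ L, ∀ u ∈ U, S (x u) = x (S u)) (hTL : ∀ x ∈ L, ∀ u ∈ U, T (x u) = x (T u))
    (h0 : ∃ u ∈ U, S u ≠ 0) : ∃ c : K, ∀ u ∈ U, T u = c • S u := by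
  obtain ⟨u₀, hu₀, hSu₀⟩ := h0
  have hker : ∀ u ∈ U, S u = 0 → u = 0 := by
    rcases h.irr (W := U ⊓ LinearMap.ker S) inf_le_left (by
      rintro x hx u ⟨hu, hSu⟩
      refine ⟨hLU x hx u hu, ?_⟩
      have hSu' : S u = 0 := hSu
      change S (x u) = 0
      rw [hSL x hx u hu, hSu', map_zero]) with h1 | h1
    · intro u hu hSu
      have h2 : u ∈ U ⊓ LinearMap.ker S := ⟨hu, hSu⟩
      rwa [h1, Submodule.mem_bot] at h2
    · exfalso
      have h2 : u₀ ∈ U ⊓ LinearMap.ker S := by rw [h1]; exact hu₀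
      exact hSu₀ h2.2
  have hrange : U.map S = U' := by
    rcases h'.irr (W := U.map S) (by
      rintro _ ⟨u, hu, rfl⟩
      exact hS u hu) (by
      rintro x hx _ ⟨u, hu, rfl⟩
      exact ⟨x u, hLU x hx u hu, hSL x hx u hu⟩) with h1 | h1
    · exfalso
      apply hSu₀
      have h2 : S u₀ ∈ U.map S := ⟨u₀, hu₀, rfl⟩
      rwa [h1, Submodule.mem_bot] at h2
    · exact h1
  let S1 : U →ₗ[K] U' := S.restrict hS
  have hb : Function.Bijective S1 := by
    constructor
    · rw [injective_iff_map_eq_zero]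
      intro u hu
      have h2 : S u = 0 := congrArg Subtype.val hu
      exact Subtype.ext (hker u u.2 h2)
    · intro v
      have h2 : (v : X) ∈ U.map S := by
        rw [hrange]
        exact v.2
      obtain ⟨u, hu, huv⟩ := h2
      exact ⟨⟨u, hu⟩, Subtype.ext huv⟩
  let e := LinearEquiv.ofBijective S1 hb
  have he : ∀ u : U, ((e u : U') : X) = S u := fun u => rfl
  let A : Module.End K U := e.symm.toLinearMap.comp (T.restrict hT)
  have hA : ∀ u : U, S (A u) = T u := by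
    intro u
    rw [← he]
    change ((e (e.symm (T.restrict hT u)) : U') : X) = T u
    rw [e.apply_symm_apply]
    rfl
  have hntU : Nontrivial U := by
    refine ⟨⟨⟨u₀, hu₀⟩, 0, fun h => hSu₀ ?_⟩⟩
    have h2 : u₀ = 0 := congrArg Subtype.val h
    rw [h2, map_zero]
  obtain ⟨c, hc⟩ := Module.End.exists_eigenvalue A
  have hst : ∀ x ∈ L, ∀ u ∈ (A.eigenspace c).map U.subtype,
      x u ∈ (A.eigenspace c).map U.subtype := by
    rintro x hx _ ⟨u, hu, rfl⟩
    refine ⟨⟨x u, hLU x hx u u.2⟩, ?_, rfl⟩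
    have hu' : A u = c • u := Module.End.mem_eigenspace_iff.1 hu
    refine Module.End.mem_eigenspace_iff.2 ?_
    apply Subtype.ext
    have h2 : ((A ⟨x u, hLU x hx u u.2⟩ : U) : X) - x ((A u : U) : X) = 0 := by
      apply hker
      · exact U.sub_mem (SetLike.coe_mem _) (hLU x hx _ (SetLike.coe_mem _))
      · rw [map_sub, hA, hSL x hx _ (SetLike.coe_mem _), hA, hTL x hx u u.2, sub_self]
    rw [sub_eq_zero.1 h2, hu']
    change x (c • (u : X)) = c • x u
    rw [map_smul]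
  rcases h.irr (W := (A.eigenspace c).map U.subtype) (Submodule.map_subtype_le _ _) hst with
    h1 | h1
  · exfalso
    apply hc
    rw [eq_bot_iff]
    intro u hu
    have h2 : (u : X) ∈ (A.eigenspace c).map U.subtype := ⟨u, hu, rfl⟩
    rw [h1, Submodule.mem_bot] at h2
    rw [Submodule.mem_bot]
    exact Subtype.ext h2
  · refine ⟨c, fun u hu => ?_⟩
    have h2 : u ∈ (A.eigenspace c).map U.subtype := by rw [h1]; exact hu
    obtain ⟨u', hu', rfl⟩ := h2
    have h3 : A u' = c • u' := Module.End.mem_eigenspace_iff.1 hu'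
    have h4 := hA u'
    rw [h3] at h4
    change S (c • (u' : X)) = T u' at h4
    change T (u' : X) = c • S u'
    rw [← h4, map_smul]

end rich

variable {K : Type} [Field K] [CharZero K] [IsAlgClosed K] {X : Type} [AddCommGroup X] [Module K X]
  [FiniteDimensional K X] {Γ : Type} [Group Γ] {R : Representation K Γ X} {χ : Γ →* K}
  {N : Subgroup Γ}

/-- The operators that commute with a subgroup of finite index. -/
def comR (R : Representation K Γ X) : Submodule K (Module.End K X) where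
  carrier := {P | ∃ Δ : Subgroup Γ, Δ.FiniteIndex ∧ ∀ g ∈ Δ, ∀ v, P (R g v) = R g (P v)}
  zero_mem' := ⟨⊤, inferInstance, fun g _ v => by
    rw [LinearMap.zero_apply, LinearMap.zero_apply, map_zero]⟩
  add_mem' := by
    rintro P Q ⟨Δ, hΔ, hP⟩ ⟨Δ', hΔ', hQ⟩
    refine ⟨Δ ⊓ Δ', inferInstance, fun g hg v => ?_⟩
    rw [LinearMap.add_apply, LinearMap.add_apply, hP g hg.1, hQ g hg.2, map_add]
  smul_mem' := by
    rintro c P ⟨Δ, hΔ, hP⟩
    refine ⟨Δ, hΔ, fun g hg v => ?_⟩
    rw [LinearMap.smul_apply, LinearMap.smul_apply, hP g hg, map_smul]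

theorem comR_mul {P Q : Module.End K X} (hP : P ∈ comR R) (hQ : Q ∈ comR R) :
    P * Q ∈ comR R := by
  obtain ⟨Δ, hΔ, hP⟩ := hP
  obtain ⟨Δ', hΔ', hQ⟩ := hQ
  refine ⟨Δ ⊓ Δ', inferInstance, fun g hg v => ?_⟩
  rw [Module.End.mul_apply, Module.End.mul_apply, hQ g hg.2, hP g hg.1]

variable (ω : X →ₗ[K] X →ₗ[K] K) (hnd : ∀ u, (∀ v, ω u v = 0) → u = 0)
  (hωR : ∀ g u v, ω (R g u) (R g v) = χ g * ω u v) (hss : HasProj R)

include hnd hωR in
theorem comR_lie {P : Module.End K X} (hP : P ∈ comR R) {x : Module.End K X}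
    (hx : x ∈ lieT R χ) : P * x = x * P := by
  obtain ⟨Δ, hΔ, hP⟩ := hP
  refine LinearMap.ext fun v => ?_
  exact (Pool.Agent.W839.OT.HTFam.comm R χ ω hnd hωR Δ hΔ P hP x hx v).symm

include hnd hωR hss in
/-- Maps between two pieces. -/
theorem comR_of_piece {U U' : Submodule K X} (hU : SI R U) (hU' : SI R U')
    (hdu : Du R χ U U) (hdu' : Du R χ U' U') (hN : N.Normal)
    (hr : Rich (lieT (rN R N) (cN χ N)) U) (hr' : Rich (lieT (rN R N) (cN χ N)) U')
    {q : Module.End K X} (hq : q ∈ comR R) (hqU : ∀ v, q v ∈ U) (hqU' : ∀ u ∈ U, q u = u)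
    {S : Module.End K X} (hSq : ∀ v, S (q v) = S v) (hSU : ∀ v, S v ∈ U')
    (hSL : ∀ x ∈ lieT (rN R N) (cN χ N), ∀ v, S (x v) = x (S v)) : S ∈ comR R := by
  by_cases h0 : ∀ u ∈ U, S u = 0
  · have h1 : S = 0 := LinearMap.ext fun v => by
      rw [← hSq, h0 _ (hqU v)]
      rfl
    rw [h1]
    exact Submodule.zero_mem _
  push Not at h0
  have hLU : ∀ x ∈ lieT (rN R N) (cN χ N), ∀ u ∈ U, x u ∈ U := fun x hx =>
    lieT_stable ω hnd hωR hss hU.2.1 (lieN_le hx)
  have hLU' : ∀ x ∈ lieT (rN R N) (cN χ N), ∀ u ∈ U', x u ∈ U' := fun x hx =>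
    lieT_stable ω hnd hωR hss hU'.2.1 (lieN_le hx)
  obtain ⟨Δ₁, hΔ₁, h1⟩ := id hU.2.1
  obtain ⟨Δ₂, hΔ₂, h2⟩ := id hU'.2.1
  have hψ : ∀ g ∈ Δ₁ ⊓ Δ₂, ∃ c : K, ∀ u ∈ U, (R g⁻¹ * S * R g) u = c • S u := by
    intro g hg
    refine schur_rich hr hr' hLU hLU' (fun u _ => hSU u) (fun u hu => ?_)
      (fun x hx u _ => hSL x hx u) (fun x hx u hu => ?_) h0
    · exact h2 _ ((Δ₁ ⊓ Δ₂).inv_mem hg).2 _ (hSU _)
    · have h3 := lieN_conj hN g hx
      have h4 := hSL _ h3 (R g u)
      have h5 : (R g * x * R g⁻¹) (R g u) = R g (x u) := by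
        change R g (x (R g⁻¹ (R g u))) = _
        rw [Rinv]
      rw [h5] at h4
      change R g⁻¹ (S (R g (x u))) = x (R g⁻¹ (S (R g u)))
      rw [h4]
      change R g⁻¹ (R g (x (R g⁻¹ (S (R g u))))) = _
      rw [Rinv]
  have htw : ∃ ψ : Γ → K, Tw R ψ U U' := by
    classical
    choose! c hc using hψ
    refine ⟨c, Δ₁ ⊓ Δ₂, inferInstance, S, fun u _ => hSU u, h0, fun g hg u hu => ?_⟩
    have h3 := hc g hg u hu
    have h4 : R g ((R g⁻¹ * S * R g) u) = S (R g u) := by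
      change R g (R g⁻¹ (S (R g u))) = _
      rw [Rinv']
    rw [← h4, h3, map_smul]
  obtain ⟨ψ, hψ'⟩ := htw
  obtain ⟨Δ, hΔ, T, hTU, hT0, hT⟩ := sp_twist hU hU' hdu hdu' hψ'
  have hTq : T * q ∈ comR R := by
    obtain ⟨Δ', hΔ', hq'⟩ := hq
    refine ⟨Δ ⊓ Δ', inferInstance, fun g hg v => ?_⟩
    rw [Module.End.mul_apply, Module.End.mul_apply, hq' g hg.2, hT g hg.1 _ (hqU v), one_smul]
  obtain ⟨c, hc⟩ := schur_rich hr hr' hLU hLU' (S := T * q) (T := S)
    (fun u hu => hTU _ (hqU u)) (fun u _ => hSU u)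
    (fun x hx u _ => by
      have h3 := comR_lie ω hnd hωR hTq (lieN_le hx)
      exact congrArg (fun F : Module.End K X => F u) h3) (fun x hx u _ => hSL x hx u) (by
      obtain ⟨u, hu, hu0⟩ := hT0
      refine ⟨u, hu, ?_⟩
      rw [Module.End.mul_apply, hqU' u hu]
      exact hu0)
  have h3 : S = c • (T * q) := by
    refine LinearMap.ext fun v => ?_
    rw [← hSq, hc _ (hqU v), LinearMap.smul_apply, Module.End.mul_apply, Module.End.mul_apply,
      hqU' _ (hqU v)]
  rw [h3]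
  exact Submodule.smul_mem _ _ hTq

include hnd hωR hss in
/-- **Operators that commute with a subgroup of finite index of `N` commute with a subgroup of
finite index of the group.** -/
theorem comR_of_kern (hN : N.Normal)
    (hdu : ∀ U, SI R U → Du R χ U U)
    (hr : ∀ U, SI R U → Rich (lieT (rN R N) (cN χ N)) U) {P : Module.End K X}
    (hP : P ∈ comR (rN R N)) : P ∈ comR R := by
  have hPL : ∀ x ∈ lieT (rN R N) (cN χ N), P * x = x * P := fun x hx =>
    comR_lie (R := rN R N) (χ := cN χ N) ω hnd (fun g u v => hωR g.1 u v) hP hx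
  obtain ⟨s, W, hW, hWW, hall⟩ := exists_reps hss
  have hq : ∀ i, ∃ q : Module.End K X, q ∈ comR R ∧ (∀ v, q v ∈ W i) ∧ ∀ u ∈ W i, q u = u := by
    intro i
    obtain ⟨Δ, hΔ, h1⟩ := id (hW i).2.1
    obtain ⟨q, h2, h3, h4⟩ := hss Δ hΔ (W i) h1
    exact ⟨q, ⟨Δ, hΔ, h4⟩, h2, h3⟩
  choose q hqc hqW hqW' using hq
  -- the factors
  have hfac : ∀ T ∈ FS R W, ∃ (i : Fin s) (a b : Module.End K X), a ∈ comR R ∧ b ∈ comR R ∧
      (∀ v, b v ∈ W i) ∧ (∀ v, a (q i v) = a v) ∧ T = a * b := by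
    rintro T ⟨i, p, ι, Δ, hΔ, hp, hι, rfl⟩
    obtain ⟨Δ', hΔ', h1⟩ := id (hW i).2.1
    refine ⟨i, ι.comp ((q i).codRestrict (W i) (hqW i)), (W i).subtype.comp p, ?_, ⟨Δ, hΔ, hp⟩,
      fun v => (p v).2, fun v => ?_, ?_⟩
    · obtain ⟨Δ'', hΔ'', h2⟩ := hqc i
      refine ⟨Δ ⊓ Δ'', inferInstance, fun g hg v => ?_⟩
      exact hι g hg.1 _ _ (h2 g hg.2 v)
    · change ι ((q i).codRestrict (W i) (hqW i) (q i v)) = ι ((q i).codRestrict (W i) (hqW i) v)
      congr 1
      apply Subtype.ext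
      exact hqW' i _ (hqW i v)
    · refine LinearMap.ext fun v => ?_
      change ι (p v) = ι ((q i).codRestrict (W i) (hqW i) (p v : X))
      congr 1
      apply Subtype.ext
      exact (hqW' i _ (p v).2).symm
  have h1 := decomp hss W hW hall
  have key : ∀ A ∈ Submodule.span K (FS R W), ∀ B ∈ Submodule.span K (FS R W),
      A * P * B ∈ comR R := by
    intro A hA
    induction hA using Submodule.span_induction with
    | mem A hA =>
      intro B hB
      induction hB using Submodule.span_induction with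
      | mem B hB =>
        obtain ⟨i, a, b, ha, hb, hbW, -, rfl⟩ := hfac A hA
        obtain ⟨j, a', b', ha', hb', hbW', haq', rfl⟩ := hfac B hB
        have hS : b * P * a' ∈ comR R := by
          refine comR_of_piece ω hnd hωR hss (hW j) (hW i) (hdu _ (hW j)) (hdu _ (hW i)) hN
            (hr _ (hW j)) (hr _ (hW i)) (hqc j) (hqW j) (hqW' j) (fun v => ?_) (fun v => hbW _)
            (fun x hx v => ?_)
          · change b (P (a' (q j v))) = b (P (a' v))
            rw [haq']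
          · have e1 := comR_lie ω hnd hωR hb (lieN_le hx)
            have e2 := comR_lie ω hnd hωR ha' (lieN_le hx)
            have e3 := hPL x hx
            have e4 : b * P * a' * x = x * (b * P * a') := by
              calc b * P * a' * x = b * P * (a' * x) := by noncomm_ring
              _ = b * (P * x) * a' := by rw [e2]; noncomm_ring
              _ = (b * x) * P * a' := by rw [e3]; noncomm_ring
              _ = _ := by rw [e1]; noncomm_ring
            exact congrArg (fun F : Module.End K X => F v) e4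
        have e5 : a * b * P * (a' * b') = a * (b * P * a') * b' := by noncomm_ring
        rw [e5]
        exact comR_mul (comR_mul ha hS) hb'
      | zero => rw [mul_zero]; exact Submodule.zero_mem _
      | add x y _ _ hx hy => rw [mul_add]; exact Submodule.add_mem _ hx hy
      | smul c x _ hx => rw [mul_smul_comm]; exact Submodule.smul_mem _ _ hx
    | zero => intro B _; rw [zero_mul, zero_mul]; exact Submodule.zero_mem _
    | add x y _ _ hx hy =>
      intro B hB
      rw [add_mul, add_mul]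
      exact Submodule.add_mem _ (hx B hB) (hy B hB)
    | smul c x _ hx =>
      intro B hB
      rw [smul_mul_assoc, smul_mul_assoc]
      exact Submodule.smul_mem _ _ (hx B hB)
  have h2 := key 1 h1 1 h1
  rwa [one_mul, mul_one] at h2

include hnd hωR hss in
theorem pot_of_kern (hN : N.Normal) (hdu : ∀ U, SI R U → Du R χ U U)
    (hr : ∀ U, SI R U → Rich (lieT (rN R N) (cN χ N)) U) (hssN : HasProj (rN R N))
    {W : Submodule K X} (hW : Pot (rN R N) W) : Pot R W := by
  obtain ⟨Δ, hΔ, h⟩ := hW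
  obtain ⟨P, hP1, hP2, hP3⟩ := hssN Δ hΔ W h
  obtain ⟨Δ', hΔ', hP⟩ := comR_of_kern ω hnd hωR hss hN hdu hr (P := P) ⟨Δ, hΔ, hP3⟩
  refine ⟨Δ', hΔ', fun g hg u hu => ?_⟩
  rw [← hP2 u hu, ← hP g hg]
  exact hP1 _

theorem pot_restrict {W : Submodule K X} (hW : Pot R W) : Pot (rN R N) W := by
  obtain ⟨Δ, hΔ, h⟩ := hW
  exact ⟨Δ.subgroupOf N, inferInstance, fun g hg => h g.1 hg⟩

include hnd hωR hss in
/-- The strongly irreducible subspaces for `N` are strongly irreducible. -/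
theorem si_of_kern (hN : N.Normal) (hdu : ∀ U, SI R U → Du R χ U U)
    (hr : ∀ U, SI R U → Rich (lieT (rN R N) (cN χ N)) U) (hssN : HasProj (rN R N))
    {U : Submodule K X} (hU : SI (rN R N) U) : SI R U :=
  ⟨hU.1, pot_of_kern ω hnd hωR hss hN hdu hr hssN hU.2.1,
    fun W hW h => hU.2.2 W hW (pot_restrict h)⟩

end

end Pool.Agent.R930
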