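import Mathlib
import Pool.Agent.R930.Comm

/-!
# Forms with values in another representation
-/

set_option linter.unusedSectionVars false

namespace Pool.Agent.R930

open Module TensorProduct Pool.Agent.H204R3.SP Pool.Agent.H204R3.GP Pool.Agent.W522.U
open Pool.Agent.W528.Odd Pool.Agent.Y126.OT Pool.Agent.TH118.CR Pool.Agent.Y126.Toric

noncomputable section

section lin

variable {k : Type} [Field k] {V W Γ κ : Type} [AddCommGroup V] [Module k V] [AddCommGroup W]
  [Module k W] [Group Γ]

theorem alt_sum_apply {ι : Type} (s : Finset ι) (g : ι → V [⋀^κ]→ₗ[k] W) (v : κ → V) :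
    (∑ i ∈ s, g i) v = ∑ i ∈ s, g i v := by
  classical
  induction s using Finset.induction_on with
  | empty => rw [Finset.sum_empty, Finset.sum_empty, AlternatingMap.zero_apply]
  | insert a s ha ih =>
    rw [Finset.sum_insert ha, Finset.sum_insert ha, AlternatingMap.add_apply, ih]

/-- Forms with values in `W` whose coordinates are combinations of semi-invariant forms. -/
theorem mixed_of_coord [FiniteDimensional k W] (D : Γ → V → V) (c : Γ → k)
    (τ : Γ → Module.End k W) (G : Set (V [⋀^κ]→ₗ[k] k))
    (hG : ∀ g ∈ G, ∃ Δ : Subgroup Γ, Δ.FiniteIndex ∧ ∀ s ∈ Δ, ∀ v : κ → V,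
      g (fun l => D s (v l)) = c s * g v)
    (f : V [⋀^κ]→ₗ[k] W)
    (hf : ∃ Δ : Subgroup Γ, Δ.FiniteIndex ∧ ∀ s ∈ Δ, ∀ v : κ → V,
      f (fun l => D s (v l)) = τ s (f v))
    (hfG : ∀ μ : W →ₗ[k] k, μ.compAlternatingMap f ∈ Submodule.span k G) :
    f ∈ Submodule.span k {h : V [⋀^κ]→ₗ[k] W | ∃ g ∈ G, ∃ w : W,
      (∃ Δ : Subgroup Γ, Δ.FiniteIndex ∧ ∀ s ∈ Δ, τ s w = c s • w) ∧ ∀ v, h v = g v • w} := by
  classical
  let b := Module.finBasis k W
  have h1 : ∀ i, ∃ T : Finset (V [⋀^κ]→ₗ[k] k), ↑T ⊆ G ∧
      (b.coord i).compAlternatingMap f ∈ Submodule.span k (T : Set (V [⋀^κ]→ₗ[k] k)) :=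
    fun i => Submodule.mem_span_finite_of_mem_span (hfG _)
  choose T hTG hT using h1
  obtain ⟨T', hT'⟩ : ∃ T', T' = Finset.univ.biUnion T := ⟨_, rfl⟩
  have hT'G : ∀ g ∈ T', g ∈ G := by
    intro g hg
    rw [hT', Finset.mem_biUnion] at hg
    obtain ⟨i, -, hi⟩ := hg
    exact hTG i hi
  have hfT : ∀ i, (b.coord i).compAlternatingMap f ∈
      Submodule.span k (T' : Set (V [⋀^κ]→ₗ[k] k)) := by
    intro i
    refine Submodule.span_mono ?_ (hT i)
    intro g hg
    rw [Finset.mem_coe, hT', Finset.mem_biUnion]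
    exact ⟨i, Finset.mem_univ _, hg⟩
  obtain ⟨S, hST, hSspan, hSli⟩ := exists_linearIndependent k (T' : Set (V [⋀^κ]→ₗ[k] k))
  have _ : Fintype S := (T'.finite_toSet.subset hST).fintype
  rw [← hSspan] at hfT
  have hSG : ∀ g ∈ S, g ∈ G := fun g hg => hT'G g (Finset.mem_coe.1 (hST hg))
  obtain ⟨Δ, hΔ, hf⟩ := hf
  obtain ⟨Δ', hΔ', hgen⟩ : ∃ Δ' : Subgroup Γ, Δ'.FiniteIndex ∧ ∀ g ∈ T', ∀ s ∈ Δ', ∀ v : κ → V,
      g (fun l => D s (v l)) = c s * g v := by
    clear hT' hSspan hST hfT
    induction T' using Finset.induction_on with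
    | empty => exact ⟨⊤, inferInstance, fun g hg => by simp at hg⟩
    | insert g₀ T' _ ih =>
      obtain ⟨Δ₁, hΔ₁, h1⟩ := ih fun g hg => hT'G g (Finset.mem_insert_of_mem hg)
      obtain ⟨Δ₂, hΔ₂, h2⟩ := hG g₀ (hT'G g₀ (Finset.mem_insert_self _ _))
      refine ⟨Δ₁ ⊓ Δ₂, inferInstance, fun g hg s hs => ?_⟩
      rcases Finset.mem_insert.1 hg with h | h
      · rw [h]
        exact h2 s hs.2
      · exact h1 g h s hs.1
  have hcoef : ∀ i, ∃ a : S → k, ∑ j, a j • (j : V [⋀^κ]→ₗ[k] k) =
      (b.coord i).compAlternatingMap f := by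
    intro i
    have h2 := hfT i
    rw [← Subtype.range_coe (s := S)] at h2
    exact Submodule.mem_span_range_iff_exists_fun k |>.1 h2
  choose a ha using hcoef
  obtain ⟨w, hw0⟩ : ∃ w : S → W, ∀ j, w j = ∑ i, a i j • b i := ⟨_, fun _ => rfl⟩
  have hexp : ∀ v, f v = ∑ j : S, (j : V [⋀^κ]→ₗ[k] k) v • w j := by
    intro v
    have h2 : ∀ i, b.coord i (f v) = ∑ j : S, a i j * (j : V [⋀^κ]→ₗ[k] k) v := by
      intro i
      have h3 := congrArg (fun g : V [⋀^κ]→ₗ[k] k => g v) (ha i)
      simp only [alt_sum_apply] at h3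
      exact h3.symm
    have h3 : ∀ i, b.repr (f v) i • b i =
        ∑ j : S, (a i j * (j : V [⋀^κ]→ₗ[k] k) v) • b i := by
      intro i
      rw [← Finset.sum_smul, ← h2]
      rfl
    calc f v = ∑ i, b.repr (f v) i • b i := (b.sum_repr (f v)).symm
      _ = ∑ i, ∑ j : S, (a i j * (j : V [⋀^κ]→ₗ[k] k) v) • b i :=
        Finset.sum_congr rfl fun i _ => h3 i
      _ = ∑ j : S, ∑ i, (a i j * (j : V [⋀^κ]→ₗ[k] k) v) • b i := Finset.sum_comm
      _ = _ := by
        refine Finset.sum_congr rfl fun j _ => ?_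
        rw [hw0, Finset.smul_sum]
        refine Finset.sum_congr rfl fun i _ => ?_
        rw [smul_smul, mul_comm]
  have hw : ∀ j, ∀ s ∈ Δ ⊓ Δ', τ s (w j) = c s • w j := by
    intro j s hs
    rw [← sub_eq_zero]
    rw [← Module.forall_dual_apply_eq_zero_iff k]
    intro μ
    have h2 : ∑ j : S, μ (τ s (w j) - c s • w j) • (j : V [⋀^κ]→ₗ[k] k) = 0 := by
      refine AlternatingMap.ext fun v => ?_
      rw [alt_sum_apply]
      change ∑ j : S, μ (τ s (w j) - c s • w j) * (j : V [⋀^κ]→ₗ[k] k) v = 0
      have h3 := hf s hs.1 v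
      rw [hexp, hexp, map_sum] at h3
      have h4 : ∑ j : S, (j : V [⋀^κ]→ₗ[k] k) v • (τ s (w j) - c s • w j) = 0 := by
        have h5 : ∀ j : S, (j : V [⋀^κ]→ₗ[k] k) v • (τ s (w j) - c s • w j) =
            τ s ((j : V [⋀^κ]→ₗ[k] k) v • w j) -
              (j : V [⋀^κ]→ₗ[k] k) (fun l => D s (v l)) • w j := by
          intro j
          rw [hgen _ (Finset.mem_coe.1 (hST j.2)) s hs.2 v, map_smul, smul_sub, smul_smul,
            mul_comm]
        rw [Finset.sum_congr rfl fun j _ => h5 j, Finset.sum_sub_distrib, ← h3, sub_self]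
      have h5 := congrArg μ h4
      rw [map_sum, map_zero] at h5
      rw [← h5]
      refine Finset.sum_congr rfl fun j _ => ?_
      rw [map_smul, smul_eq_mul, mul_comm]
    exact (Fintype.linearIndependent_iff.1 hSli) _ h2 j
  have hf' : f = ∑ j : S, (LinearMap.toSpanSingleton k W (w j)).compAlternatingMap
      (j : V [⋀^κ]→ₗ[k] k) := by
    refine AlternatingMap.ext fun v => ?_
    rw [hexp, alt_sum_apply]
    rfl
  rw [hf']
  refine Submodule.sum_mem _ fun j _ => ?_
  exact Submodule.subset_span ⟨j, hSG _ j.2, w j, ⟨Δ ⊓ Δ', inferInstance, hw j⟩, fun v => rfl⟩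

end lin

section odd

variable {K : Type} [Field K] [CharZero K] {X : Type} [AddCommGroup X] [Module K X]

/-- The product of a form with itself. -/
def dbl {a : ℕ} (ψ : MultilinearMap K (fun _ : Fin a => X) K) :
    MultilinearMap K (fun _ : Fin a × Fin 2 => X) K where
  toFun v := ψ (fun l => v (l, 0)) * ψ (fun l => v (l, 1))
  map_update_add' := by
    intro _ v i x y
    obtain ⟨i, j⟩ := i
    have h0 : ∀ (j j' : Fin 2) (z : X), j ≠ j' →
        (fun l => Function.update v (i, j) z (l, j')) = fun l => v (l, j') := by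
      intro j j' z hj
      funext l
      exact Function.update_of_ne (fun h => hj (congrArg Prod.snd h).symm) _ _
    have h1 : ∀ (j : Fin 2) (z : X), (fun l => Function.update v (i, j) z (l, j)) =
        Function.update (fun l => v (l, j)) i z := by
      intro j z
      funext l
      by_cases hl : l = i
      · subst hl
        rw [Function.update_self, Function.update_self]
      · rw [Function.update_of_ne hl, Function.update_of_ne (fun h => hl (congrArg Prod.fst h))]
    fin_cases j
    · have e1 := h0 0 1 (x + y) (by decide)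
      have e2 := h0 0 1 x (by decide)
      have e3 := h0 0 1 y (by decide)
      have f1 := h1 0 (x + y)
      have f2 := h1 0 x
      have f3 := h1 0 y
      convert! (show ψ (fun l => Function.update v (i, 0) (x + y) (l, 0)) *
        ψ (fun l => Function.update v (i, 0) (x + y) (l, 1)) =
        ψ (fun l => Function.update v (i, 0) x (l, 0)) *
        ψ (fun l => Function.update v (i, 0) x (l, 1)) +
        ψ (fun l => Function.update v (i, 0) y (l, 0)) *
        ψ (fun l => Function.update v (i, 0) y (l, 1)) from ?_)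
      rw [e1, e2, e3, f1, f2, f3, MultilinearMap.map_update_add, add_mul]
    · have e1 := h0 1 0 (x + y) (by decide)
      have e2 := h0 1 0 x (by decide)
      have e3 := h0 1 0 y (by decide)
      have f1 := h1 1 (x + y)
      have f2 := h1 1 x
      have f3 := h1 1 y
      convert! (show ψ (fun l => Function.update v (i, 1) (x + y) (l, 0)) *
        ψ (fun l => Function.update v (i, 1) (x + y) (l, 1)) =
        ψ (fun l => Function.update v (i, 1) x (l, 0)) *
        ψ (fun l => Function.update v (i, 1) x (l, 1)) +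
        ψ (fun l => Function.update v (i, 1) y (l, 0)) *
        ψ (fun l => Function.update v (i, 1) y (l, 1)) from ?_)
      rw [e1, e2, e3, f1, f2, f3, MultilinearMap.map_update_add, mul_add]
  map_update_smul' := by
    intro _ v i c x
    obtain ⟨i, j⟩ := i
    have h0 : ∀ (j j' : Fin 2) (z : X), j ≠ j' →
        (fun l => Function.update v (i, j) z (l, j')) = fun l => v (l, j') := by
      intro j j' z hj
      funext l
      exact Function.update_of_ne (fun h => hj (congrArg Prod.snd h).symm) _ _
    have h1 : ∀ (j : Fin 2) (z : X), (fun l => Function.update v (i, j) z (l, j)) =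
        Function.update (fun l => v (l, j)) i z := by
      intro j z
      funext l
      by_cases hl : l = i
      · subst hl
        rw [Function.update_self, Function.update_self]
      · rw [Function.update_of_ne hl, Function.update_of_ne (fun h => hl (congrArg Prod.fst h))]
    fin_cases j
    · have e1 := h0 0 1 (c • x) (by decide)
      have e2 := h0 0 1 x (by decide)
      have f1 := h1 0 (c • x)
      have f2 := h1 0 x
      convert! (show ψ (fun l => Function.update v (i, 0) (c • x) (l, 0)) *
        ψ (fun l => Function.update v (i, 0) (c • x) (l, 1)) =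
        c • (ψ (fun l => Function.update v (i, 0) x (l, 0)) *
        ψ (fun l => Function.update v (i, 0) x (l, 1))) from ?_)
      rw [e1, e2, f1, f2, MultilinearMap.map_update_smul, smul_mul_assoc]
    · have e1 := h0 1 0 (c • x) (by decide)
      have e2 := h0 1 0 x (by decide)
      have f1 := h1 1 (c • x)
      have f2 := h1 1 x
      convert! (show ψ (fun l => Function.update v (i, 1) (c • x) (l, 0)) *
        ψ (fun l => Function.update v (i, 1) (c • x) (l, 1)) =
        c • (ψ (fun l => Function.update v (i, 1) x (l, 0)) *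
        ψ (fun l => Function.update v (i, 1) x (l, 1))) from ?_)
      rw [e1, e2, f1, f2, MultilinearMap.map_update_smul, mul_smul_comm]

theorem dbl_apply {a : ℕ} (ψ : MultilinearMap K (fun _ : Fin a => X) K) (v : Fin a × Fin 2 → X) :
    dbl ψ v = ψ (fun l => v (l, 0)) * ψ (fun l => v (l, 1)) := rfl

theorem dbl_kills {a : ℕ} {ψ : MultilinearMap K (fun _ : Fin a => X) K} {x : Module.End K X}
    (h : Kills x (dbl ψ)) (v : Fin a → X) :
    ψ v * ∑ l, ψ (Function.update v l (x (v l))) = 0 := by
  have h1 := h (fun i => v i.1)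
  rw [Fintype.sum_prod_type] at h1
  have h2 : ∀ l : Fin a, ∑ j : Fin 2, dbl ψ (Function.update (fun i : Fin a × Fin 2 => v i.1) (l, j)
      (x (v l))) = 2 * (ψ v * ψ (Function.update v l (x (v l)))) := by
    intro l
    have e : ∀ (j j' : Fin 2), (fun l' => Function.update (fun i : Fin a × Fin 2 => v i.1) (l, j)
        (x (v l)) (l', j')) = if j = j' then Function.update v l (x (v l)) else v := by
      intro j j'
      funext l'
      by_cases hj : j = j'
      · rw [if_pos hj, hj]
        by_cases hl : l' = l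
        · subst hl
          rw [Function.update_self, Function.update_self]
        · rw [Function.update_of_ne hl, Function.update_of_ne (fun h => hl (congrArg Prod.fst h))]
      · rw [if_neg hj, Function.update_of_ne (fun h => hj (congrArg Prod.snd h).symm)]
    rw [Fin.sum_univ_two, dbl_apply, dbl_apply, e, e, e, e, if_pos rfl, if_neg (by decide),
      if_neg (by decide), if_pos rfl]
    ring
  rw [Finset.sum_congr rfl fun l _ => h2 l, ← Finset.mul_sum, ← Finset.mul_sum] at h1
  exact (mul_eq_zero.1 h1).resolve_left two_ne_zero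

/-- Odd forms killed by an operator with the eigenvalues `1 / 2` and `- 1 / 2` vanish. -/
theorem odd_zero {a : ℕ} (ha : Odd a) {ψ : MultilinearMap K (fun _ : Fin a => X) K}
    {x : Module.End K X} (hxx : x * x = (1 / 4 : K) • 1)
    (h : ∀ v, ψ v * ∑ l, ψ (Function.update v l (x (v l))) = 0) : ψ = 0 := by
  classical
  by_contra hne
  obtain ⟨v, hv⟩ : ∃ v, ψ v ≠ 0 := by
    by_contra hcon
    push Not at hcon
    exact hne (MultilinearMap.ext hcon)
  have h1 : v = (fun l => e1 x (v l)) + fun l => e0 x (v l) := by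
    funext l
    have h2 := congrArg (fun F : Module.End K X => F (v l)) (e1_add_e0 x)
    exact h2.symm
  rw [h1, MultilinearMap.map_add_univ] at hv
  obtain ⟨s, -, hs⟩ := Finset.exists_ne_zero_of_sum_ne_zero hv
  obtain ⟨w, hw⟩ : ∃ w : Fin a → X, w = s.piecewise (fun l => e1 x (v l)) fun l => e0 x (v l) :=
    ⟨_, rfl⟩
  rw [← hw] at hs
  have hx1 : x * e1 x = (1 / 2 : K) • e1 x := by
    unfold e1
    rw [mul_add, hxx, mul_smul_comm, mul_one]
    module
  have hx0 : x * e0 x = (-(1 / 2) : K) • e0 x := by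
    unfold e0
    rw [mul_sub, hxx, mul_smul_comm, mul_one]
    module
  have hxw : ∀ l, x (w l) = (if l ∈ s then (1 / 2 : K) else -(1 / 2)) • w l := by
    intro l
    rw [hw]
    by_cases hl : l ∈ s
    · rw [if_pos hl, Finset.piecewise_eq_of_mem _ _ _ hl]
      exact congrArg (fun F : Module.End K X => F (v l)) hx1
    · rw [if_neg hl, Finset.piecewise_eq_of_notMem _ _ _ hl]
      exact congrArg (fun F : Module.End K X => F (v l)) hx0
  have h2 := h w
  have h3 : ∀ l, ψ (Function.update w l (x (w l))) =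
      (if l ∈ s then (1 / 2 : K) else -(1 / 2)) * ψ w := by
    intro l
    rw [hxw, MultilinearMap.map_update_smul, Function.update_eq_self, smul_eq_mul]
  rw [Finset.sum_congr rfl fun l _ => h3 l, ← Finset.sum_mul] at h2
  have h4 := (mul_eq_zero.1 ((mul_eq_zero.1 h2).resolve_left hs)).resolve_right hs
  rw [Finset.sum_ite, Finset.sum_const, Finset.sum_const, nsmul_eq_mul, nsmul_eq_mul] at h4
  have h5 : ((Finset.univ.filter (fun l => l ∈ s)).card : K) =
      ((Finset.univ.filter (fun l => l ∉ s)).card : K) := by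
    linear_combination 2 * h4
  have h6 : (Finset.univ.filter (fun l => l ∈ s)).card =
      (Finset.univ.filter (fun l => l ∉ s)).card := by exact_mod_cast h5
  have h7 := Finset.card_filter_add_card_filter_not (s := (Finset.univ : Finset (Fin a)))
    (fun l => l ∈ s)
  rw [Finset.card_univ, Fintype.card_fin] at h7
  obtain ⟨r, hr⟩ := ha
  omega

end odd

end

end Pool.Agent.R930
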