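import Mathlib
import Pool.Agent.R930.Pieces

/-!
# Elements with the eigenvalues `1 / 2`, `0` and `- 1 / 2`
-/

set_option linter.unusedSectionVars false

namespace Pool.Agent.R930

open Module Pool.Agent.H204R3.SP Pool.Agent.H204R3.GP Pool.Agent.W522.U Pool.Agent.W529.Ta
open Pool.Agent.W528.Odd Pool.Agent.TH118.CR Pool.Agent.Y126.Toric
open Pool.Agent.W528.Tor (AltDual)

noncomputable section

section grade

variable {K : Type} [Field K] [CharZero K] {V : Type} [AddCommGroup V] [Module K V]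

/-- The projection on the eigenspace `1 / 2`. -/
def fp (D : Module.End K V) : Module.End K V := (2 : K) • (D * D) + D

/-- The projection on the eigenspace `- 1 / 2`. -/
def fm (D : Module.End K V) : Module.End K V := (2 : K) • (D * D) - D

/-- The projection on the eigenspace `0`. -/
def f0 (D : Module.End K V) : Module.End K V := 1 - (4 : K) • (D * D)

variable {D : Module.End K V}

theorem f_add (D : Module.End K V) : fp D + f0 D + fm D = 1 := by
  unfold fp fm f0
  module

theorem f_sub (D : Module.End K V) : fp D - fm D = (2 : K) • D := by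
  unfold fp fm
  module

variable (h3 : D * D * D = (1 / 4 : K) • D)

section rel
include h3

theorem h3r (z : Module.End K V) : z * D * D * D = (1 / 4 : K) • (z * D) := by
  have h : z * D * D * D = z * (D * D * D) := by noncomm_ring
  rw [h, h3, mul_smul_comm]

theorem fp_fp : fp D * fp D = fp D := by
  unfold fp
  simp only [mul_add, add_mul, smul_mul_assoc, mul_smul_comm, ← mul_assoc, h3]
  module

theorem fm_fm : fm D * fm D = fm D := by
  unfold fm
  simp only [mul_sub, sub_mul, smul_mul_assoc, mul_smul_comm, ← mul_assoc, h3]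
  module

theorem f0_f0 : f0 D * f0 D = f0 D := by
  unfold f0
  simp only [mul_sub, sub_mul, smul_mul_assoc, mul_smul_comm, ← mul_assoc, h3, mul_one, one_mul]
  module

theorem fp_fm : fp D * fm D = 0 := by
  unfold fp fm
  simp only [mul_sub, add_mul, smul_mul_assoc, mul_smul_comm, ← mul_assoc, h3]
  module

theorem fm_fp : fm D * fp D = 0 := by
  unfold fp fm
  simp only [sub_mul, mul_add, smul_mul_assoc, mul_smul_comm, ← mul_assoc, h3]
  module

theorem fp_f0 : fp D * f0 D = 0 := by
  unfold fp f0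
  simp only [mul_sub, add_mul, smul_mul_assoc, mul_smul_comm, ← mul_assoc, h3, mul_one]
  module

theorem f0_fp : f0 D * fp D = 0 := by
  unfold fp f0
  simp only [sub_mul, mul_add, smul_mul_assoc, mul_smul_comm, ← mul_assoc, h3, one_mul]
  module

theorem fm_f0 : fm D * f0 D = 0 := by
  unfold fm f0
  simp only [mul_sub, sub_mul, smul_mul_assoc, mul_smul_comm, ← mul_assoc, h3, mul_one]
  module

theorem f0_fm : f0 D * fm D = 0 := by
  unfold fm f0
  simp only [mul_sub, sub_mul, smul_mul_assoc, mul_smul_comm, ← mul_assoc, h3, one_mul]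
  module

end rel

section mem

variable {𝔥 : Submodule K (Module.End K V)} (hbr : ∀ X ∈ 𝔥, ∀ Y ∈ 𝔥, X * Y - Y * X ∈ 𝔥)
  (hD : D ∈ 𝔥) {y : Module.End K V} (hy : y ∈ 𝔥)

include h3 hbr hD hy

theorem ad_mem : (D * y - y * D) ∈ 𝔥 ∧
    (D * D * y - (2 : K) • (D * y * D) + y * D * D) ∈ 𝔥 ∧
    ((1 / 4 : K) • (D * y) - (3 : K) • (D * D * y * D) + (3 : K) • (D * y * D * D) -
      (1 / 4 : K) • (y * D)) ∈ 𝔥 ∧
    ((1 / 4 : K) • (D * D * y) + (1 / 4 : K) • (y * D * D) - (2 : K) • (D * y * D) +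
      (6 : K) • (D * D * y * D * D)) ∈ 𝔥 := by
  have a1 := hbr D hD y hy
  have a2 := hbr D hD _ a1
  have a3 := hbr D hD _ a2
  have a4 := hbr D hD _ a3
  have hz := h3r h3
  refine ⟨a1, ?_, ?_, ?_⟩
  · convert a2 using 1
    simp only [mul_sub, sub_mul, ← mul_assoc]
    module
  · convert a3 using 1
    simp only [mul_sub, sub_mul, ← mul_assoc, h3, hz, smul_mul_assoc]
    module
  · convert a4 using 1
    simp only [mul_sub, sub_mul, ← mul_assoc, h3, hz, smul_mul_assoc, mul_smul_comm]
    module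

/-- The part of degree one. -/
theorem fp_fm_mem : fp D * y * fm D ∈ 𝔥 := by
  obtain ⟨a1, a2, a3, a4⟩ := ad_mem h3 hbr hD hy
  have h := 𝔥.smul_mem (2 / 3 : K) (𝔥.sub_mem (𝔥.sub_mem (𝔥.add_mem a4 a3)
    (𝔥.smul_mem (1 / 4 : K) a2)) (𝔥.smul_mem (1 / 4 : K) a1))
  convert h using 1
  unfold fp fm
  simp only [mul_sub, add_mul, smul_mul_assoc, mul_smul_comm, ← mul_assoc]
  module

/-- The part of degree one half. -/
theorem half_mem : f0 D * y * fm D + fp D * y * f0 D ∈ 𝔥 := by
  obtain ⟨a1, a2, a3, a4⟩ := ad_mem h3 hbr hD hy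
  have h := 𝔥.smul_mem (-(8 / 3) : K) (𝔥.sub_mem (𝔥.sub_mem (𝔥.add_mem a4
    (𝔥.smul_mem (1 / 2 : K) a3)) a2) (𝔥.smul_mem (1 / 2 : K) a1))
  convert h using 1
  unfold fp fm f0
  simp only [mul_sub, sub_mul, add_mul, mul_one, one_mul, smul_mul_assoc, mul_smul_comm,
    ← mul_assoc]
  module

/-- The part of degree zero. -/
theorem zero_mem' : fp D * y * fp D + f0 D * y * f0 D + fm D * y * fm D ∈ 𝔥 := by
  obtain ⟨a1, a2, a3, a4⟩ := ad_mem h3 hbr hD hy
  have h := 𝔥.add_mem (𝔥.sub_mem (𝔥.smul_mem (4 : K) a4) (𝔥.smul_mem (5 : K) a2)) hy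
  convert h using 1
  unfold fp fm f0
  simp only [mul_sub, sub_mul, mul_add, add_mul, mul_one, one_mul, smul_mul_assoc,
    mul_smul_comm, ← mul_assoc]
  module

end mem

end grade

section key

variable {K : Type} [Field K] [CharZero K] [IsAlgClosed K] {V : Type} [AddCommGroup V] [Module K V]
  [FiniteDimensional K V] {𝔥 : Submodule K (Module.End K V)}
  (hbr : ∀ X ∈ 𝔥, ∀ Y ∈ 𝔥, X * Y - Y * X ∈ 𝔥)
  (hirr : ∀ W : Submodule K V, (∀ Y ∈ 𝔥, ∀ u ∈ W, Y u ∈ W) → W = ⊥ ∨ W = ⊤)
  (om : V →ₗ[K] V →ₗ[K] K) (halt : ∀ v, om v v = 0) (hnd : ∀ u, (∀ v, om u v = 0) → u = 0)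
  (hsp : ∀ Y ∈ 𝔥, ∀ u w, om (Y u) w + om u (Y w) = 0)
  {D : Module.End K V} (h3 : D * D * D = (1 / 4 : K) • D) (hD : D ∈ 𝔥)

include hbr hirr halt hnd hsp h3 hD in
/-- If the eigenvalue `1 / 2` has multiplicity one, the part of degree one is not zero. -/
theorem exists_deg_one (hr : finrank K (LinearMap.range (fp D)) = 1) :
    ∃ y ∈ 𝔥, fp D * y * fm D ≠ 0 := by
  by_contra hcon
  push Not at hcon
  have hanti := alt_anti halt
  have hsD : ∀ u w, om (D u) w = -om u (D w) := fun u w =>
    eq_neg_of_add_eq_zero_left (hsp D hD u w)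
  have hsY : ∀ Y ∈ 𝔥, ∀ u w, om (Y u) w = -om u (Y w) := fun Y hY u w =>
    eq_neg_of_add_eq_zero_left (hsp Y hY u w)
  have had : ∀ u w, om (fp D u) w = om u (fm D w) := by
    intro u w
    unfold fp fm
    simp only [LinearMap.add_apply, LinearMap.sub_apply, LinearMap.smul_apply, map_add, map_sub,
      map_smul, Module.End.mul_apply, smul_eq_mul, hsD]
    ring
  have ha0 : ∀ u w, om (f0 D u) w = om u (f0 D w) := by
    intro u w
    unfold f0
    simp only [LinearMap.sub_apply, LinearMap.smul_apply, map_sub,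
      map_smul, Module.End.mul_apply, smul_eq_mul, hsD, Module.End.one_apply]
    ring
  have hrm : finrank K (LinearMap.range (fm D)) = 1 := by
    have htr := trace_sp om hnd (fun a b => hsp D hD a b)
    have h4 := congrArg (LinearMap.trace K V) (f_sub D)
    rw [map_sub, map_smul, htr, smul_zero, trace_range (fp_fp h3), trace_range (fm_fm h3),
      sub_eq_zero, hr] at h4
    exact_mod_cast h4.symm
  obtain ⟨⟨u, hu⟩, hu0, hspan⟩ := finrank_eq_one_iff'.1 hrm
  have hfu : fm D u = u := by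
    obtain ⟨v, rfl⟩ := hu
    rw [← Module.End.mul_apply, fm_fm h3]
  have hsp1 : ∀ v, ∃ c : K, fm D v = c • u := by
    intro v
    obtain ⟨c, hc⟩ := hspan ⟨fm D v, ⟨v, rfl⟩⟩
    exact ⟨c, (congrArg Subtype.val hc).symm⟩
  obtain ⟨⟨w, hw⟩, hw0, hspanw⟩ := finrank_eq_one_iff'.1 hr
  have hsp2 : ∀ v, ∃ c : K, fp D v = c • w := by
    intro v
    obtain ⟨c, hc⟩ := hspanw ⟨fp D v, ⟨v, rfl⟩⟩
    exact ⟨c, (congrArg Subtype.val hc).symm⟩
  have hfw : fp D w = w := by
    obtain ⟨v, rfl⟩ := hw
    rw [← Module.End.mul_apply, fp_fp h3]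
  have hwu : om w u ≠ 0 := by
    intro h
    apply hw0
    apply Subtype.ext
    refine hnd w fun v => ?_
    rw [← hfw, had]
    obtain ⟨c, hc⟩ := hsp1 v
    rw [hc, map_smul, h, smul_zero]
  have h0 : ∀ y ∈ 𝔥, ∀ v, fp D (y (fm D v)) = 0 := by
    intro y hy v
    have h5 := congrArg (fun F : Module.End K V => F v) (hcon y hy)
    exact h5
  -- the products of two elements of degree one half
  have hB : ∀ y' ∈ 𝔥, ∀ y ∈ 𝔥, fp D (y' (f0 D (y u))) = 0 := by
    intro y' hy' y hy
    have h5 := h0 _ (hbr _ (half_mem h3 hbr hD hy') _ (half_mem h3 hbr hD hy)) u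
    have h6 : fp D ((((f0 D * y' * fm D + fp D * y' * f0 D) * (f0 D * y * fm D + fp D * y * f0 D) -
        (f0 D * y * fm D + fp D * y * f0 D) * (f0 D * y' * fm D + fp D * y' * f0 D)))
        (fm D u)) = fp D (y' (f0 D (y u))) - fp D (y (f0 D (y' u))) := by
      have h7 : fp D * ((f0 D * y' * fm D + fp D * y' * f0 D) *
          (f0 D * y * fm D + fp D * y * f0 D) -
          (f0 D * y * fm D + fp D * y * f0 D) * (f0 D * y' * fm D + fp D * y' * f0 D)) * fm D =
          (fp D * fp D) * y' * (f0 D * f0 D) * y * (fm D * fm D) -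
          (fp D * fp D) * y * (f0 D * f0 D) * y' * (fm D * fm D) +
          ((fp D * f0 D) * y' * (fm D * f0 D) * y * (fm D * fm D) +
           (fp D * f0 D) * y' * (fm D * fp D) * y * (f0 D * fm D) +
           (fp D * fp D) * y' * (f0 D * fp D) * y * (f0 D * fm D) -
           (fp D * f0 D) * y * (fm D * f0 D) * y' * (fm D * fm D) -
           (fp D * f0 D) * y * (fm D * fp D) * y' * (f0 D * fm D) -
           (fp D * fp D) * y * (f0 D * fp D) * y' * (f0 D * fm D)) := by noncomm_ring
      rw [fp_fp h3, fm_fm h3, f0_f0 h3, fp_f0 h3, fm_f0 h3, fm_fp h3, f0_fm h3, f0_fp h3] at h7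
      simp only [zero_mul, mul_zero, add_zero, sub_zero] at h7
      have h8 := congrArg (fun F : Module.End K V => F u) h7
      change fp D ((((f0 D * y' * fm D + fp D * y' * f0 D) * (f0 D * y * fm D + fp D * y * f0 D) -
        (f0 D * y * fm D + fp D * y * f0 D) * (f0 D * y' * fm D + fp D * y' * f0 D)))
        (fm D u)) = fp D (y' (f0 D (y (fm D u)))) - fp D (y (f0 D (y' (fm D u)))) at h8
      rw [h8, hfu]
    rw [h6, sub_eq_zero] at h5
    have h7 : om (fp D (y' (f0 D (y u)))) u = -om (y u) (f0 D (y' u)) := by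
      rw [had, hfu, hsY y' hy', ha0]
    have h8 : om (fp D (y (f0 D (y' u)))) u = om (y u) (f0 D (y' u)) := by
      rw [had, hfu, hsY y hy, ha0, hanti, neg_neg, ha0]
    have h9 : om (fp D (y' (f0 D (y u)))) u = 0 := by
      have h10 : om (fp D (y' (f0 D (y u)))) u = -om (fp D (y' (f0 D (y u)))) u := by
        conv_rhs => rw [h5, h8]
        exact h7
      have h11 : (2 : K) * om (fp D (y' (f0 D (y u)))) u = 0 := by linear_combination h10
      exact (mul_eq_zero.1 h11).resolve_left two_ne_zero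
    obtain ⟨c, hc⟩ := hsp2 (y' (f0 D (y u)))
    rw [hc, map_smul, LinearMap.smul_apply, smul_eq_mul] at h9
    rw [hc, (mul_eq_zero.1 h9).resolve_right hwu, zero_smul]
  -- the stable subspace
  obtain ⟨Z, hZ⟩ : ∃ Z : Submodule K V, Z = Submodule.span K {v | ∃ y ∈ 𝔥, v = f0 D (y u)} :=
    ⟨_, rfl⟩
  have hZm : ∀ y ∈ 𝔥, f0 D (y u) ∈ Z := fun y hy => by
    rw [hZ]
    exact Submodule.subset_span ⟨y, hy, rfl⟩
  have hdec : ∀ v, v = fp D v + f0 D v + fm D v := by
    intro v
    have h5 := congrArg (fun F : Module.End K V => F v) (f_add D)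
    exact h5.symm
  have hst : ∀ y ∈ 𝔥, ∀ v ∈ Submodule.span K {u} ⊔ Z, y v ∈ Submodule.span K {u} ⊔ Z := by
    intro y hy v hv
    obtain ⟨v₁, hv₁, v₂, hv₂, rfl⟩ := Submodule.mem_sup.1 hv
    rw [map_add]
    refine Submodule.add_mem _ ?_ ?_
    · obtain ⟨c, rfl⟩ := Submodule.mem_span_singleton.1 hv₁
      rw [map_smul]
      refine Submodule.smul_mem _ _ ?_
      rw [hdec (y u)]
      have h5 : fp D (y u) = 0 := by
        have h6 := h0 y hy u
        rwa [hfu] at h6
      rw [h5, zero_add, add_comm]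
      obtain ⟨c', hc'⟩ := hsp1 (y u)
      rw [hc']
      exact Submodule.add_mem_sup (Submodule.smul_mem _ _ (Submodule.mem_span_singleton_self u))
        (hZm y hy)
    · rw [hZ] at hv₂
      refine Submodule.span_induction (p := fun z _ => y z ∈ Submodule.span K {u} ⊔ Z)
        ?_ ?_ ?_ ?_ hv₂
      · rintro _ ⟨y', hy', rfl⟩
        rw [hdec (y (f0 D (y' u))), hB y hy y' hy', zero_add, add_comm]
        obtain ⟨c', hc'⟩ := hsp1 (y (f0 D (y' u)))
        rw [hc']
        refine Submodule.add_mem_sup (Submodule.smul_mem _ _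
          (Submodule.mem_span_singleton_self u)) ?_
        have h5 := hZm _ (hbr _ (zero_mem' h3 hbr hD hy) _ (half_mem h3 hbr hD hy'))
        obtain ⟨c, hc⟩ := hsp1 (y u)
        have h6 : f0 D ((((fp D * y * fp D + f0 D * y * f0 D + fm D * y * fm D) *
            (f0 D * y' * fm D + fp D * y' * f0 D) -
            (f0 D * y' * fm D + fp D * y' * f0 D) *
            (fp D * y * fp D + f0 D * y * f0 D + fm D * y * fm D))) u) =
            f0 D (y (f0 D (y' u))) - c • f0 D (y' u) := by
          have h7 : f0 D * ((fp D * y * fp D + f0 D * y * f0 D + fm D * y * fm D) *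
            (f0 D * y' * fm D + fp D * y' * f0 D) -
            (f0 D * y' * fm D + fp D * y' * f0 D) *
            (fp D * y * fp D + f0 D * y * f0 D + fm D * y * fm D)) * fm D =
            (f0 D * f0 D) * y * (f0 D * f0 D) * y' * (fm D * fm D) -
            (f0 D * f0 D) * y' * (fm D * fm D) * y * (fm D * fm D) +
            ((f0 D * fp D) * y * (fp D * f0 D) * y' * (fm D * fm D) +
             (f0 D * fp D) * y * (fp D * fp D) * y' * (f0 D * fm D) +
             (f0 D * f0 D) * y * (f0 D * fp D) * y' * (f0 D * fm D) +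
             (f0 D * fm D) * y * (fm D * f0 D) * y' * (fm D * fm D) +
             (f0 D * fm D) * y * (fm D * fp D) * y' * (f0 D * fm D) -
             (f0 D * f0 D) * y' * (fm D * fp D) * y * (fp D * fm D) -
             (f0 D * f0 D) * y' * (fm D * f0 D) * y * (f0 D * fm D) -
             (f0 D * fp D) * y' * (f0 D * fp D) * y * (fp D * fm D) -
             (f0 D * fp D) * y' * (f0 D * f0 D) * y * (f0 D * fm D) -
             (f0 D * fp D) * y' * (f0 D * fm D) * y * (fm D * fm D)) := by noncomm_ring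
          rw [fp_fp h3, fm_fm h3, f0_f0 h3, fp_f0 h3, fm_f0 h3, fm_fp h3, f0_fm h3, f0_fp h3,
            fp_fm h3] at h7
          simp only [zero_mul, mul_zero, add_zero, sub_zero] at h7
          have h8 := congrArg (fun F : Module.End K V => F u) h7
          change f0 D ((((fp D * y * fp D + f0 D * y * f0 D + fm D * y * fm D) *
            (f0 D * y' * fm D + fp D * y' * f0 D) -
            (f0 D * y' * fm D + fp D * y' * f0 D) *
            (fp D * y * fp D + f0 D * y * f0 D + fm D * y * fm D))) (fm D u)) =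
            f0 D (y (f0 D (y' (fm D u)))) - f0 D (y' (fm D (y (fm D u)))) at h8
          rw [hfu, hc, map_smul, map_smul] at h8
          exact h8
        rw [h6] at h5
        have h7 := Submodule.add_mem _ h5 (Submodule.smul_mem _ c (hZm y' hy'))
        rwa [sub_add_cancel] at h7
      · rw [map_zero]
        exact Submodule.zero_mem _
      · intro a b _ _ ha hb
        rw [map_add]
        exact Submodule.add_mem _ ha hb
      · intro c a _ ha
        rw [map_smul]
        exact Submodule.smul_mem _ _ ha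
  have hu0' : u ≠ 0 := fun h => hu0 (Subtype.ext h)
  rcases hirr _ hst with h | h
  · apply hu0'
    have h5 : u ∈ Submodule.span K {u} ⊔ Z :=
      Submodule.mem_sup_left (Submodule.mem_span_singleton_self u)
    rwa [h, Submodule.mem_bot] at h5
  · have h5 : w ∈ Submodule.span K {u} ⊔ Z := by rw [h]; trivial
    have h6 : ∀ v ∈ Submodule.span K {u} ⊔ Z, fp D v = 0 := by
      intro v hv
      have h7 : Submodule.span K {u} ⊔ Z ≤ LinearMap.ker (fp D) := by
        refine sup_le ?_ ?_
        · rw [Submodule.span_singleton_le_iff_mem, LinearMap.mem_ker, ← hfu,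
            ← Module.End.mul_apply, fp_fm h3]
          rfl
        · rw [hZ, Submodule.span_le]
          rintro _ ⟨y, hy, rfl⟩
          change fp D (f0 D (y u)) = 0
          rw [← Module.End.mul_apply, fp_f0 h3]
          rfl
      exact h7 hv
    have h7 := h6 w h5
    rw [hfw] at h7
    exact hw0 (Subtype.ext h7)

end key

section piece

variable {K : Type} [Field K] [CharZero K] [IsAlgClosed K] {X : Type} [AddCommGroup X] [Module K X]
  [FiniteDimensional K X] {Γ : Type} [Group Γ] {R : Representation K Γ X} {χ : Γ →* K}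
  (ω : X →ₗ[K] X →ₗ[K] K) (hnd : ∀ u, (∀ v, ω u v = 0) → u = 0)
  (hωR : ∀ g u v, ω (R g u) (R g v) = χ g * ω u v) (hss : HasProj R) {U : Submodule K X}
  (hU : SI R U)

include hnd hωR hss hU in
/-- The form on a symplectic subspace. -/
theorem exists_om (halt : AltDual R χ U) : ∃ om : U →ₗ[K] U →ₗ[K] K, (∀ v, om v v = 0) ∧
    (∀ u, (∀ v, om u v = 0) → u = 0) ∧
    ∀ Y ∈ resL R χ U, ∀ u w, om (Y u) w + om u (Y w) = 0 := by
  obtain ⟨Δ₂, hΔ₂, B, hB0, hBalt, hB⟩ := id halt
  obtain ⟨om, hom⟩ : ∃ om : U →ₗ[K] U →ₗ[K] K, om = B.compl₁₂ U.subtype U.subtype := ⟨_, rfl⟩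
  have hom' : ∀ u v : U, om u v = B u v := fun u v => by rw [hom]; rfl
  refine ⟨om, fun v => by rw [hom']; exact hBalt v v.2, ?_, ?_⟩
  · intro u hu
    apply Subtype.ext
    exact du_left hU hU.2.1 hΔ₂ hB0 hB u u.2 (fun v hv => by
      have := hu ⟨v, hv⟩
      rwa [hom'] at this)
  · rintro Y ⟨y, hy, hYy⟩ u w
    rw [hom', hom', hYy, hYy]
    exact lieT_skew ω hnd hωR hss hU.2.1 hΔ₂ B hB hy u u.2 w w.2

variable {D : Module.End K X} (hD : D ∈ lieT R χ) (h3 : D * D * D = (1 / 4 : K) • D)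
  {DU : Module.End K U} (hDU : ∀ u : U, ((DU u : U) : X) = D u)

include hDU in
theorem f_res {y : Module.End K U} {y₀ : Module.End K X} (hy : ∀ u : U, ((y u : U) : X) = y₀ u)
    (u : U) : (((fp DU * y * fm DU) u : U) : X) = (fp D * y₀ * fm D) u := by
  unfold fp fm
  simp only [Module.End.mul_apply, LinearMap.add_apply, LinearMap.sub_apply, LinearMap.smul_apply,
    Submodule.coe_add, Submodule.coe_sub, Submodule.coe_smul, hDU, hy]

include hDU h3 in
theorem h3_res : DU * DU * DU = (1 / 4 : K) • DU := by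
  refine LinearMap.ext fun u => Subtype.ext ?_
  rw [Module.End.mul_apply, Module.End.mul_apply, hDU, hDU, hDU, LinearMap.smul_apply,
    Submodule.coe_smul, hDU]
  exact congrArg (fun F : Module.End K X => F u) h3

include hD h3 hDU in
theorem exists_global3 {y : Module.End K U} (hy : y ∈ resL R χ U) (hne : fp DU * y * fm DU ≠ 0) :
    ∃ N ∈ lieT R χ, N * N = 0 ∧ U.map N ≠ ⊥ ∧ (fp DU * y * fm DU) ∈ resL R χ U ∧
      finrank K (U.map N) = rk (fp DU * y * fm DU) := by
  have hbr : ∀ X' ∈ lieT R χ, ∀ Y ∈ lieT R χ, X' * Y - Y * X' ∈ lieT R χ :=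
    fun _ h _ h' => lieT_bracket R χ h h'
  obtain ⟨y₀, hy₀, hyy⟩ := hy
  have hres := f_res (D := D) hDU hyy
  have hmem := fp_fm_mem h3 hbr hD hy₀
  refine ⟨fp D * y₀ * fm D, hmem, ?_, fun h => hne ?_, ⟨_, hmem, hres⟩, (rk_res hres).symm⟩
  · have h4 : fp D * y₀ * fm D * (fp D * y₀ * fm D) =
        fp D * y₀ * (fm D * fp D) * y₀ * fm D := by noncomm_ring
    rw [h4, fm_fp h3, mul_zero, zero_mul, zero_mul]
  · refine LinearMap.ext fun u => Subtype.ext ?_
    rw [hres]
    have h4 : (fp D * y₀ * fm D) u ∈ U.map (fp D * y₀ * fm D) := Submodule.mem_map_of_mem u.2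
    rw [h, Submodule.mem_bot] at h4
    rw [h4]
    rfl

include hnd hωR hss hU hD h3 hDU in
/-- **Multiplicity one.** -/
theorem one_of_K3 (hP : LieGenerate R χ) (halt : AltDual R χ U)
    (hr : finrank K (LinearMap.range (fp DU)) = 1) :
    ∃ e ∈ lieT R χ, e * e = 0 ∧ finrank K (U.map e) = 1 := by
  obtain ⟨om, ho1, ho2, ho3⟩ := exists_om ω hnd hωR hss hU halt
  obtain ⟨y, hy, hne⟩ := exists_deg_one resL_br (irr_res ω hnd hωR hss hU hP) om ho1 ho2 ho3
    (h3_res h3 hDU) ⟨D, hD, hDU⟩ hr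
  obtain ⟨N, hN, hN2, -, -, hNr⟩ := exists_global3 hD h3 hDU hy hne
  refine ⟨N, hN, hN2, ?_⟩
  rw [hNr]
  apply le_antisymm
  · rw [← hr]
    refine Submodule.finrank_mono ?_
    rintro _ ⟨v, rfl⟩
    exact ⟨(y * fm DU) v, rfl⟩
  · rw [Nat.one_le_iff_ne_zero]
    exact fun h => hne (rk_eq_zero.1 h)

include hnd hωR hss hU hD h3 hDU in
/-- **Symplectic subspaces of dimension four.** -/
theorem one_of_dim_four (hP : LieGenerate R χ) (halt : AltDual R χ U)
    (hdim : finrank K U ≤ 4) (hne : DU ≠ 0) :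
    ∃ e ∈ lieT R χ, e * e = 0 ∧ finrank K (U.map e) = 1 := by
  obtain ⟨om, ho1, ho2, ho3⟩ := exists_om ω hnd hωR hss hU halt
  have h3' := h3_res h3 hDU
  have htr := trace_sp om ho2 (fun a b => ho3 DU ⟨D, hD, hDU⟩ a b)
  have hpm : finrank K (LinearMap.range (fp DU)) = finrank K (LinearMap.range (fm DU)) := by
    have h4 := congrArg (LinearMap.trace K U) (f_sub DU)
    rw [map_sub, map_smul, htr, smul_zero, trace_range (fp_fp h3'), trace_range (fm_fm h3'),
      sub_eq_zero] at h4
    exact_mod_cast h4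
  have hsum : finrank K (LinearMap.range (fp DU)) + finrank K (LinearMap.range (f0 DU)) +
      finrank K (LinearMap.range (fm DU)) = finrank K U := by
    have h4 := congrArg (LinearMap.trace K U) (f_add DU)
    rw [map_add, map_add, trace_range (fp_fp h3'), trace_range (fm_fm h3'),
      trace_range (f0_f0 h3'), LinearMap.trace_one] at h4
    exact_mod_cast h4
  have hp0 : finrank K (LinearMap.range (fp DU)) ≠ 0 := by
    intro h
    have h5 : fp DU = 0 := rk_eq_zero.1 h
    rw [hpm] at h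
    have h6 : fm DU = 0 := rk_eq_zero.1 h
    have h7 := f_sub DU
    rw [h5, h6, sub_zero] at h7
    exact hne ((smul_eq_zero.1 h7.symm).resolve_left two_ne_zero)
  by_cases hp1 : finrank K (LinearMap.range (fp DU)) = 1
  · exact one_of_K3 ω hnd hωR hss hU hD h3 hDU hP halt hp1
  · have hp2 : finrank K (LinearMap.range (fp DU)) = 2 := by omega
    have h00 : f0 DU = 0 := rk_eq_zero.1 (by
      change finrank K (LinearMap.range (f0 DU)) = 0
      omega)
    have hx2 : DU * DU = (1 / 4 : K) • 1 := by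
      have h4 : (4 : K) • (DU * DU) = 1 := by
        unfold f0 at h00
        exact (sub_eq_zero.1 h00).symm
      rw [← h4, smul_smul]
      norm_num
    have he1 : Pool.Agent.Y126.OT.e1 DU = fp DU := by
      unfold Pool.Agent.Y126.OT.e1 fp
      rw [hx2]
      module
    have he0 : Pool.Agent.Y126.OT.e0 DU = fm DU := by
      unfold Pool.Agent.Y126.OT.e0 fm
      rw [hx2]
      module
    have hirr := irr_res ω hnd hωR hss hU hP
    obtain ⟨y, hy, hyne⟩ := exists_yp hirr hx2 (by
      rw [he1]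
      intro h
      rw [h, LinearMap.range_zero, finrank_bot] at hp2
      omega) (by
      rw [he0]
      intro h
      rw [hpm, h, LinearMap.range_zero, finrank_bot] at hp2
      omega)
    have hyp : Pool.Agent.Y126.OT.yp DU y = fp DU * y * fm DU := by
      unfold Pool.Agent.Y126.OT.yp
      rw [he1, he0]
    rw [hyp] at hyne
    obtain ⟨N, hN, hN2, hN0, hn, hNr⟩ := exists_global3 hD h3 hDU hy hyne
    have hn2 : (fp DU * y * fm DU) * (fp DU * y * fm DU) = 0 := by
      have h4 : fp DU * y * fm DU * (fp DU * y * fm DU) =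
          fp DU * y * (fm DU * fp DU) * y * fm DU := by noncomm_ring
      rw [h4, fm_fp h3', mul_zero, zero_mul, zero_mul]
    have hle : rk (fp DU * y * fm DU) ≤ 2 := by
      rw [← hp2]
      refine Submodule.finrank_mono ?_
      rintro _ ⟨v, rfl⟩
      exact ⟨(y * fm DU) v, rfl⟩
    have hr0 : rk (fp DU * y * fm DU) ≠ 0 := fun h => hyne (rk_eq_zero.1 h)
    by_cases hr1 : rk (fp DU * y * fm DU) = 1
    · exact ⟨N, hN, hN2, by rw [hNr, hr1]⟩
    · exact one_of_alt_gen ω hnd hωR hss hU halt hN hN2 hN0 hn hn2 rfl hr0 (Or.inl (by omega))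

end piece

end

end Pool.Agent.R930
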