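import Mathlib
import Pool.Agent.R930.Two

/-!
# Self-dual lines and twists
-/

set_option linter.unusedSectionVars false

namespace Pool.Agent.R930

open Module TensorProduct Polynomial Pool.Agent.H204R3.SP Pool.Agent.H204R3.GP
open Pool.Agent.W522.U Pool.Agent.TH118.CR

noncomputable section

section closure

variable {Γ : Type} [Group Γ] [TopologicalSpace Γ] [IsTopologicalGroup Γ]

theorem exists_open (Δ : Subgroup Γ) (hΔ : Δ.FiniteIndex) : ∃ Δ' : Subgroup Γ,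
    Δ'.FiniteIndex ∧ IsOpen (Δ' : Set Γ) ∧ ∀ C : Set Γ, IsClosed C → (Δ : Set Γ) ⊆ C →
      (Δ' : Set Γ) ⊆ C := by
  have h1 : Δ.topologicalClosure.FiniteIndex :=
    Subgroup.finiteIndex_of_le Δ.le_topologicalClosure
  refine ⟨Δ.topologicalClosure, h1, ?_, fun C hC h => ?_⟩
  · exact Subgroup.isOpen_of_isClosed_of_finiteIndex _ Δ.isClosed_topologicalClosure
  · rw [Subgroup.topologicalClosure_coe]
    exact closure_minimal h hC

end closure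

variable {ℓ : ℕ} [Fact ℓ.Prime] {V Γ : Type} [AddCommGroup V] [Module ℚ_[ℓ] V]
    [FiniteDimensional ℚ_[ℓ] V] [Group Γ] [TopologicalSpace Γ] {ρ : Representation ℚ_[ℓ] Γ V}
    {χ : Γ →* ℚ_[ℓ]} {ι : Type} [Fintype ι] [DecidableEq ι] {b₀ : Basis ι ℚ_[ℓ] V}

theorem cont_bilin (hcont : ∀ i j, Continuous fun g => LinearMap.toMatrix b₀ b₀ (ρ g) i j)
    (B : (PadicAlgCl ℓ ⊗[ℚ_[ℓ]] V) →ₗ[PadicAlgCl ℓ] (PadicAlgCl ℓ ⊗[ℚ_[ℓ]] V) →ₗ[PadicAlgCl ℓ]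
      PadicAlgCl ℓ) (u v : PadicAlgCl ℓ ⊗[ℚ_[ℓ]] V) :
    Continuous fun g => B (bcr ρ (PadicAlgCl ℓ) g u) (bcr ρ (PadicAlgCl ℓ) g v) := by
  let e := Module.finBasis (PadicAlgCl ℓ) (PadicAlgCl ℓ ⊗[ℚ_[ℓ]] V)
  have h1 : (fun g => B (bcr ρ (PadicAlgCl ℓ) g u) (bcr ρ (PadicAlgCl ℓ) g v)) = fun g =>
      ∑ k, ((B.flip (e k)).comp (LinearMap.applyₗ u)) (bcr ρ (PadicAlgCl ℓ) g) *
        ((e.coord k).comp (LinearMap.applyₗ v)) (bcr ρ (PadicAlgCl ℓ) g) := by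
    funext g
    conv_lhs => rw [← e.sum_repr (bcr ρ (PadicAlgCl ℓ) g v), map_sum]
    refine Finset.sum_congr rfl fun k _ => ?_
    rw [map_smul, smul_eq_mul, mul_comm]
    rfl
  rw [h1]
  exact continuous_finsetSum _ fun k _ => (cont_lin hcont _).mul (cont_lin hcont _)

theorem cont_chi (hcont : ∀ i j, Continuous fun g => LinearMap.toMatrix b₀ b₀ (ρ g) i j)
    (B : (PadicAlgCl ℓ ⊗[ℚ_[ℓ]] V) →ₗ[PadicAlgCl ℓ] (PadicAlgCl ℓ ⊗[ℚ_[ℓ]] V) →ₗ[PadicAlgCl ℓ]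
      PadicAlgCl ℓ) {u v : PadicAlgCl ℓ ⊗[ℚ_[ℓ]] V} (huv : B u v ≠ 0)
    (hB : ∀ g, B (bcr ρ (PadicAlgCl ℓ) g u) (bcr ρ (PadicAlgCl ℓ) g v) =
      bcc χ (PadicAlgCl ℓ) g * B u v) : Continuous fun g => bcc χ (PadicAlgCl ℓ) g := by
  have h1 : (fun g => bcc χ (PadicAlgCl ℓ) g) = fun g =>
      B (bcr ρ (PadicAlgCl ℓ) g u) (bcr ρ (PadicAlgCl ℓ) g v) * (B u v)⁻¹ := by
    funext g
    rw [hB, mul_inv_cancel_right₀ huv]
  rw [h1]
  exact (cont_bilin hcont B u v).mul continuous_const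

theorem exists_mem {D U : Set Γ} (hD : Dense D) (hU : IsOpen U) (hne : U.Nonempty) :
    ∃ g ∈ D, g ∈ U := by
  obtain ⟨g, hg⟩ := hD.inter_open_nonempty U hU hne
  exact ⟨g, hg.2, hg.1⟩

theorem exists_tau (P : ℤ[X]) (p : ℕ) [Fact p.Prime] :
    Nonempty (rootField P (AlgebraicClosure ℚ_[ℓ]) →+* PadicAlgCl p) := by
  obtain ⟨φ⟩ : Nonempty (rootField P (AlgebraicClosure ℚ_[ℓ]) →ₐ[ℚ] PadicAlgCl p) :=
    ⟨IsAlgClosed.lift⟩
  exact ⟨φ.toRingHom⟩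

/-- There are no self-dual lines. -/
theorem no_self_dual [IsTopologicalGroup Γ]
    (hcont : ∀ i j, Continuous fun g => LinearMap.toMatrix b₀ b₀ (ρ g) i j)
    (ω : (PadicAlgCl ℓ ⊗[ℚ_[ℓ]] V) →ₗ[PadicAlgCl ℓ] (PadicAlgCl ℓ ⊗[ℚ_[ℓ]] V) →ₗ[PadicAlgCl ℓ]
      PadicAlgCl ℓ) (hnd : ∀ u, (∀ v, ω u v = 0) → u = 0)
    (hω : ∀ g u v, ω (bcr ρ (PadicAlgCl ℓ) g u) (bcr ρ (PadicAlgCl ℓ) g v) =
      bcc χ (PadicAlgCl ℓ) g * ω u v)
    (hD : Dense {γ | IsTwoSlope ρ χ γ}) {U : Submodule (PadicAlgCl ℓ) (PadicAlgCl ℓ ⊗[ℚ_[ℓ]] V)}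
    (hU : SI (bcr ρ (PadicAlgCl ℓ)) U) (h1 : finrank (PadicAlgCl ℓ) U = 1) :
    ¬Du (bcr ρ (PadicAlgCl ℓ)) (bcc χ (PadicAlgCl ℓ)) U U := by
  rintro ⟨Δ, hΔ, B, ⟨u, hu, v, hv, huv⟩, hB⟩
  obtain ⟨Δ₁, hΔ₁, hst⟩ := hU.2.1
  obtain ⟨u₀, hu₀, hspan⟩ := finrank_eq_one_iff'.1 h1
  have hu₀' : (u₀ : PadicAlgCl ℓ ⊗[ℚ_[ℓ]] V) ≠ 0 := fun h => hu₀ (Subtype.ext h)
  have hsp : ∀ w ∈ U, ∃ c : PadicAlgCl ℓ, w = c • (u₀ : PadicAlgCl ℓ ⊗[ℚ_[ℓ]] V) := by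
    intro w hw
    obtain ⟨c, hc⟩ := hspan ⟨w, hw⟩
    exact ⟨c, (congrArg Subtype.val hc).symm⟩
  have hB0 : B u₀ u₀ ≠ 0 := by
    intro h
    obtain ⟨c, rfl⟩ := hsp u hu
    obtain ⟨d, rfl⟩ := hsp v hv
    apply huv
    rw [map_smul, map_smul, LinearMap.smul_apply, h, smul_zero, smul_zero]
  obtain ⟨v₀, hv₀⟩ : ∃ v₀, ω u₀ v₀ ≠ 0 := by
    by_contra hcon
    push Not at hcon
    exact hu₀' (hnd _ hcon)
  have hχ := cont_chi hcont ω hv₀ (fun g => hω g _ _)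
  obtain ⟨G, hG, hGo, hGc⟩ := exists_open (Δ ⊓ Δ₁) inferInstance
  have hC1 := hGc _ (closed_lin (ρ := ρ) hcont (U.mkQ.comp (LinearMap.applyₗ u₀.1))) (by
    rintro g ⟨hg, hg1⟩
    change U.mkQ (bcr ρ (PadicAlgCl ℓ) g u₀) = 0
    rw [Submodule.mkQ_apply, Submodule.Quotient.mk_eq_zero]
    exact hst g hg1 _ u₀.2)
  have hC2 := hGc _ (isClosed_eq (cont_bilin hcont B u₀.1 u₀.1)
    (hχ.mul (continuous_const (y := B u₀.1 u₀.1)))) (by
    rintro g ⟨hg, -⟩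
    exact hB g hg _ u₀.2 _ u₀.2)
  obtain ⟨γ, ⟨p, hp, a, P, t, hF, ht0, ht2, hts⟩, hγ⟩ := exists_mem hD hGo ⟨1, G.one_mem⟩
  have h2 := hC1 hγ
  have h3 := hC2 hγ
  change U.mkQ (bcr ρ (PadicAlgCl ℓ) γ u₀) = 0 at h2
  change B (bcr ρ (PadicAlgCl ℓ) γ u₀) (bcr ρ (PadicAlgCl ℓ) γ u₀) =
    bcc χ (PadicAlgCl ℓ) γ * B u₀ u₀ at h3
  rw [Submodule.mkQ_apply, Submodule.Quotient.mk_eq_zero] at h2
  obtain ⟨z, hz⟩ := hsp _ h2
  rw [hz, map_smul, map_smul, LinearMap.smul_apply, smul_smul, smul_eq_mul] at h3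
  have h4 := mul_right_cancel₀ hB0 h3
  have hroot : aeval z P = 0 := eig_root hF hu₀' hz
  obtain ⟨τ⟩ := exists_tau (ℓ := ℓ) P p
  have h5 : (⟨z, mem_rootField hF.monic hroot⟩ : rootField P (AlgebraicClosure ℚ_[ℓ])) *
      ⟨z, mem_rootField hF.monic hroot⟩ = (p : rootField P (AlgebraicClosure ℚ_[ℓ])) ^ a := by
    apply Subtype.ext
    change z * z = (((p : rootField P (AlgebraicClosure ℚ_[ℓ])) ^ a :
      rootField P (AlgebraicClosure ℚ_[ℓ])) : AlgebraicClosure ℚ_[ℓ])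
    rw [h4, bcc_apply, hF.cyclotomic, map_pow, map_natCast]
    push_cast
    rfl
  have h6 := congrArg (fun y => ‖τ y‖) h5
  change ‖τ (_ * _)‖ = ‖τ _‖ at h6
  rw [norm_p_pow, map_mul, norm_mul] at h6
  rcases hts _ (aeval_emb (z := ⟨z, mem_rootField hF.monic hroot⟩) hroot τ) with h7 | h7
  · rw [h7] at h6
    exact ht2 h6
  · rw [← h6] at h7
    have h8 : ‖τ ⟨z, mem_rootField hF.monic hroot⟩‖ ≠ 0 := by
      intro h9
      rw [h9, zero_mul] at h6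
      exact (p_pow_pos (p := p) (a := a)).ne h6
    have h9 := mul_left_cancel₀ h8 h7
    rw [← h9] at h6
    exact ht2 h6

/-- The element `γ` is a Frobenius element with two slopes, and for every embedding in the algebraic
closure of `ℚ_p` both slopes occur on `U`. -/
def HasBothSlopes (ρ : Representation ℚ_[ℓ] Γ V) (χ : Γ →* ℚ_[ℓ])
    (U : Submodule (AlgebraicClosure ℚ_[ℓ]) (AlgebraicClosure ℚ_[ℓ] ⊗[ℚ_[ℓ]] V)) (γ : Γ) : Prop :=
  ∃ (p : ℕ) (_ : Fact p.Prime) (a : ℕ) (P : ℤ[X]) (t : ℝ), IsFrobenius ρ χ γ p a P ∧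
    TwoSlopes p a P t ∧ ∀ τ : rootField P (AlgebraicClosure ℚ_[ℓ]) →+* PadicAlgCl p,
      ∃ z z' : rootField P (AlgebraicClosure ℚ_[ℓ]),
        (∃ u ∈ U, u ≠ 0 ∧ bcr ρ (AlgebraicClosure ℚ_[ℓ]) γ u = (z : AlgebraicClosure ℚ_[ℓ]) • u) ∧
        (∃ u ∈ U, u ≠ 0 ∧ bcr ρ (AlgebraicClosure ℚ_[ℓ]) γ u = (z' : AlgebraicClosure ℚ_[ℓ]) • u) ∧
        ‖τ z‖ ≠ ‖τ z'‖

theorem norm_arith {n₁ n₂ c : ℝ} (h1 : 0 < n₁) (h2 : 0 < n₂) (hc : 0 < c)
    (hA : n₁ / c = n₁ ∨ n₁ / c = n₂) (hB : n₂ / c = n₁ ∨ n₂ / c = n₂) : c = 1 := by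
  have h : ∀ n : ℝ, 0 < n → n / c = n → c = 1 := by
    intro n hn h
    rw [div_eq_iff hc.ne'] at h
    have h3 : n * 1 = n * c := by rw [mul_one]; exact h
    exact (mul_left_cancel₀ hn.ne' h3).symm
  rcases hA with hA | hA
  · exact h _ h1 hA
  · rcases hB with hB | hB
    · rw [div_eq_iff hc.ne'] at hA hB
      have h3 : n₁ * (c * c) = n₁ * 1 := by
        rw [← mul_assoc, ← hB, mul_one]
        exact hA.symm
      have h4 := mul_left_cancel₀ h1.ne' h3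
      nlinarith
    · exact h _ h2 hB

/-- Twists of an indefinite subspace are isomorphic to it. -/
theorem twist_trivial [IsTopologicalGroup Γ]
    (hint : ∀ g i j, ‖LinearMap.toMatrix b₀ b₀ (ρ g) i j‖ ≤ 1)
    (hcont : ∀ i j, Continuous fun g => LinearMap.toMatrix b₀ b₀ (ρ g) i j)
    {U U' : Submodule (AlgebraicClosure ℚ_[ℓ]) (AlgebraicClosure ℚ_[ℓ] ⊗[ℚ_[ℓ]] V)}
    (hU : SI (bcr ρ (AlgebraicClosure ℚ_[ℓ])) U)
    (hD : Dense {γ | HasBothSlopes ρ χ U γ}) {ψ : Γ → AlgebraicClosure ℚ_[ℓ]}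
    (hT : Tw (bcr ρ (AlgebraicClosure ℚ_[ℓ])) ψ U U') :
    Tw (bcr ρ (AlgebraicClosure ℚ_[ℓ])) (fun _ => 1) U U' := by
  obtain ⟨Δ, hΔ, T, hTU, h0, hTg⟩ := hT
  have hinj := tw_inj hU hΔ h0 hTg
  obtain ⟨Δ₁, hΔ₁, hst⟩ := hU.2.1
  obtain ⟨G, hG, hGo, hGc⟩ := exists_open (Δ ⊓ Δ₁) inferInstance
  have hC1 : ∀ g ∈ G, ∀ u ∈ U, bcr ρ (AlgebraicClosure ℚ_[ℓ]) g u ∈ U := by
    intro g hg u hu
    have h2 := hGc _ (closed_lin (ρ := ρ) hcont (U.mkQ.comp (LinearMap.applyₗ u))) (by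
      rintro g ⟨hg, hg1⟩
      change U.mkQ (bcr ρ (PadicAlgCl ℓ) g u) = 0
      rw [Submodule.mkQ_apply, Submodule.Quotient.mk_eq_zero]
      exact hst g hg1 _ hu) hg
    change U.mkQ (bcr ρ (PadicAlgCl ℓ) g u) = 0 at h2
    rwa [Submodule.mkQ_apply, Submodule.Quotient.mk_eq_zero] at h2
  have hC2 : ∀ g ∈ G, ∀ u ∈ U, ∀ v ∈ U,
      ∀ φ φ' : Dual (AlgebraicClosure ℚ_[ℓ]) (AlgebraicClosure ℚ_[ℓ] ⊗[ℚ_[ℓ]] V),
      φ (T (bcr ρ (AlgebraicClosure ℚ_[ℓ]) g u)) * φ' (bcr ρ (AlgebraicClosure ℚ_[ℓ]) g (T v)) =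
      φ' (T (bcr ρ (AlgebraicClosure ℚ_[ℓ]) g v)) * φ (bcr ρ (AlgebraicClosure ℚ_[ℓ]) g (T u)) := by
    intro g hg u hu v hv φ φ'
    refine hGc _ (isClosed_eq
      ((cont_lin (ρ := ρ) hcont ((φ.comp T).comp (LinearMap.applyₗ u))).mul
        (cont_lin (ρ := ρ) hcont (φ'.comp (LinearMap.applyₗ (T v)))))
      ((cont_lin (ρ := ρ) hcont ((φ'.comp T).comp (LinearMap.applyₗ v))).mul
        (cont_lin (ρ := ρ) hcont (φ.comp (LinearMap.applyₗ (T u)))))) ?_ hg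
    rintro g ⟨hg, -⟩
    change φ (T (bcr ρ (AlgebraicClosure ℚ_[ℓ]) g u)) *
      φ' (bcr ρ (AlgebraicClosure ℚ_[ℓ]) g (T v)) =
      φ' (T (bcr ρ (AlgebraicClosure ℚ_[ℓ]) g v)) * φ (bcr ρ (AlgebraicClosure ℚ_[ℓ]) g (T u))
    rw [hTg g hg u hu, hTg g hg v hv, map_smul, map_smul, smul_eq_mul, smul_eq_mul]
    ring
  -- the scalars
  have hsc : ∀ g ∈ G, ∃ c : AlgebraicClosure ℚ_[ℓ], ∀ u ∈ U,
      T (bcr ρ (AlgebraicClosure ℚ_[ℓ]) g u) = c • bcr ρ (AlgebraicClosure ℚ_[ℓ]) g (T u) := by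
    intro g hg
    obtain ⟨v, hv, hv0⟩ := id h0
    have h1 := Rne (R := bcr ρ (AlgebraicClosure ℚ_[ℓ])) g hv0
    obtain ⟨φ', hφ'⟩ : ∃ φ' : Dual (AlgebraicClosure ℚ_[ℓ]) (AlgebraicClosure ℚ_[ℓ] ⊗[ℚ_[ℓ]] V),
        φ' (bcr ρ (AlgebraicClosure ℚ_[ℓ]) g (T v)) ≠ 0 := by
      by_contra hcon
      push Not at hcon
      exact h1 ((Module.forall_dual_apply_eq_zero_iff _ _).1 hcon)
    refine ⟨φ' (T (bcr ρ (AlgebraicClosure ℚ_[ℓ]) g v)) /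
      φ' (bcr ρ (AlgebraicClosure ℚ_[ℓ]) g (T v)), fun u hu => ?_⟩
    rw [← sub_eq_zero]
    refine (Module.forall_dual_apply_eq_zero_iff (AlgebraicClosure ℚ_[ℓ]) _).1 fun φ => ?_
    rw [map_sub, map_smul, smul_eq_mul, sub_eq_zero, div_mul_eq_mul_div, eq_div_iff hφ']
    exact hC2 g hg u hu v hv φ φ'
  refine ⟨G ⊓ neat ρ b₀ hint, ?_, T, hTU, h0, ?_⟩
  · have := neat_finiteIndex hint
    infer_instance
  have key : ∀ g ∈ ((G ⊓ neat ρ b₀ hint : Subgroup Γ) : Set Γ), ∀ u ∈ U,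
      T (bcr ρ (AlgebraicClosure ℚ_[ℓ]) g u) = bcr ρ (AlgebraicClosure ℚ_[ℓ]) g (T u) := by
    intro g hg u hu
    have hopen : IsOpen ((G ⊓ neat ρ b₀ hint : Subgroup Γ) : Set Γ) := by
      rw [Subgroup.coe_inf]
      exact hGo.inter (neat_isOpen hint hcont)
    have h1 := of_dense hD hopen (closed_lin (ρ := ρ) hcont
      (T.comp (LinearMap.applyₗ u) - LinearMap.applyₗ (T u))) (by
      rintro γ ⟨⟨p, hp, a, P, t, hF, ⟨ht0, ht2, hts⟩, hτ⟩, hγG, hγn⟩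
      change T (bcr ρ (AlgebraicClosure ℚ_[ℓ]) γ u) - bcr ρ (AlgebraicClosure ℚ_[ℓ]) γ (T u) = 0
      rw [sub_eq_zero]
      obtain ⟨c, hc⟩ := hsc γ hγG
      have hpa : 0 < ((p : ℝ) ^ a)⁻¹ := p_pow_pos
      -- the number `c` is not zero
      have hc0 : c ≠ 0 := by
        rintro rfl
        obtain ⟨v, hv, hv0⟩ := id h0
        have h2 := hc v hv
        rw [zero_smul] at h2
        have h3 := hinj _ (hC1 γ hγG v hv) h2
        apply hv0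
        have h4 := congrArg (bcr ρ (AlgebraicClosure ℚ_[ℓ]) γ⁻¹) h3
        rw [Rinv, map_zero] at h4
        rw [h4, map_zero]
      have heig : ∀ (z : AlgebraicClosure ℚ_[ℓ]), ∀ w ∈ U, w ≠ 0 →
          bcr ρ (AlgebraicClosure ℚ_[ℓ]) γ w = z • w →
          bcr ρ (AlgebraicClosure ℚ_[ℓ]) γ (T w) = (z / c) • T w := by
        intro z w hw hw0 hwz
        have h2 := hc w hw
        rw [hwz, map_smul] at h2
        rw [div_eq_inv_mul, mul_smul, h2, smul_smul, inv_mul_cancel₀ hc0, one_smul]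
      have hTne : ∀ w ∈ U, w ≠ 0 → T w ≠ 0 := fun w hw hw0 h => hw0 (hinj w hw h)
      -- an eigenvector
      obtain ⟨τ₀⟩ := exists_tau (ℓ := ℓ) P p
      obtain ⟨z, -, ⟨w, hw, hw0, hwz⟩, -, -⟩ := hτ τ₀
      have hzr : aeval (z : AlgebraicClosure ℚ_[ℓ]) P = 0 := eig_root hF hw0 hwz
      have hz'r : aeval ((z : AlgebraicClosure ℚ_[ℓ]) / c) P = 0 :=
        eig_root hF (hTne w hw hw0) (heig _ w hw hw0 hwz)
      have hz0 : (z : AlgebraicClosure ℚ_[ℓ]) ≠ 0 := bcr_ne_zero hw0 hwz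
      have hcmem : c ∈ rootField P (AlgebraicClosure ℚ_[ℓ]) := by
        have h2 : c = z / ((z : AlgebraicClosure ℚ_[ℓ]) / c) := by
          rw [div_div_cancel₀ hz0]
        rw [h2]
        exact div_mem z.2 (mem_rootField hF.monic hz'r)
      obtain ⟨c', hc'⟩ : ∃ c' : rootField P (AlgebraicClosure ℚ_[ℓ]),
        (c' : AlgebraicClosure ℚ_[ℓ]) = c := ⟨⟨c, hcmem⟩, rfl⟩
      have hc'0 : c' ≠ 0 := by
        rintro rfl
        exact hc0 hc'.symm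
      -- the absolute values of `c`
      have hcn : ∀ τ : rootField P (AlgebraicClosure ℚ_[ℓ]) →+* PadicAlgCl p, ‖τ c'‖ = 1 := by
        intro τ
        obtain ⟨z₁, z₂, ⟨w₁, hw₁, hw₁0, hwz₁⟩, ⟨w₂, hw₂, hw₂0, hwz₂⟩, hne⟩ := hτ τ
        have hr₁ : aeval (z₁ : AlgebraicClosure ℚ_[ℓ]) P = 0 := eig_root hF hw₁0 hwz₁
        have hr₂ : aeval (z₂ : AlgebraicClosure ℚ_[ℓ]) P = 0 := eig_root hF hw₂0 hwz₂
        have hr₁' : aeval ((z₁ / c' : rootField P (AlgebraicClosure ℚ_[ℓ])) :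
            AlgebraicClosure ℚ_[ℓ]) P = 0 := by
          have h2 := eig_root hF (hTne w₁ hw₁ hw₁0) (heig _ w₁ hw₁ hw₁0 hwz₁)
          rw [← hc'] at h2
          exact h2
        have hr₂' : aeval ((z₂ / c' : rootField P (AlgebraicClosure ℚ_[ℓ])) :
            AlgebraicClosure ℚ_[ℓ]) P = 0 := by
          have h2 := eig_root hF (hTne w₂ hw₂ hw₂0) (heig _ w₂ hw₂ hw₂0 hwz₂)
          rw [← hc'] at h2
          exact h2
        have hor : ∀ y : rootField P (AlgebraicClosure ℚ_[ℓ]),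
            aeval (y : AlgebraicClosure ℚ_[ℓ]) P = 0 → ‖τ y‖ = ‖τ z₁‖ ∨ ‖τ y‖ = ‖τ z₂‖ := by
          intro y hy
          rcases hts _ (aeval_emb hy τ) with h2 | h2 <;>
          rcases hts _ (aeval_emb hr₁ τ) with h3 | h3 <;>
          rcases hts _ (aeval_emb hr₂ τ) with h4 | h4
          · exact absurd (h3.trans h4.symm) hne
          · exact Or.inl (h2.trans h3.symm)
          · exact Or.inr (h2.trans h4.symm)
          · exact absurd (mul_right_cancel₀ ht0.ne' (h3.trans h4.symm)) hne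
          · exact absurd (h3.trans h4.symm) hne
          · exact Or.inr (mul_right_cancel₀ ht0.ne' (h2.trans h4.symm))
          · exact Or.inl (mul_right_cancel₀ ht0.ne' (h2.trans h3.symm))
          · exact absurd (mul_right_cancel₀ ht0.ne' (h3.trans h4.symm)) hne
        have hpos : ∀ y : rootField P (AlgebraicClosure ℚ_[ℓ]), y ≠ 0 → 0 < ‖τ y‖ :=
          fun y hy => norm_pos_iff.2 ((map_ne_zero τ).2 hy)
        have hz₁0 : z₁ ≠ 0 := by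
          rintro rfl
          exact bcr_ne_zero hw₁0 hwz₁ rfl
        have hz₂0 : z₂ ≠ 0 := by
          rintro rfl
          exact bcr_ne_zero hw₂0 hwz₂ rfl
        have hA := hor _ hr₁'
        have hB := hor _ hr₂'
        rw [map_div₀, norm_div] at hA hB
        exact norm_arith (hpos _ hz₁0) (hpos _ hz₂0) (hpos _ hc'0) hA hB
      have hc1 : c = 1 := by
        by_contra hne
        have hzz : (z : AlgebraicClosure ℚ_[ℓ]) ≠ (z : AlgebraicClosure ℚ_[ℓ]) / c := by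
          intro h2
          apply hne
          rw [eq_div_iff hc0] at h2
          exact mul_left_cancel₀ hz0 (h2.trans (mul_one _).symm)
        obtain ⟨τ, hτ'⟩ := exists_sep (p := p) (a := a) hF.monic (by
          intro z hz
          rw [hF.weil z hz]
          push_cast
          rfl) (z := z) (z' := z / c') hzr (by
            have h2 : ((z / c' : rootField P (AlgebraicClosure ℚ_[ℓ])) :
              AlgebraicClosure ℚ_[ℓ]) = (z : AlgebraicClosure ℚ_[ℓ]) / c := by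
              rw [← hc']
              rfl
            rw [h2]
            exact hz'r) (by
          intro r hr h
          have h2 : ((z / c' : rootField P (AlgebraicClosure ℚ_[ℓ])) :
              AlgebraicClosure ℚ_[ℓ]) = (z : AlgebraicClosure ℚ_[ℓ]) / c := by
              rw [← hc']
              rfl
          rw [h2] at h
          exact hzz (neat_neat hγn hw0 (hTne w hw hw0) hwz (heig _ w hw hw0 hwz) hr h))
        apply hτ'
        rw [map_div₀, norm_div, hcn, div_one]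
      rw [hc u hu, hc1, one_smul]) hg
    change T (bcr ρ (AlgebraicClosure ℚ_[ℓ]) g u) -
      bcr ρ (AlgebraicClosure ℚ_[ℓ]) g (T u) = 0 at h1
    exact sub_eq_zero.1 h1
  intro g hg u hu
  rw [one_smul]
  exact key g hg u hu

end

end Pool.Agent.R930
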