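import Mathlib
import Pool.Agent.R930.Twist
import Pool.Agent.R930.Pieces

/-!
# Multiplicities of slopes on a subspace
-/

set_option linter.unusedSectionVars false

namespace Pool.Agent.R930

open Module TensorProduct Polynomial Pool.Agent.H204R3.SP Pool.Agent.H204R3.GP
open Pool.Agent.W522.U Pool.Agent.TH118.CR Pool.Agent.Y126.OT Pool.Agent.W528.Odd
open Pool.Agent.Y126.Toric

noncomputable section

variable {ℓ : ℕ} [Fact ℓ.Prime] {V Γ : Type} [AddCommGroup V] [Module ℚ_[ℓ] V]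
    [FiniteDimensional ℚ_[ℓ] V] [Group Γ]

/-- The sum of the eigenspaces of `γ` for the eigenvalues `z` with `‖τ z‖ = t`. -/
def slopeSpace (ρ : Representation ℚ_[ℓ] Γ V) (γ : Γ) {P : ℤ[X]} {p : ℕ} [Fact p.Prime]
    (τ : rootField P (AlgebraicClosure ℚ_[ℓ]) →+* PadicAlgCl p) (t : ℝ) :
    Submodule (AlgebraicClosure ℚ_[ℓ]) (AlgebraicClosure ℚ_[ℓ] ⊗[ℚ_[ℓ]] V) :=
  ⨆ z : {z : rootField P (AlgebraicClosure ℚ_[ℓ]) // ‖τ z‖ = t},
    Module.End.eigenspace (bcr ρ (AlgebraicClosure ℚ_[ℓ]) γ) (z.1 : AlgebraicClosure ℚ_[ℓ])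

/-- For some Frobenius element with two slopes and some embedding in the algebraic closure of
`ℚ_p`, the multiplicity of one of the slopes on `U` is prime to the dimension of `U`. -/
def HasCoprimeSlopes (ρ : Representation ℚ_[ℓ] Γ V) (χ : Γ →* ℚ_[ℓ])
    (U : Submodule (AlgebraicClosure ℚ_[ℓ]) (AlgebraicClosure ℚ_[ℓ] ⊗[ℚ_[ℓ]] V)) : Prop :=
  ∃ (γ : Γ) (p : ℕ) (_ : Fact p.Prime) (a : ℕ) (P : ℤ[X]) (t : ℝ), IsFrobenius ρ χ γ p a P ∧
    TwoSlopes p a P t ∧ ∃ τ : rootField P (AlgebraicClosure ℚ_[ℓ]) →+* PadicAlgCl p,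
      Nat.Coprime (finrank (AlgebraicClosure ℚ_[ℓ]) (slopeSpace ρ γ τ t ⊓ U : Submodule
        (AlgebraicClosure ℚ_[ℓ]) (AlgebraicClosure ℚ_[ℓ] ⊗[ℚ_[ℓ]] V)))
        (finrank (AlgebraicClosure ℚ_[ℓ]) U)

variable {ρ : Representation ℚ_[ℓ] Γ V} {χ : Γ →* ℚ_[ℓ]}
    {γ : Γ} {p a : ℕ} [Fact p.Prime] {P : ℤ[X]} {t : ℝ}

theorem mem_slopeSpace (hF : IsFrobenius ρ χ γ p a P)
    {τ : rootField P (AlgebraicClosure ℚ_[ℓ]) →+* PadicAlgCl p}
    {x : Module.End (AlgebraicClosure ℚ_[ℓ]) (AlgebraicClosure ℚ_[ℓ] ⊗[ℚ_[ℓ]] V)}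
    {s : rootField P (AlgebraicClosure ℚ_[ℓ]) → AlgebraicClosure ℚ_[ℓ]}
    {c : AlgebraicClosure ℚ_[ℓ]}
    (hxs : ∀ (y : rootField P (AlgebraicClosure ℚ_[ℓ])) (u : AlgebraicClosure ℚ_[ℓ] ⊗[ℚ_[ℓ]] V),
        bcr ρ (AlgebraicClosure ℚ_[ℓ]) γ u = (y : AlgebraicClosure ℚ_[ℓ]) • u →
        x u = s y • u) (h1 : ∀ y, ‖τ y‖ = t → s y = c)
    (h2 : ∀ y : rootField P (AlgebraicClosure ℚ_[ℓ]), aeval (y : AlgebraicClosure ℚ_[ℓ]) P = 0 →
      ‖τ y‖ ≠ t → s y ≠ c) (v : AlgebraicClosure ℚ_[ℓ] ⊗[ℚ_[ℓ]] V) :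
    v ∈ slopeSpace ρ γ τ t ↔ x v = c • v := by
  classical
  constructor
  · intro hv
    have hle : slopeSpace ρ γ τ t ≤ Module.End.eigenspace x c := by
      refine iSup_le ?_
      rintro ⟨z, hz⟩ u hu
      rw [Module.End.mem_eigenspace_iff] at hu ⊢
      rw [hxs z u hu, h1 z hz]
    exact Module.End.mem_eigenspace_iff.1 (hle hv)
  · intro hv
    obtain ⟨b, a', hb⟩ := exists_eigenbasis hF.semisimple
    have hb' : ∀ i, bcr ρ (AlgebraicClosure ℚ_[ℓ]) γ (b i) = a' i • b i := hb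
    have hroot : ∀ i, aeval (a' i) P = 0 := fun i => eig_root hF (b.ne_zero i) (hb' i)
    have hxb : ∀ i, x (b i) = s ⟨a' i, mem_rootField hF.monic (hroot i)⟩ • b i := fun i =>
      hxs ⟨a' i, mem_rootField hF.monic (hroot i)⟩ (b i) (hb' i)
    rw [← b.sum_repr v]
    refine Submodule.sum_mem _ fun i _ => ?_
    by_cases hi : ‖τ ⟨a' i, mem_rootField hF.monic (hroot i)⟩‖ = t
    · refine Submodule.smul_mem _ _ ?_
      exact Submodule.mem_iSup_of_mem ⟨⟨a' i, mem_rootField hF.monic (hroot i)⟩, hi⟩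
        (Module.End.mem_eigenspace_iff.2 (hb' i))
    · have h3 := h2 _ (hroot i) hi
      have h4 : b.repr (x v) i = s ⟨a' i, mem_rootField hF.monic (hroot i)⟩ * b.repr v i := by
        conv_lhs => rw [← b.sum_repr v]
        rw [map_sum, map_sum, Finset.sum_apply']
        have h5 : ∀ k, (b.repr (x (b.repr v k • b k))) i =
            if k = i then s ⟨a' i, mem_rootField hF.monic (hroot i)⟩ * b.repr v i else 0 := by
          intro k
          rw [map_smul, hxb, map_smul, map_smul, Basis.repr_self, Finsupp.smul_apply,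
            Finsupp.smul_apply, Finsupp.single_apply, smul_eq_mul, smul_eq_mul]
          split_ifs with hk
          · subst hk; ring
          · ring
        rw [Finset.sum_congr rfl fun k _ => h5 k]
        simp
      rw [hv, map_smul, Finsupp.smul_apply, smul_eq_mul] at h4
      have h5 : (s ⟨a' i, mem_rootField hF.monic (hroot i)⟩ - c) * b.repr v i = 0 := by
        rw [sub_mul, ← h4, sub_self]
      rw [(mul_eq_zero.1 h5).resolve_left (sub_ne_zero.2 h3), zero_smul]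
      exact Submodule.zero_mem _

/-- Coprime slopes give a square-zero element of rank one. -/
theorem one_of_slopes
    (ω : (AlgebraicClosure ℚ_[ℓ] ⊗[ℚ_[ℓ]] V) →ₗ[AlgebraicClosure ℚ_[ℓ]]
      (AlgebraicClosure ℚ_[ℓ] ⊗[ℚ_[ℓ]] V) →ₗ[AlgebraicClosure ℚ_[ℓ]] AlgebraicClosure ℚ_[ℓ])
    (hnd : ∀ u, (∀ v, ω u v = 0) → u = 0)
    (hω : ∀ g u v, ω (bcr ρ (AlgebraicClosure ℚ_[ℓ]) g u) (bcr ρ (AlgebraicClosure ℚ_[ℓ]) g v) =
      bcc χ (AlgebraicClosure ℚ_[ℓ]) g * ω u v)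
    (hss : HasProj (bcr ρ (AlgebraicClosure ℚ_[ℓ])))
    (hP : LieGenerate (bcr ρ (AlgebraicClosure ℚ_[ℓ])) (bcc χ (AlgebraicClosure ℚ_[ℓ])))
    {U : Submodule (AlgebraicClosure ℚ_[ℓ]) (AlgebraicClosure ℚ_[ℓ] ⊗[ℚ_[ℓ]] V)}
    (hU : SI (bcr ρ (AlgebraicClosure ℚ_[ℓ])) U) (h2 : 2 ≤ finrank (AlgebraicClosure ℚ_[ℓ]) U)
    (h : HasCoprimeSlopes ρ χ U) :
    ∃ e ∈ lieT (bcr ρ (AlgebraicClosure ℚ_[ℓ])) (bcc χ (AlgebraicClosure ℚ_[ℓ])),
      e * e = 0 ∧ finrank (AlgebraicClosure ℚ_[ℓ]) (U.map e) = 1 := by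
  obtain ⟨γ, p, hp, a, P, t, hF, ht, τ, hcop⟩ := h
  obtain ⟨x, hx, hxx, s, hxs, h1, h0⟩ := two_op hF ht τ
  have hst := lieT_stable ω hnd hω hss hU.2.1 hx
  obtain ⟨xU, hxUd⟩ : ∃ xU : Module.End (AlgebraicClosure ℚ_[ℓ]) U, xU = x.restrict hst := ⟨_, rfl⟩
  have hxU : ∀ u : U, ((xU u : U) : AlgebraicClosure ℚ_[ℓ] ⊗[ℚ_[ℓ]] V) = x u := fun u => by
    rw [hxUd]; rfl
  have hx2 : xU * xU = (1 / 4 : AlgebraicClosure ℚ_[ℓ]) • 1 := sq_res hxU _ hxx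
  have hhalf : (-(1 / 2) : AlgebraicClosure ℚ_[ℓ]) ≠ 1 / 2 := by
    intro h4
    have h5 : (1 : AlgebraicClosure ℚ_[ℓ]) = 0 := by linear_combination -h4
    exact one_ne_zero h5
  have hmem : ∀ v, v ∈ slopeSpace ρ γ τ t ↔ x v = (1 / 2 : AlgebraicClosure ℚ_[ℓ]) • v :=
    mem_slopeSpace hF hxs h1 (fun y hy hne => by rw [h0 y hy hne]; exact hhalf)
  have hmap : (LinearMap.range (e1 xU)).map U.subtype = slopeSpace ρ γ τ t ⊓ U := by
    ext v
    rw [Submodule.mem_inf, hmem]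
    constructor
    · rintro ⟨u, hu, rfl⟩
      refine ⟨?_, u.2⟩
      have h3 := e1_of_range hx2 hu
      have h4 : xU u = (1 / 2 : AlgebraicClosure ℚ_[ℓ]) • u := by
        have h5 : e1 xU u = (1 / 2 : AlgebraicClosure ℚ_[ℓ]) • u + xU u := rfl
        rw [h5] at h3
        have h6 : xU u = u - (1 / 2 : AlgebraicClosure ℚ_[ℓ]) • u := eq_sub_of_add_eq' h3
        rw [h6]
        module
      change x u = _
      rw [← hxU, h4]
      rfl
    · rintro ⟨hv, hvU⟩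
      refine ⟨⟨v, hvU⟩, ⟨⟨v, hvU⟩, ?_⟩, rfl⟩
      apply Subtype.ext
      change (1 / 2 : AlgebraicClosure ℚ_[ℓ]) • v + ((xU ⟨v, hvU⟩ : U) :
        AlgebraicClosure ℚ_[ℓ] ⊗[ℚ_[ℓ]] V) = v
      rw [hxU, hv]
      module
  have hrank : finrank (AlgebraicClosure ℚ_[ℓ]) (LinearMap.range (e1 xU)) =
      finrank (AlgebraicClosure ℚ_[ℓ]) (slopeSpace ρ γ τ t ⊓ U : Submodule
        (AlgebraicClosure ℚ_[ℓ]) (AlgebraicClosure ℚ_[ℓ] ⊗[ℚ_[ℓ]] V)) := by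
    rw [← hmap]
    exact LinearEquiv.finrank_eq (Submodule.equivMapOfInjective U.subtype
      U.subtype_injective (LinearMap.range (e1 xU)))
  rw [← hrank] at hcop
  have hsum := finrank_ranges hx2
  have hcop' : Nat.Coprime (finrank (AlgebraicClosure ℚ_[ℓ]) (LinearMap.range (e1 xU)))
      (finrank (AlgebraicClosure ℚ_[ℓ]) (LinearMap.range (e0 xU))) := by
    rw [← hsum] at hcop
    exact (Nat.coprime_self_add_right).1 hcop
  have hne1 : e1 xU ≠ 0 := by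
    intro h3
    rw [h3, LinearMap.range_zero, finrank_bot, Nat.coprime_zero_left] at hcop
    omega
  have hne0 : e0 xU ≠ 0 := by
    intro h3
    rw [h3, LinearMap.range_zero, finrank_bot, add_zero] at hsum
    rw [hsum, Nat.coprime_self] at hcop
    omega
  exact one_of_coprime ω hnd hω hss hU hx hxx hxU hne1 hne0 hP hcop'

end

end Pool.Agent.R930
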