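import Mathlib
import Pool.Agent.R930.Slope
import Pool.Agent.R930.K3

/-!
# Frobenius elements with three slopes, and pairs of embeddings
-/

set_option linter.unusedSectionVars false

namespace Pool.Agent.R930

open Module TensorProduct Polynomial Pool.Agent.H204R3.SP Pool.Agent.H204R3.GP
open Pool.Agent.W522.U Pool.Agent.TH118.CR Pool.Agent.W528.Odd Pool.Agent.Y126.Toric
open Pool.Agent.W528.Tor (AltDual)

noncomputable section

/-- The roots of `P` in the algebraic closure of `ℚ_p` have at most the three absolute values `t`,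
`p ^ (- a) / t` and `p ^ (- a / 2)`, and these are different. -/
def ThreeSlopes (p a : ℕ) [Fact p.Prime] (P : ℤ[X]) (t : ℝ) : Prop :=
  0 < t ∧ t * t ≠ ((p : ℝ) ^ a)⁻¹ ∧ ∀ z : PadicAlgCl p, aeval z P = 0 →
    ‖z‖ = t ∨ ‖z‖ * t = ((p : ℝ) ^ a)⁻¹ ∨ ‖z‖ * ‖z‖ = ((p : ℝ) ^ a)⁻¹

theorem TwoSlopes.three {p a : ℕ} [Fact p.Prime] {P : ℤ[X]} {t : ℝ} (h : TwoSlopes p a P t) :
    ThreeSlopes p a P t :=
  ⟨h.1, h.2.1, fun z hz => (h.2.2 z hz).imp_right Or.inl⟩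

section range

variable {K : Type} [Field K] [CharZero K] {V : Type} [AddCommGroup V] [Module K V]
  {D : Module.End K V}

theorem mem_range_fp (h3 : D * D * D = (1 / 4 : K) • D) (v : V) :
    v ∈ LinearMap.range (fp D) ↔ D v = (1 / 2 : K) • v := by
  constructor
  · rintro ⟨w, rfl⟩
    have h : D * fp D = (1 / 2 : K) • fp D := by
      unfold fp
      simp only [mul_add, mul_smul_comm, ← mul_assoc, h3]
      module
    exact congrArg (fun F : Module.End K V => F w) h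
  · intro h
    refine ⟨v, ?_⟩
    have h4 : fp D v = (2 : K) • D (D v) + D v := rfl
    rw [h4, h, map_smul, h]
    module

end range

variable {ℓ : ℕ} [Fact ℓ.Prime] {V Γ : Type} [AddCommGroup V] [Module ℚ_[ℓ] V]
    [FiniteDimensional ℚ_[ℓ] V] [Group Γ] {ρ : Representation ℚ_[ℓ] Γ V} {χ : Γ →* ℚ_[ℓ]}
    {γ : Γ} {p a : ℕ} [Fact p.Prime] {P : ℤ[X]} {t : ℝ}

theorem half_ne : (-(1 / 2) : AlgebraicClosure ℚ_[ℓ]) ≠ 1 / 2 := by
  intro h4
  have h5 : (1 : AlgebraicClosure ℚ_[ℓ]) = 0 := by linear_combination -h4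
  exact one_ne_zero h5

/-- The slope operators of a Frobenius element with three slopes. -/
theorem three_op (hF : IsFrobenius ρ χ γ p a P) (ht : ThreeSlopes p a P t)
    (τ : rootField P (AlgebraicClosure ℚ_[ℓ]) →+* PadicAlgCl p) :
    ∃ x ∈ lieT (bcr ρ (AlgebraicClosure ℚ_[ℓ])) (bcc χ (AlgebraicClosure ℚ_[ℓ])),
      x * x * x = (1 / 4 : AlgebraicClosure ℚ_[ℓ]) • x ∧
      ∀ v, v ∈ slopeSpace ρ γ τ t ↔ x v = (1 / 2 : AlgebraicClosure ℚ_[ℓ]) • v := by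
  classical
  obtain ⟨ht0, ht2, hts⟩ := ht
  have hpa : 0 < ((p : ℝ) ^ a)⁻¹ := p_pow_pos
  have hr : 2 * Real.log t - Real.log ((p : ℝ) ^ a)⁻¹ ≠ 0 := by
    intro h
    apply ht2
    have h1 : Real.log (t * t) = Real.log ((p : ℝ) ^ a)⁻¹ := by
      rw [Real.log_mul ht0.ne' ht0.ne']
      linarith
    exact Real.log_injOn_pos (Set.mem_Ioi.2 (by positivity)) (Set.mem_Ioi.2 hpa) h1
  obtain ⟨κ, hκ⟩ := exists_kappa (K := AlgebraicClosure ℚ_[ℓ]) _ hr 1
  have hκ' : 2 * κ (Real.log t) - κ (Real.log ((p : ℝ) ^ a)⁻¹) = 1 := by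
    rw [← hκ, map_sub, two_mul, two_mul, map_add]
  obtain ⟨x, hx, hxs⟩ := slope_op hF τ κ
  have h1 : ∀ y, ‖τ y‖ = t → sval τ κ a y = 1 / 2 := by
    intro y hy
    unfold sval
    rw [hy]
    linear_combination (1 / 2 : AlgebraicClosure ℚ_[ℓ]) * hκ'
  have h2 : ∀ y : rootField P (AlgebraicClosure ℚ_[ℓ]), aeval (y : AlgebraicClosure ℚ_[ℓ]) P = 0 →
      ‖τ y‖ ≠ t → sval τ κ a y = -(1 / 2) ∨ sval τ κ a y = 0 := by
    intro y hy0 hy
    rcases (hts _ (aeval_emb hy0 τ)).resolve_left hy with hy2 | hy2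
    · left
      unfold sval
      have h3 : Real.log ‖τ y‖ = Real.log ((p : ℝ) ^ a)⁻¹ - Real.log t := by
        rw [← hy2, Real.log_mul _ ht0.ne']
        · ring
        · intro h0
          rw [h0, zero_mul] at hy2
          exact hpa.ne hy2
      rw [h3, map_sub]
      linear_combination (-(1 / 2) : AlgebraicClosure ℚ_[ℓ]) * hκ'
    · right
      unfold sval
      have h4 : ‖τ y‖ ≠ 0 := by
        intro h0
        rw [h0, zero_mul] at hy2
        exact hpa.ne hy2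
      have h3 : κ (Real.log ((p : ℝ) ^ a)⁻¹) = κ (Real.log ‖τ y‖) + κ (Real.log ‖τ y‖) := by
        rw [← hy2, Real.log_mul h4 h4, map_add]
      rw [h3]
      ring
  have h2' : ∀ y : rootField P (AlgebraicClosure ℚ_[ℓ]), aeval (y : AlgebraicClosure ℚ_[ℓ]) P = 0 →
      ‖τ y‖ ≠ t → sval τ κ a y ≠ 1 / 2 := by
    intro y hy0 hy
    rcases h2 y hy0 hy with h | h
    · rw [h]
      exact half_ne
    · rw [h]
      intro h5
      have h6 : (1 : AlgebraicClosure ℚ_[ℓ]) = 0 := by linear_combination -2 * h5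
      exact one_ne_zero h6
  refine ⟨x, hx, ?_, mem_slopeSpace hF hxs h1 h2'⟩
  obtain ⟨b, a', hb⟩ := exists_eigenbasis hF.semisimple
  have hb' : ∀ i, bcr ρ (AlgebraicClosure ℚ_[ℓ]) γ (b i) = a' i • b i := hb
  have hroot : ∀ i, aeval (a' i) P = 0 := fun i => eig_root hF (b.ne_zero i) (hb' i)
  refine b.ext fun i => ?_
  have h3 := hxs ⟨a' i, mem_rootField hF.monic (hroot i)⟩ (b i) (hb' i)
  rw [Module.End.mul_apply, Module.End.mul_apply, h3, map_smul, map_smul, h3, map_smul, h3,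
    smul_smul, smul_smul, LinearMap.smul_apply, h3, smul_smul]
  congr 1
  by_cases hi : ‖τ ⟨a' i, mem_rootField hF.monic (hroot i)⟩‖ = t
  · rw [h1 _ hi]; norm_num
  · rcases h2 _ (hroot i) hi with h | h
    · rw [h]; norm_num
    · rw [h]; norm_num

/-- The operator of a pair of embeddings of a Frobenius element with two slopes. -/
theorem pair_op {t' : ℝ} (hF : IsFrobenius ρ χ γ p a P) (ht : TwoSlopes p a P t)
    (ht' : TwoSlopes p a P t')
    (τ τ' : rootField P (AlgebraicClosure ℚ_[ℓ]) →+* PadicAlgCl p) :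
    ∃ x ∈ lieT (bcr ρ (AlgebraicClosure ℚ_[ℓ])) (bcc χ (AlgebraicClosure ℚ_[ℓ])),
      x * x * x = (1 / 4 : AlgebraicClosure ℚ_[ℓ]) • x ∧
      ∀ v, v ∈ slopeSpace ρ γ τ t ⊓ slopeSpace ρ γ τ' t' ↔
        x v = (1 / 2 : AlgebraicClosure ℚ_[ℓ]) • v := by
  obtain ⟨x, hx, hxx, s, hxs, h1, h2⟩ := two_op hF ht τ
  obtain ⟨x', hx', hxx', s', hxs', h1', h2'⟩ := two_op hF ht' τ'
  have hm := mem_slopeSpace hF hxs h1 (fun y hy hne => by rw [h2 y hy hne]; exact half_ne)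
  have hm' := mem_slopeSpace hF hxs' h1' (fun y hy hne => by rw [h2' y hy hne]; exact half_ne)
  obtain ⟨b, a', hb⟩ := exists_eigenbasis hF.semisimple
  have hb' : ∀ i, bcr ρ (AlgebraicClosure ℚ_[ℓ]) γ (b i) = a' i • b i := hb
  have hroot : ∀ i, aeval (a' i) P = 0 := fun i => eig_root hF (b.ne_zero i) (hb' i)
  have hcomm : x * x' = x' * x := by
    refine b.ext fun i => ?_
    have h3 := hxs ⟨a' i, mem_rootField hF.monic (hroot i)⟩ (b i) (hb' i)
    have h3' := hxs' ⟨a' i, mem_rootField hF.monic (hroot i)⟩ (b i) (hb' i)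
    rw [Module.End.mul_apply, Module.End.mul_apply, h3, h3', map_smul, map_smul, h3, h3',
      smul_comm]
  refine ⟨(1 / 2 : AlgebraicClosure ℚ_[ℓ]) • (x + x'), Submodule.smul_mem _ _
    (Submodule.add_mem _ hx hx'), ?_, fun v => ?_⟩
  · have h4 : (x + x') * (x + x') * (x + x') = x + x' := by
      have h5 : (x + x') * (x + x') = (1 / 2 : AlgebraicClosure ℚ_[ℓ]) • 1 +
          (2 : AlgebraicClosure ℚ_[ℓ]) • (x * x') := by
        rw [mul_add, add_mul, add_mul, hxx, hxx', hcomm]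
        module
      rw [h5]
      have h6 : x * x' * (x + x') = (1 / 4 : AlgebraicClosure ℚ_[ℓ]) • (x + x') := by
        have h7 : x * x' * (x + x') = x * x' * x + x * (x' * x') := by noncomm_ring
        have h8 : x * x' * x = x' * (x * x) := by rw [hcomm, mul_assoc]
        rw [h7, h8, hxx, hxx', mul_smul_comm, mul_smul_comm, mul_one, mul_one]
        module
      rw [add_mul, smul_mul_assoc, smul_mul_assoc, one_mul, h6]
      module
    have h9 : ∀ c : AlgebraicClosure ℚ_[ℓ], ∀ w : Module.End (AlgebraicClosure ℚ_[ℓ])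
        (AlgebraicClosure ℚ_[ℓ] ⊗[ℚ_[ℓ]] V), (c • w) * (c • w) * (c • w) =
        (c * c * c) • (w * w * w) := by
      intro c w
      simp only [smul_mul_assoc, mul_smul_comm, smul_smul, mul_assoc]
    rw [h9, h4, smul_smul]
    congr 1
    norm_num
  · rw [Submodule.mem_inf, hm, hm']
    have hv : ((1 / 2 : AlgebraicClosure ℚ_[ℓ]) • (x + x')) v =
        (1 / 2 : AlgebraicClosure ℚ_[ℓ]) • (x v + x' v) := rfl
    rw [hv]
    constructor
    · rintro ⟨h, h'⟩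
      rw [h, h']
      module
    · intro h
      have h5 : x v + x' v = v := by
        have h6 := congrArg (fun w => (2 : AlgebraicClosure ℚ_[ℓ]) • w) h
        simp only [smul_smul] at h6
        norm_num at h6
        exact h6
      have hq : ∀ w, x (x w) = (1 / 4 : AlgebraicClosure ℚ_[ℓ]) • w := fun w =>
        congrArg (fun F : Module.End (AlgebraicClosure ℚ_[ℓ])
          (AlgebraicClosure ℚ_[ℓ] ⊗[ℚ_[ℓ]] V) => F w) hxx
      have hq' : ∀ w, x' (x' w) = (1 / 4 : AlgebraicClosure ℚ_[ℓ]) • w := fun w =>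
        congrArg (fun F : Module.End (AlgebraicClosure ℚ_[ℓ])
          (AlgebraicClosure ℚ_[ℓ] ⊗[ℚ_[ℓ]] V) => F w) hxx'
      have hc : ∀ w, x (x' w) = x' (x w) := fun w =>
        congrArg (fun F : Module.End (AlgebraicClosure ℚ_[ℓ])
          (AlgebraicClosure ℚ_[ℓ] ⊗[ℚ_[ℓ]] V) => F w) hcomm
      have h6 : x v = x' v := by
        have h7 := congrArg x h5
        have h8 := congrArg x' h5
        rw [map_add, hq] at h7
        rw [map_add, hq', ← hc] at h8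
        exact h7.symm.trans ((add_comm _ _).trans h8)
      constructor
      · rw [← h6] at h5
        have h9 : (1 / 2 : AlgebraicClosure ℚ_[ℓ]) • v =
            (1 / 2 : AlgebraicClosure ℚ_[ℓ]) • (x v + x v) := by rw [h5]
        rw [h9]
        module
      · rw [h6] at h5
        have h9 : (1 / 2 : AlgebraicClosure ℚ_[ℓ]) • v =
            (1 / 2 : AlgebraicClosure ℚ_[ℓ]) • (x' v + x' v) := by rw [h5]
        rw [h9]
        module

/-- The slope of `γ` at `t` is simple on `U`: either `γ` is a Frobenius element with three slopes and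
for some embedding in the algebraic closure of `ℚ_p` the slope given by `t` has multiplicity one on
`U`, or `γ` has two slopes and there are two embeddings such that exactly one eigenvalue on `U`,
counted with multiplicity, has the prescribed slopes for both embeddings. -/
def HasSimpleSlope (ρ : Representation ℚ_[ℓ] Γ V) (χ : Γ →* ℚ_[ℓ])
    (U : Submodule (AlgebraicClosure ℚ_[ℓ]) (AlgebraicClosure ℚ_[ℓ] ⊗[ℚ_[ℓ]] V)) : Prop :=
  ∃ (γ : Γ) (p : ℕ) (_ : Fact p.Prime) (a : ℕ) (P : ℤ[X]), IsFrobenius ρ χ γ p a P ∧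
    ((∃ (t : ℝ) (τ : rootField P (AlgebraicClosure ℚ_[ℓ]) →+* PadicAlgCl p),
      ThreeSlopes p a P t ∧ finrank (AlgebraicClosure ℚ_[ℓ])
        (slopeSpace ρ γ τ t ⊓ U : Submodule (AlgebraicClosure ℚ_[ℓ])
          (AlgebraicClosure ℚ_[ℓ] ⊗[ℚ_[ℓ]] V)) = 1) ∨
    (∃ (t t' : ℝ) (τ τ' : rootField P (AlgebraicClosure ℚ_[ℓ]) →+* PadicAlgCl p),
      TwoSlopes p a P t ∧ TwoSlopes p a P t' ∧ finrank (AlgebraicClosure ℚ_[ℓ])
        (slopeSpace ρ γ τ t ⊓ slopeSpace ρ γ τ' t' ⊓ U : Submodule (AlgebraicClosure ℚ_[ℓ])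
          (AlgebraicClosure ℚ_[ℓ] ⊗[ℚ_[ℓ]] V)) = 1))

variable
    (ω : (AlgebraicClosure ℚ_[ℓ] ⊗[ℚ_[ℓ]] V) →ₗ[AlgebraicClosure ℚ_[ℓ]]
      (AlgebraicClosure ℚ_[ℓ] ⊗[ℚ_[ℓ]] V) →ₗ[AlgebraicClosure ℚ_[ℓ]] AlgebraicClosure ℚ_[ℓ])
    (hnd : ∀ u, (∀ v, ω u v = 0) → u = 0)
    (hω : ∀ g u v, ω (bcr ρ (AlgebraicClosure ℚ_[ℓ]) g u) (bcr ρ (AlgebraicClosure ℚ_[ℓ]) g v) =
      bcc χ (AlgebraicClosure ℚ_[ℓ]) g * ω u v)
    (hss : HasProj (bcr ρ (AlgebraicClosure ℚ_[ℓ])))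
    (hP : LieGenerate (bcr ρ (AlgebraicClosure ℚ_[ℓ])) (bcc χ (AlgebraicClosure ℚ_[ℓ])))
    {U : Submodule (AlgebraicClosure ℚ_[ℓ]) (AlgebraicClosure ℚ_[ℓ] ⊗[ℚ_[ℓ]] V)}
    (hU : SI (bcr ρ (AlgebraicClosure ℚ_[ℓ])) U)

include hnd hω hss hU in
theorem slope_rank {S : Submodule (AlgebraicClosure ℚ_[ℓ]) (AlgebraicClosure ℚ_[ℓ] ⊗[ℚ_[ℓ]] V)}
    {x : Module.End (AlgebraicClosure ℚ_[ℓ]) (AlgebraicClosure ℚ_[ℓ] ⊗[ℚ_[ℓ]] V)}
    (hx : x ∈ lieT (bcr ρ (AlgebraicClosure ℚ_[ℓ])) (bcc χ (AlgebraicClosure ℚ_[ℓ])))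
    (h3 : x * x * x = (1 / 4 : AlgebraicClosure ℚ_[ℓ]) • x)
    (hS : ∀ v, v ∈ S ↔ x v = (1 / 2 : AlgebraicClosure ℚ_[ℓ]) • v) :
    ∃ xU : Module.End (AlgebraicClosure ℚ_[ℓ]) U,
      (∀ u : U, ((xU u : U) : AlgebraicClosure ℚ_[ℓ] ⊗[ℚ_[ℓ]] V) = x u) ∧
      finrank (AlgebraicClosure ℚ_[ℓ]) (LinearMap.range (fp xU)) =
        finrank (AlgebraicClosure ℚ_[ℓ]) (S ⊓ U : Submodule
          (AlgebraicClosure ℚ_[ℓ]) (AlgebraicClosure ℚ_[ℓ] ⊗[ℚ_[ℓ]] V)) := by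
  have hst := lieT_stable ω hnd hω hss hU.2.1 hx
  have hxU : ∀ u : U, ((x.restrict hst u : U) : AlgebraicClosure ℚ_[ℓ] ⊗[ℚ_[ℓ]] V) = x u :=
    fun u => rfl
  refine ⟨x.restrict hst, hxU, ?_⟩
  have hmap : (LinearMap.range (fp (x.restrict hst))).map U.subtype = S ⊓ U := by
    ext v
    rw [Submodule.mem_inf, hS]
    constructor
    · rintro ⟨u, hu, rfl⟩
      refine ⟨?_, u.2⟩
      have h4 := (mem_range_fp (h3_res h3 hxU) u).1 hu
      exact congrArg Subtype.val h4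
    · rintro ⟨hv, hvU⟩
      refine ⟨⟨v, hvU⟩, (mem_range_fp (h3_res h3 hxU) ⟨v, hvU⟩).2 (Subtype.ext hv), rfl⟩
  rw [← hmap]
  exact LinearEquiv.finrank_eq (Submodule.equivMapOfInjective U.subtype
    U.subtype_injective (LinearMap.range (fp (x.restrict hst))))

include hnd hω hss hP hU in
theorem one_of_simple
    (halt : AltDual (bcr ρ (AlgebraicClosure ℚ_[ℓ])) (bcc χ (AlgebraicClosure ℚ_[ℓ])) U)
    (h : HasSimpleSlope ρ χ U) :
    ∃ e ∈ lieT (bcr ρ (AlgebraicClosure ℚ_[ℓ])) (bcc χ (AlgebraicClosure ℚ_[ℓ])),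
      e * e = 0 ∧ finrank (AlgebraicClosure ℚ_[ℓ]) (U.map e) = 1 := by
  obtain ⟨γ, p, hp, a, P, hF, ⟨t, τ, ht, hr⟩ | ⟨t, t', τ, τ', ht, ht', hr⟩⟩ := h
  · obtain ⟨x, hx, h3, hS⟩ := three_op hF ht τ
    obtain ⟨xU, hxU, hrank⟩ := slope_rank ω hnd hω hss hU hx h3 hS
    exact one_of_K3 ω hnd hω hss hU hx h3 hxU hP halt (hrank.trans hr)
  · obtain ⟨x, hx, h3, hS⟩ := pair_op hF ht ht' τ τ'
    obtain ⟨xU, hxU, hrank⟩ := slope_rank ω hnd hω hss hU hx h3 hS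
    exact one_of_K3 ω hnd hω hss hU hx h3 hxU hP halt (hrank.trans hr)

/-- There is a Frobenius element with three slopes such that for some embedding in the algebraic
closure of `ℚ_p` the slope given by `t` occurs on `U`. -/
def HasSlope (ρ : Representation ℚ_[ℓ] Γ V) (χ : Γ →* ℚ_[ℓ])
    (U : Submodule (AlgebraicClosure ℚ_[ℓ]) (AlgebraicClosure ℚ_[ℓ] ⊗[ℚ_[ℓ]] V)) : Prop :=
  ∃ (γ : Γ) (p : ℕ) (_ : Fact p.Prime) (a : ℕ) (P : ℤ[X]) (t : ℝ)
    (τ : rootField P (AlgebraicClosure ℚ_[ℓ]) →+* PadicAlgCl p), IsFrobenius ρ χ γ p a P ∧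
    ThreeSlopes p a P t ∧ slopeSpace ρ γ τ t ⊓ U ≠ ⊥

include hnd hω hss hP hU in
theorem one_of_four
    (halt : AltDual (bcr ρ (AlgebraicClosure ℚ_[ℓ])) (bcc χ (AlgebraicClosure ℚ_[ℓ])) U)
    (hdim : finrank (AlgebraicClosure ℚ_[ℓ]) U ≤ 4) (h : HasSlope ρ χ U) :
    ∃ e ∈ lieT (bcr ρ (AlgebraicClosure ℚ_[ℓ])) (bcc χ (AlgebraicClosure ℚ_[ℓ])),
      e * e = 0 ∧ finrank (AlgebraicClosure ℚ_[ℓ]) (U.map e) = 1 := by
  obtain ⟨γ, p, hp, a, P, t, τ, hF, ht, hne⟩ := h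
  obtain ⟨x, hx, h3, hS⟩ := three_op hF ht τ
  obtain ⟨xU, hxU, hrank⟩ := slope_rank ω hnd hω hss hU hx h3 hS
  refine one_of_dim_four ω hnd hω hss hU hx h3 hxU hP halt hdim ?_
  rintro rfl
  apply hne
  have h4 : finrank (AlgebraicClosure ℚ_[ℓ]) (LinearMap.range
      (fp (0 : Module.End (AlgebraicClosure ℚ_[ℓ]) U))) = 0 := by
    have h5 : fp (0 : Module.End (AlgebraicClosure ℚ_[ℓ]) U) = 0 := by
      unfold fp
      rw [mul_zero, smul_zero, add_zero]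
    rw [h5, LinearMap.range_zero, finrank_bot]
  rw [h4] at hrank
  exact Submodule.finrank_eq_zero.1 hrank.symm

end

end Pool.Agent.R930
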