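import Mathlib
import Pool.Agent.Y126.Notions
import Pool.Agent.R930.Three

/-!
# Slopes on the pieces of a Galois representation

`R` is a representation of the group `Γ` on a vector space `X` over a field `K` of characteristic zero
(the Tate module of an abelian variety with coefficients extended to an algebraically closed field),
`χ` is the cyclotomic character, and `F γ p a P` says that `γ` is a Frobenius element at a place whose
residue field has `p ^ a` elements, with characteristic polynomial `P`.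
-/

namespace Pool.Agent.R930.Notions

open Module Polynomial TensorProduct Pool.Agent.Y126.Notions

noncomputable section

variable {K X Γ : Type} [Field K] [CharZero K] [AddCommGroup X] [Module K X] [Group Γ]

/-- The sum of the eigenspaces of `γ` for the eigenvalues `z` with `‖τ z‖ = t`; here `τ` is an
embedding in the algebraic closure of `ℚ_p` of the field generated by the roots of `P`. -/
def slopePart (R : Representation K Γ X) (γ : Γ) {P : ℤ[X]} {p : ℕ} [Fact p.Prime]
    (τ : rootField P K →+* PadicAlgCl p) (t : ℝ) : Submodule K X :=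
  ⨆ z : {z : rootField P K // ‖τ z‖ = t}, Module.End.eigenspace (R γ) (z.1 : K)

/-- For one Frobenius element with two slopes and one embedding, the multiplicity of one of the slopes
on `U` is prime to the dimension of `U`. -/
def CoprimeSlopes (R : Representation K Γ X) (F : Γ → ℕ → ℕ → ℤ[X] → Prop)
    (U : Submodule K X) : Prop :=
  ∃ (γ : Γ) (p : ℕ) (_ : Fact p.Prime) (a : ℕ) (P : ℤ[X]) (t : ℝ), F γ p a P ∧
    TwoSlopes p a P t ∧ ∃ τ : rootField P K →+* PadicAlgCl p,
      Nat.Coprime (finrank K (slopePart R γ τ t ⊓ U : Submodule K X)) (finrank K U)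

/-- Either there is a Frobenius element with three slopes such that for some embedding the slope given
by `t` has multiplicity one on `U`, or there are a Frobenius element with two slopes and two
embeddings such that exactly one eigenvalue on `U`, counted with multiplicity, has prescribed slopes
for both embeddings. -/
def SimpleSlope (R : Representation K Γ X) (F : Γ → ℕ → ℕ → ℤ[X] → Prop)
    (U : Submodule K X) : Prop :=
  ∃ (γ : Γ) (p : ℕ) (_ : Fact p.Prime) (a : ℕ) (P : ℤ[X]), F γ p a P ∧
    ((∃ (t : ℝ) (τ : rootField P K →+* PadicAlgCl p), ThreeSlopes p a P t ∧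
      finrank K (slopePart R γ τ t ⊓ U : Submodule K X) = 1) ∨
    (∃ (t t' : ℝ) (τ τ' : rootField P K →+* PadicAlgCl p), TwoSlopes p a P t ∧
      TwoSlopes p a P t' ∧
      finrank K (slopePart R γ τ t ⊓ slopePart R γ τ' t' ⊓ U : Submodule K X) = 1))

/-- There is a Frobenius element with three slopes such that for some embedding the slope given by
`t` occurs on `U`. -/
def OuterSlope (R : Representation K Γ X) (F : Γ → ℕ → ℕ → ℤ[X] → Prop)
    (U : Submodule K X) : Prop :=
  ∃ (γ : Γ) (p : ℕ) (_ : Fact p.Prime) (a : ℕ) (P : ℤ[X]) (t : ℝ)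
    (τ : rootField P K →+* PadicAlgCl p), F γ p a P ∧ ThreeSlopes p a P t ∧
    slopePart R γ τ t ⊓ U ≠ ⊥

/-- The element `γ` is a Frobenius element with two slopes, and for every embedding both slopes occur
on `U`. -/
def BothSlopes (R : Representation K Γ X) (F : Γ → ℕ → ℕ → ℤ[X] → Prop) (U : Submodule K X)
    (γ : Γ) : Prop :=
  ∃ (p : ℕ) (_ : Fact p.Prime) (a : ℕ) (P : ℤ[X]) (t : ℝ), F γ p a P ∧
    TwoSlopes p a P t ∧ ∀ τ : rootField P K →+* PadicAlgCl p, ∃ z z' : rootField P K,
      (∃ u ∈ U, u ≠ 0 ∧ R γ u = (z : K) • u) ∧ (∃ u ∈ U, u ≠ 0 ∧ R γ u = (z' : K) • u) ∧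
      ‖τ z‖ ≠ ‖τ z'‖

/-- The element `γ` acts unipotently with `(γ - 1) ^ 2 = 0`, and `γ - 1` has odd rank on `U`. -/
def OddUnipotent (R : Representation K Γ X) (U : Submodule K X) (γ : Γ) : Prop :=
  (R γ - 1) * (R γ - 1) = 0 ∧ Odd (finrank K (U.map (R γ - 1)))

/-- Twists of `U` which occur as subspaces are isomorphic to `U`. -/
def TwistsTrivial (R : Representation K Γ X) (U : Submodule K X) : Prop :=
  ∀ U', StronglyIrreducible R U' → ∀ ψ : Γ → K,
    HasTwistedMap R ψ U U' → HasTwistedMap R (fun _ => 1) U U'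

/-- There are no Weil families. -/
def NoWeilFamilies (R : Representation K Γ X) (χ : Γ →* K) : Prop :=
  ∀ (Q : Type) [Fintype Q] [Nonempty Q] (L : Q → Submodule K X), ¬IsWeilFamily R χ L

end

noncomputable section

variable {ℓ : ℕ} [Fact ℓ.Prime] {V Γ : Type} [AddCommGroup V] [Module ℚ_[ℓ] V]
    [FiniteDimensional ℚ_[ℓ] V] [Group Γ] {ρ : Representation ℚ_[ℓ] Γ V} {χ : Γ →* ℚ_[ℓ]}
    {U : Submodule (AlgebraicClosure ℚ_[ℓ]) (AlgebraicClosure ℚ_[ℓ] ⊗[ℚ_[ℓ]] V)}

theorem hasCoprime (h : CoprimeSlopes (extend (AlgebraicClosure ℚ_[ℓ]) ρ) (IsFrobenius ρ χ) U) :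
    HasCoprimeSlopes ρ χ U := h

theorem hasSimple (h : SimpleSlope (extend (AlgebraicClosure ℚ_[ℓ]) ρ) (IsFrobenius ρ χ) U) :
    HasSimpleSlope ρ χ U := h

theorem hasSlope (h : OuterSlope (extend (AlgebraicClosure ℚ_[ℓ]) ρ) (IsFrobenius ρ χ) U) :
    HasSlope ρ χ U := h

theorem hasBoth {γ : Γ}
    (h : BothSlopes (extend (AlgebraicClosure ℚ_[ℓ]) ρ) (IsFrobenius ρ χ) U γ) :
    HasBothSlopes ρ χ U γ := h

end

end Pool.Agent.R930.Notions
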