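import Mathlib

/-!
# Cartan subalgebras containing a given element, and some operators
-/

set_option linter.unusedSectionVars false

namespace Pool.Agent.R930

open Module LieAlgebra

noncomputable section

section cartan

variable {K L : Type} [Field K] [CharZero K] [LieRing L] [LieAlgebra K L] [FiniteDimensional K L]

/-- The centralizer of an element. -/
def cen (x : L) : LieSubalgebra K L where
  carrier := {y | ⁅x, y⁆ = 0}
  zero_mem' := lie_zero x
  add_mem' := fun {a b} ha hb => by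
    change ⁅x, a + b⁆ = 0
    rw [lie_add, show ⁅x, a⁆ = 0 from ha, show ⁅x, b⁆ = 0 from hb, add_zero]
  smul_mem' := fun c a ha => by
    change ⁅x, c • a⁆ = 0
    rw [lie_smul, show ⁅x, a⁆ = 0 from ha, smul_zero]
  lie_mem' := fun {a b} ha hb => by
    change ⁅x, ⁅a, b⁆⁆ = 0
    rw [leibniz_lie, show ⁅x, a⁆ = 0 from ha, show ⁅x, b⁆ = 0 from hb, zero_lie, lie_zero, add_zero]

/-- A semisimple element lies in a Cartan subalgebra. -/
theorem exists_cartan (x : L) (hx : ∀ y : L, ⁅x, ⁅x, y⁆⁆ = 0 → ⁅x, y⁆ = 0) :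
    ∃ H : LieSubalgebra K L, H.IsCartanSubalgebra ∧ x ∈ H := by
  obtain ⟨C, hC⟩ : ∃ C : LieSubalgebra K L, C = cen x := ⟨_, rfl⟩
  have hCm : ∀ y, y ∈ C ↔ ⁅x, y⁆ = 0 := fun y => by rw [hC]; rfl
  obtain ⟨c, hc⟩ := LieAlgebra.exists_isCartanSubalgebra_engel K C
  obtain ⟨H₀, hH₀⟩ : ∃ H₀ : LieSubalgebra K C, H₀ = LieSubalgebra.engel K c := ⟨_, rfl⟩
  rw [← hH₀] at hc
  let φ : H₀ →ₗ⁅K⁆ L := C.incl.comp H₀.incl
  have hφ : ∀ y, φ y = ((y : C) : L) := fun y => rfl
  have hinj : Function.Injective φ := by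
    intro a b hab
    exact Subtype.ext (Subtype.ext hab)
  have hxC : x ∈ C := (hCm x).2 (lie_self x)
  have hxH₀ : (⟨x, hxC⟩ : C) ∈ H₀ := by
    rw [← LieSubalgebra.IsCartanSubalgebra.self_normalizing (H := H₀),
      LieSubalgebra.mem_normalizer_iff]
    intro y _
    have h1 : ⁅(⟨x, hxC⟩ : C), y⁆ = 0 := Subtype.ext ((hCm y).1 y.2)
    rw [h1]
    exact H₀.zero_mem
  have hxH : x ∈ φ.range := ⟨⟨⟨x, hxC⟩, hxH₀⟩, rfl⟩
  refine ⟨φ.range, ⟨?_, ?_⟩, hxH⟩
  · have h1 : LieRing.IsNilpotent H₀ := hc.nilpotent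
    exact (LieEquiv.nilpotent_iff_equiv_nilpotent (LieEquiv.ofInjective φ hinj)).1 h1
  · apply le_antisymm _ φ.range.le_normalizer
    intro y hy
    rw [LieSubalgebra.mem_normalizer_iff] at hy
    have hyC : y ∈ C := by
      rw [hCm]
      apply hx
      obtain ⟨z, hz⟩ := hy x hxH
      have h1 : ⁅x, φ z⁆ = 0 := (hCm _).1 (z : C).2
      have hz' : φ z = ⁅y, x⁆ := hz
      rw [hz'] at h1
      rw [← lie_skew x y, lie_neg, h1, neg_zero]
    have hyH₀ : (⟨y, hyC⟩ : C) ∈ H₀ := by
      rw [← LieSubalgebra.IsCartanSubalgebra.self_normalizing (H := H₀),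
        LieSubalgebra.mem_normalizer_iff]
      intro z hz
      obtain ⟨w, hw⟩ := hy z ⟨⟨z, hz⟩, rfl⟩
      have h1 : ⁅(⟨y, hyC⟩ : C), z⁆ = w := Subtype.ext hw.symm
      rw [h1]
      exact w.2
    exact ⟨⟨⟨y, hyC⟩, hyH₀⟩, rfl⟩

end cartan

section ops

variable {K : Type} [Field K] [CharZero K] {V : Type} [AddCommGroup V] [Module K V]

theorem op1 {y e : Module.End K V} {c : K} (hy : y * y = (1 / 4 : K) • 1)
    (hye : y * e - e * y = c • e) (hc : c ≠ 0) :
    e * y = -((c / 2) • e) ∧ y * e = (c / 2) • e ∧ (e ≠ 0 → c * c = 1) ∧ e * e = 0 := by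
  have h1 : y * e = e * y + c • e := by rw [← hye]; abel
  have h2 : y * (y * e) = (1 / 4 : K) • e := by rw [← mul_assoc, hy, smul_mul_assoc, one_mul]
  have h2' : e * y * y = (1 / 4 : K) • e := by rw [mul_assoc, hy, mul_smul_comm, mul_one]
  have h3 : (2 * c) • (e * y) = -((c * c) • e) := by
    have h4 : y * (y * e) = (1 / 4 : K) • e + (2 * c) • (e * y) + (c * c) • e := by
      have h5 : y * (y * e) = (y * e) * y + c • (y * e) := by
        conv_lhs => rw [h1, mul_add, mul_smul_comm, ← mul_assoc]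
      rw [h5, h1, add_mul, smul_mul_assoc, h2', smul_add, smul_smul]
      module
    rw [h2] at h4
    have h6 : (2 * c) • (e * y) + (c * c) • e = 0 := by
      have h7 : (1 / 4 : K) • e + ((2 * c) • (e * y) + (c * c) • e) = (1 / 4 : K) • e + 0 := by
        rw [add_zero, ← add_assoc]
        exact h4.symm
      exact add_left_cancel h7
    exact eq_neg_of_add_eq_zero_left h6
  have h4 : e * y = -((c / 2) • e) := by
    have h5 := congrArg (fun z => (2 * c)⁻¹ • z) h3
    simp only [smul_smul, smul_neg] at h5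
    have h2c : 2 * c ≠ 0 := mul_ne_zero two_ne_zero hc
    rw [inv_mul_cancel₀ h2c, one_smul] at h5
    rw [h5]
    congr 2
    field_simp
  have h5 : y * e = (c / 2) • e := by
    rw [h1, h4]
    module
  have h6 : e * e = 0 := by
    have h7 : e * y * e = -((c / 2) • (e * e)) := by rw [h4, neg_mul, smul_mul_assoc]
    have h8 : e * y * e = (c / 2) • (e * e) := by rw [mul_assoc, h5, mul_smul_comm]
    rw [h8] at h7
    have h9 : c • (e * e) = 0 := by
      have : c • (e * e) = (c / 2) • (e * e) + (c / 2) • (e * e) := by module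
      rw [this]
      nth_rewrite 1 [h7]
      abel
    exact (smul_eq_zero.1 h9).resolve_left hc
  refine ⟨h4, h5, fun he => ?_, h6⟩
  have h7 : (c * c / 4) • e = (1 / 4 : K) • e := by
    rw [← h2', h4, neg_mul, smul_mul_assoc, h4]
    module
  have h8 : (c * c / 4 - 1 / 4) • e = 0 := by rw [sub_smul, h7, sub_self]
  have h9 := (smul_eq_zero.1 h8).resolve_right he
  linear_combination 4 * h9

/-- The reflection of an element whose square is one fourth. -/
theorem op2 {y e f : Module.End K V} {c : K} (hy : y * y = (1 / 4 : K) • 1)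
    (hye : y * e - e * y = c • e) (hyf : y * f - f * y = -(c • f)) (hc : c ≠ 0)
    (he : e ≠ 0) (h2 : (e * f - f * e) * e - e * (e * f - f * e) = (2 : K) • e) :
    (y - c • (e * f - f * e)) * (y - c • (e * f - f * e)) = (1 / 4 : K) • 1 := by
  obtain ⟨e1, e2, e3, e4⟩ := op1 hy hye hc
  obtain ⟨f1, f2, -, f4⟩ := op1 (c := -c) hy (by rw [neg_smul]; exact hyf) (neg_ne_zero.2 hc)
  have hcc := e3 he
  have hefe : e * f * e = e := by
    have h3 : (e * f - f * e) * e - e * (e * f - f * e) =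
      (2 : K) • (e * f * e) - f * (e * e) - (e * e) * f := by
      rw [two_smul]
      noncomm_ring
    rw [h3, e4, mul_zero, zero_mul, sub_zero, sub_zero] at h2
    have h4 := congrArg (fun y => (2 : K)⁻¹ • y) h2
    simp only [smul_smul] at h4
    norm_num at h4
    exact h4
  have h3 : (e * f - f * e) * (e * f - f * e) = e * f + f * e := by
    have h5 : (e * f - f * e) * (e * f - f * e) =
        (e * f * e) * f + f * (e * f * e) - e * (f * f) * e - f * (e * e) * f := by noncomm_ring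
    rw [h5, hefe, e4, f4, mul_zero, mul_zero, zero_mul, zero_mul, sub_zero, sub_zero]
  have h4 : y * (e * f - f * e) = (c / 2) • (e * f + f * e) := by
    rw [mul_sub, ← mul_assoc, ← mul_assoc, e2, f2, smul_mul_assoc, smul_mul_assoc]
    module
  have h5 : (e * f - f * e) * y = (c / 2) • (e * f + f * e) := by
    rw [sub_mul, mul_assoc, mul_assoc, e1, f1, mul_neg, mul_neg, mul_smul_comm, mul_smul_comm]
    module
  have h6 : (y - c • (e * f - f * e)) * (y - c • (e * f - f * e)) =
      y * y - c • (y * (e * f - f * e)) - c • ((e * f - f * e) * y) +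
        (c * c) • ((e * f - f * e) * (e * f - f * e)) := by
    rw [mul_sub, sub_mul, sub_mul, mul_smul_comm, smul_mul_assoc, smul_mul_assoc, mul_smul_comm,
      smul_smul]
    abel
  rw [h6, h4, h5, h3, hy, smul_smul, hcc]
  have h7 : c * (c / 2) = 1 / 2 := by linear_combination hcc / 2
  rw [h7]
  module

end ops

end

end Pool.Agent.R930
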