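import Mathlib

/-!
# Counting minuscule weights modulo four

A finite set `Λ` of weights, closed under reflections and under `λ ↦ -λ`, on which the values at all
coroots are `0`, `1` or `-1`.  Every weight is half the sum of strongly orthogonal roots.  If the
multiplicity of a weight is even whenever the number of these roots is even, and if the number of
weights, with multiplicities, is `2` modulo `4`, then for some root the number of weights with value
one at the coroot is odd.
-/

set_option linter.unusedSectionVars false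

namespace Pool.Agent.R930.Comb

variable {ι : Type*} [Fintype ι] [DecidableEq ι]

/-- The data: `p i j` is the value of the root `i` at the coroot `j`, `s i j` is the reflection of
the root `j` with respect to the root `i`, `ng` is the negative, `L` the set of weights, given by their
values on the coroots, and `d` the multiplicity. -/
structure Data (p : ι → ι → ℤ) (s : ι → ι → ι) (ng : ι → ι) (L : Finset (ι → ℤ))
    (d : (ι → ℤ) → ℕ) : Prop where
  two : ∀ i, p i i = 2
  zero : ∀ i j, p i j = 0 → p j i = 0
  ext : ∀ i j, p i j = 2 → p j i = 2 → i = j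
  root_s : ∀ i j k, p (s i j) k = p j k - p j i * p i k
  coroot_s : ∀ i j k, p k (s i j) = p k j - p i j * p k i
  root_ng : ∀ i k, p (ng i) k = - p i k
  coroot_ng : ∀ i k, p k (ng i) = - p k i
  refl : ∀ l ∈ L, ∀ i, (fun k => l k - l i * p i k) ∈ L
  refl_d : ∀ l ∈ L, ∀ i, d (fun k => l k - l i * p i k) = d l
  neg : ∀ l ∈ L, -l ∈ L
  neg_d : ∀ l ∈ L, d (-l) = d l
  ne_zero : (0 : ι → ℤ) ∉ L
  small : ∀ l ∈ L, ∀ i, l i = 0 ∨ l i = 1 ∨ l i = -1
  l_s : ∀ l ∈ L, ∀ i j, l (s i j) = l j - p i j * l i
  l_ng : ∀ l ∈ L, ∀ i, l (ng i) = - l i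
  sep : ∀ l ∈ L, ∀ m ∈ L, l ≠ m → ∃ i, l i = 1 ∧ m i = -1
  par : ∀ l ∈ L, ∀ t : Finset ι, (∀ i ∈ t, ∀ j ∈ t, i ≠ j → p i j = 0) →
    (∀ i ∈ t, ∀ j ∈ t, i ≠ j → ∀ k, p k ≠ p i + p j) → (∑ i ∈ t, p i = 2 • l) →
    Even t.card → Even (d l)

variable {p : ι → ι → ℤ} {s : ι → ι → ι} {ng : ι → ι} {L : Finset (ι → ℤ)} {d : (ι → ℤ) → ℕ}

/-- An orthogonal set of roots with value one. -/
def Fr (p : ι → ι → ℤ) (l : ι → ℤ) (t : Finset ι) : Prop :=
  (∀ i ∈ t, ∀ j ∈ t, i ≠ j → p i j = 0) ∧ ∀ i ∈ t, l i = 1

theorem Fr.mono {l : ι → ℤ} {t t' : Finset ι} (h : Fr p l t) (h' : t' ⊆ t) : Fr p l t' :=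
  ⟨fun i hi j hj => h.1 i (h' hi) j (h' hj), fun i hi => h.2 i (h' hi)⟩

theorem sub_mem (D : Data p s ng L d) {l : ι → ℤ} (hl : l ∈ L) {t : Finset ι} (ht : Fr p l t) :
    l - ∑ i ∈ t, p i ∈ L := by
  classical
  induction t using Finset.induction_on with
  | empty => simpa using hl
  | insert i t hi ih =>
    have h1 := ih (ht.mono (Finset.subset_insert _ _))
    have h2 := D.refl _ h1 i
    have h3 : (l - ∑ j ∈ t, p j) i = 1 := by
      rw [Pi.sub_apply, Finset.sum_apply, Finset.sum_eq_zero, sub_zero,
        ht.2 i (Finset.mem_insert_self _ _)]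
      intro j hj
      exact ht.1 j (Finset.mem_insert_of_mem hj) i (Finset.mem_insert_self _ _)
        (fun h => hi (h ▸ hj))
    rw [h3] at h2
    rw [Finset.sum_insert hi]
    convert h2 using 1
    funext k
    simp only [Pi.sub_apply, Pi.add_apply, one_mul]
    ring

/-- The values of a root on the coroots of a root with value one. -/
theorem val_root (D : Data p s ng L d) {l : ι → ℤ} (hl : l ∈ L) {i k : ι} (hi : l i = 1)
    (hk : l k = 1) : p i k = 0 ∨ p i k = 1 ∨ p i k = 2 := by
  have h1 := D.small _ (D.refl l hl i) k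
  simp only [hi, hk, one_mul] at h1
  omega

theorem frame_max (D : Data p s ng L d) {l : ι → ℤ} (hl : l ∈ L) :
    ∃ t : Finset ι, Fr p l t ∧ ∑ i ∈ t, p i = 2 • l := by
  classical
  obtain ⟨t, ht, hmax⟩ := Finset.exists_max_image
    (Finset.univ.filter fun t : Finset ι => Fr p l t) Finset.card
    ⟨∅, Finset.mem_filter.2 ⟨Finset.mem_univ _, by constructor <;> simp⟩⟩
  have hfr := (Finset.mem_filter.1 ht).2
  refine ⟨t, hfr, ?_⟩
  by_contra hne
  have h1 : l - ∑ i ∈ t, p i ≠ -l := by
    intro h
    apply hne
    have h2 : ∑ i ∈ t, p i = l + l := by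
      funext k
      have := congrFun h k
      simp only [Pi.sub_apply, Pi.neg_apply] at this
      simp only [Pi.add_apply]
      linarith
    rw [h2, two_smul]
  obtain ⟨k, hk1, hk2⟩ := D.sep _ (sub_mem D hl hfr) _ (D.neg l hl) h1
  have hk3 : l k = 1 := by
    rw [Pi.neg_apply] at hk2
    omega
  have h4 : ∑ i ∈ t, p i k = 0 := by
    rw [Pi.sub_apply, Finset.sum_apply, hk3] at hk1
    linarith
  have h5 : ∀ i ∈ t, p i k = 0 := by
    rw [Finset.sum_eq_zero_iff_of_nonneg] at h4
    · exact h4
    · intro i hi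
      rcases val_root D hl (hfr.2 i hi) hk3 with h | h | h <;> omega
  have h6 : k ∉ t := by
    intro hkt
    have := h5 k hkt
    rw [D.two] at this
    omega
  have h7 : Fr p l (insert k t) := by
    constructor
    · intro i hi j hj hij
      rcases Finset.mem_insert.1 hi with hi' | hi' <;>
        rcases Finset.mem_insert.1 hj with hj' | hj'
      · exact absurd (hi'.trans hj'.symm) hij
      · rw [hi']
        exact D.zero _ _ (h5 j hj')
      · rw [hj']
        exact h5 i hi'
      · exact hfr.1 i hi' j hj' hij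
    · intro i hi
      rcases Finset.mem_insert.1 hi with rfl | hi
      · exact hk3
      · exact hfr.2 i hi
  have h8 := hmax (insert k t) (Finset.mem_filter.2 ⟨Finset.mem_univ _, h7⟩)
  rw [Finset.card_insert_of_notMem h6] at h8
  omega

/-- Every weight is half the sum of strongly orthogonal roots. -/
theorem frame (D : Data p s ng L d) {l : ι → ℤ} (hl : l ∈ L) :
    ∃ t : Finset ι, Fr p l t ∧ ∑ i ∈ t, p i = 2 • l ∧
      ∀ i ∈ t, ∀ j ∈ t, i ≠ j → ∀ k, p k ≠ p i + p j := by
  classical
  obtain ⟨t₀, h₀⟩ := frame_max D hl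
  obtain ⟨t, ht, hmin⟩ := Finset.exists_min_image
    (Finset.univ.filter fun t : Finset ι => Fr p l t ∧ ∑ i ∈ t, p i = 2 • l) Finset.card
    ⟨t₀, Finset.mem_filter.2 ⟨Finset.mem_univ _, h₀⟩⟩
  obtain ⟨hfr, hsum⟩ := (Finset.mem_filter.1 ht).2
  refine ⟨t, hfr, hsum, fun i hi j hj hij k hk => ?_⟩
  have hj' : j ∈ t.erase i := Finset.mem_erase.2 ⟨hij.symm, hj⟩
  have h1 : ∀ q ∈ (t.erase i).erase j, p k q = 0 := by
    intro q hq
    have hq1 := Finset.mem_of_mem_erase (Finset.mem_of_mem_erase hq)
    have hqj := Finset.ne_of_mem_erase hq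
    have hqi := Finset.ne_of_mem_erase (Finset.mem_of_mem_erase hq)
    rw [hk, Pi.add_apply, hfr.1 i hi q hq1 hqi.symm, hfr.1 j hj q hq1 hqj.symm, add_zero]
  have h2 : k ∉ (t.erase i).erase j := by
    intro h
    have := h1 k h
    rw [D.two] at this
    omega
  have hsum' : ∑ q ∈ insert k ((t.erase i).erase j), p q = 2 • l := by
    rw [Finset.sum_insert h2, hk, ← hsum, ← Finset.add_sum_erase t _ hi,
      ← Finset.add_sum_erase (t.erase i) _ hj', add_assoc]
  have hlk : l k = 1 := by
    have h3 := congrFun hsum' k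
    rw [Finset.sum_apply, Finset.sum_insert h2, D.two, Finset.sum_eq_zero] at h3
    · simp only [Pi.smul_apply, smul_eq_mul, nsmul_eq_mul, Nat.cast_ofNat] at h3
      linarith
    · intro q hq
      exact D.zero _ _ (h1 q hq)
  have h4 : Fr p l (insert k ((t.erase i).erase j)) := by
    constructor
    · intro a ha b hb hab
      rcases Finset.mem_insert.1 ha with ha' | ha' <;>
        rcases Finset.mem_insert.1 hb with hb' | hb'
      · exact absurd (ha'.trans hb'.symm) hab
      · rw [ha']
        exact h1 b hb'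
      · rw [hb']
        exact D.zero _ _ (h1 a ha')
      · exact hfr.1 a (Finset.mem_of_mem_erase (Finset.mem_of_mem_erase ha')) b
          (Finset.mem_of_mem_erase (Finset.mem_of_mem_erase hb')) hab
    · intro a ha
      rcases Finset.mem_insert.1 ha with rfl | ha
      · exact hlk
      · exact hfr.2 a (Finset.mem_of_mem_erase (Finset.mem_of_mem_erase ha))
  have h5 := hmin _ (Finset.mem_filter.2 ⟨Finset.mem_univ _, h4, hsum'⟩)
  rw [Finset.card_insert_of_notMem h2, Finset.card_erase_of_mem hj', Finset.card_erase_of_mem hi]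
    at h5
  have h6 : 2 ≤ t.card := Finset.one_lt_card.2 ⟨i, hi, j, hj, hij⟩
  omega

/-- The product of the reflections in an orthogonal set of roots. -/
theorem exists_w (D : Data p s ng L d) (t : Finset ι)
    (ht : ∀ i ∈ t, ∀ j ∈ t, i ≠ j → p i j = 0) (k : ι) :
    ∃ k' : ι, p k' = p k - ∑ i ∈ t, p k i • p i ∧
      (∀ q, p q k' = p q k - ∑ i ∈ t, p i k * p q i) ∧
      ∀ l ∈ L, l k' = l k - ∑ i ∈ t, p i k * l i := by
  classical
  induction t using Finset.induction_on with
  | empty => exact ⟨k, by simp, by simp, by simp⟩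
  | insert i t hi ih =>
    obtain ⟨k', h1, h1', h2⟩ := ih fun a ha b hb =>
      ht a (Finset.mem_insert_of_mem ha) b (Finset.mem_insert_of_mem hb)
    have h0 : ∀ j ∈ t, p j i = 0 := fun j hj => ht j (Finset.mem_insert_of_mem hj) i
      (Finset.mem_insert_self _ _) (fun h => hi (h ▸ hj))
    have h0' : ∀ j ∈ t, p i j = 0 := fun j hj => D.zero _ _ (h0 j hj)
    have h3 : p k' i = p k i := by
      rw [h1, Pi.sub_apply, Finset.sum_apply, Finset.sum_eq_zero, sub_zero]
      intro j hj
      rw [Pi.smul_apply, h0 j hj, smul_zero]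
    have h4 : p i k' = p i k := by
      rw [h1', Finset.sum_eq_zero, sub_zero]
      intro j hj
      rw [h0' j hj, mul_zero]
    refine ⟨s i k', ?_, ?_, ?_⟩
    · rw [Finset.sum_insert hi]
      funext q
      rw [D.root_s, h3, h1]
      simp only [Pi.sub_apply, Pi.add_apply, Pi.smul_apply, smul_eq_mul]
      ring
    · intro q
      rw [D.coroot_s, h1', h4, Finset.sum_insert hi]
      ring
    · intro l hl
      rw [D.l_s l hl, h2 l hl, h4, Finset.sum_insert hi]
      ring

theorem root_inj (D : Data p s ng L d) {i j : ι} (h : p i = p j) : i = j := by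
  have h1 := congrFun h i
  have h2 := congrFun h j
  rw [D.two] at h1 h2
  exact D.ext i j h2 h1.symm

/-- The number of roots with value one has the parity of the number of summands. -/
theorem parity (D : Data p s ng L d) {l : ι → ℤ} (hl : l ∈ L) {t : Finset ι} (ht : Fr p l t)
    (hsum : ∑ i ∈ t, p i = 2 • l) (hst : ∀ i ∈ t, ∀ j ∈ t, i ≠ j → ∀ k, p k ≠ p i + p j) :
    ((Finset.univ.filter fun k => l k = 1).card : ZMod 2) = t.card := by
  classical
  choose w hw1 hw2 hw3 using exists_w D t ht.1
  let τ : ι → ι := fun k => ng (w k)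
  have hτ1 : ∀ k, p (τ k) = ∑ i ∈ t, p k i • p i - p k := by
    intro k
    funext q
    rw [D.root_ng, hw1]
    simp only [Pi.sub_apply]
    ring
  have hsum' : ∀ q, ∑ i ∈ t, p i q = 2 * l q := by
    intro q
    have := congrFun hsum q
    rw [Finset.sum_apply] at this
    rw [this]
    simp
  have hτ3 : ∀ k, l (τ k) = l k := by
    intro k
    have h1 : l (τ k) = - l (w k) := D.l_ng l hl _
    rw [h1, hw3 k l hl]
    have h2 : ∑ i ∈ t, p i k * l i = ∑ i ∈ t, p i k :=
      Finset.sum_congr rfl fun i hi => by rw [ht.2 i hi, mul_one]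
    rw [h2, hsum']
    ring
  have hτi : ∀ k, ∀ i ∈ t, p (τ k) i = p k i := by
    intro k i hi
    have h1 := congrFun (hτ1 k) i
    rw [h1, Pi.sub_apply, Finset.sum_apply, Finset.sum_eq_single i]
    · rw [Pi.smul_apply, D.two]
      simp only [smul_eq_mul]
      ring
    · intro j hj hji
      rw [Pi.smul_apply, ht.1 j hj i hi hji, smul_zero]
    · intro h
      exact absurd hi h
  have hττ : ∀ k, τ (τ k) = k := by
    intro k
    apply root_inj D
    rw [hτ1 (τ k)]
    have h1 : ∑ i ∈ t, p (τ k) i • p i = ∑ i ∈ t, p k i • p i :=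
      Finset.sum_congr rfl fun i hi => by rw [hτi k i hi]
    rw [h1, hτ1 k]
    abel
  have hfix : ∀ k, l k = 1 → (τ k = k ↔ k ∈ t) := by
    intro k hk
    constructor
    · intro h
      have h1 : p k = ∑ i ∈ t, p k i • p i - p k := by
        conv_lhs => rw [← h, hτ1]
      have h2 : ∀ i ∈ t, p i k = 0 ∨ p i k = 1 ∨ p i k = 2 := fun i hi =>
        val_root D hl (ht.2 i hi) hk
      have h3 : ∀ i ∈ t, p k i = 0 ∨ p k i = 1 ∨ p k i = 2 := fun i hi =>
        val_root D hl hk (ht.2 i hi)
      have h4 : ∑ i ∈ t, p i k = 2 := by rw [hsum', hk, mul_one]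
      have h5 : ∑ i ∈ t, p k i * p i k = 4 := by
        have h6 := congrFun h1 k
        rw [Pi.sub_apply, Finset.sum_apply, D.two] at h6
        simp only [Pi.smul_apply, smul_eq_mul] at h6
        linarith
      have h6 : ∀ i ∈ t, p i k ≠ 0 → p k i = 2 := by
        by_contra hcon
        push Not at hcon
        obtain ⟨i, hi, hne, hne'⟩ := hcon
        have h7 : ∑ i ∈ t, p k i * p i k < ∑ i ∈ t, 2 * p i k := by
          refine Finset.sum_lt_sum (fun j hj => ?_) ⟨i, hi, ?_⟩
          · rcases h2 j hj with h | h | h <;> rcases h3 j hj with h' | h' | h' <;>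
              rw [h, h'] <;> norm_num
          · rcases h2 i hi with h | h | h
            · exact absurd h hne
            · rcases h3 i hi with h' | h' | h'
              · rw [h, h']; norm_num
              · rw [h, h']; norm_num
              · exact absurd h' hne'
            · rcases h3 i hi with h' | h' | h'
              · rw [h, h']; norm_num
              · rw [h, h']; norm_num
              · exact absurd h' hne'
        rw [← Finset.mul_sum, h4, h5] at h7
        omega
      obtain ⟨i, hi, hne⟩ : ∃ i ∈ t, p i k ≠ 0 := by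
        by_contra hcon
        push Not at hcon
        rw [Finset.sum_eq_zero hcon] at h4
        omega
      rcases h2 i hi with h7 | h7 | h7
      · exact absurd h7 hne
      · exfalso
        have h8 : ∑ j ∈ t.erase i, p j k = 1 := by
          have := Finset.add_sum_erase t (fun j => p j k) hi
          rw [h4, h7] at this
          linarith
        obtain ⟨j, hj, hne2⟩ : ∃ j ∈ t.erase i, p j k ≠ 0 := by
          by_contra hcon
          push Not at hcon
          rw [Finset.sum_eq_zero hcon] at h8
          omega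
        have hji := Finset.ne_of_mem_erase hj
        have hjt := Finset.mem_of_mem_erase hj
        have h9 : ∀ q ∈ (t.erase i).erase j, p q k = 0 := by
          have h10 : ∑ q ∈ (t.erase i).erase j, p q k ≤ 0 := by
            have := Finset.add_sum_erase (t.erase i) (fun j => p j k) hj
            rw [h8] at this
            rcases h2 j hjt with h | h | h
            · exact absurd h hne2
            · rw [h] at this
              linarith
            · rw [h] at this
              linarith
          have h11 : ∀ q ∈ (t.erase i).erase j, 0 ≤ p q k := by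
            intro q hq
            rcases h2 q (Finset.mem_of_mem_erase (Finset.mem_of_mem_erase hq)) with h | h | h <;>
              omega
          exact (Finset.sum_eq_zero_iff_of_nonneg h11).1
            (le_antisymm h10 (Finset.sum_nonneg h11))
        apply hst i hi j hjt hji.symm k
        have h12 : ∑ q ∈ t, p k q • p q = (2 : ℤ) • p i + ((2 : ℤ) • p j + 0) := by
          rw [← Finset.add_sum_erase t _ hi, ← Finset.add_sum_erase (t.erase i) _ hj,
            Finset.sum_eq_zero, h6 i hi hne, h6 j hjt hne2]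
          intro q hq
          rw [D.zero _ _ (h9 q hq), zero_smul]
        rw [h12] at h1
        funext q
        have h13 := congrFun h1 q
        simp only [Pi.add_apply, Pi.sub_apply, Pi.smul_apply, smul_eq_mul, Pi.zero_apply] at h13
        rw [Pi.add_apply]
        linarith
      · rw [D.ext i k h7 (h6 i hi hne)] at hi
        exact hi
    · intro hkt
      apply root_inj D
      rw [hτ1, Finset.sum_eq_single k, D.two]
      · rw [two_smul]
        abel
      · intro j hj hjk
        rw [D.zero _ _ (ht.1 j hj k hkt hjk), zero_smul]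
      · intro h
        exact absurd hkt h
  have h1 : (∑ k ∈ (Finset.univ.filter fun k => l k = 1), (1 : ZMod 2)) =
      ∑ k ∈ t, (1 : ZMod 2) := by
    have hsub : t ⊆ Finset.univ.filter fun k => l k = 1 := fun k hk =>
      Finset.mem_filter.2 ⟨Finset.mem_univ _, ht.2 k hk⟩
    rw [← Finset.sum_sdiff hsub, add_eq_right]
    refine Finset.sum_involution (fun k _ => τ k) ?_ ?_ ?_ ?_
    · intro k _
      decide
    · intro k hk _ h
      have h2 := Finset.mem_sdiff.1 hk
      exact h2.2 ((hfix k (Finset.mem_filter.1 h2.1).2).1 h)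
    · intro k hk
      have h2 := Finset.mem_sdiff.1 hk
      have h3 := (Finset.mem_filter.1 h2.1).2
      rw [Finset.mem_sdiff]
      refine ⟨Finset.mem_filter.2 ⟨Finset.mem_univ _, (hτ3 k).trans h3⟩, fun h => h2.2 ?_⟩
      have h4 := (hfix (τ k) ((hτ3 k).trans h3)).2 h
      rw [hττ] at h4
      rw [h4]
      exact h
    · intro k _
      exact hττ k
  simpa using h1

/-- **Counting.** -/
theorem exists_odd (D : Data p s ng L d) (h : (∑ l ∈ L, d l) % 4 = 2) :
    ∃ i, Odd (∑ l ∈ L.filter (fun l => l i = 1), d l) := by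
  classical
  by_contra hcon
  push Not at hcon
  have hcon' : ∀ i, Even (∑ l ∈ L.filter (fun l => l i = 1), d l) := fun i =>
    Nat.not_odd_iff_even.1 (hcon i)
  -- the count of roots
  let N : (ι → ℤ) → ℕ := fun l => (Finset.univ.filter fun k => l k = 1).card
  have hN : ∀ l ∈ L, Even (d l * N l + d l) := by
    intro l hl
    obtain ⟨t, ht, hsum, hst⟩ := frame D hl
    have h1 := parity D hl ht hsum hst
    rcases Nat.even_or_odd t.card with h2 | h2
    · have h3 := D.par l hl t ht.1 hst hsum h2
      exact (h3.mul_right _).add h3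
    · have h3 : Odd (N l) := by
        rw [← Nat.not_even_iff_odd, ← ZMod.natCast_eq_zero_iff_even] at h2 ⊢
        intro h4
        apply h2
        rw [← h1]
        exact h4
      have h4 : d l * N l + d l = d l * (N l + 1) := by ring
      rw [h4]
      exact (h3.add_odd odd_one).mul_left _
  have hswap : ∑ l ∈ L, d l * N l = ∑ i, ∑ l ∈ L.filter (fun l => l i = 1), d l := by
    have h1 : ∀ l, d l * N l = ∑ i, if l i = 1 then d l else 0 := by
      intro l
      rw [← Finset.sum_filter, Finset.sum_const, smul_eq_mul, mul_comm]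
    rw [Finset.sum_congr rfl fun l _ => h1 l, Finset.sum_comm]
    refine Finset.sum_congr rfl fun i _ => ?_
    rw [Finset.sum_filter]
  have hngn : ∀ i, ng (ng i) = i := by
    intro i
    apply root_inj D
    funext k
    rw [D.root_ng, D.root_ng, neg_neg]
  have hng : ∀ i, ng i ≠ i := by
    intro i h
    have h1 := D.root_ng i i
    rw [h, D.two] at h1
    omega
  have hm : ∀ i, ∑ l ∈ L.filter (fun l => l (ng i) = 1), d l =
      ∑ l ∈ L.filter (fun l => l i = 1), d l := by
    intro i
    refine Finset.sum_nbij' (fun l => -l) (fun l => -l) ?_ ?_ ?_ ?_ ?_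
    · intro l hl
      obtain ⟨h1, h2⟩ := Finset.mem_filter.1 hl
      rw [D.l_ng l h1] at h2
      exact Finset.mem_filter.2 ⟨D.neg l h1, h2⟩
    · intro l hl
      obtain ⟨h1, h2⟩ := Finset.mem_filter.1 hl
      refine Finset.mem_filter.2 ⟨D.neg l h1, ?_⟩
      rw [D.l_ng _ (D.neg l h1), Pi.neg_apply, neg_neg]
      exact h2
    · intro l _
      exact neg_neg l
    · intro l _
      exact neg_neg l
    · intro l hl
      exact (D.neg_d l (Finset.mem_filter.1 hl).1).symm
  have h1 : ((∑ i, ∑ l ∈ L.filter (fun l => l i = 1), d l : ℕ) : ZMod 4) = 0 := by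
    rw [Nat.cast_sum]
    refine Finset.sum_involution (fun i _ => ng i) ?_ ?_ ?_ ?_
    · intro i _
      rw [hm]
      obtain ⟨r, hr⟩ := hcon' i
      rw [hr]
      have h4 : (4 : ZMod 4) = 0 := rfl
      push_cast
      calc (r + r + (r + r) : ZMod 4) = 4 * r := by ring
      _ = 0 := by rw [h4, zero_mul]
    · intro i _ _
      exact hng i
    · intro i _
      exact Finset.mem_univ _
    · intro i _
      exact hngn i
  have hNn : ∀ l ∈ L, N (-l) = N l := by
    intro l hl
    refine Finset.card_nbij' ng ng ?_ ?_ ?_ ?_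
    · intro i hi
      have h2 := (Finset.mem_filter.1 hi).2
      refine Finset.mem_coe.2 (Finset.mem_filter.2 ⟨Finset.mem_univ _, ?_⟩)
      rw [D.l_ng l hl]
      exact h2
    · intro i hi
      have h2 := (Finset.mem_filter.1 hi).2
      refine Finset.mem_coe.2 (Finset.mem_filter.2 ⟨Finset.mem_univ _, ?_⟩)
      rw [Pi.neg_apply, D.l_ng l hl, neg_neg]
      exact h2
    · intro i _
      exact hngn i
    · intro i _
      exact hngn i
  have h2 : ((∑ l ∈ L, (d l * N l + d l) : ℕ) : ZMod 4) = 0 := by
    rw [Nat.cast_sum]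
    refine Finset.sum_involution (fun l _ => -l) ?_ ?_ ?_ ?_
    · intro l hl
      rw [hNn l hl, D.neg_d l hl]
      obtain ⟨r, hr⟩ := hN l hl
      rw [hr]
      have h4 : (4 : ZMod 4) = 0 := rfl
      push_cast
      calc (r + r + (r + r) : ZMod 4) = 4 * r := by ring
      _ = 0 := by rw [h4, zero_mul]
    · intro l hl _ h
      apply D.ne_zero
      have h3 : l = 0 := by
        funext k
        have := congrFun h k
        rw [Pi.neg_apply] at this
        rw [Pi.zero_apply]
        omega
      rwa [h3] at hl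
    · intro l hl
      exact D.neg l hl
    · intro l _
      exact neg_neg l
  rw [Finset.sum_add_distrib, hswap, Nat.cast_add, h1, zero_add] at h2
  rw [ZMod.natCast_eq_zero_iff] at h2
  omega

end Pool.Agent.R930.Comb
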