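import Mathlib
import Pool.Agent.R930.Comb

/-!
# Weights of an irreducible Lie algebra of operators with respect to a family of `sl₂`-triples
-/

set_option linter.unusedSectionVars false

namespace Pool.Agent.R930

open Module

noncomputable section

variable {K : Type} [Field K] [CharZero K] {V : Type} [AddCommGroup V] [Module K V]
  [FiniteDimensional K V] {ι : Type} [Fintype ι] [DecidableEq ι]

/-- Square-zero root vectors of a Lie algebra of operators, with their reflections. -/
structure Ops (𝔥 : Submodule K (Module.End K V)) (x : Module.End K V)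
    (p : ι → ι → ℤ) (s : ι → ι → ι) (ng : ι → ι) (e f h : ι → Module.End K V) : Prop where
  two : ∀ i, p i i = 2
  zero : ∀ i j, p i j = 0 → p j i = 0
  ext : ∀ i j, p i j = 2 → p j i = 2 → i = j
  root_s : ∀ i j k, p (s i j) k = p j k - p j i * p i k
  coroot_s : ∀ i j k, p k (s i j) = p k j - p i j * p k i
  root_ng : ∀ i k, p (ng i) k = - p i k
  coroot_ng : ∀ i k, p k (ng i) = - p k i
  e_mem : ∀ i, e i ∈ 𝔥
  h_eq : ∀ i, h i = e i * f i - f i * e i
  he : ∀ i j, h i * e j - e j * h i = (p j i : K) • e j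
  hf : ∀ i j, h i * f j - f j * h i = -((p j i : K) • f j)
  hh : ∀ i j, h i * h j = h j * h i
  e_sq : ∀ i, e i * e i = 0
  f_sq : ∀ i, f i * f i = 0
  h_s : ∀ i j, h (s i j) = h j - (p i j : K) • h i
  h_ng : ∀ i, h (ng i) = - h i
  ff : ∀ i j, i ≠ j → p i j = 0 → (∀ k, p k ≠ p i + p j) → f i * f j = f j * f i
  gen : ∀ y ∈ 𝔥, ∃ a ∈ Submodule.span K (Set.range e), ∃ z ∈ 𝔥, (∀ i, z * h i = h i * z) ∧
    y = a + z
  x_mem : x ∈ Submodule.span K (Set.range h)

/-- The weight space. -/
def W (h : ι → Module.End K V) (l : ι → ℤ) : Submodule K V :=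
  ⨅ i, Module.End.eigenspace (h i) ((l i : ℤ) : K)

theorem mem_W {h : ι → Module.End K V} {l : ι → ℤ} {v : V} :
    v ∈ W h l ↔ ∀ i, h i v = (l i : K) • v := by
  unfold W
  rw [Submodule.mem_iInf]
  exact forall_congr' fun i => Module.End.mem_eigenspace_iff

variable {𝔥 : Submodule K (Module.End K V)} {x : Module.End K V}
  {p : ι → ι → ℤ} {s : ι → ι → ι} {ng : ι → ι} {e f h : ι → Module.End K V}

namespace Ops

theorem efe (O : Ops 𝔥 x p s ng e f h) (i : ι) : e i * f i * e i = e i := by
  have h1 := O.he i i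
  rw [O.two, O.h_eq] at h1
  have h2 : (e i * f i - f i * e i) * e i - e i * (e i * f i - f i * e i) =
      (2 : K) • (e i * f i * e i) - f i * (e i * e i) - (e i * e i) * f i := by
    rw [two_smul]
    noncomm_ring
  rw [h2, O.e_sq, mul_zero, zero_mul, sub_zero, sub_zero] at h1
  have h3 : ((2 : ℤ) : K) • e i = (2 : K) • e i := by norm_num
  rw [h3] at h1
  have h4 := congrArg (fun y => (2 : K)⁻¹ • y) h1
  simp only [smul_smul] at h4
  norm_num at h4
  exact h4

theorem fef (O : Ops 𝔥 x p s ng e f h) (i : ι) : f i * e i * f i = f i := by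
  have h1 := O.hf i i
  rw [O.two, O.h_eq] at h1
  have h2 : (e i * f i - f i * e i) * f i - f i * (e i * f i - f i * e i) =
      -((2 : K) • (f i * e i * f i)) + e i * (f i * f i) + (f i * f i) * e i := by
    rw [two_smul]
    noncomm_ring
  rw [h2, O.f_sq, mul_zero, zero_mul, add_zero, add_zero, neg_inj] at h1
  have h3 : ((2 : ℤ) : K) • f i = (2 : K) • f i := by norm_num
  rw [h3] at h1
  have h4 := congrArg (fun y => (2 : K)⁻¹ • y) h1
  simp only [smul_smul] at h4
  norm_num at h4
  exact h4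

theorem h_sq (O : Ops 𝔥 x p s ng e f h) (i : ι) : h i * h i = e i * f i + f i * e i := by
  rw [O.h_eq]
  have h2 : (e i * f i - f i * e i) * (e i * f i - f i * e i) =
      (e i * f i * e i) * f i + (f i * e i * f i) * e i - e i * (f i * f i) * e i
        - f i * (e i * e i) * f i := by noncomm_ring
  rw [h2, O.efe, O.fef, O.e_sq, O.f_sq, mul_zero, mul_zero, zero_mul, zero_mul, sub_zero, sub_zero]

theorem h_cube (O : Ops 𝔥 x p s ng e f h) (i : ι) : h i * h i * h i = h i := by
  rw [O.h_sq]
  have h2 : (e i * f i + f i * e i) * h i =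
      (e i * f i * e i) * f i - (f i * e i * f i) * e i - e i * (f i * f i) * e i
        + f i * (e i * e i) * f i := by
    rw [O.h_eq]
    noncomm_ring
  rw [h2, O.efe, O.fef, O.e_sq, O.f_sq, mul_zero, mul_zero, zero_mul, zero_mul, sub_zero, add_zero]
  exact (O.h_eq i).symm

theorem ef_eq (O : Ops 𝔥 x p s ng e f h) (i : ι) :
    e i * f i = (2 : K)⁻¹ • (h i * h i + h i) := by
  have h1 : h i * h i + h i = (2 : K) • (e i * f i) := by
    rw [O.h_sq, O.h_eq, two_smul]
    abel
  rw [h1, smul_smul]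
  norm_num

/-- The weights are small. -/
theorem small (O : Ops 𝔥 x p s ng e f h) {l : ι → ℤ} (hl : W h l ≠ ⊥) (i : ι) :
    l i = 0 ∨ l i = 1 ∨ l i = -1 := by
  obtain ⟨v, hv, hv0⟩ := Submodule.exists_mem_ne_zero_of_ne_bot hl
  have h1 := mem_W.1 hv i
  have h2 : (h i * h i * h i) v = ((l i : K) * l i * l i) • v := by
    simp only [Module.End.mul_apply, h1, map_smul, smul_smul, mul_assoc]
  rw [O.h_cube, h1, ← sub_eq_zero, ← sub_smul] at h2
  have h3 := (smul_eq_zero.1 h2).resolve_right hv0
  have h4 : l i - l i * l i * l i = 0 := by exact_mod_cast h3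
  have h5 : l i * ((1 - l i) * (1 + l i)) = 0 := by linear_combination h4
  rcases mul_eq_zero.1 h5 with h6 | h6
  · exact Or.inl h6
  · rcases mul_eq_zero.1 h6 with h7 | h7
    · right; left; omega
    · right; right; omega

/-- `e j` adds a root. -/
theorem e_maps (O : Ops 𝔥 x p s ng e f h) {l : ι → ℤ} {v : V} (hv : v ∈ W h l) (j : ι) :
    e j v ∈ W h (l + p j) := by
  rw [mem_W] at hv ⊢
  intro i
  have h1 := congrArg (fun y : Module.End K V => y v) (O.he i j)
  have h2 : h i (e j v) - e j (h i v) = (p j i : K) • e j v := h1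
  rw [hv i, map_smul, sub_eq_iff_eq_add] at h2
  rw [h2, ← add_smul, Pi.add_apply]
  push_cast
  rw [add_comm]

/-- `f j` subtracts a root. -/
theorem f_maps (O : Ops 𝔥 x p s ng e f h) {l : ι → ℤ} {v : V} (hv : v ∈ W h l) (j : ι) :
    f j v ∈ W h (l - p j) := by
  rw [mem_W] at hv ⊢
  intro i
  have h1 := congrArg (fun y : Module.End K V => y v) (O.hf i j)
  have h2 : h i (f j v) - f j (h i v) = -((p j i : K) • f j v) := h1
  rw [hv i, map_smul, sub_eq_iff_eq_add] at h2
  rw [h2, ← neg_smul, ← add_smul, Pi.sub_apply]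
  push_cast
  congr 1
  ring

theorem z_maps {l : ι → ℤ} {v : V} (hv : v ∈ W h l) {z : Module.End K V}
    (hz : ∀ i, z * h i = h i * z) : z v ∈ W h l := by
  rw [mem_W] at hv ⊢
  intro i
  have h1 := congrArg (fun y : Module.End K V => y v) (hz i)
  have h2 : z (h i v) = h i (z v) := h1
  rw [← h2, hv i, map_smul]

theorem e_zero (O : Ops 𝔥 x p s ng e f h) {l : ι → ℤ} {v : V} (hv : v ∈ W h l) {j : ι}
    (hj : l j ≠ -1) : e j v = 0 := by
  by_contra hne
  have h1 : W h l ≠ ⊥ := by
    intro h2
    rw [h2, Submodule.mem_bot] at hv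
    rw [hv, map_zero] at hne
    exact hne rfl
  have h2 : W h (l + p j) ≠ ⊥ := by
    intro h2
    have := O.e_maps hv j
    rw [h2, Submodule.mem_bot] at this
    exact hne this
  have h3 := O.small h1 j
  have h4 := O.small h2 j
  rw [Pi.add_apply, O.two] at h4
  omega

theorem f_zero (O : Ops 𝔥 x p s ng e f h) {l : ι → ℤ} {v : V} (hv : v ∈ W h l) {j : ι}
    (hj : l j ≠ 1) : f j v = 0 := by
  by_contra hne
  have h1 : W h l ≠ ⊥ := by
    intro h2
    rw [h2, Submodule.mem_bot] at hv
    rw [hv, map_zero] at hne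
    exact hne rfl
  have h2 : W h (l - p j) ≠ ⊥ := by
    intro h2
    have := O.f_maps hv j
    rw [h2, Submodule.mem_bot] at this
    exact hne this
  have h3 := O.small h1 j
  have h4 := O.small h2 j
  rw [Pi.sub_apply, O.two] at h4
  omega

theorem ef_apply (O : Ops 𝔥 x p s ng e f h) {l : ι → ℤ} {v : V} (hv : v ∈ W h l) {j : ι}
    (hj : l j = 1) : e j (f j v) = v := by
  have h1 : (e j * f j) v = v := by
    rw [O.ef_eq, LinearMap.smul_apply, LinearMap.add_apply, Module.End.mul_apply,
      mem_W.1 hv j, map_smul, mem_W.1 hv j, hj]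
    simp only [Int.cast_one, one_smul]
    rw [← two_smul K, smul_smul]
    norm_num
  exact h1

theorem fe_apply (O : Ops 𝔥 x p s ng e f h) {l : ι → ℤ} {v : V} (hv : v ∈ W h l) {j : ι}
    (hj : l j = -1) : f j (e j v) = v := by
  have h1 : (f j * e j) v = v := by
    have h2 : f j * e j = e j * f j - h j := by rw [O.h_eq]; abel
    rw [h2, O.ef_eq, LinearMap.sub_apply, LinearMap.smul_apply, LinearMap.add_apply,
      Module.End.mul_apply, mem_W.1 hv j, map_smul, mem_W.1 hv j, hj]
    simp only [Int.cast_neg, Int.cast_one, neg_smul, one_smul, neg_neg, smul_neg, smul_add]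
    abel
  exact h1

/-! ### The weight decomposition -/

theorem W_le (h : ι → Module.End K V) (l : ι → ℤ) :
    W h l ≤ ⨅ i, (h i).maxGenEigenspace ((l i : ℤ) : K) :=
  iInf_mono fun i => ((h i).genEigenspace ((l i : ℤ) : K)).mono le_top

theorem indep (O : Ops 𝔥 x p s ng e f h) : iSupIndep (W h) := by
  have h1 : iSupIndep fun χ : ι → K => ⨅ i, (h i).maxGenEigenspace (χ i) := by
    refine Module.End.independent_iInf_maxGenEigenspace_of_forall_mapsTo h fun i j φ => ?_
    exact Module.End.mapsTo_maxGenEigenspace_of_comm (O.hh j i) φ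
  have hinj : Function.Injective (fun (l : ι → ℤ) (i : ι) => ((l i : ℤ) : K)) := by
    intro l m hlm
    funext i
    have h2 : ((l i : ℤ) : K) = ((m i : ℤ) : K) := congrFun hlm i
    exact_mod_cast h2
  exact (h1.comp hinj).mono (W_le h)

theorem eigen_small (O : Ops 𝔥 x p s ng e f h) (i : ι) :
    ⨆ μ : K, (h i).eigenspace μ = ⊤ := by
  rw [eq_top_iff]
  intro v _
  have e1 : v = (v - (h i * h i) v) + ((2 : K)⁻¹ • (h i * h i + h i) v +
      (2 : K)⁻¹ • (h i * h i - h i) v) := by
    simp only [LinearMap.add_apply, LinearMap.sub_apply]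
    module
  have hc : ∀ v, h i (h i (h i v)) = h i v := fun v =>
    congrArg (fun y : Module.End K V => y v) (O.h_cube i)
  rw [e1]
  refine Submodule.add_mem _ ?_ (Submodule.add_mem _ (Submodule.smul_mem _ _ ?_)
    (Submodule.smul_mem _ _ ?_))
  · refine Submodule.mem_iSup_of_mem (0 : K) ?_
    rw [Module.End.mem_eigenspace_iff, map_sub, Module.End.mul_apply, hc, sub_self, zero_smul]
  · refine Submodule.mem_iSup_of_mem (1 : K) ?_
    rw [Module.End.mem_eigenspace_iff, LinearMap.add_apply, map_add, Module.End.mul_apply, hc,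
      one_smul, add_comm]
  · refine Submodule.mem_iSup_of_mem (-1 : K) ?_
    rw [Module.End.mem_eigenspace_iff, LinearMap.sub_apply, map_sub, Module.End.mul_apply, hc,
      neg_smul, one_smul, neg_sub]

theorem iSup_W (O : Ops 𝔥 x p s ng e f h) : ⨆ l, W h l = ⊤ := by
  have h1 : ⨆ χ : ι → K, ⨅ i, (h i).maxGenEigenspace (χ i) = ⊤ := by
    refine Module.End.iSup_iInf_maxGenEigenspace_eq_top_of_iSup_maxGenEigenspace_eq_top_of_commute
      h (fun i j _ => O.hh i j) fun i => ?_
    rw [eq_top_iff, ← O.eigen_small i]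
    exact iSup_mono fun μ => ((h i).genEigenspace μ).mono le_top
  rw [eq_top_iff, ← h1]
  refine iSup_le fun χ => ?_
  have hss : ∀ i (μ : K), (h i).maxGenEigenspace μ = (h i).eigenspace μ := by
    intro i μ
    apply le_antisymm _ (((h i).genEigenspace μ).mono le_top)
    intro v hv
    have hc : ∀ v, h i (h i (h i v)) = h i v := fun v =>
      congrArg (fun y : Module.End K V => y v) (O.h_cube i)
    have hst : ∀ w ∈ (h i).maxGenEigenspace μ, h i w ∈ (h i).maxGenEigenspace μ := fun w hw =>
      Module.End.mapsTo_maxGenEigenspace_of_comm (Commute.refl _) μ hw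
    have hkey : ∀ (ν : K) (w : V), w ∈ (h i).maxGenEigenspace μ → h i w = ν • w →
        w ∈ (h i).eigenspace μ := by
      intro ν w hw hν
      by_cases hμν : ν = μ
      · rw [← hμν]
        exact Module.End.mem_eigenspace_iff.2 hν
      · have h2 : w ∈ (h i).genEigenspace ν ⊤ :=
          ((h i).genEigenspace ν).mono le_top (Module.End.mem_eigenspace_iff.2 hν)
        have h3 := ((h i).disjoint_genEigenspace hμν ⊤ ⊤).le_bot ⟨h2, hw⟩
        rw [Submodule.mem_bot] at h3
        rw [h3]
        exact Submodule.zero_mem _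
    have e1 : v = (v - h i (h i v)) + ((2 : K)⁻¹ • (h i (h i v) + h i v) +
        (2 : K)⁻¹ • (h i (h i v) - h i v)) := by
      module
    have hv1 := hst v hv
    have hv2 := hst _ hv1
    rw [e1]
    refine Submodule.add_mem _ ?_ (Submodule.add_mem _ (Submodule.smul_mem _ _ ?_)
      (Submodule.smul_mem _ _ ?_))
    · refine hkey 0 _ (Submodule.sub_mem _ hv hv2) ?_
      rw [map_sub, hc, sub_self, zero_smul]
    · refine hkey 1 _ (Submodule.add_mem _ hv2 hv1) ?_
      rw [map_add, hc, one_smul, add_comm]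
    · refine hkey (-1) _ (Submodule.sub_mem _ hv2 hv1) ?_
      rw [map_sub, hc, neg_smul, one_smul, neg_sub]
  simp_rw [hss]
  by_cases hbot : (⨅ i, (h i).eigenspace (χ i)) = ⊥
  · rw [hbot]
    exact bot_le
  · obtain ⟨v, hv, hv0⟩ := Submodule.exists_mem_ne_zero_of_ne_bot hbot
    rw [Submodule.mem_iInf] at hv
    have h2 : ∀ i, ∃ n : ℤ, χ i = n := by
      intro i
      have h3 : h i v = χ i • v := Module.End.mem_eigenspace_iff.1 (hv i)
      have h4 : (h i * h i * h i) v = (χ i * χ i * χ i) • v := by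
        simp only [Module.End.mul_apply, h3, map_smul, smul_smul, mul_assoc]
      rw [O.h_cube, h3, ← sub_eq_zero, ← sub_smul] at h4
      have h5 := (smul_eq_zero.1 h4).resolve_right hv0
      have h6 : χ i * ((1 - χ i) * (1 + χ i)) = 0 := by linear_combination h5
      rcases mul_eq_zero.1 h6 with h7 | h7
      · exact ⟨0, by rw [h7]; simp⟩
      · rcases mul_eq_zero.1 h7 with h8 | h8
        · exact ⟨1, by push_cast; linear_combination -h8⟩
        · exact ⟨-1, by push_cast; linear_combination h8⟩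
    choose n hn using h2
    refine le_trans (le_of_eq ?_) (le_iSup (W h) n)
    unfold W
    simp_rw [hn]

/-- A set of weights that carries everything contains all weights. -/
theorem mem_of_top (O : Ops 𝔥 x p s ng e f h) {S : Set (ι → ℤ)}
    (hS : ⨆ l ∈ S, W h l = ⊤) {m : ι → ℤ} (hm : W h m ≠ ⊥) : m ∈ S := by
  by_contra hcon
  have h1 := O.indep m
  have h2 : (⨆ l ∈ S, W h l) ≤ ⨆ (j) (_ : j ≠ m), W h j :=
    iSup₂_le fun l hl => le_iSup₂_of_le l (fun h => hcon (h ▸ hl)) le_rfl
  rw [hS, top_le_iff] at h2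
  rw [h2, disjoint_top] at h1
  exact hm h1

theorem internal (O : Ops 𝔥 x p s ng e f h) : DirectSum.IsInternal (W h) :=
  DirectSum.isInternal_submodule_of_iSupIndep_of_iSup_eq_top O.indep O.iSup_W

theorem finite (O : Ops 𝔥 x p s ng e f h) : {l | W h l ≠ ⊥}.Finite :=
  WellFoundedGT.finite_ne_bot_of_iSupIndep O.indep

/-- The weights. -/
def wts (O : Ops 𝔥 x p s ng e f h) : Finset (ι → ℤ) := O.finite.toFinset

theorem mem_wts (O : Ops 𝔥 x p s ng e f h) {l : ι → ℤ} : l ∈ O.wts ↔ W h l ≠ ⊥ := by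
  unfold wts
  simp

theorem trace_eq (O : Ops 𝔥 x p s ng e f h) (q : Module.End K V) (c : (ι → ℤ) → K)
    (hq : ∀ l, ∀ v ∈ W h l, q v = c l • v) :
    LinearMap.trace K V q = ∑ l ∈ O.wts, c l * finrank K (W h l) := by
  have hst : ∀ l, Set.MapsTo q (W h l) (W h l) := by
    intro l v hv
    change q v ∈ W h l
    rw [hq l v hv]
    exact Submodule.smul_mem _ _ hv
  rw [LinearMap.trace_eq_sum_trace_restrict' O.internal O.finite hst]
  refine Finset.sum_congr rfl fun l _ => ?_
  have h1 : q.restrict (hst l) = c l • LinearMap.id := by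
    refine LinearMap.ext fun v => Subtype.ext ?_
    exact hq l v v.2
  rw [h1, map_smul, LinearMap.trace_id, smul_eq_mul]

theorem finrank_eq (O : Ops 𝔥 x p s ng e f h) :
    finrank K V = ∑ l ∈ O.wts, finrank K (W h l) := by
  have h1 := O.trace_eq 1 (fun _ => 1) (fun l v _ => by rw [one_smul]; rfl)
  rw [LinearMap.trace_one] at h1
  simp only [one_mul] at h1
  exact_mod_cast h1

theorem trace_proj {q : Module.End K V} (hq : q * q = q) :
    LinearMap.trace K V q = finrank K (LinearMap.range q) := by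
  have h1 : LinearMap.IsProj (LinearMap.range q) q :=
    ⟨fun v => ⟨v, rfl⟩, by
      rintro _ ⟨v, rfl⟩
      exact congrArg (fun y : Module.End K V => y v) hq⟩
  exact h1.trace

/-- The rank of a root vector. -/
theorem rank_e (O : Ops 𝔥 x p s ng e f h) (i : ι) :
    finrank K (LinearMap.range (e i)) =
      ∑ l ∈ O.wts.filter (fun l => l i = 1), finrank K (W h l) := by
  have h1 := O.trace_eq (e i * f i) (fun l => if l i = 1 then 1 else 0) (by
    intro l v hv
    by_cases hl : l i = 1
    · rw [if_pos hl, one_smul]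
      exact O.ef_apply hv hl
    · rw [if_neg hl, zero_smul, Module.End.mul_apply, O.f_zero hv hl, map_zero])
  rw [trace_proj (by rw [← mul_assoc, O.efe])] at h1
  have h2 : LinearMap.range (e i * f i) = LinearMap.range (e i) := by
    apply le_antisymm
    · rintro _ ⟨v, rfl⟩
      exact ⟨f i v, rfl⟩
    · rintro _ ⟨v, rfl⟩
      refine ⟨e i v, ?_⟩
      exact congrArg (fun y : Module.End K V => y v) (O.efe i)
  rw [h2] at h1
  rw [Finset.sum_filter]
  have h3 : (∑ l ∈ O.wts, (if l i = 1 then (1 : K) else 0) * finrank K (W h l)) =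
      ((∑ l ∈ O.wts, if l i = 1 then finrank K (W h l) else 0 : ℕ) : K) := by
    push_cast
    refine Finset.sum_congr rfl fun l _ => ?_
    split_ifs <;> simp
  rw [h3] at h1
  exact_mod_cast h1

theorem zero_notMem (O : Ops 𝔥 x p s ng e f h) (hx : x * x = (1 / 4 : K) • 1) :
    (0 : ι → ℤ) ∉ O.wts := by
  rw [mem_wts, not_not, eq_bot_iff]
  intro v hv
  have h1 : ∀ i, h i v = 0 := by
    intro i
    rw [mem_W.1 hv i]
    simp
  have h2 : x v = 0 := by
    have h3 : ∀ y ∈ Submodule.span K (Set.range h), y v = 0 := by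
      intro y hy
      induction hy using Submodule.span_induction with
      | mem y hy =>
        obtain ⟨i, rfl⟩ := hy
        exact h1 i
      | zero => rfl
      | add a b _ _ ha hb => rw [LinearMap.add_apply, ha, hb, add_zero]
      | smul c a _ ha => rw [LinearMap.smul_apply, ha, smul_zero]
    exact h3 x O.x_mem
  have h3 : (x * x) v = (1 / 4 : K) • v := by rw [hx]; rfl
  rw [Module.End.mul_apply, h2, map_zero] at h3
  rw [Submodule.mem_bot]
  rcases smul_eq_zero.1 h3.symm with h4 | h4
  · norm_num at h4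
  · exact h4

theorem l_s (O : Ops 𝔥 x p s ng e f h) {l : ι → ℤ} (hl : W h l ≠ ⊥) (i j : ι) :
    l (s i j) = l j - p i j * l i := by
  obtain ⟨v, hv, hv0⟩ := Submodule.exists_mem_ne_zero_of_ne_bot hl
  have h1 := mem_W.1 hv (s i j)
  rw [O.h_s, LinearMap.sub_apply, LinearMap.smul_apply, mem_W.1 hv i, mem_W.1 hv j, smul_smul,
    ← sub_smul, ← sub_eq_zero, ← sub_smul] at h1
  have h2 := (smul_eq_zero.1 h1).resolve_right hv0
  have h3 : l j - p i j * l i - l (s i j) = 0 := by exact_mod_cast h2
  linarith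

theorem l_ng (O : Ops 𝔥 x p s ng e f h) {l : ι → ℤ} (hl : W h l ≠ ⊥) (i : ι) :
    l (ng i) = - l i := by
  obtain ⟨v, hv, hv0⟩ := Submodule.exists_mem_ne_zero_of_ne_bot hl
  have h1 := mem_W.1 hv (ng i)
  rw [O.h_ng, LinearMap.neg_apply, mem_W.1 hv i, ← neg_smul, ← sub_eq_zero, ← sub_smul] at h1
  have h2 := (smul_eq_zero.1 h1).resolve_right hv0
  have h3 : -l i - l (ng i) = 0 := by exact_mod_cast h2
  linarith

/-! ### Reflections -/

theorem f_inj (O : Ops 𝔥 x p s ng e f h) {l : ι → ℤ} {i : ι} (hl : l i = 1) :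
    finrank K (W h l) ≤ finrank K (W h (l - p i)) := by
  have hst : ∀ v ∈ W h l, f i v ∈ W h (l - p i) := fun v hv => O.f_maps hv i
  refine LinearMap.finrank_le_finrank_of_injective (f := (f i).restrict hst) ?_
  intro u v huv
  have h1 : f i u = f i v := congrArg Subtype.val huv
  apply Subtype.ext
  rw [← O.ef_apply u.2 hl, ← O.ef_apply v.2 hl, h1]

theorem e_inj (O : Ops 𝔥 x p s ng e f h) {l : ι → ℤ} {i : ι} (hl : l i = -1) :
    finrank K (W h l) ≤ finrank K (W h (l + p i)) := by
  have hst : ∀ v ∈ W h l, e i v ∈ W h (l + p i) := fun v hv => O.e_maps hv i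
  refine LinearMap.finrank_le_finrank_of_injective (f := (e i).restrict hst) ?_
  intro u v huv
  have h1 : e i u = e i v := congrArg Subtype.val huv
  apply Subtype.ext
  rw [← O.fe_apply u.2 hl, ← O.fe_apply v.2 hl, h1]

theorem finrank_refl (O : Ops 𝔥 x p s ng e f h) {l : ι → ℤ} (hl : W h l ≠ ⊥) (i : ι) :
    finrank K (W h (fun k => l k - l i * p i k)) = finrank K (W h l) := by
  rcases O.small hl i with h1 | h1 | h1
  · have h2 : (fun k => l k - l i * p i k) = l := by
      funext k
      rw [h1, zero_mul, sub_zero]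
    rw [h2]
  · have h2 : (fun k => l k - l i * p i k) = l - p i := by
      funext k
      rw [h1, one_mul]
      rfl
    rw [h2]
    apply le_antisymm _ (O.f_inj h1)
    have h3 := O.e_inj (l := l - p i) (i := i) (by rw [Pi.sub_apply, h1, O.two]; norm_num)
    rwa [sub_add_cancel] at h3
  · have h2 : (fun k => l k - l i * p i k) = l + p i := by
      funext k
      rw [h1, neg_one_mul, sub_neg_eq_add]
      rfl
    rw [h2]
    apply le_antisymm _ (O.e_inj h1)
    have h3 := O.f_inj (l := l + p i) (i := i) (by rw [Pi.add_apply, h1, O.two]; norm_num)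
    rwa [add_sub_cancel_right] at h3

theorem refl_ne (O : Ops 𝔥 x p s ng e f h) {l : ι → ℤ} (hl : W h l ≠ ⊥) (i : ι) :
    W h (fun k => l k - l i * p i k) ≠ ⊥ := by
  intro h1
  have h2 := O.finrank_refl hl i
  rw [h1, finrank_bot] at h2
  exact hl (Submodule.finrank_eq_zero.1 h2.symm)

end Ops

end

end Pool.Agent.R930
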