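import Mathlib
import Pool.Agent.R930.Ops

/-!
# Weights of an irreducible Lie algebra of operators: separation and parity
-/

set_option linter.unusedSectionVars false

namespace Pool.Agent.R930

open Module

noncomputable section

variable {K : Type} [Field K] [CharZero K] {V : Type} [AddCommGroup V] [Module K V]
  [FiniteDimensional K V]

section closure

variable {𝔥 : Submodule K (Module.End K V)} (hbr : ∀ X ∈ 𝔥, ∀ Y ∈ 𝔥, X * Y - Y * X ∈ 𝔥)
  (hirr : ∀ U : Submodule K V, (∀ Y ∈ 𝔥, ∀ u ∈ U, Y u ∈ U) → U = ⊥ ∨ U = ⊤)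

include hbr hirr in
/-- If the raising operators kill a subspace, it generates everything under the other
operators. -/
theorem top_of_killed {B A : Set (Module.End K V)} (hB : ∀ b ∈ B, b ∈ 𝔥)
    (hgen : ∀ y ∈ 𝔥, y ∈ Submodule.span K (B ∪ A)) {U₀ X : Submodule K V} (hU₀ : U₀ ≠ ⊥)
    (hkill : ∀ a ∈ A, ∀ u ∈ U₀, a u = 0) (hX : U₀ ≤ X) (hXB : ∀ b ∈ B, ∀ u ∈ X, b u ∈ X) :
    X = ⊤ := by
  obtain ⟨U, hU⟩ : ∃ U : Submodule K V,
      U = sInf {U' | U₀ ≤ U' ∧ ∀ b ∈ B, ∀ u ∈ U', b u ∈ U'} := ⟨_, rfl⟩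
  have hU0 : U₀ ≤ U := by
    rw [hU]
    exact le_sInf fun U' h => h.1
  have hUB : ∀ b ∈ B, ∀ u ∈ U, b u ∈ U := by
    intro b hb u hu
    rw [hU, Submodule.mem_sInf] at hu ⊢
    intro U' h
    exact h.2 b hb u (hu U' h)
  have hUX : U ≤ X := by
    rw [hU]
    exact sInf_le ⟨hX, hXB⟩
  let T : Submodule K V :=
    { carrier := {w | w ∈ U ∧ ∀ y ∈ 𝔥, y w ∈ U}
      zero_mem' := ⟨U.zero_mem, fun y _ => by rw [map_zero]; exact U.zero_mem⟩
      add_mem' := fun {a b} ha hb => ⟨U.add_mem ha.1 hb.1, fun y hy => by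
        rw [map_add]; exact U.add_mem (ha.2 y hy) (hb.2 y hy)⟩
      smul_mem' := fun c a ha => ⟨U.smul_mem c ha.1, fun y hy => by
        rw [map_smul]; exact U.smul_mem c (ha.2 y hy)⟩ }
  have hT : U ≤ T := by
    have h1 : T ∈ {U' | U₀ ≤ U' ∧ ∀ b ∈ B, ∀ u ∈ U', b u ∈ U'} := by
      refine ⟨fun u hu => ⟨hU0 hu, fun y hy => ?_⟩, ?_⟩
      · have h2 := hgen y hy
        clear hy
        induction h2 using Submodule.span_induction with
        | mem y hy =>
          rcases hy with hy | hy
          · exact hUB y hy u (hU0 hu)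
          · rw [hkill y hy u hu]
            exact U.zero_mem
        | zero => exact U.zero_mem
        | add a b _ _ ha hb => exact U.add_mem ha hb
        | smul c a _ ha => exact U.smul_mem c ha
      · intro b hb u hu
        refine ⟨hUB b hb u hu.1, fun y hy => ?_⟩
        have h2 := hu.2 _ (hbr y hy b (hB b hb))
        have h3 := hUB b hb _ (hu.2 y hy)
        have h4 : y (b u) = b (y u) + (y * b - b * y) u := by
          rw [LinearMap.sub_apply, Module.End.mul_apply, Module.End.mul_apply]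
          abel
        rw [h4]
        exact U.add_mem h3 h2
    conv_lhs => rw [hU]
    exact sInf_le h1
  rcases hirr U (fun y hy u hu => (hT hu).2 y hy) with h | h
  · exfalso
    apply hU₀
    rw [eq_bot_iff, ← h]
    exact hU0
  · rw [eq_top_iff, ← h]
    exact hUX

end closure

variable {ι : Type} [Fintype ι] [DecidableEq ι]
variable {𝔥 : Submodule K (Module.End K V)} {x : Module.End K V}
  {p : ι → ι → ℤ} {s : ι → ι → ι} {ng : ι → ι} {e f h : ι → Module.End K V}

namespace Ops

theorem root_inj (O : Ops 𝔥 x p s ng e f h) {i j : ι} (h : p i = p j) : i = j := by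
  have h1 := congrFun h i
  have h2 := congrFun h j
  rw [O.two] at h1 h2
  exact O.ext i j h2 h1.symm

theorem s_s (O : Ops 𝔥 x p s ng e f h) (i j : ι) : s i (s i j) = j := by
  apply O.root_inj
  funext k
  rw [O.root_s, O.root_s, O.root_s, O.two]
  ring

/-- The invariant form. -/
def br (l m : ι → ℤ) : ℤ := ∑ i, l i * m i

theorem two_br (O : Ops 𝔥 x p s ng e f h) {l : ι → ℤ} (hl : W h l ≠ ⊥) (j : ι) :
    2 * br l (p j) = l j * br (p j) (p j) := by
  have h1 : br l (p j) = ∑ i, l (s j i) * p j (s j i) := by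
    unfold br
    exact (Equiv.sum_comp (Function.Involutive.toPerm (s j) (O.s_s j))
      (fun i => l i * p j i)).symm
  have h2 : ∀ i, l (s j i) * p j (s j i) = -(l i * p j i) + l j * (p j i * p j i) := by
    intro i
    rw [O.l_s hl, O.coroot_s, O.two]
    ring
  rw [Finset.sum_congr rfl fun i _ => h2 i, Finset.sum_add_distrib, Finset.sum_neg_distrib,
    ← Finset.mul_sum] at h1
  unfold br at h1 ⊢
  linarith

theorem br_pos (O : Ops 𝔥 x p s ng e f h) (j : ι) : 0 < br (p j) (p j) := by
  unfold br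
  refine Finset.sum_pos' (fun i _ => mul_self_nonneg _) ⟨j, Finset.mem_univ _, ?_⟩
  rw [O.two]
  norm_num

/-- Operators that do not increase the value of the form with `l`. -/
def Low (𝔥 : Submodule K (Module.End K V)) (e h : ι → Module.End K V) (l : ι → ℤ) :
    Set (Module.End K V) :=
  {b | (∃ i, l i ≤ 0 ∧ b = e i) ∨ (b ∈ 𝔥 ∧ ∀ i, b * h i = h i * b)}

theorem low_mem (O : Ops 𝔥 x p s ng e f h) {l : ι → ℤ} {b : Module.End K V}
    (hb : b ∈ Low 𝔥 e h l) : b ∈ 𝔥 := by
  rcases hb with ⟨i, _, rfl⟩ | hb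
  · exact O.e_mem i
  · exact hb.1

theorem gen_low (O : Ops 𝔥 x p s ng e f h) (l : ι → ℤ) (y : Module.End K V) (hy : y ∈ 𝔥) :
    y ∈ Submodule.span K (Low 𝔥 e h l ∪ {a | ∃ i, 0 < l i ∧ a = e i}) := by
  obtain ⟨a, ha, z, hz, hzc, rfl⟩ := O.gen y hy
  refine Submodule.add_mem _ ?_ (Submodule.subset_span (Or.inl (Or.inr ⟨hz, hzc⟩)))
  refine Submodule.span_mono ?_ ha
  rintro _ ⟨i, rfl⟩
  by_cases hi : l i ≤ 0
  · exact Or.inl (Or.inl ⟨i, hi, rfl⟩)
  · exact Or.inr ⟨i, by omega, rfl⟩

theorem iSup_stable {S : Set (ι → ℤ)} {b : Module.End K V}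
    (hb : ∀ m ∈ S, ∀ v ∈ W h m, b v ∈ ⨆ l ∈ S, W h l) (u : V) (hu : u ∈ ⨆ l ∈ S, W h l) :
    b u ∈ ⨆ l ∈ S, W h l := by
  have h1 : (⨆ l ∈ S, W h l) ≤ (⨆ l ∈ S, W h l).comap b :=
    iSup₂_le fun m hm v hv => hb m hm v hv
  exact h1 hu

theorem sep (O : Ops 𝔥 x p s ng e f h) (hbr : ∀ X ∈ 𝔥, ∀ Y ∈ 𝔥, X * Y - Y * X ∈ 𝔥)
    (hirr : ∀ U : Submodule K V, (∀ Y ∈ 𝔥, ∀ u ∈ U, Y u ∈ U) → U = ⊥ ∨ U = ⊤)
    {l m : ι → ℤ} (hl : W h l ≠ ⊥) (hm : W h m ≠ ⊥) (hne : l ≠ m) :
    ∃ i, l i = 1 ∧ m i = -1 := by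
  by_contra hcon
  push Not at hcon
  -- first application
  have h1 : br l m < br l l := by
    obtain ⟨S, hS⟩ : ∃ S : Set (ι → ℤ), S = {q | q = l ∨ br l q < br l l} := ⟨_, rfl⟩
    have hlS : l ∈ S := by rw [hS]; exact Or.inl rfl
    have htop : ⨆ q ∈ S, W h q = ⊤ := by
      refine top_of_killed hbr hirr (B := Low 𝔥 e h l) (A := {a | ∃ i, 0 < l i ∧ a = e i})
        (fun b hb => O.low_mem hb) (O.gen_low l) hl ?_ (le_iSup₂_of_le l hlS le_rfl) ?_
      · rintro _ ⟨i, hi, rfl⟩ u hu
        exact O.e_zero hu (by omega)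
      · rintro b (⟨i, hi, rfl⟩ | ⟨hb, hbc⟩) u hu
        · refine iSup_stable ?_ u hu
          intro q hq v hv
          by_cases hv0 : e i v = 0
          · rw [hv0]
            exact Submodule.zero_mem _
          have hv1 := O.e_maps hv i
          refine Submodule.mem_iSup_of_mem (q + p i) (Submodule.mem_iSup_of_mem ?_ hv1)
          have h2 := O.two_br hl i
          have h3 := O.br_pos i
          have h4 : br l (q + p i) = br l q + br l (p i) := by
            unfold br
            rw [← Finset.sum_add_distrib]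
            exact Finset.sum_congr rfl fun j _ => by rw [Pi.add_apply, mul_add]
          rw [hS] at hq ⊢
          right
          rcases hq with rfl | hq
          · have h5 : q i = -1 := by
              by_contra h5
              exact hv0 (O.e_zero hv h5)
            rw [h5] at h2
            linarith
          · have h5 : br l (p i) ≤ 0 := by nlinarith
            linarith
        · refine iSup_stable ?_ u hu
          intro q hq v hv
          exact Submodule.mem_iSup_of_mem q (Submodule.mem_iSup_of_mem hq (z_maps hv hbc))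
    have h2 := O.mem_of_top htop hm
    rw [hS] at h2
    rcases h2 with h2 | h2
    · exact absurd h2.symm hne
    · exact h2
  -- second application
  have h2 : br l l ≤ br l m := by
    obtain ⟨S, hS⟩ : ∃ S : Set (ι → ℤ), S = {q | br l q ≤ br l m} := ⟨_, rfl⟩
    have hmS : m ∈ S := by
      rw [hS]
      exact le_refl (br l m)
    have htop : ⨆ q ∈ S, W h q = ⊤ := by
      refine top_of_killed hbr hirr (B := Low 𝔥 e h l) (A := {a | ∃ i, 0 < l i ∧ a = e i})
        (fun b hb => O.low_mem hb) (O.gen_low l) hm ?_ (le_iSup₂_of_le m hmS le_rfl) ?_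
      · rintro _ ⟨i, hi, rfl⟩ u hu
        have h3 : l i = 1 := by rcases O.small hl i with h | h | h <;> omega
        exact O.e_zero hu (hcon i h3)
      · rintro b (⟨i, hi, rfl⟩ | ⟨hb, hbc⟩) u hu
        · refine iSup_stable ?_ u hu
          intro q hq v hv
          have hv1 := O.e_maps hv i
          refine Submodule.mem_iSup_of_mem (q + p i) (Submodule.mem_iSup_of_mem ?_ hv1)
          have h2 := O.two_br hl i
          have h3 := O.br_pos i
          have h4 : br l (q + p i) = br l q + br l (p i) := by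
            unfold br
            rw [← Finset.sum_add_distrib]
            exact Finset.sum_congr rfl fun j _ => by rw [Pi.add_apply, mul_add]
          rw [hS] at hq ⊢
          have h5 : br l (p i) ≤ 0 := by nlinarith
          change br l q ≤ br l m at hq
          change br l (q + p i) ≤ br l m
          linarith
        · refine iSup_stable ?_ u hu
          intro q hq v hv
          exact Submodule.mem_iSup_of_mem q (Submodule.mem_iSup_of_mem hq (z_maps hv hbc))
    have h3 := O.mem_of_top htop hl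
    rw [hS] at h3
    exact h3
  linarith

/-! ### The form -/

section form

variable (om : V →ₗ[K] V →ₗ[K] K) (halt : ∀ v, om v v = 0)
  (hnd : ∀ u, (∀ v, om u v = 0) → u = 0)

include hnd in
theorem ne_zero_of_ne (O : Ops 𝔥 x p s ng e f h)
    (hsk : ∀ i, ∀ a b, om (h i a) b + om a (h i b) = 0) {l : ι → ℤ} {u : V} (hu : u ∈ W h l)
    (h0 : ∀ v ∈ W h (-l), om u v = 0) : u = 0 := by
  apply hnd
  intro v
  have hv : v ∈ ⨆ m, W h m := by rw [O.iSup_W]; trivial
  have h1 : (⨆ m, W h m) ≤ LinearMap.ker (om u) := by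
    refine iSup_le fun m w hw => ?_
    rw [LinearMap.mem_ker]
    by_cases hm : m = -l
    · rw [hm] at hw
      exact h0 w hw
    · obtain ⟨i, hi⟩ := Function.ne_iff.1 hm
      have h2 := hsk i u w
      rw [mem_W.1 hu i, mem_W.1 hw i, map_smul, map_smul, LinearMap.smul_apply, smul_eq_mul,
        smul_eq_mul, ← add_mul] at h2
      rcases mul_eq_zero.1 h2 with h3 | h3
      · exfalso
        apply hi
        have h4 : l i + m i = 0 := by exact_mod_cast h3
        rw [Pi.neg_apply]
        omega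
      · exact h3
  exact h1 hv

include hnd in
theorem finrank_neg_le (O : Ops 𝔥 x p s ng e f h)
    (hsk : ∀ i, ∀ a b, om (h i a) b + om a (h i b) = 0) (l : ι → ℤ) :
    finrank K (W h l) ≤ finrank K (W h (-l)) := by
  have h1 : finrank K (Module.Dual K (W h (-l))) = finrank K (W h (-l)) :=
    Subspace.dual_finrank_eq
  rw [← h1]
  refine LinearMap.finrank_le_finrank_of_injective
    (f := (om.compl₁₂ (W h l).subtype (W h (-l)).subtype :
      W h l →ₗ[K] W h (-l) →ₗ[K] K)) ?_
  rw [← LinearMap.ker_eq_bot, eq_bot_iff]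
  intro u hu
  rw [LinearMap.mem_ker] at hu
  rw [Submodule.mem_bot]
  apply Subtype.ext
  refine ne_zero_of_ne om hnd O hsk u.2 fun v hv => ?_
  exact congrArg (fun g : W h (-l) →ₗ[K] K => g ⟨v, hv⟩) hu

include hnd in
theorem finrank_neg (O : Ops 𝔥 x p s ng e f h)
    (hsk : ∀ i, ∀ a b, om (h i a) b + om a (h i b) = 0) (l : ι → ℤ) :
    finrank K (W h (-l)) = finrank K (W h l) := by
  apply le_antisymm _ (finrank_neg_le om hnd O hsk l)
  have h1 := finrank_neg_le om hnd O hsk (-l)
  rwa [neg_neg] at h1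

end form

end Ops

/-- A space with a nondegenerate alternating form has even dimension. -/
theorem even_of_alt {U : Type} [AddCommGroup U] [Module K U] [FiniteDimensional K U]
    (wf : U →ₗ[K] U →ₗ[K] K) (halt : ∀ u v, wf u v = - wf v u)
    (hnd : ∀ u, (∀ v, wf u v = 0) → u = 0) : Even (Module.finrank K U) := by
  let n := Module.finrank K U
  let b := Module.finBasis K U
  let Ω : Matrix (Fin n) (Fin n) K := fun i j => wf (b i) (b j)
  have h1 : Ω.transpose = -Ω := by
    ext i j
    exact halt _ _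
  have h2 : Ω.det ≠ 0 := by
    intro h0
    obtain ⟨v, hv, hvz⟩ := Matrix.exists_vecMul_eq_zero_iff.2 h0
    apply hv
    have h3 : (∑ i, v i • b i) = 0 := by
      apply hnd
      intro w
      have h4 : ∀ j, wf (∑ i, v i • b i) (b j) = 0 := by
        intro j
        have h5 := congrFun hvz j
        simp only [Matrix.vecMul, dotProduct, Pi.zero_apply] at h5
        rw [map_sum, LinearMap.sum_apply]
        simpa [Ω] using h5
      have h6 : wf (∑ i, v i • b i) = 0 := b.ext (fun j => h4 j)
      rw [h6]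
      rfl
    have h4 := b.linearIndependent
    rw [Fintype.linearIndependent_iff] at h4
    ext i
    exact h4 v h3 i
  have h3 : Ω.det = (-1) ^ n * Ω.det := by
    conv_lhs => rw [← Matrix.det_transpose, h1, Matrix.det_neg, Fintype.card_fin]
  have h4 : ((-1 : K)) ^ n = 1 := by
    have h5 : (1 - (-1 : K) ^ n) * Ω.det = 0 := by linear_combination h3
    rcases mul_eq_zero.1 h5 with h | h
    · linear_combination -h
    · exact absurd h h2
  rcases Nat.even_or_odd n with h | h
  · exact h
  · rw [h.neg_one_pow] at h4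
    norm_num at h4

namespace Ops

section form

variable (om : V →ₗ[K] V →ₗ[K] K) (halt : ∀ v, om v v = 0)
  (hnd : ∀ u, (∀ v, om u v = 0) → u = 0)

/-- The product of commuting lowering operators. -/
theorem exists_F (O : Ops 𝔥 x p s ng e f h) (hskf : ∀ i, ∀ a b, om (f i a) b + om a (f i b) = 0)
    {l : ι → ℤ} (t : Finset ι) (ht : Comb.Fr p l t)
    (hst : ∀ i ∈ t, ∀ j ∈ t, i ≠ j → ∀ k, p k ≠ p i + p j) :
    ∃ F : Module.End K V, (∀ a b, om (F a) b = (-1) ^ t.card * om a (F b)) ∧
      (∀ v ∈ W h l, F v ∈ W h (l - ∑ i ∈ t, p i)) ∧ (∀ v ∈ W h l, F v = 0 → v = 0) ∧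
      ∀ y : Module.End K V, (∀ i ∈ t, y * f i = f i * y) → y * F = F * y := by
  classical
  induction t using Finset.induction_on with
  | empty =>
    refine ⟨1, by simp, by simp, by simp, fun y _ => by rw [mul_one, one_mul]⟩
  | insert i t hi ih =>
    obtain ⟨F, h1, h2, h3, h4⟩ := ih (ht.mono (Finset.subset_insert _ _))
      (fun a ha b hb => hst a (Finset.mem_insert_of_mem ha) b (Finset.mem_insert_of_mem hb))
    have h0 : ∀ j ∈ t, i ≠ j := fun j hj h => hi (h ▸ hj)
    have hc : f i * F = F * f i := h4 _ fun j hj => O.ff i j (h0 j hj)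
      (ht.1 i (Finset.mem_insert_self _ _) j (Finset.mem_insert_of_mem hj) (h0 j hj))
      (hst i (Finset.mem_insert_self _ _) j (Finset.mem_insert_of_mem hj) (h0 j hj))
    have hval : (l - ∑ j ∈ t, p j) i = 1 := by
      rw [Pi.sub_apply, Finset.sum_apply, Finset.sum_eq_zero, sub_zero,
        ht.2 i (Finset.mem_insert_self _ _)]
      intro j hj
      exact ht.1 j (Finset.mem_insert_of_mem hj) i (Finset.mem_insert_self _ _) (h0 j hj).symm
    refine ⟨f i * F, ?_, ?_, ?_, ?_⟩
    · intro a b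
      have h5 := hskf i (F a) b
      rw [Finset.card_insert_of_notMem hi, pow_succ]
      have h6 : (f i * F) b = F (f i b) := by rw [hc]; rfl
      have h7 : (f i * F) a = f i (F a) := rfl
      rw [h6, h7]
      have h8 := h1 a (f i b)
      linear_combination h5 - h8
    · intro v hv
      have h5 := O.f_maps (h2 v hv) i
      rw [Finset.sum_insert hi, ← sub_sub, sub_right_comm]
      exact h5
    · intro v hv hv0
      apply h3 v hv
      rw [← O.ef_apply (h2 v hv) hval]
      have h5 : f i (F v) = 0 := hv0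
      rw [h5, map_zero]
    · intro y hy
      have h5 := h4 y fun j hj => hy j (Finset.mem_insert_of_mem hj)
      have h6 := hy i (Finset.mem_insert_self _ _)
      rw [← mul_assoc, h6, mul_assoc, h5, mul_assoc]

include halt hnd in
theorem par (O : Ops 𝔥 x p s ng e f h) (hskf : ∀ i, ∀ a b, om (f i a) b + om a (f i b) = 0)
    (hskh : ∀ i, ∀ a b, om (h i a) b + om a (h i b) = 0)
    {l : ι → ℤ} {t : Finset ι} (ht : Comb.Fr p l t)
    (hst : ∀ i ∈ t, ∀ j ∈ t, i ≠ j → ∀ k, p k ≠ p i + p j) (hsum : ∑ i ∈ t, p i = 2 • l)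
    (heven : Even t.card) : Even (finrank K (W h l)) := by
  obtain ⟨F, h1, h2, h3, -⟩ := exists_F om O hskf t ht hst
  have hl : l - ∑ i ∈ t, p i = -l := by
    rw [hsum, two_smul]
    abel
  rw [hl] at h2
  have hanti : ∀ a b, om a b = - om b a := by
    intro a b
    have h4 := halt (a + b)
    simp only [map_add, LinearMap.add_apply, halt, zero_add, add_zero] at h4
    linear_combination h4
  refine even_of_alt (om.compl₁₂ (W h l).subtype (F.comp (W h l).subtype)) ?_ ?_
  · intro u v
    change om u (F v) = - om v (F u)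
    have h5 := h1 v u
    rw [heven.neg_one_pow, one_mul] at h5
    rw [← h5, hanti]
  · intro u hu
    apply Subtype.ext
    refine ne_zero_of_ne om hnd O hskh u.2 fun w hw => ?_
    have hinj : Function.Injective (F.restrict h2) := by
      rw [← LinearMap.ker_eq_bot, eq_bot_iff]
      intro v hv
      rw [LinearMap.mem_ker] at hv
      rw [Submodule.mem_bot]
      exact Subtype.ext (h3 v v.2 (congrArg Subtype.val hv))
    have hsurj : Function.Surjective (F.restrict h2) :=
      (LinearMap.injective_iff_surjective_of_finrank_eq_finrank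
        (finrank_neg om hnd O hskh l).symm).1 hinj
    obtain ⟨v, hv⟩ := hsurj ⟨w, hw⟩
    have h5 : F v = w := congrArg Subtype.val hv
    rw [← h5]
    exact hu v

include halt hnd in
/-- **An odd root vector.** -/
theorem exists_odd (O : Ops 𝔥 x p s ng e f h) (hx : x * x = (1 / 4 : K) • 1)
    (hbr : ∀ X ∈ 𝔥, ∀ Y ∈ 𝔥, X * Y - Y * X ∈ 𝔥)
    (hirr : ∀ U : Submodule K V, (∀ Y ∈ 𝔥, ∀ u ∈ U, Y u ∈ U) → U = ⊥ ∨ U = ⊤)
    (hskf : ∀ i, ∀ a b, om (f i a) b + om a (f i b) = 0)
    (hskh : ∀ i, ∀ a b, om (h i a) b + om a (h i b) = 0) (hdim : finrank K V % 4 = 2) :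
    ∃ i, Odd (finrank K (LinearMap.range (e i))) := by
  have hneg : ∀ l, W h l ≠ ⊥ → W h (-l) ≠ ⊥ := by
    intro l hl h1
    have h2 := finrank_neg om hnd O hskh l
    rw [h1, finrank_bot] at h2
    exact hl (Submodule.finrank_eq_zero.1 h2.symm)
  have D : Comb.Data p s ng O.wts (fun l => finrank K (W h l)) :=
    { two := O.two
      zero := O.zero
      ext := O.ext
      root_s := O.root_s
      coroot_s := O.coroot_s
      root_ng := O.root_ng
      coroot_ng := O.coroot_ng
      refl := fun l hl i => O.mem_wts.2 (O.refl_ne (O.mem_wts.1 hl) i)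
      refl_d := fun l hl i => O.finrank_refl (O.mem_wts.1 hl) i
      neg := fun l hl => O.mem_wts.2 (hneg l (O.mem_wts.1 hl))
      neg_d := fun l _ => finrank_neg om hnd O hskh l
      ne_zero := O.zero_notMem hx
      small := fun l hl i => O.small (O.mem_wts.1 hl) i
      l_s := fun l hl i j => O.l_s (O.mem_wts.1 hl) i j
      l_ng := fun l hl i => O.l_ng (O.mem_wts.1 hl) i
      sep := fun l hl m hm hne => O.sep hbr hirr (O.mem_wts.1 hl) (O.mem_wts.1 hm) hne
      par := fun l hl t h1 h2 h3 h4 => by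
        refine par om halt hnd O hskf hskh (t := t) ⟨h1, fun i hi => ?_⟩ h2 h3 h4
        have h5 := congrFun h3 i
        rw [Finset.sum_apply, Finset.sum_eq_single i (fun j hj hji => h1 j hj i hi hji)
          (fun h => absurd hi h), O.two] at h5
        simp only [Pi.smul_apply, nsmul_eq_mul, Nat.cast_ofNat] at h5
        linarith }
  rw [O.finrank_eq] at hdim
  obtain ⟨i, hi⟩ := Comb.exists_odd D hdim
  exact ⟨i, by rwa [O.rank_e]⟩

end form

end Ops

end

end Pool.Agent.R930
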