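import Mathlib
import Pool.Agent.R930.Cartan
import Pool.Agent.R930.Ops2

/-!
# The root vectors of an irreducible Lie algebra of operators that contains an element whose square
is one fourth
-/

set_option linter.unusedSectionVars false

namespace Pool.Agent.R930

open Module LieAlgebra LieAlgebra.IsKilling LieModule

noncomputable section

attribute [local instance 100] LieRing.ofAssociativeRing

variable {K : Type} [Field K] [CharZero K] [IsAlgClosed K] {V : Type} [AddCommGroup V]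
  [Module K V] [FiniteDimensional K V]

section sub

variable (𝔥 : Submodule K (Module.End K V)) (hbr : ∀ X ∈ 𝔥, ∀ Y ∈ 𝔥, X * Y - Y * X ∈ 𝔥)

/-- The Lie algebra of a space of operators closed under brackets. -/
def lsub : LieSubalgebra K (Module.End K V) :=
  { 𝔥 with lie_mem' := fun {X Y} hX hY => hbr X hX Y hY }

theorem mem_lsub {y : Module.End K V} : y ∈ lsub 𝔥 hbr ↔ y ∈ 𝔥 := Iff.rfl

theorem lsub_br (a b : lsub 𝔥 hbr) :
    ((⁅a, b⁆ : lsub 𝔥 hbr) : Module.End K V) = (a : Module.End K V) * b - b * a := rfl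

theorem lsub_killing (hirr : ∀ U : Submodule K V, (∀ Y ∈ 𝔥, ∀ u ∈ U, Y u ∈ U) → U = ⊥ ∨ U = ⊤)
    (hnt : Nontrivial V) (htr : ∀ y ∈ 𝔥, LinearMap.trace K V y = 0) :
    IsKilling K (lsub 𝔥 hbr) := by
  have h1 : LieModule.IsIrreducible K (lsub 𝔥 hbr) V := by
    refine ⟨fun N => ?_⟩
    rcases hirr N.toSubmodule (fun Y hY u hu => N.lie_mem (x := (⟨Y, hY⟩ : lsub 𝔥 hbr)) hu)
      with h | h
    · left
      exact (LieSubmodule.toSubmodule_eq_bot N).1 h
    · right
      exact (LieSubmodule.toSubmodule_eq_top N).1 h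
  have h2 : HasTrivialRadical K (lsub 𝔥 hbr) :=
    hasTrivialRadical_of_isIrreducible_of_isFaithful K (lsub 𝔥 hbr) V fun y => htr y y.2
  infer_instance

end sub

section main

variable {𝔥 : Submodule K (Module.End K V)} {hbr : ∀ X ∈ 𝔥, ∀ Y ∈ 𝔥, X * Y - Y * X ∈ 𝔥}
  [IsKilling K (lsub 𝔥 hbr)] {H : LieSubalgebra K (lsub 𝔥 hbr)} [H.IsCartanSubalgebra]

/-- The operator of an element. -/
def op (y : lsub 𝔥 hbr) : Module.End K V := y

theorem op_br (a b : lsub 𝔥 hbr) : op ⁅a, b⁆ = op a * op b - op b * op a := rfl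

theorem op_mem (a : lsub 𝔥 hbr) : op a ∈ 𝔥 := a.2

/-- The square is one fourth. -/
def Sq (y : H) : Prop := op (y : lsub 𝔥 hbr) * op (y : lsub 𝔥 hbr) = (1 / 4 : K) • 1

/-- Some element of `H` whose square is one fourth does not commute with the root vector. -/
def Act (i : H.root) : Prop := ∃ y : H, Sq y ∧ i.1 y ≠ 0

variable (e f : H.root → lsub 𝔥 hbr)
  (ht : ∀ i, IsSl2Triple ((coroot i.1 : H) : lsub 𝔥 hbr) (e i) (f i))
  (he : ∀ i, e i ∈ rootSpace H i.1) (hf : ∀ i, f i ∈ rootSpace H (-(i.1 : H → K)))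

include he in
theorem br_e (y : H) (j : H.root) :
    op (y : lsub 𝔥 hbr) * op (e j) - op (e j) * op (y : lsub 𝔥 hbr) = (j.1 y) • op (e j) :=
  congrArg op (lie_eq_smul_of_mem_rootSpace (he j) y)

include hf in
theorem br_f (y : H) (j : H.root) :
    op (y : lsub 𝔥 hbr) * op (f j) - op (f j) * op (y : lsub 𝔥 hbr) = -((j.1 y) • op (f j)) := by
  have h1 := congrArg op (lie_eq_smul_of_mem_rootSpace (hf j) y)
  rw [Pi.neg_apply, neg_smul] at h1
  exact h1

include ht in
theorem op_coroot (i : H.root) :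
    op ((coroot i.1 : H) : lsub 𝔥 hbr) = op (e i) * op (f i) - op (f i) * op (e i) := by
  rw [← op_br, (ht i).lie_e_f]

include ht in
theorem op_e_ne (i : H.root) : op (e i) ≠ 0 := by
  intro h
  exact (ht i).e_ne_zero (Subtype.ext h)

include ht in
theorem sl2_e (i : H.root) : (op (e i) * op (f i) - op (f i) * op (e i)) * op (e i) -
    op (e i) * (op (e i) * op (f i) - op (f i) * op (e i)) = (2 : K) • op (e i) := by
  rw [← op_coroot e f ht]
  have h1 := congrArg op ((ht i).lie_h_e_smul K)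
  exact h1

/-- The reflection of an element of the Cartan subalgebra. -/
theorem sq_refl (ht : ∀ i, IsSl2Triple ((coroot i.1 : H) : lsub 𝔥 hbr) (e i) (f i))
    (he : ∀ i, e i ∈ rootSpace H i.1) (hf : ∀ i, f i ∈ rootSpace H (-(i.1 : H → K)))
    {y : H} (hy : Sq y) (i : H.root) : Sq (y - (i.1 y) • coroot i.1) := by
  by_cases h0 : i.1 y = 0
  · rw [h0, zero_smul, sub_zero]
    exact hy
  · have h1 := op2 hy (br_e e he y i) (br_f f hf y i) h0 (op_e_ne e f ht i) (sl2_e e f ht i)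
    rw [← op_coroot e f ht i] at h1
    exact h1

theorem act_sq_e (ht : ∀ i, IsSl2Triple ((coroot i.1 : H) : lsub 𝔥 hbr) (e i) (f i))
    (he : ∀ i, e i ∈ rootSpace H i.1) {i : H.root} (hi : Act i) : op (e i) * op (e i) = 0 := by
  obtain ⟨y, hy, hne⟩ := hi
  exact (op1 hy (br_e e he y i) hne).2.2.2

theorem act_sq_f (hf : ∀ i, f i ∈ rootSpace H (-(i.1 : H → K))) {i : H.root} (hi : Act i) :
    op (f i) * op (f i) = 0 := by
  obtain ⟨y, hy, hne⟩ := hi
  exact (op1 (c := -(i.1 y)) hy (by rw [neg_smul]; exact br_f f hf y i) (neg_ne_zero.2 hne)).2.2.2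

theorem pairing_eq (i j : H.root) :
    (((rootSystem H).pairingIn ℤ i j : ℤ) : K) = i.1 (coroot j.1) := by
  have h1 := (rootSystem H).algebraMap_pairingIn ℤ i j
  rw [eq_intCast] at h1
  rw [h1]
  rfl

theorem lin (i : Weight K H (lsub 𝔥 hbr)) (a b : H) (c : K) : i (a - c • b) = i a - c * i b := by
  have h1 : Weight.toLinear K H (lsub 𝔥 hbr) i (a - c • b) =
      Weight.toLinear K H (lsub 𝔥 hbr) i a - c * Weight.toLinear K H (lsub 𝔥 hbr) i b := by
    rw [map_sub, map_smul, smul_eq_mul]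
  exact h1

theorem root_refl (i j : H.root) (y : H) :
    ((rootSystem H).reflectionPerm i j).1 y = j.1 y - (j.1 (coroot i.1)) * i.1 y := by
  have h1 := (rootSystem H).root_reflectionPerm i j
  rw [RootPairing.reflection_apply_root] at h1
  have h2 := congrArg (fun g : Module.Dual K H => g y) h1
  exact h2

theorem coroot_refl (i j : H.root) :
    coroot ((rootSystem H).reflectionPerm i j).1 =
      (coroot j.1 : H) - (i.1 (coroot j.1)) • coroot i.1 := by
  have h1 := (rootSystem H).coroot_reflectionPerm i j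
  rw [RootPairing.coreflection_apply_coroot] at h1
  exact h1

theorem act_refl (ht : ∀ i, IsSl2Triple ((coroot i.1 : H) : lsub 𝔥 hbr) (e i) (f i))
    (he : ∀ i, e i ∈ rootSpace H i.1) (hf : ∀ i, f i ∈ rootSpace H (-(i.1 : H → K)))
    {i : H.root} (hi : Act i) (j : H.root) : Act ((rootSystem H).reflectionPerm j i) := by
  obtain ⟨y, hy, hne⟩ := hi
  refine ⟨y - (j.1 y) • coroot j.1, sq_refl e f ht he hf hy j, ?_⟩
  rw [root_refl, lin, lin, root_apply_coroot (H.isNonZero_coe_root j)]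
  have h1 : i.1 y - j.1 y * i.1 (coroot j.1) - i.1 (coroot j.1) * (j.1 y - j.1 y * 2) =
      i.1 y := by ring
  rw [h1]
  exact hne

theorem act_orth (ht : ∀ i, IsSl2Triple ((coroot i.1 : H) : lsub 𝔥 hbr) (e i) (f i))
    (he : ∀ i, e i ∈ rootSpace H i.1) (hf : ∀ i, f i ∈ rootSpace H (-(i.1 : H → K)))
    {i j : H.root} (hi : Act i) (hj : ¬ Act j) : j.1 (coroot i.1) = 0 := by
  obtain ⟨y, hy, hne⟩ := hi
  have h1 : ∀ z : H, Sq z → j.1 z = 0 := by
    intro z hz
    by_contra h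
    exact hj ⟨z, hz, h⟩
  have h2 := h1 _ (sq_refl e f ht he hf hy i)
  rw [lin, h1 y hy, zero_sub, neg_eq_zero] at h2
  exact (mul_eq_zero.1 h2).resolve_left hne

/-- The index set of the active roots. -/
abbrev Ix (H : LieSubalgebra K (lsub 𝔥 hbr)) [H.IsCartanSubalgebra] : Type :=
  {i : H.root // Act i}

theorem int_eq {a b : ℤ} (h : (a : K) = b) : a = b := by exact_mod_cast h

theorem ops_gen (ht : ∀ i, IsSl2Triple ((coroot i.1 : H) : lsub 𝔥 hbr) (e i) (f i))
    (he : ∀ i, e i ∈ rootSpace H i.1) (hf : ∀ i, f i ∈ rootSpace H (-(i.1 : H → K)))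
    (y : Module.End K V) (hy : y ∈ 𝔥) :
    ∃ a ∈ Submodule.span K (Set.range fun i : Ix H => op (e i.1)), ∃ z ∈ 𝔥,
      (∀ i : Ix H, z * op ((coroot i.1.1 : H) : lsub 𝔥 hbr) =
        op ((coroot i.1.1 : H) : lsub 𝔥 hbr) * z) ∧ y = a + z := by
  let Z : Submodule K (Module.End K V) :=
    { carrier := {z | z ∈ 𝔥 ∧ ∀ i : Ix H, z * op ((coroot i.1.1 : H) : lsub 𝔥 hbr) =
        op ((coroot i.1.1 : H) : lsub 𝔥 hbr) * z}
      zero_mem' := ⟨𝔥.zero_mem, fun i => by rw [zero_mul, mul_zero]⟩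
      add_mem' := fun {a b} ha hb => ⟨𝔥.add_mem ha.1 hb.1, fun i => by
        rw [add_mul, mul_add, ha.2 i, hb.2 i]⟩
      smul_mem' := fun c a ha => ⟨𝔥.smul_mem c ha.1, fun i => by
        rw [smul_mul_assoc, mul_smul_comm, ha.2 i]⟩ }
  let S := Submodule.span K (Set.range fun i : Ix H => op (e i.1))
  let φ : (lsub 𝔥 hbr) →ₗ[K] Module.End K V := (lsub 𝔥 hbr).toSubmodule.subtype
  have htop : (⊤ : LieSubmodule K H (lsub 𝔥 hbr)).toSubmodule ≤ (S ⊔ Z).comap φ := by
    rw [← cartan_sup_iSup_rootSpace_eq_top, LieSubmodule.sup_toSubmodule]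
    refine sup_le ?_ ?_
    · intro u hu
      have hu' : u ∈ H := hu
      refine Submodule.mem_sup_right ⟨u.2, fun i => ?_⟩
      have h1 : ⁅(⟨u, hu'⟩ : H), (coroot i.1.1 : H)⁆ = 0 := trivial_lie_zero _ _ _ _
      have h2 : ⁅u, ((coroot i.1.1 : H) : lsub 𝔥 hbr)⁆ = 0 := congrArg Subtype.val h1
      have h3 := congrArg op h2
      rw [op_br] at h3
      exact sub_eq_zero.1 h3
    · simp only [LieSubmodule.iSup_toSubmodule]
      refine iSup₂_le fun α hα u hu => ?_
      obtain ⟨i, hi⟩ : ∃ i : H.root, i.1 = α := ⟨⟨α, by simpa using hα⟩, rfl⟩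
      subst hi
      have hone := finrank_rootSpace_eq_one i.1 hα
      obtain ⟨c, hc⟩ := (finrank_eq_one_iff_of_nonzero' (⟨e i, he i⟩ : rootSpace H i.1)
        (fun h => (ht i).e_ne_zero (congrArg Subtype.val h))).1 hone ⟨u, hu⟩
      have hc' : c • e i = u := congrArg Subtype.val hc
      by_cases hact : Act i
      · refine Submodule.mem_sup_left ?_
        change op u ∈ S
        rw [← hc']
        exact Submodule.smul_mem S c (Submodule.subset_span ⟨⟨i, hact⟩, rfl⟩)
      · refine Submodule.mem_sup_right ⟨u.2, fun j => ?_⟩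
        have h1 := br_e e he (coroot j.1.1 : H) i
        rw [act_orth e f ht he hf j.2 hact, zero_smul, sub_eq_zero] at h1
        change op u * _ = _ * op u
        rw [← hc']
        change (c • op (e i)) * _ = _ * (c • op (e i))
        rw [smul_mul_assoc, mul_smul_comm, h1]
  have h1 : y ∈ S ⊔ Z := htop (show (⟨y, hy⟩ : lsub 𝔥 hbr) ∈ _ from trivial)
  obtain ⟨a, ha, z, hz, hyz⟩ := Submodule.mem_sup.1 h1
  exact ⟨a, ha, z, hz.1, hz.2, hyz.symm⟩

theorem ops_x (ht : ∀ i, IsSl2Triple ((coroot i.1 : H) : lsub 𝔥 hbr) (e i) (f i))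
    (he : ∀ i, e i ∈ rootSpace H i.1) (hf : ∀ i, f i ∈ rootSpace H (-(i.1 : H → K)))
    {y : H} (hy : Sq y) : op (y : lsub 𝔥 hbr) ∈
      Submodule.span K (Set.range fun i : Ix H => op ((coroot i.1.1 : H) : lsub 𝔥 hbr)) := by
  let A : Submodule K H := Submodule.span K (Set.range fun i : Ix H => (coroot i.1.1 : H))
  let B : Submodule K H := Submodule.span K {z | ∃ i : H.root, ¬ Act i ∧ z = coroot i.1}
  have h1 : A ⊔ B = ⊤ := by
    rw [eq_top_iff, ← RootPairing.IsRootSystem.span_coroot_eq_top (P := rootSystem H),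
      Submodule.span_le]
    rintro _ ⟨i, rfl⟩
    by_cases hi : Act i
    · exact Submodule.mem_sup_left (Submodule.subset_span ⟨⟨i, hi⟩, rfl⟩)
    · exact Submodule.mem_sup_right (Submodule.subset_span ⟨i, hi, rfl⟩)
  have hyt : y ∈ A ⊔ B := by rw [h1]; trivial
  obtain ⟨a, ha, b, hb, hab⟩ := Submodule.mem_sup.1 hyt
  have hlinA : ∀ j : H.root, ¬ Act j → ∀ a ∈ A, Weight.toLinear K H (lsub 𝔥 hbr) j.1 a = 0 := by
    intro j hj a ha
    have h2 : A ≤ LinearMap.ker (Weight.toLinear K H (lsub 𝔥 hbr) j.1) := by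
      rw [Submodule.span_le]
      rintro _ ⟨i, rfl⟩
      exact act_orth e f ht he hf i.2 hj
    exact h2 ha
  have hlinB : ∀ j : H.root, Act j → ∀ b ∈ B, Weight.toLinear K H (lsub 𝔥 hbr) j.1 b = 0 := by
    intro j hj b hb
    have h2 : B ≤ LinearMap.ker (Weight.toLinear K H (lsub 𝔥 hbr) j.1) := by
      rw [Submodule.span_le]
      rintro _ ⟨i, hi, rfl⟩
      have h3 := act_orth e f ht he hf hj hi
      have h4 : (rootSystem H).pairing i j = 0 := h3
      have h5 := ((rootSystem H).pairing_eq_zero_iff).1 h4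
      exact h5
    exact h2 hb
  have hb0 : b = 0 := by
    have h2 : b ∈ (⨅ α : Weight K H (lsub 𝔥 hbr), α.ker : Submodule K H) := by
      rw [Submodule.mem_iInf]
      intro α
      by_cases hα : α.IsZero
      · change α b = 0
        rw [hα.eq]
        rfl
      · obtain ⟨i, hi⟩ : ∃ i : H.root, i.1 = α := ⟨⟨α, by simpa using hα⟩, rfl⟩
        subst hi
        by_cases hact : Act i
        · exact hlinB i hact b hb
        · have h3 := hlinA i hact a ha
          have h4 : Weight.toLinear K H (lsub 𝔥 hbr) i.1 y = 0 := by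
            by_contra h
            exact hact ⟨y, hy, h⟩
          rw [← hab, map_add, h3, zero_add] at h4
          exact h4
    rw [iInf_ker_weight_eq_bot] at h2
    exact h2
  rw [hb0, add_zero] at hab
  rw [← hab]
  let ψ : H →ₗ[K] Module.End K V := (lsub 𝔥 hbr).toSubmodule.subtype.comp H.toSubmodule.subtype
  have h2 : A ≤ (Submodule.span K (Set.range fun i : Ix H =>
      op ((coroot i.1.1 : H) : lsub 𝔥 hbr))).comap ψ := by
    rw [Submodule.span_le]
    rintro _ ⟨i, rfl⟩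
    exact Submodule.subset_span ⟨i, rfl⟩
  exact h2 ha

end main

end

end Pool.Agent.R930
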