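import Mathlib
import Pool.Agent.R930.CartanOps

/-!
# Irreducible symplectic Lie algebras in dimension `2` modulo `4`

An irreducible Lie algebra of operators which respects a nondegenerate alternating form on a space
whose dimension is `2` modulo `4`, and which contains an element whose square is one fourth, contains
a square-zero element of odd rank.
-/

set_option linter.unusedSectionVars false

namespace Pool.Agent.R930

open Module LieAlgebra LieAlgebra.IsKilling LieModule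

noncomputable section

attribute [local instance 100] LieRing.ofAssociativeRing

variable {K : Type} [Field K] [CharZero K] [IsAlgClosed K] {V : Type} [AddCommGroup V]
  [Module K V] [FiniteDimensional K V]

section main

variable {𝔥 : Submodule K (Module.End K V)} {hbr : ∀ X ∈ 𝔥, ∀ Y ∈ 𝔥, X * Y - Y * X ∈ 𝔥}
  [IsKilling K (lsub 𝔥 hbr)] {H : LieSubalgebra K (lsub 𝔥 hbr)} [H.IsCartanSubalgebra]
  (e f : H.root → lsub 𝔥 hbr)

theorem cartan_comm (a b : H) :
    op (a : lsub 𝔥 hbr) * op (b : lsub 𝔥 hbr) = op (b : lsub 𝔥 hbr) * op (a : lsub 𝔥 hbr) := by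
  have h1 : ⁅a, b⁆ = 0 := trivial_lie_zero H H a b
  have h2 : ⁅(a : lsub 𝔥 hbr), (b : lsub 𝔥 hbr)⁆ = 0 := congrArg Subtype.val h1
  have h3 := congrArg op h2
  rw [op_br] at h3
  exact sub_eq_zero.1 h3

/-- The reflection of an active root. -/
def sI (hact : ∀ i j : H.root, Act i → Act ((rootSystem H).reflectionPerm j i)) (i j : Ix H) :
    Ix H := ⟨(rootSystem H).reflectionPerm i.1 j.1, hact j.1 i.1 j.2⟩

theorem ff_comm (ht : ∀ i, IsSl2Triple ((coroot i.1 : H) : lsub 𝔥 hbr) (e i) (f i))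
    (he : ∀ i, e i ∈ rootSpace H i.1) (hf : ∀ i, f i ∈ rootSpace H (-(i.1 : H → K)))
    (i j : Ix H) (h0 : (rootSystem H).pairingIn ℤ j.1 i.1 = 0)
    (hk : ∀ k : Ix H, (fun q : Ix H => (rootSystem H).pairingIn ℤ k.1 q.1) ≠
      (fun q : Ix H => (rootSystem H).pairingIn ℤ i.1 q.1) +
        fun q : Ix H => (rootSystem H).pairingIn ℤ j.1 q.1) :
    op (f i.1) * op (f j.1) = op (f j.1) * op (f i.1) := by
  rw [← sub_eq_zero, ← op_br]
  by_contra hne
  have h1 : ⁅f i.1, f j.1⁆ ∈ rootSpace H (-(i.1.1 : H → K) + -(j.1.1 : H → K)) :=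
    lie_mem_genWeightSpace_of_mem_genWeightSpace (hf i.1) (hf j.1)
  have h2 : rootSpace H (-(i.1.1 : H → K) + -(j.1.1 : H → K)) ≠ ⊥ := by
    intro h
    have h3 : ⁅f i.1, f j.1⁆ = 0 := (LieSubmodule.mem_bot _).1 (h.le h1)
    rw [h3] at hne
    exact hne rfl
  let β : Weight K H (lsub 𝔥 hbr) := ⟨-(i.1.1 : H → K) + -(j.1.1 : H → K), h2⟩
  have hβ : ∀ y, β y = -(i.1.1 y) + -(j.1.1 y) := fun y => rfl
  have hji : j.1.1 (coroot i.1.1) = 0 := by
    rw [← pairing_eq, h0, Int.cast_zero]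
  have hnz : (-β).IsNonZero := by
    intro h
    have h3 := congrFun h (coroot i.1.1)
    rw [Weight.coe_neg, Pi.neg_apply, hβ, hji, root_apply_coroot (H.isNonZero_coe_root i.1),
      Pi.zero_apply] at h3
    norm_num at h3
  obtain ⟨k, hkk⟩ : ∃ k : H.root, k.1 = -β := ⟨⟨-β, by simpa using hnz⟩, rfl⟩
  have hkv : ∀ y, k.1 y = i.1.1 y + j.1.1 y := by
    intro y
    rw [hkk, Weight.coe_neg, Pi.neg_apply, hβ]
    ring
  have hact : Act k := by
    by_contra hk
    have h3 := act_orth e f ht he hf i.2 hk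
    rw [hkv, hji, root_apply_coroot (H.isNonZero_coe_root i.1), add_zero] at h3
    exact two_ne_zero h3
  apply hk ⟨k, hact⟩
  funext q
  apply int_eq (K := K)
  rw [Pi.add_apply, Int.cast_add, pairing_eq, pairing_eq, pairing_eq, hkv]

theorem exists_ops_aux (ht : ∀ i, IsSl2Triple ((coroot i.1 : H) : lsub 𝔥 hbr) (e i) (f i))
    (he : ∀ i, e i ∈ rootSpace H i.1) (hf : ∀ i, f i ∈ rootSpace H (-(i.1 : H → K)))
    {y : H} (hy : Sq y) [DecidableEq (Ix H)] [Fintype (Ix H)]
    (hact : ∀ i j : H.root, Act i → Act ((rootSystem H).reflectionPerm j i)) :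
    Ops 𝔥 (op (y : lsub 𝔥 hbr)) (fun i j : Ix H => (rootSystem H).pairingIn ℤ i.1 j.1) (sI hact)
      (fun i => sI hact i i) (fun i => op (e i.1)) (fun i => op (f i.1))
      (fun i => op ((coroot i.1.1 : H) : lsub 𝔥 hbr)) where
  two := fun i => by
    apply int_eq (K := K)
    rw [pairing_eq, root_apply_coroot (H.isNonZero_coe_root i.1)]
    norm_num
  zero := fun i j h => by
    apply int_eq (K := K)
    have h1 := congrArg (fun z : ℤ => (z : K)) h
    simp only [pairing_eq, Int.cast_zero] at h1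
    rw [pairing_eq, Int.cast_zero]
    have h4 : (rootSystem H).pairing i.1 j.1 = 0 := h1
    exact ((rootSystem H).pairing_eq_zero_iff).1 h4
  ext := fun i j h1 h2 => Subtype.ext (((rootSystem H).pairingIn_two_two_iff ℤ i.1 j.1).1 ⟨h1, h2⟩)
  root_s := fun i j k => by
    apply int_eq (K := K)
    push_cast
    rw [pairing_eq, pairing_eq, pairing_eq, pairing_eq]
    exact root_refl i.1 j.1 _
  coroot_s := fun i j k => by
    apply int_eq (K := K)
    push_cast
    rw [pairing_eq, pairing_eq, pairing_eq, pairing_eq]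
    change k.1.1 (coroot ((rootSystem H).reflectionPerm i.1 j.1).1) = _
    rw [coroot_refl, lin]
  root_ng := fun i k => by
    apply int_eq (K := K)
    push_cast
    rw [pairing_eq, pairing_eq]
    refine (root_refl i.1 i.1 _).trans ?_
    rw [root_apply_coroot (H.isNonZero_coe_root i.1)]
    ring
  coroot_ng := fun i k => by
    apply int_eq (K := K)
    push_cast
    rw [pairing_eq, pairing_eq]
    change k.1.1 (coroot ((rootSystem H).reflectionPerm i.1 i.1).1) = _
    rw [coroot_refl, lin, root_apply_coroot (H.isNonZero_coe_root i.1)]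
    ring
  e_mem := fun i => op_mem _
  h_eq := fun i => op_coroot e f ht i.1
  he := fun i j => by
    rw [br_e e he, pairing_eq]
  hf := fun i j => by
    rw [br_f f hf, pairing_eq]
  hh := fun i j => cartan_comm _ _
  e_sq := fun i => act_sq_e e f ht he i.2
  f_sq := fun i => act_sq_f f hf i.2
  h_s := fun i j => by
    rw [pairing_eq]
    change op ((coroot ((rootSystem H).reflectionPerm i.1 j.1).1 : H) : lsub 𝔥 hbr) = _
    rw [coroot_refl]
    rfl
  h_ng := fun i => by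
    change op ((coroot ((rootSystem H).reflectionPerm i.1 i.1).1 : H) : lsub 𝔥 hbr) = _
    rw [coroot_refl, root_apply_coroot (H.isNonZero_coe_root i.1)]
    have h1 : (coroot i.1.1 : H) - (2 : K) • coroot i.1.1 = -coroot i.1.1 := by module
    rw [h1]
    rfl
  ff := fun i j _ h0 hk => ff_comm e f ht he hf i j (by
    apply int_eq (K := K)
    have h1 := congrArg (fun z : ℤ => (z : K)) h0
    simp only [pairing_eq, Int.cast_zero] at h1
    rw [pairing_eq, Int.cast_zero]
    have h4 : (rootSystem H).pairing i.1 j.1 = 0 := h1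
    exact ((rootSystem H).pairing_eq_zero_iff).1 h4) hk
  gen := fun z hz => ops_gen e f ht he hf z hz
  x_mem := ops_x e f ht he hf hy

end main

/-- **Root vectors.** -/
theorem exists_ops {𝔥 : Submodule K (Module.End K V)}
    (hbr : ∀ X ∈ 𝔥, ∀ Y ∈ 𝔥, X * Y - Y * X ∈ 𝔥)
    (hirr : ∀ U : Submodule K V, (∀ Y ∈ 𝔥, ∀ u ∈ U, Y u ∈ U) → U = ⊥ ∨ U = ⊤)
    (hnt : Nontrivial V) (htr : ∀ y ∈ 𝔥, LinearMap.trace K V y = 0)
    {x : Module.End K V} (hx : x * x = (1 / 4 : K) • 1) (hxm : x ∈ 𝔥) :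
    ∃ (ι : Type) (_ : Fintype ι) (_ : DecidableEq ι) (p : ι → ι → ℤ) (s : ι → ι → ι)
      (ng : ι → ι) (e f h : ι → Module.End K V), Ops 𝔥 x p s ng e f h ∧ (∀ i, f i ∈ 𝔥) ∧
        ∀ i, h i ∈ 𝔥 := by
  classical
  have hK : IsKilling K (lsub 𝔥 hbr) := lsub_killing 𝔥 hbr hirr hnt htr
  obtain ⟨H, hH, hxH⟩ := exists_cartan (K := K) (L := lsub 𝔥 hbr) ⟨x, hxm⟩ (by
    intro y hy
    have h1 : x * (x * y.1 - y.1 * x) - (x * y.1 - y.1 * x) * x = 0 := congrArg op hy
    have h2 : x * (x * y.1 - y.1 * x) + (x * y.1 - y.1 * x) * x = 0 := by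
      have h3 : x * (x * y.1 - y.1 * x) + (x * y.1 - y.1 * x) * x =
          (x * x) * y.1 - y.1 * (x * x) := by noncomm_ring
      rw [h3, hx, smul_mul_assoc, mul_smul_comm, one_mul, mul_one, sub_self]
    have h3 : x * (x * y.1 - y.1 * x) = 0 := by
      have h4 : (2 : K) • (x * (x * y.1 - y.1 * x)) = 0 := by
        rw [two_smul]
        nth_rewrite 1 [sub_eq_zero.1 h1]
        rw [add_comm]
        exact h2
      exact (smul_eq_zero.1 h4).resolve_left two_ne_zero
    have h4 : x * y.1 - y.1 * x = 0 := by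
      have h5 : x * (x * (x * y.1 - y.1 * x)) = (1 / 4 : K) • (x * y.1 - y.1 * x) := by
        rw [← mul_assoc, hx, smul_mul_assoc, one_mul]
      rw [h3, mul_zero] at h5
      exact (smul_eq_zero.1 h5.symm).resolve_left (by norm_num)
    exact Subtype.ext h4)
  have hsl : ∀ i : H.root, ∃ e f : lsub 𝔥 hbr,
      IsSl2Triple ((coroot i.1 : H) : lsub 𝔥 hbr) e f ∧ e ∈ rootSpace H i.1 ∧
        f ∈ rootSpace H (-(i.1 : H → K)) := by
    intro i
    obtain ⟨h, e, f, ht, he, hf⟩ := exists_isSl2Triple_of_weight_isNonZero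
      (H.isNonZero_coe_root i)
    have h1 := ht.h_eq_coroot (H.isNonZero_coe_root i) he hf
    rw [h1] at ht
    exact ⟨e, f, ht, he, hf⟩
  choose e f ht he hf using hsl
  have hact : ∀ i j : H.root, Act i → Act ((rootSystem H).reflectionPerm j i) :=
    fun i j hi => act_refl e f ht he hf hi j
  have hy : Sq (⟨⟨x, hxm⟩, hxH⟩ : H) := hx
  exact ⟨Ix H, inferInstance, inferInstance, _, _, _, _, _, _,
    exists_ops_aux e f ht he hf hy hact, fun i => op_mem _, fun i => op_mem _⟩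

/-- **Dimension two modulo four.** -/
theorem exists_odd_rank {𝔥 : Submodule K (Module.End K V)}
    (hbr : ∀ X ∈ 𝔥, ∀ Y ∈ 𝔥, X * Y - Y * X ∈ 𝔥)
    (hirr : ∀ U : Submodule K V, (∀ Y ∈ 𝔥, ∀ u ∈ U, Y u ∈ U) → U = ⊥ ∨ U = ⊤)
    (htr : ∀ y ∈ 𝔥, LinearMap.trace K V y = 0)
    {x : Module.End K V} (hx : x * x = (1 / 4 : K) • 1) (hxm : x ∈ 𝔥)
    (om : V →ₗ[K] V →ₗ[K] K) (halt : ∀ v, om v v = 0) (hnd : ∀ u, (∀ v, om u v = 0) → u = 0)
    (hsk : ∀ y ∈ 𝔥, ∀ a b, om (y a) b + om a (y b) = 0) (hdim : finrank K V % 4 = 2) :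
    ∃ e ∈ 𝔥, e * e = 0 ∧ Odd (finrank K (LinearMap.range e)) := by
  have hnt : Nontrivial V := by
    apply nontrivial_of_finrank_pos (R := K)
    omega
  obtain ⟨ι, i1, i2, p, s, ng, e, f, h, O, hf, hh⟩ := exists_ops hbr hirr hnt htr hx hxm
  obtain ⟨i, hi⟩ := Ops.exists_odd om halt hnd O hx hbr hirr (fun i => hsk _ (hf i))
    (fun i => hsk _ (hh i)) hdim
  exact ⟨e i, O.e_mem i, O.e_sq i, hi⟩

end

end Pool.Agent.R930
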