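import Mathlib
import Pool.Agent.R930.Pieces
import Pool.Agent.R930.OddSerre

/-!
# Square-zero elements of rank one on symplectic subspaces of dimension two modulo four
-/

set_option linter.unusedSectionVars false

namespace Pool.Agent.R930

open Module Pool.Agent.H204R3.SP Pool.Agent.H204R3.GP Pool.Agent.W522.U Pool.Agent.W529.Ta
open Pool.Agent.W528.Odd Pool.Agent.Y126.OT Pool.Agent.TH118.CR Pool.Agent.Y126.Toric
open Pool.Agent.W528.Tor (AltDual)

noncomputable section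

variable {K : Type} [Field K] [CharZero K] [IsAlgClosed K] {X : Type} [AddCommGroup X] [Module K X]
  [FiniteDimensional K X] {Γ : Type} [Group Γ] {R : Representation K Γ X} {χ : Γ →* K}
  (ω : X →ₗ[K] X →ₗ[K] K) (hnd : ∀ u, (∀ v, ω u v = 0) → u = 0)
  (hωR : ∀ g u v, ω (R g u) (R g v) = χ g * ω u v) (hss : HasProj R) {U : Submodule K X}
  (hU : SI R U)

include hnd hωR hss hU in
/-- An element of odd rank. -/
theorem exists_odd_res (hP : LieGenerate R χ) (halt : AltDual R χ U)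
    (hdim : finrank K U % 4 = 2) {x : Module.End K X} (hx : x ∈ lieT R χ)
    (hxx : x * x = (1 / 4 : K) • 1) {xU : Module.End K U} (hxU : ∀ u : U, ((xU u : U) : X) = x u) :
    ∃ n ∈ resL R χ U, n * n = 0 ∧ Odd (rk n) := by
  obtain ⟨Δ₁, hΔ₁, hUΔ₁⟩ := id hU.2.1
  obtain ⟨Δ₂, hΔ₂, B, hB0, hBalt, hB⟩ := id halt
  have hx2 : xU * xU = (1 / 4 : K) • 1 := sq_res hxU _ hxx
  obtain ⟨om, hom⟩ : ∃ om : U →ₗ[K] U →ₗ[K] K, om = B.compl₁₂ U.subtype U.subtype := ⟨_, rfl⟩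
  have hom' : ∀ u v : U, om u v = B u v := fun u v => by rw [hom]; rfl
  have halt' : ∀ v, om v v = 0 := fun v => by rw [hom']; exact hBalt v v.2
  have hndl : ∀ u, (∀ v, om u v = 0) → u = 0 := by
    intro u hu
    apply Subtype.ext
    exact du_left hU hU.2.1 hΔ₂ hB0 hB u u.2 (fun v hv => by
      have := hu ⟨v, hv⟩
      rwa [hom'] at this)
  have hsp : ∀ Y ∈ resL R χ U, ∀ u w, om (Y u) w + om u (Y w) = 0 := by
    rintro Y ⟨y, hy, hYy⟩ u w
    rw [hom', hom', hYy, hYy]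
    exact lieT_skew ω hnd hωR hss hU.2.1 hΔ₂ B hB hy u u.2 w w.2
  exact exists_odd_rank resL_br (irr_res ω hnd hωR hss hU hP)
    (fun y hy => trace_sp om hndl (hsp y hy)) hx2 ⟨x, hx, hxU⟩ om halt' hndl hsp hdim

include hnd hωR hss hU in
/-- **Symplectic subspaces of dimension two modulo four.** -/
theorem one_of_symp_odd (hP : WeakHodgeGenerate R χ) (halt : AltDual R χ U)
    (hdim : finrank K U % 4 = 2) :
    ∃ e ∈ lieT R χ, e * e = 0 ∧ finrank K (U.map e) = 1 := by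
  have hlie : LieGenerate R χ := LieGenerate.of_weak hP
  obtain ⟨x, hx, hxx, xU, hxU, h1, h0⟩ :=
    exists_nonscalar_weak ω hnd hωR hss hU hP (by omega)
  have hx2 : xU * xU = (1 / 4 : K) • 1 := sq_res hxU _ hxx
  obtain ⟨n, hn, hn2, hodd⟩ := exists_odd_res ω hnd hωR hss hU hlie halt hdim hx hxx hxU
  obtain ⟨y, hy, hy0⟩ := exists_yp (irr_res ω hnd hωR hss hU hlie) hx2 h1 h0
  have hyW : yp xU y ∈ Wp (resL R χ U) xU :=
    ⟨yp_mem hx2 resL_br ⟨x, hx, hxU⟩ hy, yp_yp hx2 y⟩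
  obtain ⟨N, hN, hN2, hN0⟩ := exists_global hx hxx hxU hyW hy0
  exact one_of_alt_gen ω hnd hωR hss hU halt hN hN2 hN0 hn hn2 rfl
    (fun h => by rw [h] at hodd; exact absurd hodd (by decide)) (Or.inr (Or.inl ⟨hodd, hP⟩))

end

end Pool.Agent.R930
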