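import Mathlib
import Pool.Agent.Y126.Glue
import Pool.Agent.R930.Three
import Pool.Agent.R930.Notions
import Pool.Agent.R930.SympOdd
import Pool.Agent.R930.Comm
import Pool.Agent.R930.Mixed

/-!
# Forms invariant under a normal subgroup
-/

set_option linter.unusedSectionVars false

namespace Pool.Agent.R930

open Module TensorProduct Pool.Agent.H204R3.SP Pool.Agent.H204R3.GP Pool.Agent.W522.U
open Pool.Agent.W529.Ta Pool.Agent.W528.Odd Pool.Agent.Y126.OT Pool.Agent.TH118.CR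
open Pool.Agent.Y126.Toric Pool.Agent.Y126.Notions
open Pool.Agent.W528.Tor (AltDual)

noncomputable section

section closed

variable {K : Type} [Field K] [CharZero K] [IsAlgClosed K] {X : Type} [AddCommGroup X] [Module K X]
  [FiniteDimensional K X] {Γ : Type} [Group Γ] {R : Representation K Γ X} {χ : Γ →* K}
  {N : Subgroup Γ}
  (ω : X →ₗ[K] X →ₗ[K] K) (hnd : ∀ u, (∀ v, ω u v = 0) → u = 0)
  (hωR : ∀ g u v, ω (R g u) (R g v) = χ g * ω u v) (hss : HasProj R)

include hnd hωR hss in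
theorem rich_of_kern {U : Submodule K X} (hU : SI R U) (halt : AltDual R χ U) (hN : N.Normal)
    (hone : ∃ e ∈ lieT R χ, e * e = 0 ∧ finrank K (U.map e) = 1)
    (hne : ∃ x ∈ lieT (rN R N) (cN χ N), ∃ u ∈ U, x u ≠ 0) :
    Rich (lieT (rN R N) (cN χ N)) U := by
  obtain ⟨Δ, hUΔ, om, hΔ, halt', hndl, homg, hsp, hall⟩ :=
    kern_data (N := N) ω hnd hωR hss hU halt hN hone hne
  refine ⟨om, hndl, halt', fun v => ?_⟩
  obtain ⟨x, hx, hxv⟩ := hall v
  refine ⟨x, hx, fun u => ?_⟩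
  rw [← hxv]
  rfl

/-- Conditions on the pieces. -/
structure KernPieces (R : Representation K Γ X) (χ : Γ →* K) (N : Subgroup Γ) : Prop where
  normal : N.Normal
  proj : HasProj (rN R N)
  alt : ∀ U, SI R U → AltDual R χ U
  one : ∀ U, SI R U → ∃ e ∈ lieT R χ, e * e = 0 ∧ finrank K (U.map e) = 1
  ne : ∀ U, SI R U → ∃ x ∈ lieT (rN R N) (cN χ N), ∃ u ∈ U, x u ≠ 0
  nrm : ∀ U, SI R U → ∃ x ∈ nrmSet R χ, ∃ xU : Module.End K U,
      (∀ u : U, ((xU u : U) : X) = x u) ∧ e1 xU ≠ 0 ∧ e0 xU ≠ 0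

include hnd hωR hss in
theorem KernPieces.rich (h : KernPieces R χ N) (U : Submodule K X) (hU : SI R U) :
    Rich (lieT (rN R N) (cN χ N)) U :=
  rich_of_kern ω hnd hωR hss hU (h.alt U hU) h.normal (h.one U hU) (h.ne U hU)

include hnd hωR hss in
/-- Tate forms for the normal subgroup. -/
theorem core_kern (h : KernPieces R χ N) {m : ℕ}
    (φ : MultilinearMap K (fun _ : Fin m × Fin 2 => X) K) (hφ : IsTate (rN R N) (cN χ N) m φ) :
    φ ∈ Submodule.span K (PT (rN R N) (cN χ N) m) := by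
  have hdu : ∀ U, SI R U → Du R χ U U := fun U hU => altDual_du (h.alt U hU)
  have hr := h.rich ω hnd hωR hss
  have hsi : ∀ U, SI (rN R N) U → SI R U := fun U hU =>
    si_of_kern ω hnd hωR hss h.normal hdu hr h.proj hU
  have haltN : ∀ U, SI (rN R N) U → AltDual (rN R N) (cN χ N) U := by
    intro U hU
    obtain ⟨Δ, hΔ, B, h0, hB, h1⟩ := h.alt U (hsi U hU)
    exact ⟨Δ.subgroupOf N, inferInstance, B, h0, hB, fun g hg => h1 g.1 hg⟩
  refine pt_of_noWeil ?_ (nil_det (R := rN R N) (χ := cN χ N) ω hnd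
    (fun g u v => hωR g.1 u v) ?_ h.proj ?_ ?_ φ hφ)
  · intro Q _ hQ L hL
    obtain ⟨q⟩ := hQ
    exact hL.2.1 q q (altDual_du (haltN _ (hL.1 q)))
  · intro U hU _
    have hU' := hsi U hU
    exact one_kern ω hnd hωR hss hU' (h.alt U hU') h.normal (h.one U hU') (h.ne U hU')
      (h.nrm U hU')
  · intro U hU h1
    have h2 := altDual_two_le (haltN U hU)
    omega
  · intro U U' hU _ _ hnot
    exact absurd (altDual_du (haltN U hU)) hnot

include hnd hωR hss in
/-- Bilinear Tate forms for the normal subgroup are Tate forms. -/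
theorem tate2_of_kern (h : KernPieces R χ N) {B : X →ₗ[K] X →ₗ[K] K}
    (hB : IsTate2 (rN R N) (cN χ N) B) : IsTate2 R χ B := by
  have hinj : Function.Injective ω := by
    rw [injective_iff_map_eq_zero]
    intro u hu
    exact hnd u fun v => by rw [hu]; rfl
  let e : X ≃ₗ[K] Dual K X := LinearEquiv.ofInjectiveOfFinrankEq ω hinj
    (Subspace.dual_finrank_eq).symm
  have he : ∀ u, e u = ω u := fun u => rfl
  obtain ⟨P, hP⟩ : ∃ P : Module.End K X, ∀ u v, ω (P u) v = B u v := by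
    refine ⟨e.symm.toLinearMap.comp B, fun u v => ?_⟩
    rw [← he]
    change (e (e.symm (B u))) v = B u v
    rw [e.apply_symm_apply]
  obtain ⟨Δ, hΔ, hB⟩ := hB
  have hPN : P ∈ comR (rN R N) := by
    refine ⟨Δ, hΔ, fun g hg u => ?_⟩
    rw [← sub_eq_zero]
    apply hnd
    intro v
    have h1 := hB g hg u (rN R N g⁻¹ v)
    have h2 : rN R N g (rN R N g⁻¹ v) = v := Rinv' g v
    rw [h2, ← hP, ← hP] at h1
    have h3 := hωR g.1 (P u) (R g.1⁻¹ v)
    rw [Rinv'] at h3
    rw [map_sub, LinearMap.sub_apply, h1]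
    rw [sub_eq_zero]
    exact h3.symm
  obtain ⟨Δ', hΔ', hP'⟩ := comR_of_kern ω hnd hωR hss h.normal
    (fun U hU => altDual_du (h.alt U hU)) (h.rich ω hnd hωR hss) hPN
  refine ⟨Δ', hΔ', fun g hg u v => ?_⟩
  rw [← hP, hP' g hg, hωR, hP]

theorem tate_mmG {m : ℕ} (σ : Equiv.Perm (Fin m × Fin 2)) (B : Fin m → (X →ₗ[K] X →ₗ[K] K))
    (hB : ∀ l, IsTate2 R χ (B l)) : IsTate R χ m (mmG σ B) := by
  choose Δ hΔ h using hB
  refine ⟨⨅ l, Δ l, Subgroup.finiteIndex_iInf hΔ, fun s hs v => ?_⟩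
  rw [Subgroup.mem_iInf] at hs
  rw [mmG_apply, mmG_apply]
  have h1 : ∀ l : Fin m, B l (R s (v (σ (l, 0)))) (R s (v (σ (l, 1)))) =
      χ s * B l (v (σ (l, 0))) (v (σ (l, 1))) := fun l => h l s (hs l) _ _
  rw [Finset.prod_congr rfl fun l _ => h1 l, Finset.prod_mul_distrib, Finset.prod_const,
    Finset.card_univ, Fintype.card_fin]

include hnd hωR hss in
theorem kills_kern (h : KernPieces R χ N) {m : ℕ}
    (φ : MultilinearMap K (fun _ : Fin m × Fin 2 => X) K) (hφ : IsTate (rN R N) (cN χ N) m φ)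
    {x : Module.End K X} (hx : x ∈ lieT R χ) : Kills x φ := by
  have h1 := core_kern ω hnd hωR hss h φ hφ
  clear hφ
  induction h1 using Submodule.span_induction with
  | mem φ h1 =>
    obtain ⟨σ, B, hB, rfl⟩ := h1
    exact hx m _ (tate_mmG σ B fun l => tate2_of_kern ω hnd hωR hss h (hB l))
  | zero =>
    intro v
    exact Finset.sum_eq_zero fun k _ => rfl
  | add φ ψ _ _ h1 h2 =>
    intro v
    have h3 := congrArg₂ (fun a b : K => a + b) (h1 v) (h2 v)
    simp only [add_zero] at h3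
    rw [← h3, ← Finset.sum_add_distrib]
    rfl
  | smul c φ _ h1 =>
    intro v
    have h3 := congrArg (fun a : K => c * a) (h1 v)
    simp only [mul_zero] at h3
    rw [← h3, Finset.mul_sum]
    rfl

end closed

end

end Pool.Agent.R930
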