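import Mathlib
import Pool.Agent.R930.KFinal

/-!
# Descent of forms invariant under a normal subgroup, and forms with values in a representation
-/

set_option linter.unusedSectionVars false

namespace Pool.Agent.R930

open Module TensorProduct Pool.Agent.H204R3.SP Pool.Agent.H204R3.GP Pool.Agent.W522.U
open Pool.Agent.W529.Ta Pool.Agent.W528.Odd Pool.Agent.Y126.OT Pool.Agent.TH118.CR
open Pool.Agent.Y126.Toric Pool.Agent.Y126.Notions
open Pool.Agent.W528.Tor (AltDual)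

noncomputable section

section desc

variable {k : Type} [Field k] {V Γ : Type} [AddCommGroup V]
  [Module k V] [Group Γ] {ρ : Representation k Γ V} {χ : Γ →* k}
  {N : Subgroup Γ}

theorem tate2_ext {Ω : Type} [Field Ω] [Algebra k Ω] {B : V →ₗ[k] V →ₗ[k] k}
    (hB : IsTate2 ρ χ B) : IsTate2 (bcr ρ Ω) (bcc χ Ω) (bcb Ω B) := by
  obtain ⟨Δ, hΔ, h⟩ := hB
  refine ⟨Δ, hΔ, fun s hs u v => ?_⟩
  exact bcb_inv (Ω := Ω) (ρ.comp Δ.subtype) (χ.comp Δ.subtype) B (fun s u v => h s.1 s.2 u v)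
    ⟨s, hs⟩ u v

theorem tate2_res {Ω : Type} [Field Ω] [Algebra k Ω] {B : V →ₗ[k] V →ₗ[k] k}
    (hB : IsTate2 (bcr ρ Ω) (bcc χ Ω) (bcb Ω B)) : IsTate2 ρ χ B := by
  obtain ⟨Δ, hΔ, h⟩ := hB
  refine ⟨Δ, hΔ, fun s hs u v => ?_⟩
  have h1 := h s hs ((1 : Ω) ⊗ₜ[k] u) ((1 : Ω) ⊗ₜ[k] v)
  rw [bcr_tmul, bcr_tmul, bcb_one, bcb_one, bcc_apply, ← map_mul] at h1
  exact (algebraMap k Ω).injective h1

/-- The bilinear form of an alternating form. -/
def bilOf {W : Type} [AddCommGroup W] [Module k W] (B : W [⋀^Fin 2]→ₗ[k] k) :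
    W →ₗ[k] W →ₗ[k] k :=
  LinearMap.mk₂ k (fun x y => B ![x, y])
    (fun x x' y => by
      have h := B.map_update_add ![x, y] 0 x x'
      have e : ∀ z : W, Function.update ![x, y] 0 z = ![z, y] := by
        intro z; ext i; fin_cases i <;> rfl
      rw [e, e, e] at h
      exact h)
    (fun c x y => by
      have h := B.map_update_smul ![x, y] 0 c x
      have e : ∀ z : W, Function.update ![x, y] 0 z = ![z, y] := by
        intro z; ext i; fin_cases i <;> rfl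
      rw [e, e] at h
      exact h)
    (fun x y y' => by
      have h := B.map_update_add ![x, y] 1 y y'
      have e : ∀ z : W, Function.update ![x, y] 1 z = ![x, z] := by
        intro z; ext i; fin_cases i <;> rfl
      rw [e, e, e] at h
      exact h)
    (fun c x y => by
      have h := B.map_update_smul ![x, y] 1 c y
      have e : ∀ z : W, Function.update ![x, y] 1 z = ![x, z] := by
        intro z; ext i; fin_cases i <;> rfl
      rw [e, e] at h
      exact h)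

theorem bilOf_apply {W : Type} [AddCommGroup W] [Module k W] (B : W [⋀^Fin 2]→ₗ[k] k)
    (x y : W) : bilOf B x y = B ![x, y] := rfl

theorem vec_two {W : Type} (v : Fin 2 → W) : v = ![v 0, v 1] := by
  funext i
  fin_cases i <;> rfl

/-- Classes of degree two on powers. -/
theorem classTwo_kern (h : ∀ B : V →ₗ[k] V →ₗ[k] k, IsTate2 (rN ρ N) (cN χ N) B → IsTate2 ρ χ B)
    {n : ℕ} {f : (Fin n → V) [⋀^Fin 2]→ₗ[k] k} (hf : IsTateClassTwo (rN ρ N) (cN χ N) f) :
    IsTateClassTwo ρ χ f := by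
  obtain ⟨c, hc⟩ : ∃ c : Fin n → Fin n → (V →ₗ[k] V →ₗ[k] k), ∀ i j u v,
      c i j u v = bilOf f (Pi.single i u) (Pi.single j v) :=
    ⟨fun i j => (bilOf f).compl₁₂ (LinearMap.single k (fun _ : Fin n => V) i)
      (LinearMap.single k (fun _ : Fin n => V) j), fun i j u v => rfl⟩
  obtain ⟨Δ₀, hΔ₀, hf⟩ := hf
  have h1 : ∀ i j, IsTate2 ρ χ (c i j) := by
    intro i j
    refine h _ ⟨Δ₀, hΔ₀, fun s hs u v => ?_⟩
    rw [hc, hc, bilOf_apply, bilOf_apply, ← hf s hs]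
    congr 1
    have e1 : ∀ (i : Fin n) (u : V), (Pi.single i (rN ρ N s u) : Fin n → V) =
        fun i' => rN ρ N s ((Pi.single i u : Fin n → V) i') := by
      intro i u
      funext i'
      by_cases hi : i' = i
      · subst hi
        rw [Pi.single_eq_same, Pi.single_eq_same]
      · rw [Pi.single_eq_of_ne hi, Pi.single_eq_of_ne hi, map_zero]
    rw [e1, e1]
    funext l
    fin_cases l <;> rfl
  choose Δ hΔ hΔc using h1
  refine ⟨⨅ i, ⨅ j, Δ i j, Subgroup.finiteIndex_iInf fun i => Subgroup.finiteIndex_iInf (hΔ i),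
    fun s hs v => ?_⟩
  have hexp : ∀ x y : Fin n → V, f ![x, y] = ∑ i, ∑ j, c i j (x i) (y j) := by
    intro x y
    have e1 : ∀ x : Fin n → V, x = ∑ i, Pi.single i (x i) := fun x =>
      (Finset.univ_sum_single x).symm
    rw [← bilOf_apply]
    conv_lhs => rw [e1 x, e1 y]
    rw [map_sum (bilOf f), LinearMap.sum_apply]
    refine Finset.sum_congr rfl fun i _ => ?_
    rw [map_sum]
    exact Finset.sum_congr rfl fun j _ => (hc i j _ _).symm
  rw [vec_two v, hexp, Finset.mul_sum]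
  have e2 : (fun l i => ρ s ((![v 0, v 1] : Fin 2 → Fin n → V) l i)) =
      ![fun i => ρ s (v 0 i), fun i => ρ s (v 1 i)] := by
    funext l
    fin_cases l <;> rfl
  rw [e2, hexp]
  refine Finset.sum_congr rfl fun i _ => ?_
  rw [Finset.mul_sum]
  refine Finset.sum_congr rfl fun j _ => ?_
  refine hΔc i j s ?_ _ _
  have h2 := Subgroup.mem_iInf.1 hs i
  exact Subgroup.mem_iInf.1 h2 j

/-- The classes of even degree. -/
theorem mixed_even {W : Type} [AddCommGroup W] [Module k W] [FiniteDimensional k W]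
    {τ : Representation k Γ W} (hgen : GeneratedInDegreeTwo (rN ρ N) (cN χ N))
    (h : ∀ B : V →ₗ[k] V →ₗ[k] k, IsTate2 (rN ρ N) (cN χ N) B → IsTate2 ρ χ B)
    (hN : ∀ g ∈ N, τ g = 1 ∧ χ g = 1) {n m : ℕ} (f : (Fin n → V) [⋀^Fin m × Fin 2]→ₗ[k] W)
    (hf : ∃ Δ : Subgroup Γ, Δ.FiniteIndex ∧ ∀ s ∈ Δ, ∀ v : Fin m × Fin 2 → Fin n → V,
      f (fun l i => ρ s (v l i)) = τ s (f v)) :
    f ∈ Submodule.span k {g : (Fin n → V) [⋀^Fin m × Fin 2]→ₗ[k] W |
      ∃ B : Fin m → (Fin n → V) [⋀^Fin 2]→ₗ[k] k, (∀ l, IsTateClassTwo ρ χ (B l)) ∧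
        ∃ w : W, (∃ Δ : Subgroup Γ, Δ.FiniteIndex ∧ ∀ s ∈ Δ, τ s w = χ s ^ m • w) ∧
        ∀ v, g v = (∑ σ : Equiv.Perm (Fin m × Fin 2), ((Equiv.Perm.sign σ : ℤ) : k) *
          ∏ l, B l ![v (σ (l, 0)), v (σ (l, 1))]) • w} := by
  have h1 := mixed_of_coord (fun (s : Γ) (x : Fin n → V) => fun i => ρ s (x i))
    (fun s => χ s ^ m) (fun s => τ s)
    {g : (Fin n → V) [⋀^Fin m × Fin 2]→ₗ[k] k |
      ∃ B : Fin m → (Fin n → V) [⋀^Fin 2]→ₗ[k] k, (∀ l, IsTateClassTwo ρ χ (B l)) ∧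
        ∀ v, g v = ∑ σ : Equiv.Perm (Fin m × Fin 2), ((Equiv.Perm.sign σ : ℤ) : k) *
          ∏ l, B l ![v (σ (l, 0)), v (σ (l, 1))]} ?_ f hf ?_
  · refine Submodule.span_mono ?_ h1
    rintro g ⟨g', ⟨B, hB, hg'⟩, w, hw, hg⟩
    exact ⟨B, hB, w, hw, fun v => by rw [hg, hg']⟩
  · rintro g ⟨B, hB, hg⟩
    choose Δ hΔ hΔB using hB
    refine ⟨⨅ l, Δ l, Subgroup.finiteIndex_iInf hΔ, fun s hs v => ?_⟩
    rw [Subgroup.mem_iInf] at hs
    rw [hg, hg, Finset.mul_sum]
    refine Finset.sum_congr rfl fun σ _ => ?_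
    have h2 : ∀ l : Fin m, B l ![fun i => ρ s (v (σ (l, 0)) i), fun i => ρ s (v (σ (l, 1)) i)] =
        χ s * B l ![v (σ (l, 0)), v (σ (l, 1))] := by
      intro l
      rw [← hΔB l s (hs l)]
      congr 1
      funext j
      fin_cases j <;> rfl
    rw [Finset.prod_congr rfl fun l _ => h2 l, Finset.prod_mul_distrib, Finset.prod_const,
      Finset.card_univ, Fintype.card_fin]
    ring
  · intro μ
    obtain ⟨Δ, hΔ, hf⟩ := hf
    have h2 := hgen n m (μ.compAlternatingMap f) ⟨Δ.subgroupOf N, inferInstance, fun s hs v => by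
      change μ (f fun l i => ρ s.1 (v l i)) = χ s.1 ^ m * μ (f v)
      rw [hf s.1 hs, (hN s.1 s.2).1, (hN s.1 s.2).2, one_pow, one_mul]
      rfl⟩
    refine Submodule.span_mono ?_ h2
    rintro g ⟨B, hB, hg⟩
    exact ⟨B, fun l => classTwo_kern h (hB l), hg⟩

/-- The classes of odd degree. -/
theorem mixed_odd [FiniteDimensional k V] {W : Type} [AddCommGroup W] [Module k W]
    {τ : Representation k Γ W} {Ω : Type} [Field Ω] [CharZero Ω] [Algebra k Ω]
    {x : Module.End Ω (Ω ⊗[k] V)} (hxx : x * x = (1 / 4 : Ω) • 1)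
    (hk : ∀ (m : ℕ) (φ : MultilinearMap Ω (fun _ : Fin m × Fin 2 => Ω ⊗[k] V) Ω),
      IsTate (rN (bcr ρ Ω) N) (cN (bcc χ Ω) N) m φ → Kills x φ)
    (hN : ∀ g ∈ N, τ g = 1 ∧ χ g = 1) {n a : ℕ} (ha : Odd a) (f : (Fin n → V) [⋀^Fin a]→ₗ[k] W)
    (hf : ∃ Δ : Subgroup Γ, Δ.FiniteIndex ∧ ∀ s ∈ Δ, ∀ v : Fin a → Fin n → V,
      f (fun l i => ρ s (v l i)) = τ s (f v)) : f = 0 := by
  classical
  obtain ⟨Δ, hΔ, hf⟩ := hf
  obtain ⟨b, -⟩ : ∃ b : Basis (Fin (finrank k V)) k V, b = Module.finBasis k V := ⟨_, rfl⟩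
  refine AlternatingMap.ext fun v => ?_
  rw [AlternatingMap.zero_apply, ← Module.forall_dual_apply_eq_zero_iff k]
  intro μ
  have hI : ∀ (I : Fin a → Fin n) (u : Fin a → V), μ (f fun l => Pi.single (I l) (u l)) = 0 := by
    intro I
    obtain ⟨ψ, hψ⟩ : ∃ ψ : MultilinearMap k (fun _ : Fin a => V) k,
        ∀ u, ψ u = μ (f fun l => Pi.single (I l) (u l)) :=
      ⟨(μ.compMultilinearMap f.toMultilinearMap).compLinearMap
        (fun l => LinearMap.single k (fun _ : Fin n => V) (I l)), fun u => rfl⟩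
    have hinv : ∀ s ∈ Δ, s ∈ N → ∀ u, ψ (fun l => ρ s (u l)) = ψ u := by
      intro s hs hsN u
      rw [hψ, hψ]
      have h1 := hf s hs fun l => Pi.single (I l) (u l)
      rw [(hN s hsN).1] at h1
      have e1 : (fun l => (Pi.single (I l) (ρ s (u l)) : Fin n → V)) =
          fun l i => ρ s ((Pi.single (I l) (u l) : Fin n → V) i) := by
        funext l i'
        by_cases hi : i' = I l
        · subst hi
          rw [Pi.single_eq_same, Pi.single_eq_same]
        · rw [Pi.single_eq_of_ne hi, Pi.single_eq_of_ne hi, map_zero]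
      rw [e1, h1]
      rfl
    obtain ⟨Ψ, hΨ⟩ : ∃ Ψ, Ψ = bcm (Ω := Ω) b ψ := ⟨_, rfl⟩
    have hΨinv : ∀ s ∈ Δ, s ∈ N → ∀ u, Ψ (fun l => bcr ρ Ω s (u l)) = Ψ u := by
      intro s hs hsN
      have h1 : Ψ.compLinearMap (fun _ => bcr ρ Ω s) = Ψ := by
        refine Basis.ext_multilinear (fun _ => b.baseChange Ω) fun J => ?_
        change Ψ (fun l => bcr ρ Ω s (b.baseChange Ω (J l))) =
          Ψ (fun l => b.baseChange Ω (J l))
        have h2 : ∀ l, bcr ρ Ω s (b.baseChange Ω (J l)) = (1 : Ω) ⊗ₜ[k] ρ s (b (J l)) := by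
          intro l
          rw [Basis.baseChange_apply, bcr_tmul]
        simp only [h2]
        rw [hΨ, bcm_basis, bcm_one, hinv s hs hsN]
      intro u
      exact congrArg (fun F : MultilinearMap Ω (fun _ : Fin a => Ω ⊗[k] V) Ω => F u) h1
    have htate : IsTate (rN (bcr ρ Ω) N) (cN (bcc χ Ω) N) a (dbl Ψ) := by
      refine ⟨Δ.subgroupOf N, inferInstance, fun s hs u => ?_⟩
      have h1 : cN (bcc χ Ω) N s = 1 := by
        rw [cN_apply, bcc_apply, (hN s.1 s.2).2, map_one]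
      rw [h1, one_pow, one_mul, dbl_apply, dbl_apply]
      have h2 := hΨinv s.1 hs s.2
      change Ψ (fun l => bcr ρ Ω s.1 (u (l, 0))) * Ψ (fun l => bcr ρ Ω s.1 (u (l, 1))) = _
      rw [h2, h2]
    have hzero : Ψ = 0 := odd_zero ha hxx (dbl_kills (hk a _ htate))
    intro u
    rw [← hψ]
    apply (algebraMap k Ω).injective
    rw [← bcm_one (Ω := Ω) b ψ u, ← hΨ, hzero, map_zero]
    rfl
  have h1 : v = fun l => ∑ i, Pi.single i (v l i) := by
    funext l
    exact (Finset.univ_sum_single (v l)).symm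
  have h2 := MultilinearMap.map_sum (μ.compMultilinearMap f.toMultilinearMap)
    (fun l i => (Pi.single i (v l i) : Fin n → V))
  rw [← h1] at h2
  change μ (f v) = _ at h2
  rw [h2]
  exact Finset.sum_eq_zero fun I _ => hI I fun l => v l (I l)

end desc

end

end Pool.Agent.R930
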