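import Mathlib
import Pool.Agent.R930.KDescent

/-!
# Tensors of a direct sum which are fixed by a group
-/

set_option linter.unusedSectionVars false

namespace Pool.Agent.R930

open Module Pool.Agent.H204R3.GP Pool.Agent.Y126.Notions

noncomputable section

variable {k : Type} [Field k] {V W Γ G : Type} [AddCommGroup V] [Module k V] [AddCommGroup W]
  [Module k W] [Group Γ] [Group G]

/-- The group `G`, acting by `R` and with the character `ν`, fixes all the tensors that are fixed by a
subgroup of finite index of `Γ`: every multilinear form which is multiplied by `χ ^ j` under a subgroup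
of finite index of `Γ` is multiplied by `ν ^ j` under `G`. -/
def FixesTateTensors (ρ : Representation k Γ V) (χ : Γ →* k) (R : Representation k G V)
    (ν : G →* k) : Prop :=
  ∀ (s : ℕ) (j : ℤ) (φ : MultilinearMap k (fun _ : Fin s => V) k),
    (∃ Δ : Subgroup Γ, Δ.FiniteIndex ∧ ∀ g ∈ Δ, ∀ v : Fin s → V,
      φ (fun i => ρ g (v i)) = χ g ^ j * φ v) →
    ∀ (h : G) (v : Fin s → V), φ (fun i => R h (v i)) = ν h ^ j * φ v

theorem FixesTateTensors.fintype {ρ : Representation k Γ V} {χ : Γ →* k}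
    {R : Representation k G V} {ν : G →* k} (hM : FixesTateTensors ρ χ R ν) {ι : Type} [Fintype ι]
    (j : ℤ) (φ : MultilinearMap k (fun _ : ι => V) k)
    (hφ : ∃ Δ : Subgroup Γ, Δ.FiniteIndex ∧ ∀ g ∈ Δ, ∀ v : ι → V,
      φ (fun i => ρ g (v i)) = χ g ^ j * φ v) (h : G) (v : ι → V) :
    φ (fun i => R h (v i)) = ν h ^ j * φ v := by
  obtain ⟨Δ, hΔ, hφ⟩ := hφ
  let e := Fintype.equivFin ι
  have h1 := hM (Fintype.card ι) j (φ.domDomCongr e) ⟨Δ, hΔ, fun g hg v => by
    rw [MultilinearMap.domDomCongr_apply, MultilinearMap.domDomCongr_apply]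
    exact hφ g hg fun i => v (e i)⟩ h (fun i => v (e.symm i))
  rw [MultilinearMap.domDomCongr_apply, MultilinearMap.domDomCongr_apply] at h1
  simpa using h1

/-- The action on multilinear forms, twisted by the `j`-th power of a character. -/
def formRep (τ : Representation k Γ W) (χ : Γ →* k) (j : ℤ) (β : Type) :
    Representation k Γ (MultilinearMap k (fun _ : β => W) k) where
  toFun g :=
    { toFun := fun ψ => χ g ^ j • ψ.compLinearMap (fun _ => τ g⁻¹)
      map_add' := fun ψ ψ' => by
        ext w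
        change χ g ^ j * (ψ _ + ψ' _) = χ g ^ j * ψ _ + χ g ^ j * ψ' _
        ring
      map_smul' := fun c ψ => by
        ext w
        change χ g ^ j * (c * ψ _) = c * (χ g ^ j * ψ _)
        ring }
  map_one' := by
    refine LinearMap.ext fun ψ => MultilinearMap.ext fun w => ?_
    change χ 1 ^ j * ψ (fun i => τ (1 : Γ)⁻¹ (w i)) = ψ w
    rw [map_one, one_zpow, one_mul, inv_one, map_one]
    rfl
  map_mul' g h := by
    refine LinearMap.ext fun ψ => MultilinearMap.ext fun w => ?_
    change χ (g * h) ^ j * ψ (fun i => τ (g * h)⁻¹ (w i)) =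
      χ g ^ j * (χ h ^ j * ψ (fun i => τ h⁻¹ (τ g⁻¹ (w i))))
    rw [map_mul, mul_zpow, mul_inv_rev, map_mul, mul_assoc]
    rfl

theorem formRep_apply (τ : Representation k Γ W) (χ : Γ →* k) (j : ℤ) (β : Type) (g : Γ)
    (ψ : MultilinearMap k (fun _ : β => W) k) (w : β → W) :
    formRep τ χ j β g ψ w = χ g ^ j * ψ (fun i => τ g⁻¹ (w i)) := rfl

section alt

variable {κ : Type} [Fintype κ] [DecidableEq κ] {n : ℕ} (e : κ ≃ Fin n)

/-- The alternating form on a power given by a multilinear form. -/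
def altOf (f : MultilinearMap k (fun _ : κ => V) W) : (Fin n → V) [⋀^κ]→ₗ[k] W :=
  MultilinearMap.alternatization (f.compLinearMap fun l => LinearMap.proj (e l))

theorem altOf_apply (f : MultilinearMap k (fun _ : κ => V) W) (u : κ → Fin n → V) :
    altOf e f u = ∑ σ : Equiv.Perm κ, Equiv.Perm.sign σ • f (fun l => u (σ l) (e l)) := by
  unfold altOf
  rw [MultilinearMap.alternatization_apply]
  rfl

theorem altOf_single (f : MultilinearMap k (fun _ : κ => V) W) (v : κ → V) :
    altOf e f (fun l => Pi.single (e l) (v l)) = f v := by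
  rw [altOf_apply, Finset.sum_eq_single 1]
  · rw [Equiv.Perm.sign_one, one_smul]
    congr 1
    funext l
    rw [Equiv.Perm.one_apply, Pi.single_eq_same]
  · intro σ _ hσ
    obtain ⟨l, hl⟩ : ∃ l, σ l ≠ l := by
      by_contra hcon
      push Not at hcon
      exact hσ (Equiv.ext hcon)
    rw [f.map_coord_zero l, smul_zero]
    exact Pi.single_eq_of_ne (fun h => hl (e.injective h).symm) _
  · intro h
    exact absurd (Finset.mem_univ _) h

theorem altOf_inv {f : MultilinearMap k (fun _ : κ => V) W} {D : V →ₗ[k] V} {t : W →ₗ[k] W}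
    (hf : ∀ v, f (fun l => D (v l)) = t (f v)) (u : κ → Fin n → V) :
    altOf e f (fun l i => D (u l i)) = t (altOf e f u) := by
  rw [altOf_apply, altOf_apply, map_sum]
  refine Finset.sum_congr rfl fun σ _ => ?_
  have h1 := hf fun l => u (σ l) (e l)
  rw [h1]
  rcases Int.units_eq_one_or (Equiv.Perm.sign σ) with h | h
  · rw [h, one_smul, one_smul]
  · rw [h, Units.neg_smul, Units.neg_smul, one_smul, one_smul, map_neg]

end alt

/-- Classes of degree two on powers. -/
theorem classTwo_fixed {ρ : Representation k Γ V} {χ : Γ →* k} {R : V →ₗ[k] V} {c₀ : k}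
    (h : ∀ B : V →ₗ[k] V →ₗ[k] k, IsTate2 ρ χ B → ∀ u v, B (R u) (R v) = c₀ * B u v)
    {n : ℕ} {f : (Fin n → V) [⋀^Fin 2]→ₗ[k] k} (hf : IsTateClassTwo ρ χ f) (x y : Fin n → V) :
    f ![fun i => R (x i), fun i => R (y i)] = c₀ * f ![x, y] := by
  obtain ⟨c, hc⟩ : ∃ c : Fin n → Fin n → (V →ₗ[k] V →ₗ[k] k), ∀ i j u v,
      c i j u v = bilOf f (Pi.single i u) (Pi.single j v) :=
    ⟨fun i j => (bilOf f).compl₁₂ (LinearMap.single k (fun _ : Fin n => V) i)
      (LinearMap.single k (fun _ : Fin n => V) j), fun i j u v => rfl⟩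
  obtain ⟨Δ₀, hΔ₀, hf⟩ := hf
  have h1 : ∀ i j, IsTate2 ρ χ (c i j) := by
    intro i j
    refine ⟨Δ₀, hΔ₀, fun s hs u v => ?_⟩
    rw [hc, hc, bilOf_apply, bilOf_apply, ← hf s hs]
    congr 1
    have e1 : ∀ (i : Fin n) (u : V), (Pi.single i (ρ s u) : Fin n → V) =
        fun i' => ρ s ((Pi.single i u : Fin n → V) i') := by
      intro i u
      funext i'
      by_cases hi : i' = i
      · subst hi
        rw [Pi.single_eq_same, Pi.single_eq_same]
      · rw [Pi.single_eq_of_ne hi, Pi.single_eq_of_ne hi, map_zero]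
    rw [e1, e1]
    funext l
    fin_cases l <;> rfl
  have hexp : ∀ x y : Fin n → V, f ![x, y] = ∑ i, ∑ j, c i j (x i) (y j) := by
    intro x y
    have e1 : ∀ x : Fin n → V, x = ∑ i, Pi.single i (x i) := fun x =>
      (Finset.univ_sum_single x).symm
    rw [← bilOf_apply]
    conv_lhs => rw [e1 x, e1 y]
    rw [map_sum (bilOf f), LinearMap.sum_apply]
    refine Finset.sum_congr rfl fun i _ => ?_
    rw [map_sum]
    exact Finset.sum_congr rfl fun j _ => (hc i j _ _).symm
  rw [hexp, hexp, Finset.mul_sum]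
  refine Finset.sum_congr rfl fun i _ => ?_
  rw [Finset.mul_sum]
  exact Finset.sum_congr rfl fun j _ => h _ (h1 i j) _ _

/-- The Künneth components with values in a representation. -/
def MixedGenerated (ρ : Representation k Γ V) (χ : Γ →* k) (τ : Representation k Γ W) : Prop :=
  (∀ (n a : ℕ), Odd a → ∀ f : (Fin n → V) [⋀^Fin a]→ₗ[k] W,
    (∃ Δ : Subgroup Γ, Δ.FiniteIndex ∧ ∀ s ∈ Δ, ∀ v : Fin a → Fin n → V,
      f (fun l i => ρ s (v l i)) = τ s (f v)) → f = 0) ∧
  ∀ (n m : ℕ) (f : (Fin n → V) [⋀^Fin m × Fin 2]→ₗ[k] W),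
    (∃ Δ : Subgroup Γ, Δ.FiniteIndex ∧ ∀ s ∈ Δ, ∀ v : Fin m × Fin 2 → Fin n → V,
      f (fun l i => ρ s (v l i)) = τ s (f v)) →
    f ∈ Submodule.span k {g : (Fin n → V) [⋀^Fin m × Fin 2]→ₗ[k] W |
      ∃ B : Fin m → (Fin n → V) [⋀^Fin 2]→ₗ[k] k, (∀ l, IsTateClassTwo ρ χ (B l)) ∧
        ∃ w : W, (∃ Δ : Subgroup Γ, Δ.FiniteIndex ∧ ∀ s ∈ Δ, τ s w = χ s ^ m • w) ∧
        ∀ v, g v = (∑ σ : Equiv.Perm (Fin m × Fin 2), ((Equiv.Perm.sign σ : ℤ) : k) *
          ∏ l, B l ![v (σ (l, 0)), v (σ (l, 1))]) • w}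

section main

variable {ρ : Representation k Γ V} {χ : Γ →* k} {τ : Representation k Γ W}
  {R : Representation k G V} {T : Representation k G W} {ν : G →* k}

theorem char_ne (χ : Γ →* k) (g : Γ) : χ g ≠ 0 := by
  intro h
  have h1 : χ (g * g⁻¹) = 1 := by rw [mul_inv_cancel, map_one]
  rw [map_mul, h, zero_mul] at h1
  exact zero_ne_one h1

/-- Tensors with values in forms. -/
theorem mixed_fixed (hK : ∀ (β : Type) [Fintype β] (j : ℤ), MixedGenerated ρ χ (formRep τ χ j β))
    (hdeg : ∀ B : V →ₗ[k] V →ₗ[k] k, IsTate2 ρ χ B →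
      ∀ h u v, B (R h u) (R h v) = ν h * B u v)
    (hZ : FixesTateTensors τ χ T ν) {α β : Type} [Fintype α] [Fintype β] (j : ℤ)
    (φ : MultilinearMap k (fun _ : α => V) (MultilinearMap k (fun _ : β => W) k))
    (hφ : ∃ Δ : Subgroup Γ, Δ.FiniteIndex ∧ ∀ g ∈ Δ, ∀ (v : α → V) (w : β → W),
      φ (fun i => ρ g (v i)) (fun i => τ g (w i)) = χ g ^ j * φ v w)
    (h : G) (v : α → V) (w : β → W) :
    φ (fun i => R h (v i)) (fun i => T h (w i)) = ν h ^ j * φ v w := by
  classical
  obtain ⟨Δ, hΔ, hφ⟩ := hφ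
  have hφ' : ∀ g ∈ Δ, ∀ v : α → V, φ (fun i => ρ g (v i)) = formRep τ χ j β g (φ v) := by
    intro g hg v
    refine MultilinearMap.ext fun w => ?_
    have h1 := hφ g hg v fun i => τ g⁻¹ (w i)
    have h2 : ∀ w : W, τ g (τ g⁻¹ w) = w := by
      intro w
      have h3 : (τ g * τ g⁻¹) w = w := by rw [← map_mul, mul_inv_cancel, map_one]; rfl
      exact h3
    simp only [h2] at h1
    rw [h1]
    rfl
  rcases Nat.even_or_odd (Fintype.card α) with ⟨m, hm⟩ | hodd
  · -- even
    have hc : Fintype.card (Fin m × Fin 2) = Fintype.card α := by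
      rw [Fintype.card_prod, Fintype.card_fin, Fintype.card_fin]
      omega
    obtain ⟨E⟩ := Fintype.truncEquivOfCardEq hc |>.nonempty
    let e : Fin m × Fin 2 ≃ Fin (Fintype.card (Fin m × Fin 2)) := Fintype.equivFin _
    let f : MultilinearMap k (fun _ : Fin m × Fin 2 => V) (MultilinearMap k (fun _ : β => W) k) :=
      φ.domDomCongr E.symm
    have hfφ : ∀ u, f u = φ (fun i => u (E.symm i)) := fun u => rfl
    have h1 := (hK β j).2 _ m (altOf e f) ⟨Δ, hΔ, fun s hs u =>
      altOf_inv e (D := ρ s) (t := formRep τ χ j β s) (fun v => by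
        rw [hfφ, hfφ]
        exact hφ' s hs fun i => v (E.symm i)) u⟩
    have h2 : ∀ F ∈ Submodule.span k {g : (Fin (Fintype.card (Fin m × Fin 2)) → V)
        [⋀^Fin m × Fin 2]→ₗ[k] (MultilinearMap k (fun _ : β => W) k) |
        ∃ B : Fin m → (Fin (Fintype.card (Fin m × Fin 2)) → V) [⋀^Fin 2]→ₗ[k] k,
          (∀ l, IsTateClassTwo ρ χ (B l)) ∧
          ∃ w : MultilinearMap k (fun _ : β => W) k,
            (∃ Δ : Subgroup Γ, Δ.FiniteIndex ∧ ∀ s ∈ Δ, formRep τ χ j β s w = χ s ^ m • w) ∧
          ∀ v, g v = (∑ σ : Equiv.Perm (Fin m × Fin 2), ((Equiv.Perm.sign σ : ℤ) : k) *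
            ∏ l, B l ![v (σ (l, 0)), v (σ (l, 1))]) • w},
        ∀ (u : Fin m × Fin 2 → Fin (Fintype.card (Fin m × Fin 2)) → V) (w : β → W),
          F (fun l i => R h (u l i)) (fun i => T h (w i)) = ν h ^ j * F u w := by
      intro F hF
      induction hF using Submodule.span_induction with
      | mem F hF =>
        obtain ⟨B, hB, x, ⟨Δ', hΔ', hx⟩, hF⟩ := hF
        intro u w
        have hx1 : ∀ g ∈ Δ', ∀ w : β → W, x (fun i => τ g (w i)) = χ g ^ (j - m) * x w := by
          intro g hg w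
          have h3 := congrArg (fun y : MultilinearMap k (fun _ : β => W) k =>
            y fun i => τ g (w i)) (hx g hg)
          simp only [formRep_apply, MultilinearMap.smul_apply, smul_eq_mul] at h3
          have h4 : ∀ w : W, τ g⁻¹ (τ g w) = w := by
            intro w
            have h3 : (τ g⁻¹ * τ g) w = w := by rw [← map_mul, inv_mul_cancel, map_one]; rfl
            exact h3
          simp only [h4] at h3
          rw [zpow_sub₀ (char_ne χ g), zpow_natCast, div_mul_eq_mul_div, h3,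
            mul_div_cancel_left₀ _ (pow_ne_zero _ (char_ne χ g))]
        have hx2 := hZ.fintype (j - m) x ⟨Δ', hΔ', hx1⟩ h w
        have hB2 : ∀ (l : Fin m) (x y : Fin (Fintype.card (Fin m × Fin 2)) → V),
            B l ![fun i => R h (x i), fun i => R h (y i)] = ν h * B l ![x, y] := fun l x y =>
          classTwo_fixed (fun B hB u v => hdeg B hB h u v) (hB l) x y
        rw [hF, hF]
        simp only [MultilinearMap.smul_apply, smul_eq_mul]
        rw [hx2]
        have h5 : ∀ σ : Equiv.Perm (Fin m × Fin 2), (∏ l, B l ![fun i => R h (u (σ (l, 0)) i),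
            fun i => R h (u (σ (l, 1)) i)]) = ν h ^ m * ∏ l, B l ![u (σ (l, 0)), u (σ (l, 1))] := by
          intro σ
          rw [Finset.prod_congr rfl fun l _ => hB2 l _ _, Finset.prod_mul_distrib,
            Finset.prod_const, Finset.card_univ, Fintype.card_fin]
        have h6 : (∑ σ : Equiv.Perm (Fin m × Fin 2), ((Equiv.Perm.sign σ : ℤ) : k) *
            ∏ l, B l ![fun i => R h (u (σ (l, 0)) i), fun i => R h (u (σ (l, 1)) i)]) =
            ν h ^ m * ∑ σ : Equiv.Perm (Fin m × Fin 2), ((Equiv.Perm.sign σ : ℤ) : k) *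
            ∏ l, B l ![u (σ (l, 0)), u (σ (l, 1))] := by
          rw [Finset.mul_sum]
          refine Finset.sum_congr rfl fun σ _ => ?_
          rw [h5]
          ring
        rw [h6]
        have h7 : ν h ^ j = ν h ^ m * ν h ^ (j - m) := by
          rw [zpow_sub₀ (char_ne ν h), zpow_natCast,
            mul_div_cancel₀ _ (pow_ne_zero _ (char_ne ν h))]
        rw [h7]
        ring
      | zero =>
        intro u w
        change (0 : k) = _ * (0 : k)
        rw [mul_zero]
      | add F F' _ _ h1 h2 =>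
        intro u w
        have e1 := h1 u w
        have e2 := h2 u w
        change F _ _ + F' _ _ = _ * (F _ _ + F' _ _)
        rw [e1, e2]
        ring
      | smul c F _ h1 =>
        intro u w
        have e1 := h1 u w
        change c * F _ _ = _ * (c * F _ _)
        rw [e1]
        ring
    have h3 := h2 _ h1 (fun l => Pi.single (e l) (v (E l))) w
    have h4 : (fun (l : Fin m × Fin 2) (i : Fin (Fintype.card (Fin m × Fin 2))) =>
        R h ((Pi.single (e l) (v (E l)) : Fin (Fintype.card (Fin m × Fin 2)) → V) i)) =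
        fun l => Pi.single (e l) (R h (v (E l))) := by
      funext l i
      by_cases hi : i = e l
      · subst hi
        rw [Pi.single_eq_same, Pi.single_eq_same]
      · rw [Pi.single_eq_of_ne hi, Pi.single_eq_of_ne hi, map_zero]
    rw [h4, altOf_single, altOf_single, hfφ, hfφ] at h3
    simpa using h3
  · -- odd
    obtain ⟨a, ha⟩ : ∃ a, a = Fintype.card α := ⟨_, rfl⟩
    rw [← ha] at hodd
    let E : α ≃ Fin a := (Fintype.equivFin α).trans (finCongr ha.symm)
    let f : MultilinearMap k (fun _ : Fin a => V) (MultilinearMap k (fun _ : β => W) k) :=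
      φ.domDomCongr E
    have hfφ : ∀ u, f u = φ (fun i => u (E i)) := fun u => rfl
    have h1 := (hK β j).1 _ a hodd (altOf (Equiv.refl _) f) ⟨Δ, hΔ, fun s hs u =>
      altOf_inv _ (D := ρ s) (t := formRep τ χ j β s) (fun v => by
        rw [hfφ, hfφ]
        exact hφ' s hs fun i => v (E i)) u⟩
    have h2 : ∀ v, φ v = 0 := by
      intro v
      have h3 := altOf_single (Equiv.refl _) f (fun i => v (E.symm i))
      rw [h1, AlternatingMap.zero_apply, hfφ] at h3
      simpa using h3.symm
    rw [h2, h2]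
    change (0 : k) = _ * (0 : k)
    rw [mul_zero]

/-- The tensors of a direct sum. -/
theorem fixes_prod (hK : ∀ (β : Type) [Fintype β] (j : ℤ), MixedGenerated ρ χ (formRep τ χ j β))
    (hdeg : ∀ B : V →ₗ[k] V →ₗ[k] k, IsTate2 ρ χ B →
      ∀ h u v, B (R h u) (R h v) = ν h * B u v)
    (hZ : FixesTateTensors τ χ T ν) :
    FixesTateTensors (ρ.prod τ) χ (R.prod T) ν := by
  classical
  intro s j φ hφ h v
  obtain ⟨Δ, hΔ, hφ⟩ := hφ
  have key : ∀ (S : Finset (Fin s)) (x : Fin s → V × W),
      φ (S.piecewise (fun i => (R h (x i).1, 0)) fun i => (0, T h (x i).2)) =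
        ν h ^ j * φ (S.piecewise (fun i => ((x i).1, 0)) fun i => (0, (x i).2)) := by
    intro S x
    let E : {i // i ∈ S} ⊕ {i // i ∉ S} ≃ Fin s := Equiv.sumCompl _
    let ψ : MultilinearMap k (fun _ : {i // i ∈ S} => V)
        (MultilinearMap k (fun _ : {i // i ∉ S} => W) k) :=
      (MultilinearMap.compLinearMapₗ (fun _ : {i // i ∉ S} => LinearMap.inr k V W)).compMultilinearMap
        ((MultilinearMap.currySum (φ.domDomCongr E.symm)).compLinearMap
          (fun _ : {i // i ∈ S} => LinearMap.inl k V W))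
    have hψ : ∀ (a : {i // i ∈ S} → V) (b : {i // i ∉ S} → W),
        ψ a b = φ (fun i => if hi : i ∈ S then (a ⟨i, hi⟩, 0) else (0, b ⟨i, hi⟩)) := by
      intro a b
      change φ (fun i => Sum.rec (fun l => LinearMap.inl k V W (a l))
        (fun l => LinearMap.inr k V W (b l)) (E.symm i)) = _
      congr 1
      funext i
      by_cases hi : i ∈ S
      · rw [dif_pos hi]
        have h1 : E.symm i = Sum.inl ⟨i, hi⟩ := by
          rw [Equiv.symm_apply_eq]
          rfl
        rw [h1]
        rfl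
      · rw [dif_neg hi]
        have h1 : E.symm i = Sum.inr ⟨i, hi⟩ := by
          rw [Equiv.symm_apply_eq]
          rfl
        rw [h1]
        rfl
    have h1 := mixed_fixed hK hdeg hZ j ψ ⟨Δ, hΔ, fun g hg a b => by
      rw [hψ, hψ, ← hφ g hg]
      congr 1
      funext i
      by_cases hi : i ∈ S
      · rw [dif_pos hi, dif_pos hi]
        change _ = (ρ g _, τ g 0)
        rw [map_zero]
        rfl
      · rw [dif_neg hi, dif_neg hi]
        change _ = (ρ g 0, τ g _)
        rw [map_zero]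
        rfl⟩ h (fun i => (x i.1).1) (fun i => (x i.1).2)
    rw [hψ, hψ] at h1
    have h2 : (S.piecewise (fun i => (R h (x i).1, (0 : W))) fun i => ((0 : V), T h (x i).2)) =
        fun i => if hi : i ∈ S then (R h (x i).1, (0 : W)) else ((0 : V), T h (x i).2) := by
      funext i
      by_cases hi : i ∈ S
      · rw [Finset.piecewise_eq_of_mem _ _ _ hi, dif_pos hi]
      · rw [Finset.piecewise_eq_of_notMem _ _ _ hi, dif_neg hi]
    have h3 : (S.piecewise (fun i => ((x i).1, (0 : W))) fun i => ((0 : V), (x i).2)) =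
        fun i => if hi : i ∈ S then ((x i).1, (0 : W)) else ((0 : V), (x i).2) := by
      funext i
      by_cases hi : i ∈ S
      · rw [Finset.piecewise_eq_of_mem _ _ _ hi, dif_pos hi]
      · rw [Finset.piecewise_eq_of_notMem _ _ _ hi, dif_neg hi]
    rw [h2, h3]
    exact h1
  have h1 : (fun i => (R.prod T) h (v i)) = (fun i => (R h (v i).1, (0 : W))) +
      fun i => ((0 : V), T h (v i).2) := by
    funext i
    change (R h (v i).1, T h (v i).2) = (R h (v i).1 + 0, 0 + T h (v i).2)
    rw [add_zero, zero_add]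
  have h2 : v = (fun i => ((v i).1, (0 : W))) + fun i => ((0 : V), (v i).2) := by
    funext i
    change v i = ((v i).1 + 0, 0 + (v i).2)
    rw [add_zero, zero_add]
  rw [h1, MultilinearMap.map_add_univ, Finset.sum_congr rfl fun S _ => key S v, ← Finset.mul_sum,
    ← MultilinearMap.map_add_univ, ← h2]

end main

end

end Pool.Agent.R930
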