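import Mathlib
import Pool.Agent.R930.KDescent

/-!
# Commutators act nontrivially on the pieces
-/

set_option linter.unusedSectionVars false

namespace Pool.Agent.R930

open Module TensorProduct Pool.Agent.H204R3.SP Pool.Agent.H204R3.GP Pool.Agent.W522.U
open Pool.Agent.TH118.CR Pool.Agent.Y126.Notions

noncomputable section

/-- The group acts on a strongly irreducible subspace of dimension at least two through a group that
is not potentially abelian. -/
theorem comm_acts {K : Type} [Field K] [IsAlgClosed K] {X : Type} [AddCommGroup X] [Module K X]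
    [FiniteDimensional K X] {Γ : Type} [Group Γ] {R : Representation K Γ X} {U : Submodule K X}
    (hU : SI R U) (h2 : 2 ≤ finrank K U) (Δ : Subgroup Γ) (hΔ : Δ.FiniteIndex) :
    ∃ g ∈ Δ, ∃ h ∈ Δ, ∃ u ∈ U, R (g * h * g⁻¹ * h⁻¹) u ≠ u := by
  classical
  by_contra hcon
  push Not at hcon
  obtain ⟨Δ', hΔ', hst⟩ := id hU.2.1
  have hcomm : ∀ g ∈ Δ ⊓ Δ', ∀ h ∈ Δ ⊓ Δ', ∀ u ∈ U, R g (R h u) = R h (R g u) := by
    intro g hg h hh u hu
    have h1 := hcon g hg.1 h hh.1 (R h (R g u)) (hst h hh.2 _ (hst g hg.2 _ hu))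
    rw [← h1]
    simp only [← Module.End.mul_apply, ← map_mul]
    congr 1
    group
  have hntU : Nontrivial U := by
    rw [Submodule.nontrivial_iff_ne_bot]
    exact hU.1
  have hscal : ∀ g ∈ Δ ⊓ Δ', ∃ c : K, ∀ u ∈ U, R g u = c • u := by
    intro g hg
    let T : Module.End K U := (R g).restrict (hst g hg.2)
    have hT : ∀ u : U, ((T u : U) : X) = R g u := fun u => rfl
    obtain ⟨c, hc⟩ := Module.End.exists_eigenvalue T
    have h1 := hU.2.2 ((T.eigenspace c).map U.subtype) (Submodule.map_subtype_le _ _)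
      ⟨Δ ⊓ Δ', inferInstance, by
        rintro h hh _ ⟨u, hu, rfl⟩
        have hu' : T u = c • u := Module.End.mem_eigenspace_iff.1 hu
        refine ⟨⟨R h u, hst h hh.2 _ u.2⟩, ?_, rfl⟩
        refine Module.End.mem_eigenspace_iff.2 (Subtype.ext ?_)
        rw [hT]
        change R g (R h u) = c • R h u
        rw [hcomm g hg h hh u u.2, ← hT, hu', Submodule.coe_smul, map_smul]⟩
    rcases h1 with h1 | h1
    · exfalso
      apply hc
      rw [eq_bot_iff]
      intro u hu
      have h3 : (u : X) ∈ (T.eigenspace c).map U.subtype := ⟨u, hu, rfl⟩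
      rw [h1, Submodule.mem_bot] at h3
      rw [Submodule.mem_bot]
      exact Subtype.ext h3
    · refine ⟨c, fun u hu => ?_⟩
      have h3 : u ∈ (T.eigenspace c).map U.subtype := by rw [h1]; exact hu
      obtain ⟨u', hu', rfl⟩ := h3
      have h4 : T u' = c • u' := Module.End.mem_eigenspace_iff.1 hu'
      change R g (u' : X) = c • (u' : X)
      rw [← hT, h4, Submodule.coe_smul]
  obtain ⟨u, hu, hu0⟩ := (Submodule.ne_bot_iff _).1 hU.1
  rcases hU.2.2 (Submodule.span K {u}) (by
      rw [Submodule.span_singleton_le_iff_mem]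
      exact hu) ⟨Δ ⊓ Δ', inferInstance, by
        intro g hg v hv
        obtain ⟨c, hc⟩ := hscal g hg
        obtain ⟨a, rfl⟩ := Submodule.mem_span_singleton.1 hv
        rw [map_smul, hc u hu]
        exact Submodule.smul_mem _ _ (Submodule.smul_mem _ _
          (Submodule.mem_span_singleton_self u))⟩ with h | h
  · exact hu0 (Submodule.span_singleton_eq_bot.1 h)
  · have h3 : finrank K (Submodule.span K {u}) = finrank K U := by rw [h]
    rw [finrank_span_singleton hu0] at h3
    omega

end

end Pool.Agent.R930
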