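import Mathlib
import Pool.Agent.R930.KAbel

/-!
# Frobenius elements with two slopes and the kernel of another representation
-/

set_option linter.unusedSectionVars false

namespace Pool.Agent.R930

open Module TensorProduct Pool.Agent.Y126.Notions
open Pool.Agent.H204R3.SP Pool.Agent.H204R3.GP Pool.Agent.W522.U Pool.Agent.Y126.Toric
open Pool.Agent.TH118.CR Pool.Agent.W528.Odd Pool.Agent.Y126.OT Pool.Agent.W529.Ta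
open Pool.Agent.W528.Tor (AltDual)

noncomputable section

theorem mem_kk {k W Γ : Type} [Field k] [AddCommGroup W] [Module k W] [Group Γ]
    (τ : Representation k Γ W) (χ : Γ →* k) (g : Γ) :
    g ∈ MonoidHom.ker τ ⊓ MonoidHom.ker χ ↔ τ g = 1 ∧ χ g = 1 := Iff.rfl

theorem comm_kernel {k W Γ : Type} [Field k] [AddCommGroup W] [Module k W] [Group Γ]
    {τ : Representation k Γ W} {g h : Γ} (hab : τ g * τ h = τ h * τ g) :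
    τ (g * h * g⁻¹ * h⁻¹) = 1 := by
  have e1 : τ g * τ g⁻¹ = 1 := by rw [← map_mul, mul_inv_cancel, map_one]
  have e2 : τ h * τ h⁻¹ = 1 := by rw [← map_mul, mul_inv_cancel, map_one]
  calc τ (g * h * g⁻¹ * h⁻¹) = (τ g * τ h) * τ g⁻¹ * τ h⁻¹ := by
        rw [map_mul, map_mul, map_mul]
  _ = τ h * (τ g * τ g⁻¹) * τ h⁻¹ := by rw [hab]; noncomm_ring
  _ = 1 := by rw [e1, mul_one, e2]

theorem comm_char {k Γ : Type} [Field k] [Group Γ] (χ : Γ →* k) (g h : Γ) :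
    χ (g * h * g⁻¹ * h⁻¹) = 1 := by
  have e1 : χ g * χ g⁻¹ = 1 := by rw [← map_mul, mul_inv_cancel, map_one]
  have e2 : χ h * χ h⁻¹ = 1 := by rw [← map_mul, mul_inv_cancel, map_one]
  calc χ (g * h * g⁻¹ * h⁻¹) = (χ g * χ g⁻¹) * (χ h * χ h⁻¹) := by
        rw [map_mul, map_mul, map_mul]; ring
  _ = 1 := by rw [e1, e2, mul_one]

theorem bcr_rN {k V Γ : Type} [Field k] [AddCommGroup V] [Module k V] [Group Γ]
    (ρ : Representation k Γ V) (N : Subgroup Γ) (Ω : Type) [Field Ω] [Algebra k Ω] :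
    bcr (rN ρ N) Ω = rN (bcr ρ Ω) N := MonoidHom.ext fun _ => rfl

theorem bcc_cN {k Γ : Type} [Field k] [Group Γ] (χ : Γ →* k) (N : Subgroup Γ) (Ω : Type)
    [Field Ω] [Algebra k Ω] : bcc (cN χ N) Ω = cN (bcc χ Ω) N := MonoidHom.ext fun _ => rfl

section kk

variable {ℓ : ℕ} [Fact ℓ.Prime] {V Γ : Type} [AddCommGroup V] [Module ℚ_[ℓ] V]
    [FiniteDimensional ℚ_[ℓ] V] [Group Γ] [TopologicalSpace Γ]
    {ρ : Representation ℚ_[ℓ] Γ V} {χ : Γ →* ℚ_[ℓ]} {n : ℕ} {b : Basis (Fin n) ℚ_[ℓ] V}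

theorem ne_kern (hintegral : ∀ g i j, ‖LinearMap.toMatrix b b (ρ g) i j‖ ≤ 1) {N : Subgroup Γ}
    {U : Submodule (AlgebraicClosure ℚ_[ℓ]) (AlgebraicClosure ℚ_[ℓ] ⊗[ℚ_[ℓ]] V)}
    (hU : SI (bcr ρ (AlgebraicClosure ℚ_[ℓ])) U)
    (hker : ∀ Δ : Subgroup Γ, Δ.FiniteIndex → ∃ g ∈ Δ, g ∈ N ∧ χ g = 1 ∧
      ∃ u ∈ U, bcr ρ (AlgebraicClosure ℚ_[ℓ]) g u ≠ u) :
    ∃ x ∈ lieT (rN (bcr ρ (AlgebraicClosure ℚ_[ℓ])) N) (cN (bcc χ (AlgebraicClosure ℚ_[ℓ])) N),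
      ∃ u ∈ U, x u ≠ 0 := by
  obtain ⟨Δ, hΔ, hst⟩ := id hU.2.1
  have hfin := neat_finiteIndex hintegral
  obtain ⟨g, ⟨hgn, hgΔ⟩, hgN, hgχ, hne⟩ := hker (neat ρ b hintegral ⊓ Δ) inferInstance
  have hχ : cN (bcc χ (AlgebraicClosure ℚ_[ℓ])) N ⟨g, hgN⟩ = 1 := by
    rw [cN_apply, bcc_apply, hgχ, map_one]
  refine jordan_elem (R := rN (bcr ρ (AlgebraicClosure ℚ_[ℓ])) N)
    (χ := cN (bcc χ (AlgebraicClosure ℚ_[ℓ])) N) (g := ⟨g, hgN⟩) hχ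
    (fun u hu => hst g hgΔ u hu) hne ?_
  rintro z ⟨u, -, hu0, hu⟩ k hk hz
  exact eq_one_of_close (eig_close (by positivity) (mem_neat.1 hgn) hu0 hu) hk hz

theorem proj_kern (N : Subgroup Γ) (hN : N.Normal) (hss : PotentiallySemisimple ρ) :
    HasProj (rN (bcr ρ (AlgebraicClosure ℚ_[ℓ])) N) :=
  hasProj_bcr (rN ρ N) (AlgebraicClosure ℚ_[ℓ]) (semisimple_normal ρ N hN hss)

theorem nrm_kern (ω : V →ₗ[ℚ_[ℓ]] V →ₗ[ℚ_[ℓ]] ℚ_[ℓ]) (halt : ∀ v, ω v v = 0)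
    (hnondeg : ∀ u, (∀ v, ω v u = 0) → u = 0)
    (hω : ∀ s u v, ω (ρ s u) (ρ s v) = χ s * ω u v)
    (hsemisimple : PotentiallySemisimple ρ)
    (hintegral : ∀ g i j, ‖LinearMap.toMatrix b b (ρ g) i j‖ ≤ 1)
    (hcontinuous : ∀ i j, Continuous fun g => LinearMap.toMatrix b b (ρ g) i j)
    (hfrobenius : Dense {γ | IsTwoSlope ρ χ γ})
    {U : Submodule (AlgebraicClosure ℚ_[ℓ]) (AlgebraicClosure ℚ_[ℓ] ⊗[ℚ_[ℓ]] V)}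
    (hU : SI (bcr ρ (AlgebraicClosure ℚ_[ℓ])) U)
    (h2 : 2 ≤ finrank (AlgebraicClosure ℚ_[ℓ]) U) :
    ∃ x ∈ nrmSet (bcr ρ (AlgebraicClosure ℚ_[ℓ])) (bcc χ (AlgebraicClosure ℚ_[ℓ])),
      ∃ xU : Module.End (AlgebraicClosure ℚ_[ℓ]) U,
      (∀ u : U, ((xU u : U) : AlgebraicClosure ℚ_[ℓ] ⊗[ℚ_[ℓ]] V) = x u) ∧ e1 xU ≠ 0 ∧
        e0 xU ≠ 0 :=
  exists_nonscalar_nrm (bcb (AlgebraicClosure ℚ_[ℓ]) ω)
    (fun u hu => bcb_nondeg_left ω hnondeg (left_nondeg ω halt hnondeg) u hu)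
    (bcb_inv (Ω := AlgebraicClosure ℚ_[ℓ]) ρ χ ω hω) (hasProj_bcr ρ _ hsemisimple) hU
    (nrm_generate hintegral hcontinuous hfrobenius) h2

theorem one_piece [IsTopologicalGroup Γ] (ω : V →ₗ[ℚ_[ℓ]] V →ₗ[ℚ_[ℓ]] ℚ_[ℓ])
    (halt : ∀ v, ω v v = 0)
    (hnondeg : ∀ u, (∀ v, ω v u = 0) → u = 0)
    (hω : ∀ s u v, ω (ρ s u) (ρ s v) = χ s * ω u v)
    (hsemisimple : PotentiallySemisimple ρ)
    (hintegral : ∀ g i j, ‖LinearMap.toMatrix b b (ρ g) i j‖ ≤ 1)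
    (hcontinuous : ∀ i j, Continuous fun g => LinearMap.toMatrix b b (ρ g) i j)
    (hfrobenius : Dense {γ | IsTwoSlope ρ χ γ})
    {U : Submodule (AlgebraicClosure ℚ_[ℓ]) (AlgebraicClosure ℚ_[ℓ] ⊗[ℚ_[ℓ]] V)}
    (hU : SI (bcr ρ (AlgebraicClosure ℚ_[ℓ])) U)
    (ha : AltDual (bcr ρ (AlgebraicClosure ℚ_[ℓ])) (bcc χ (AlgebraicClosure ℚ_[ℓ])) U)
    (hd : finrank (AlgebraicClosure ℚ_[ℓ]) U % 4 = 2 ∨ finrank (AlgebraicClosure ℚ_[ℓ]) U = 4) :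
    ∃ e ∈ lieT (bcr ρ (AlgebraicClosure ℚ_[ℓ])) (bcc χ (AlgebraicClosure ℚ_[ℓ])),
      e * e = 0 ∧ finrank (AlgebraicClosure ℚ_[ℓ]) (U.map e) = 1 := by
  have hl1 : ∀ u, (∀ v, bcb (AlgebraicClosure ℚ_[ℓ]) ω u v = 0) → u = 0 := fun u hu =>
    bcb_nondeg_left ω hnondeg (left_nondeg ω halt hnondeg) u hu
  have hinv := bcb_inv (Ω := AlgebraicClosure ℚ_[ℓ]) ρ χ ω hω
  have hpr : HasProj (bcr ρ (AlgebraicClosure ℚ_[ℓ])) := hasProj_bcr ρ _ hsemisimple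
  have hweak := weakGenerate_of_dense hintegral hcontinuous hfrobenius
  rcases hd with h | h
  · exact one_of_symp_odd (bcb _ ω) hl1 hinv hpr hU hweak ha h
  · exact one_of_symp' (bcb _ ω) hl1 hinv hpr hU hweak ha (Or.inl h)

theorem kern_pieces [IsTopologicalGroup Γ] (ω : V →ₗ[ℚ_[ℓ]] V →ₗ[ℚ_[ℓ]] ℚ_[ℓ])
    (halt : ∀ v, ω v v = 0)
    (hnondeg : ∀ u, (∀ v, ω v u = 0) → u = 0)
    (hω : ∀ s u v, ω (ρ s u) (ρ s v) = χ s * ω u v)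
    (hsemisimple : PotentiallySemisimple ρ)
    (hintegral : ∀ g i j, ‖LinearMap.toMatrix b b (ρ g) i j‖ ≤ 1)
    (hcontinuous : ∀ i j, Continuous fun g => LinearMap.toMatrix b b (ρ g) i j)
    (hfrobenius : Dense {γ | IsTwoSlope ρ χ γ})
    (hpieces : ∀ U, SI (bcr ρ (AlgebraicClosure ℚ_[ℓ])) U →
      AltDual (bcr ρ (AlgebraicClosure ℚ_[ℓ])) (bcc χ (AlgebraicClosure ℚ_[ℓ])) U ∧
      (finrank (AlgebraicClosure ℚ_[ℓ]) U % 4 = 2 ∨ finrank (AlgebraicClosure ℚ_[ℓ]) U = 4))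
    (N : Subgroup Γ) (hN : N.Normal)
    (hker : ∀ U, SI (bcr ρ (AlgebraicClosure ℚ_[ℓ])) U → ∀ Δ : Subgroup Γ, Δ.FiniteIndex →
      ∃ g ∈ Δ, g ∈ N ∧ χ g = 1 ∧ ∃ u ∈ U, bcr ρ (AlgebraicClosure ℚ_[ℓ]) g u ≠ u) :
    KernPieces (bcr ρ (AlgebraicClosure ℚ_[ℓ])) (bcc χ (AlgebraicClosure ℚ_[ℓ])) N where
  normal := hN
  proj := proj_kern N hN hsemisimple
  alt := fun U hU => (hpieces U hU).1
  one := fun U hU => one_piece ω halt hnondeg hω hsemisimple hintegral hcontinuous hfrobenius hU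
    (hpieces U hU).1 (hpieces U hU).2
  ne := fun U hU => ne_kern hintegral hU (hker U hU)
  nrm := fun U hU => nrm_kern ω halt hnondeg hω hsemisimple hintegral hcontinuous hfrobenius hU
    (altDual_two_le (hpieces U hU).1)

theorem core_kern' (ω : V →ₗ[ℚ_[ℓ]] V →ₗ[ℚ_[ℓ]] ℚ_[ℓ]) (halt : ∀ v, ω v v = 0)
    (hnondeg : ∀ u, (∀ v, ω v u = 0) → u = 0)
    (hω : ∀ s u v, ω (ρ s u) (ρ s v) = χ s * ω u v)
    (hsemisimple : PotentiallySemisimple ρ) {N : Subgroup Γ}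
    (hK : KernPieces (bcr ρ (AlgebraicClosure ℚ_[ℓ])) (bcc χ (AlgebraicClosure ℚ_[ℓ])) N) (m : ℕ)
      (φ : MultilinearMap (AlgebraicClosure ℚ_[ℓ])
        (fun _ : Fin m × Fin 2 => AlgebraicClosure ℚ_[ℓ] ⊗[ℚ_[ℓ]] V) (AlgebraicClosure ℚ_[ℓ]))
      (hφ : IsTate (rN (bcr ρ (AlgebraicClosure ℚ_[ℓ])) N)
        (cN (bcc χ (AlgebraicClosure ℚ_[ℓ])) N) m φ) :
      φ ∈ Submodule.span (AlgebraicClosure ℚ_[ℓ]) (PT (rN (bcr ρ (AlgebraicClosure ℚ_[ℓ])) N)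
        (cN (bcc χ (AlgebraicClosure ℚ_[ℓ])) N) m) :=
    core_kern (bcb (AlgebraicClosure ℚ_[ℓ]) ω)
      (fun u hu => bcb_nondeg_left ω hnondeg (left_nondeg ω halt hnondeg) u hu)
      (bcb_inv (Ω := AlgebraicClosure ℚ_[ℓ]) ρ χ ω hω) (hasProj_bcr ρ _ hsemisimple) hK φ hφ

theorem gen_kern {N : Subgroup Γ} (h : ∀ (m : ℕ) (φ : MultilinearMap (AlgebraicClosure ℚ_[ℓ])
        (fun _ : Fin m × Fin 2 => AlgebraicClosure ℚ_[ℓ] ⊗[ℚ_[ℓ]] V) (AlgebraicClosure ℚ_[ℓ])),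
      IsTate (rN (bcr ρ (AlgebraicClosure ℚ_[ℓ])) N)
        (cN (bcc χ (AlgebraicClosure ℚ_[ℓ])) N) m φ →
      φ ∈ Submodule.span (AlgebraicClosure ℚ_[ℓ]) (PT (rN (bcr ρ (AlgebraicClosure ℚ_[ℓ])) N)
        (cN (bcc χ (AlgebraicClosure ℚ_[ℓ])) N) m)) :
    Pool.Agent.H204R3.GP.TateGeneratedInDegreeTwo (rN ρ N) (cN χ N) := by
  refine generated_of_ext (rN ρ N) (cN χ N) (AlgebraicClosure ℚ_[ℓ]) ?_
  rw [bcr_rN, bcc_cN]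
  exact h

theorem generated_kern {N : Subgroup Γ}
    (h : Pool.Agent.H204R3.GP.TateGeneratedInDegreeTwo (rN ρ N) (cN χ N)) :
    GeneratedInDegreeTwo (rN ρ N) (cN χ N) := by
  intro n m f hf
  refine Submodule.span_mono ?_ (h n m f hf)
  rintro g ⟨B, hB, hg⟩
  refine ⟨B, fun l => ?_, hg⟩
  obtain ⟨Δ, hΔ, h1⟩ := hB l
  refine ⟨Δ, hΔ, fun s hs v => ?_⟩
  have h2 := h1 s hs v
  rwa [pow_one] at h2

theorem tate2_kern (ω : V →ₗ[ℚ_[ℓ]] V →ₗ[ℚ_[ℓ]] ℚ_[ℓ]) (halt : ∀ v, ω v v = 0)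
    (hnondeg : ∀ u, (∀ v, ω v u = 0) → u = 0)
    (hω : ∀ s u v, ω (ρ s u) (ρ s v) = χ s * ω u v)
    (hsemisimple : PotentiallySemisimple ρ) {N : Subgroup Γ}
    (hK : KernPieces (bcr ρ (AlgebraicClosure ℚ_[ℓ])) (bcc χ (AlgebraicClosure ℚ_[ℓ])) N)
    {B : V →ₗ[ℚ_[ℓ]] V →ₗ[ℚ_[ℓ]] ℚ_[ℓ]} (hB : IsTate2 (rN ρ N) (cN χ N) B) : IsTate2 ρ χ B := by
  have h1 : IsTate2 (bcr (rN ρ N) (AlgebraicClosure ℚ_[ℓ])) (bcc (cN χ N) (AlgebraicClosure ℚ_[ℓ]))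
    (bcb (AlgebraicClosure ℚ_[ℓ]) B) := tate2_ext hB
  rw [bcr_rN, bcc_cN] at h1
  exact tate2_res (Ω := AlgebraicClosure ℚ_[ℓ])
    (tate2_of_kern (bcb (AlgebraicClosure ℚ_[ℓ]) ω)
      (fun u hu => bcb_nondeg_left ω hnondeg (left_nondeg ω halt hnondeg) u hu)
      (bcb_inv (Ω := AlgebraicClosure ℚ_[ℓ]) ρ χ ω hω) (hasProj_bcr ρ _ hsemisimple) hK h1)

/-- A slope operator, for forms invariant under the normal subgroup. -/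
theorem slope_kern (ω : V →ₗ[ℚ_[ℓ]] V →ₗ[ℚ_[ℓ]] ℚ_[ℓ]) (halt : ∀ v, ω v v = 0)
    (hnondeg : ∀ u, (∀ v, ω v u = 0) → u = 0)
    (hω : ∀ s u v, ω (ρ s u) (ρ s v) = χ s * ω u v)
    (hsemisimple : PotentiallySemisimple ρ) {N : Subgroup Γ}
    (hK : KernPieces (bcr ρ (AlgebraicClosure ℚ_[ℓ])) (bcc χ (AlgebraicClosure ℚ_[ℓ])) N) :
    ∃ x : Module.End (AlgebraicClosure ℚ_[ℓ]) (AlgebraicClosure ℚ_[ℓ] ⊗[ℚ_[ℓ]] V),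
      x * x = (1 / 4 : AlgebraicClosure ℚ_[ℓ]) • 1 ∧ ∀ (m : ℕ)
      (φ : MultilinearMap (AlgebraicClosure ℚ_[ℓ])
        (fun _ : Fin m × Fin 2 => AlgebraicClosure ℚ_[ℓ] ⊗[ℚ_[ℓ]] V) (AlgebraicClosure ℚ_[ℓ])),
      IsTate (rN (bcr ρ (AlgebraicClosure ℚ_[ℓ])) N)
        (cN (bcc χ (AlgebraicClosure ℚ_[ℓ])) N) m φ → Kills x φ := by
  rcases subsingleton_or_nontrivial (AlgebraicClosure ℚ_[ℓ] ⊗[ℚ_[ℓ]] V) with hsub | hnt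
  · refine ⟨0, LinearMap.ext fun v => Subsingleton.elim _ _, fun m φ _ v => ?_⟩
    refine Finset.sum_eq_zero fun k _ => ?_
    rw [LinearMap.zero_apply]
    exact φ.map_coord_zero k (Function.update_self _ _ _)
  · obtain ⟨U, -, hU⟩ := exists_SI (R := bcr ρ (AlgebraicClosure ℚ_[ℓ])) _ ⊤ rfl top_ne_bot
      ⟨⊤, inferInstance, fun g _ u _ => Submodule.mem_top⟩
    obtain ⟨x, ⟨hx, hxx, -⟩, -⟩ := hK.nrm U hU
    exact ⟨x, hxx, fun m φ hφ => kills_kern (bcb (AlgebraicClosure ℚ_[ℓ]) ω)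
      (fun u hu => bcb_nondeg_left ω hnondeg (left_nondeg ω halt hnondeg) u hu)
      (bcb_inv (Ω := AlgebraicClosure ℚ_[ℓ]) ρ χ ω hω) (hasProj_bcr ρ _ hsemisimple) hK φ hφ hx⟩

end kk

end

end Pool.Agent.R930
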