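import Mathlib
import Pool.Agent.R930.Comm
import Pool.Agent.W529.Ta.Darboux

/-!
# An operator with the eigenvalues `1 / 2` and `- 1 / 2` which is skew for all Tate forms
-/

set_option linter.unusedSectionVars false

namespace Pool.Agent.R930

open Module Pool.Agent.H204R3.SP Pool.Agent.H204R3.GP Pool.Agent.W522.U Pool.Agent.W529.Ta
open Pool.Agent.W528.Odd Pool.Agent.Y126.OT Pool.Agent.TH118.CR Pool.Agent.Y126.Toric
open Pool.Agent.W528.Tor (AltDual)

noncomputable section

section half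

variable {K : Type} [Field K] [CharZero K] {V : Type} [AddCommGroup V] [Module K V]
  [FiniteDimensional K V]

/-- The operator of a Lagrangian decomposition. -/
theorem exists_half_skew (om : V →ₗ[K] V →ₗ[K] K) (halt : ∀ v, om v v = 0)
    (hnd : ∀ u, (∀ v, om v u = 0) → u = 0) :
    ∃ x : Module.End K V, x * x = (1 / 4 : K) • 1 ∧ ∀ u v, om (x u) v + om u (x v) = 0 := by
  obtain ⟨S, hS, hS', e, inv, jj, h1, h2, h3, h4, h5⟩ :=
    exists_darboux (finrank K V) V om halt hnd le_rfl
  let x : Module.End K V := e.constr K fun i => ((1 / 2 : K) * jj i) • e i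
  have hx : ∀ i, x (e i) = ((1 / 2 : K) * jj i) • e i := fun i => e.constr_basis K _ i
  refine ⟨x, e.ext fun i => ?_, ?_⟩
  · rw [Module.End.mul_apply, hx, map_smul, hx, smul_smul, LinearMap.smul_apply,
      Module.End.one_apply]
    congr 1
    rcases h4 i with h | h
    · rw [h]; norm_num
    · rw [h]; norm_num
  · have h6 : om.compl₁₂ x LinearMap.id + om.compl₁₂ LinearMap.id x = 0 := by
      refine e.ext fun i => e.ext fun j => ?_
      change om (x (e i)) (e j) + om (e i) (x (e j)) = 0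
      rw [hx, hx, map_smul, LinearMap.smul_apply, map_smul, h5, smul_eq_mul, smul_eq_mul,
        ← add_mul]
      unfold JJ
      by_cases hj : j = inv i
      · rw [hj, h3]
        ring
      · rw [if_neg hj, mul_zero]
    intro u v
    exact congrArg (fun F : V →ₗ[K] V →ₗ[K] K => F u v) h6

end half

variable {K : Type} [Field K] [CharZero K] [IsAlgClosed K] {X : Type} [AddCommGroup X] [Module K X]
  [FiniteDimensional K X] {Γ : Type} [Group Γ] {R : Representation K Γ X} {χ : Γ →* K}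

/-- Schur's lemma. -/
theorem si_scalar {U : Submodule K X} (hU : SI R U) {T : Module.End K U} {Δ : Subgroup Γ}
    (hΔ : Δ.FiniteIndex) (hT : ∀ g ∈ Δ, ∀ u u' : U, (u' : X) = R g u → (T u' : X) = R g (T u)) :
    ∃ c : K, ∀ u, T u = c • u := by
  obtain ⟨Δ', hΔ', hst⟩ := id hU.2.1
  have hntU : Nontrivial U := by
    rw [Submodule.nontrivial_iff_ne_bot]
    exact hU.1
  obtain ⟨c, hc⟩ := Module.End.exists_eigenvalue T
  refine ⟨c, ?_⟩
  have h1 := hU.2.2 ((T.eigenspace c).map U.subtype) (Submodule.map_subtype_le _ _)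
    ⟨Δ ⊓ Δ', inferInstance, by
      rintro g hg _ ⟨u, hu, rfl⟩
      have hu' : T u = c • u := Module.End.mem_eigenspace_iff.1 hu
      refine ⟨⟨R g u, hst g hg.2 _ u.2⟩, ?_, rfl⟩
      refine Module.End.mem_eigenspace_iff.2 (Subtype.ext ?_)
      rw [hT g hg.1 u _ rfl, hu', Submodule.coe_smul, map_smul, Submodule.coe_smul]⟩
  rcases h1 with h1 | h1
  · exfalso
    apply hc
    rw [eq_bot_iff]
    intro u hu
    have h3 : (u : X) ∈ (T.eigenspace c).map U.subtype := ⟨u, hu, rfl⟩
    rw [h1, Submodule.mem_bot] at h3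
    rw [Submodule.mem_bot]
    exact Subtype.ext h3
  · intro u
    have h3 : (u : X) ∈ (T.eigenspace c).map U.subtype := by rw [h1]; exact u.2
    obtain ⟨u', hu', h4⟩ := h3
    have h5 : u' = u := Subtype.ext h4
    rw [← h5]
    exact Module.End.mem_eigenspace_iff.1 hu'

/-- Two invariant pairings are proportional. -/
theorem si_pairing {U : Submodule K X} (hU : SI R U) {om B : U →ₗ[K] U →ₗ[K] K}
    (hnd : ∀ u, (∀ v, om u v = 0) → u = 0) {Δ : Subgroup Γ} (hΔ : Δ.FiniteIndex)
    (hom : ∀ g ∈ Δ, ∀ u v u' v' : U, (u' : X) = R g u → (v' : X) = R g v →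
      om u' v' = χ g * om u v)
    (hB : ∀ g ∈ Δ, ∀ u v u' v' : U, (u' : X) = R g u → (v' : X) = R g v →
      B u' v' = χ g * B u v) : ∃ c : K, ∀ u v, B u v = c * om u v := by
  have hinj : Function.Injective om := by
    rw [injective_iff_map_eq_zero]
    intro u hu
    exact hnd u fun v => by rw [hu]; rfl
  let e : U ≃ₗ[K] Dual K U := LinearEquiv.ofInjectiveOfFinrankEq om hinj
    (Subspace.dual_finrank_eq).symm
  have he : ∀ u, e u = om u := fun u => rfl
  obtain ⟨P, hP⟩ : ∃ P : Module.End K U, ∀ u v, om (P u) v = B u v := by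
    refine ⟨e.symm.toLinearMap.comp B, fun u v => ?_⟩
    rw [← he]
    change (e (e.symm (B u))) v = B u v
    rw [e.apply_symm_apply]
  obtain ⟨Δ', hΔ', hst⟩ := id hU.2.1
  obtain ⟨c, hc⟩ := si_scalar hU (T := P) (Δ := Δ ⊓ Δ') inferInstance (by
    intro g hg u u' hu
    obtain ⟨w, hw⟩ : ∃ w : U, (w : X) = R g (P u) := ⟨⟨_, hst g hg.2 _ (P u).2⟩, rfl⟩
    rw [← hw]
    congr 1
    rw [← sub_eq_zero]
    apply hnd
    intro v
    obtain ⟨v₀, hv₀⟩ : ∃ v₀ : U, (v : X) = R g v₀ :=
      ⟨⟨R g⁻¹ v, hst _ (Δ'.inv_mem hg.2) _ v.2⟩, (Rinv' g _).symm⟩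
    rw [map_sub, LinearMap.sub_apply, hP, hB g hg.1 u v₀ u' v hu hv₀,
      hom g hg.1 (P u) v₀ w v hw hv₀, hP, sub_self])
  refine ⟨c, fun u v => ?_⟩
  rw [← hP, hc, map_smul, LinearMap.smul_apply, smul_eq_mul]

variable (ω : X →ₗ[K] X →ₗ[K] K) (hnd : ∀ u, (∀ v, ω u v = 0) → u = 0)
  (hωR : ∀ g u v, ω (R g u) (R g v) = χ g * ω u v) (hss : HasProj R)

include hnd hωR hss in
/-- If all pieces are symplectic, there is an operator with the eigenvalues `1 / 2` and `- 1 / 2`
which is skew for all Tate forms. -/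
theorem exists_split (halt : ∀ U, SI R U → AltDual R χ U) :
    ∃ x : Module.End K X, x * x = (1 / 4 : K) • 1 ∧
      ∀ B : X →ₗ[K] X →ₗ[K] K, IsTate2 R χ B → ∀ u v, B (x u) v + B u (x v) = 0 := by
  classical
  obtain ⟨s, W, hW, hWW, hall⟩ := exists_reps hss
  obtain ⟨st, hst, hDu, hDu'⟩ := exists_st hss ω hnd hωR W hW hWW hall
  have hst' : ∀ i, st i = i := fun i => (hDu' i i (altDual_du (halt _ (hW i)))).symm
  -- projections
  have hq : ∀ i, ∃ q : Module.End K X, q ∈ comR R ∧ (∀ v, q v ∈ W i) ∧ ∀ u ∈ W i, q u = u := by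
    intro i
    obtain ⟨Δ, hΔ, h1⟩ := id (hW i).2.1
    obtain ⟨q, h2, h3, h4⟩ := hss Δ hΔ (W i) h1
    exact ⟨q, ⟨Δ, hΔ, h4⟩, h2, h3⟩
  choose q hqc hqW hqW' using hq
  -- the pairings
  have hom : ∀ i, ∃ om : W i →ₗ[K] W i →ₗ[K] K, (∀ v, om v v = 0) ∧
      (∀ u, (∀ v, om u v = 0) → u = 0) ∧ ∃ Δ : Subgroup Γ, Δ.FiniteIndex ∧
      ∀ g ∈ Δ, ∀ u v u' v' : W i, (u' : X) = R g u → (v' : X) = R g v →
        om u' v' = χ g * om u v := by
    intro i
    obtain ⟨Δ, hΔ, B, hB0, hBalt, hB⟩ := halt _ (hW i)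
    refine ⟨B.compl₁₂ (W i).subtype (W i).subtype, fun v => hBalt v v.2, fun u hu => ?_,
      Δ, hΔ, fun g hg u v u' v' hu hv => ?_⟩
    · apply Subtype.ext
      exact du_left (hW i) (hW i).2.1 hΔ hB0 hB u u.2 fun v hv => hu ⟨v, hv⟩
    · change B (u' : X) (v' : X) = χ g * B (u : X) (v : X)
      rw [hu, hv]
      exact hB g hg u u.2 v v.2
  choose om homalt homnd Δo hΔo homg using hom
  have homr : ∀ i u, (∀ v, om i v u = 0) → u = 0 := by
    intro i u hu
    apply homnd
    intro v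
    rw [alt_anti (homalt i), hu, neg_zero]
  choose y hyy hys using fun i => exists_half_skew (om i) (homalt i) (homr i)
  -- the operators on `X`
  obtain ⟨xt, hxt⟩ : ∃ xt : Fin s → Module.End K X, ∀ i v,
      xt i v = (y i ⟨q i v, hqW i v⟩ : X) :=
    ⟨fun i => (W i).subtype.comp ((y i).comp ((q i).codRestrict (W i) (hqW i))), fun i v => rfl⟩
  have hxtW : ∀ i v, xt i v ∈ W i := fun i v => by rw [hxt]; exact (y i _).2
  have hxtU : ∀ i (u : W i), xt i u = (y i u : X) := by
    intro i u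
    rw [hxt]
    congr 2
    exact Subtype.ext (hqW' i _ u.2)
  have hxx : ∀ i, xt i * xt i = (1 / 4 : K) • q i := by
    intro i
    refine LinearMap.ext fun v => ?_
    rw [Module.End.mul_apply, hxt i v, hxtU, ← Module.End.mul_apply, hyy]
    rfl
  have hxq : ∀ i, xt i * q i = xt i := by
    intro i
    refine LinearMap.ext fun v => ?_
    rw [Module.End.mul_apply, hxt, hxt]
    congr 2
    exact Subtype.ext (hqW' i _ (hqW i v))
  have hqx : ∀ i, q i * xt i = xt i := by
    intro i
    refine LinearMap.ext fun v => ?_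
    rw [Module.End.mul_apply]
    exact hqW' i _ (hxtW i v)
  -- the decomposition
  obtain ⟨n, f, T, hfT⟩ := Submodule.mem_span_set'.1 (decomp hss W hW hall)
  have hfac : ∀ l : Fin n, ∃ (i : Fin s) (a b : Module.End K X), a ∈ comR R ∧ b ∈ comR R ∧
      (∀ v, b v ∈ W i) ∧ a * q i = a ∧ (T l).1 = a * b := by
    intro l
    obtain ⟨i, p, ι, Δ, hΔ, hp, hι, hT⟩ := (T l).2
    refine ⟨i, ι.comp ((q i).codRestrict (W i) (hqW i)), (W i).subtype.comp p, ?_, ⟨Δ, hΔ, hp⟩,
      fun v => (p v).2, LinearMap.ext fun v => ?_, ?_⟩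
    · obtain ⟨Δ'', hΔ'', h2⟩ := hqc i
      refine ⟨Δ ⊓ Δ'', inferInstance, fun g hg v => ?_⟩
      exact hι g hg.1 _ _ (h2 g hg.2 v)
    · change ι ((q i).codRestrict (W i) (hqW i) (q i v)) = ι ((q i).codRestrict (W i) (hqW i) v)
      congr 1
      apply Subtype.ext
      exact hqW' i _ (hqW i v)
    · rw [hT]
      refine LinearMap.ext fun v => ?_
      change ι (p v) = ι ((q i).codRestrict (W i) (hqW i) (p v : X))
      congr 1
      apply Subtype.ext
      exact (hqW' i _ (p v).2).symm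
  choose i a b hac hbc hbW haq hTab using hfac
  have hone : ∑ l, f l • (a l * b l) = 1 := by
    rw [← hfT]
    exact Finset.sum_congr rfl fun l _ => by rw [hTab]
  have hqb : ∀ l, q (i l) * b l = b l := by
    intro l
    refine LinearMap.ext fun v => ?_
    rw [Module.End.mul_apply]
    exact hqW' _ _ (hbW l v)
  -- Schur
  have hschur : ∀ l k, b l * a k * xt (i k) = xt (i l) * (b l * a k) := by
    intro l k
    by_cases h0 : ∀ u ∈ W (i k), (b l * a k) u = 0
    · have h1 : b l * a k = 0 := by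
        have h2 : b l * a k = b l * a k * q (i k) := by rw [mul_assoc, haq]
        rw [h2]
        refine LinearMap.ext fun v => ?_
        exact h0 _ (hqW _ v)
      rw [h1, zero_mul, mul_zero]
    push Not at h0
    obtain ⟨Δ, hΔ, hcomm⟩ := comR_mul (hbc l) (hac k)
    have hik : i k = i l := by
      refine hWW _ _ ⟨Δ, hΔ, b l * a k, fun u _ => hbW l _, h0, fun g hg u _ => ?_⟩
      rw [one_smul]
      exact hcomm g hg u
    obtain ⟨c, hc⟩ := si_scalar (hW (i k)) (T := (b l * a k).restrict (p := W (i k))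
      (q := W (i k)) (fun u _ => by rw [hik]; exact hbW l _)) hΔ (by
        intro g hg u u' hu
        change (b l * a k) (u' : X) = R g ((b l * a k) (u : X))
        rw [hu]
        exact hcomm g hg u)
    have h1 : b l * a k = c • q (i k) := by
      have h2 : b l * a k = b l * a k * q (i k) := by rw [mul_assoc, haq]
      rw [h2]
      refine LinearMap.ext fun v => ?_
      exact congrArg Subtype.val (hc ⟨q (i k) v, hqW _ v⟩)
    rw [h1, smul_mul_assoc, hqx, mul_smul_comm, ← hik, hxq]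
  refine ⟨∑ l, f l • (a l * xt (i l) * b l), ?_, ?_⟩
  · have h1 : (∑ l, f l • (a l * xt (i l) * b l)) * (∑ k, f k • (a k * xt (i k) * b k)) =
        (1 / 4 : K) • ((∑ l, f l • (a l * b l)) * ∑ k, f k • (a k * b k)) := by
      rw [Finset.sum_mul_sum, Finset.sum_mul_sum, Finset.smul_sum]
      refine Finset.sum_congr rfl fun l _ => ?_
      rw [Finset.smul_sum]
      refine Finset.sum_congr rfl fun k _ => ?_
      have h2 : a l * xt (i l) * b l * (a k * xt (i k) * b k) =
          (1 / 4 : K) • (a l * b l * (a k * b k)) := by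
        calc a l * xt (i l) * b l * (a k * xt (i k) * b k) =
            a l * xt (i l) * (b l * a k * xt (i k)) * b k := by noncomm_ring
        _ = a l * (xt (i l) * xt (i l)) * (b l * a k) * b k := by rw [hschur]; noncomm_ring
        _ = (1 / 4 : K) • (a l * (q (i l) * b l) * a k * b k) := by
            rw [hxx]
            simp only [mul_smul_comm, smul_mul_assoc, mul_assoc]
        _ = _ := by rw [hqb]; simp only [mul_assoc]
      rw [smul_mul_smul_comm, smul_mul_smul_comm, h2]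
      simp only [smul_smul]
      congr 1
      ring
    rw [h1, hone, mul_one]
  · intro B hB u v
    have hsk : ∀ l k (w : W (i l)) (w' : W (i k)),
        B (a l (xt (i l) w)) (a k w') + B (a l w) (a k (xt (i k) w')) = 0 := by
      intro l k w w'
      by_cases h0 : ∀ w : W (i l), ∀ w' : W (i k), B (a l w) (a k w') = 0
      · rw [h0 ⟨_, hxtW _ _⟩ w', h0 w ⟨_, hxtW _ _⟩, add_zero]
      push Not at h0
      obtain ⟨w₀, w₀', h0⟩ := h0
      obtain ⟨Δ₁, hΔ₁, hB⟩ := id hB
      obtain ⟨Δ₂, hΔ₂, ha⟩ := hac l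
      obtain ⟨Δ₃, hΔ₃, ha'⟩ := hac k
      have hinvB : ∀ g ∈ Δ₁ ⊓ (Δ₂ ⊓ Δ₃), ∀ u v, B (a l (R g u)) (a k (R g v)) =
          χ g * B (a l u) (a k v) := by
        intro g hg u v
        rw [ha g hg.2.1, ha' g hg.2.2, hB g hg.1]
      have hkl : i k = i l := by
        have h1 := hDu' (i l) (i k) ⟨Δ₁ ⊓ (Δ₂ ⊓ Δ₃), inferInstance, B.compl₁₂ (a l) (a k),
          ⟨w₀, w₀.2, w₀', w₀'.2, h0⟩, fun g hg u _ v _ => hinvB g hg u v⟩
        rw [h1, hst']
      obtain ⟨w'', hw''⟩ : ∃ w'' : W (i l), (w'' : X) = w' := ⟨⟨w', by rw [← hkl]; exact w'.2⟩, rfl⟩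
      rw [← hw'', hkl, hxtU, hxtU]
      obtain ⟨c, hc⟩ := si_pairing (χ := χ) (hW (i l)) (om := om (i l))
        (B := (B.compl₁₂ (a l) (a k)).compl₁₂ (W (i l)).subtype (W (i l)).subtype)
        (homnd (i l)) (Δ := Δo (i l) ⊓ (Δ₁ ⊓ (Δ₂ ⊓ Δ₃)))
        (by have := hΔo (i l); infer_instance)
        (fun g hg u v u' v' hu hv => homg (i l) g hg.1 u v u' v' hu hv)
        (fun g hg u v u' v' hu hv => by
          change B (a l (u' : X)) (a k (v' : X)) = χ g * B (a l (u : X)) (a k (v : X))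
          rw [hu, hv]
          exact hinvB g hg.2 u v)
      have hc' : ∀ u v : W (i l), B (a l (u : X)) (a k (v : X)) = c * om (i l) u v := hc
      rw [hc', hc', ← mul_add, hys, mul_zero]
    have hexp : ∀ v, v = ∑ k, f k • a k (b k v) := by
      intro v
      have h1 := congrArg (fun F : Module.End K X => F v) hone
      simp only [LinearMap.sum_apply, LinearMap.smul_apply, Module.End.one_apply] at h1
      exact h1.symm
    have hx : ∀ v, (∑ l, f l • (a l * xt (i l) * b l) : Module.End K X) v =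
        ∑ l, f l • a l (xt (i l) (b l v)) := by
      intro v
      rw [LinearMap.sum_apply]
      rfl
    have h1 : B ((∑ l, f l • (a l * xt (i l) * b l) : Module.End K X) u) v =
        ∑ l, ∑ k, f l * (f k * B (a l (xt (i l) (b l u))) (a k (b k v))) := by
      conv_lhs => rw [hx, hexp v]
      rw [map_sum B, LinearMap.sum_apply]
      refine Finset.sum_congr rfl fun l _ => ?_
      rw [map_sum]
      refine Finset.sum_congr rfl fun k _ => ?_
      rw [map_smul B, LinearMap.smul_apply, map_smul, smul_eq_mul, smul_eq_mul]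
    have h2 : B u ((∑ l, f l • (a l * xt (i l) * b l) : Module.End K X) v) =
        ∑ l, ∑ k, f l * (f k * B (a l (b l u)) (a k (xt (i k) (b k v)))) := by
      conv_lhs => rw [hx, hexp u]
      rw [map_sum B, LinearMap.sum_apply]
      refine Finset.sum_congr rfl fun l _ => ?_
      rw [map_sum]
      refine Finset.sum_congr rfl fun k _ => ?_
      rw [map_smul B, LinearMap.smul_apply, map_smul, smul_eq_mul, smul_eq_mul]
    rw [h1, h2, ← Finset.sum_add_distrib]
    refine Finset.sum_eq_zero fun l _ => ?_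
    rw [← Finset.sum_add_distrib]
    refine Finset.sum_eq_zero fun k _ => ?_
    have h3 := hsk l k ⟨b l u, hbW l u⟩ ⟨b k v, hbW k v⟩
    rw [← mul_add, ← mul_add]
    change f l * (f k * (B (a l (xt (i l) (b l u))) (a k (b k v)) +
      B (a l (b l u)) (a k (xt (i k) (b k v))))) = 0
    rw [show B (a l (xt (i l) (b l u))) (a k (b k v)) +
      B (a l (b l u)) (a k (xt (i k) (b k v))) = 0 from h3, mul_zero, mul_zero]

end

end Pool.Agent.R930
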