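import Mathlib
import Pool.Agent.R930.Split
import Pool.Agent.R930.KMain
import Pool.Agent.R930.Three

/-!
# Normal subgroups: pieces with one normalizing operator
-/

set_option linter.unusedSectionVars false

namespace Pool.Agent.R930

open Module TensorProduct Polynomial Pool.Agent.H204R3.SP Pool.Agent.H204R3.GP
open Pool.Agent.W522.U Pool.Agent.W529.Ta
open Pool.Agent.W528.Odd Pool.Agent.Y126.OT Pool.Agent.TH118.CR Pool.Agent.Y126.Toric
open Pool.Agent.Y126.Notions
open Pool.Agent.W528.Tor (AltDual)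

noncomputable section

section alg

variable {K : Type} [Field K] [CharZero K] {V : Type} [AddCommGroup V] [Module K V]
  {D : Module.End K V} (h3 : D * D * D = (1 / 4 : K) • D)
  {𝔥 : Submodule K (Module.End K V)} (hD : ∀ y ∈ 𝔥, D * y - y * D ∈ 𝔥)
  {y : Module.End K V} (hy : y ∈ 𝔥)

include h3 hD hy

/-- The part of degree one with respect to a normalizing operator. -/
theorem fp_fm_mem' : fp D * y * fm D ∈ 𝔥 := by
  have a1 := hD y hy
  have b2 := hD _ a1
  have b3 := hD _ b2
  have b4 := hD _ b3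
  have hz := h3r h3
  have a2 : (D * D * y - (2 : K) • (D * y * D) + y * D * D) ∈ 𝔥 := by
    convert b2 using 1
    simp only [mul_sub, sub_mul, ← mul_assoc]
    module
  have a3 : ((1 / 4 : K) • (D * y) - (3 : K) • (D * D * y * D) + (3 : K) • (D * y * D * D) -
      (1 / 4 : K) • (y * D)) ∈ 𝔥 := by
    convert b3 using 1
    simp only [mul_sub, sub_mul, ← mul_assoc, h3, hz, smul_mul_assoc]
    module
  have a4 : ((1 / 4 : K) • (D * D * y) + (1 / 4 : K) • (y * D * D) - (2 : K) • (D * y * D) +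
      (6 : K) • (D * D * y * D * D)) ∈ 𝔥 := by
    convert b4 using 1
    simp only [mul_sub, sub_mul, ← mul_assoc, h3, hz, smul_mul_assoc, mul_smul_comm]
    module
  have h := 𝔥.smul_mem (2 / 3 : K) (𝔥.sub_mem (𝔥.sub_mem (𝔥.add_mem a4 a3)
    (𝔥.smul_mem (1 / 4 : K) a2)) (𝔥.smul_mem (1 / 4 : K) a1))
  convert h using 1
  unfold fp fm
  simp only [mul_sub, add_mul, smul_mul_assoc, mul_smul_comm, ← mul_assoc]
  module

end alg

section nrm

variable {K : Type} [Field K] {X : Type} [AddCommGroup X] [Module K X] {Γ : Type} [Group Γ]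
  {R : Representation K Γ X}

theorem Normalizes.add {x y : Module.End K X} (hx : Normalizes R x) (hy : Normalizes R y) :
    Normalizes R (x + y) := by
  intro 𝔫 h𝔫 n hn
  have h1 : (x + y) * n - n * (x + y) = (x * n - n * x) + (y * n - n * y) := by noncomm_ring
  rw [h1]
  exact 𝔫.add_mem (hx 𝔫 h𝔫 n hn) (hy 𝔫 h𝔫 n hn)

theorem Normalizes.smul {x : Module.End K X} (c : K) (hx : Normalizes R x) :
    Normalizes R (c • x) := by
  intro 𝔫 h𝔫 n hn
  have h1 : (c • x) * n - n * (c • x) = c • (x * n - n * x) := by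
    rw [smul_mul_assoc, mul_smul_comm, smul_sub]
  rw [h1]
  exact 𝔫.smul_mem c (hx 𝔫 h𝔫 n hn)

/-- Quadratic unipotent elements. -/
theorem normalizes_unip [CharZero K] {γ : Γ} (hγ : (R γ - 1) * (R γ - 1) = 0) :
    Normalizes R (R γ - 1) := by
  intro 𝔫 h𝔫 n hn
  obtain ⟨e, he⟩ : ∃ e, e = R γ - 1 := ⟨_, rfl⟩
  rw [← he] at hγ ⊢
  have h1 : R γ = 1 + e := by rw [he]; abel
  have h2 : R γ⁻¹ = 1 - e := by
    have h3 : R γ⁻¹ * R γ = 1 := by rw [← map_mul, inv_mul_cancel, map_one]
    calc R γ⁻¹ = R γ⁻¹ * (R γ * (1 - e)) := by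
          rw [h1]
          have h4 : (1 + e) * (1 - e) = 1 := by
            have h5 : (1 + e) * (1 - e) = 1 - e * e := by noncomm_ring
            rw [h5, hγ, sub_zero]
          rw [h4, mul_one]
    _ = 1 - e := by rw [← mul_assoc, h3, one_mul]
  have h3 := h𝔫 γ n hn
  have h4 := h𝔫 γ⁻¹ n hn
  rw [inv_inv] at h4
  rw [h1, h2] at h3 h4
  have h5 : e * n - n * e = (1 / 2 : K) • ((1 + e) * n * (1 - e) - (1 - e) * n * (1 + e)) := by
    have h6 : (1 + e) * n * (1 - e) - (1 - e) * n * (1 + e) = (2 : K) • (e * n - n * e) := by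
      rw [two_smul]
      noncomm_ring
    rw [h6, smul_smul]
    norm_num
  rw [h5]
  exact 𝔫.smul_mem _ (𝔫.sub_mem h3 h4)

end nrm

variable {K : Type} [Field K] [CharZero K] [IsAlgClosed K] {X : Type} [AddCommGroup X] [Module K X]
  [FiniteDimensional K X] {Γ : Type} [Group Γ] {R : Representation K Γ X} {χ : Γ →* K}
  {N : Subgroup Γ}
  (ω : X →ₗ[K] X →ₗ[K] K) (hnd : ∀ u, (∀ v, ω u v = 0) → u = 0)
  (hωR : ∀ g u v, ω (R g u) (R g v) = χ g * ω u v) (hss : HasProj R)

section one

variable {U : Submodule K X} (hU : SI R U)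

include hnd hωR hss hU in
/-- Square-zero elements of rank one from an operator with three eigenvalues. -/
theorem one_kern_three (halt : AltDual R χ U) (hN : N.Normal)
    (hone : ∃ e ∈ lieT R χ, e * e = 0 ∧ finrank K (U.map e) = 1)
    (hne : ∃ x ∈ lieT (rN R N) (cN χ N), ∃ u ∈ U, x u ≠ 0)
    {x : Module.End K X} (hx : x ∈ lieT R χ) (h3 : x * x * x = (1 / 4 : K) • x)
    (hxn : Normalizes R x) {v : X} (hv : v ∈ U) (hv0 : v ≠ 0) (hxv : x v = (1 / 2 : K) • v) :
    ∃ e ∈ lieT (rN R N) (cN χ N), e * e = 0 ∧ finrank K (U.map e) = 1 := by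
  obtain ⟨Δ, hUΔ, om, hΔ, halt', hndl, homg, hsp, hall⟩ :=
    kern_data (N := N) ω hnd hωR hss hU halt hN hone hne
  have hst := lieT_stable ω hnd hωR hss hU.2.1 hx
  obtain ⟨xU, hxU⟩ : ∃ xU : Module.End K U, ∀ u : U, ((xU u : U) : X) = x u :=
    ⟨x.restrict hst, fun u => rfl⟩
  obtain ⟨w, hw⟩ : ∃ w : U, (w : X) = v := ⟨⟨v, hv⟩, rfl⟩
  have hw0 : w ≠ 0 := fun h => hv0 (by rw [← hw, h]; rfl)
  have hxw : xU w = (1 / 2 : K) • w := Subtype.ext (by rw [hxU, hw, hxv, ← hw]; rfl)
  obtain ⟨n, hn, hnw⟩ := hall w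
  have he : fp x * n * fm x ∈ lieT (rN R N) (cN χ N) :=
    fp_fm_mem' h3 (fun y hy => hxn _ (fun g z hz => lieN_conj hN g hz) y hy) hn
  have hfU : ∀ u : U, ((fp xU u : U) : X) = fp x u := by
    intro u
    unfold fp
    simp only [LinearMap.add_apply, LinearMap.smul_apply, Module.End.mul_apply, Submodule.coe_add,
      Submodule.coe_smul, hxU]
  have hmU : ∀ u : U, ((fm xU u : U) : X) = fm x u := by
    intro u
    unfold fm
    simp only [LinearMap.sub_apply, LinearMap.smul_apply, Module.End.mul_apply, Submodule.coe_sub,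
      Submodule.coe_smul, hxU]
  refine ⟨fp x * n * fm x, he, ?_, ?_⟩
  · calc fp x * n * fm x * (fp x * n * fm x) = fp x * n * (fm x * fp x) * n * fm x := by
          noncomm_ring
    _ = 0 := by rw [fm_fp h3]; noncomm_ring
  · have hsk : ∀ u u' : U, om (xU u) u' = -om u (xU u') := fun u u' =>
      eq_neg_of_add_eq_zero_left (hsp xU ⟨x, hx, hxU⟩ u u')
    refine rank_map_one (Y := fp xU * ((om w).smulRight w) * fm xU) (fun u => ?_) (v := w)
      (φ := om w) hw0 (fun h => hw0 (hndl w fun u => by rw [h]; rfl)) ?_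
    · rw [Module.End.mul_apply, Module.End.mul_apply, hfU, hnw, hmU]
      rfl
    · refine LinearMap.ext fun u => ?_
      rw [Module.End.mul_apply, Module.End.mul_apply, LinearMap.smulRight_apply,
        LinearMap.smulRight_apply, map_smul]
      have h4 : fp xU w = w := by
        unfold fp
        rw [LinearMap.add_apply, LinearMap.smul_apply, Module.End.mul_apply, hxw, map_smul, hxw]
        module
      have h5 : om w (fm xU u) = om w u := by
        unfold fm
        rw [LinearMap.sub_apply, LinearMap.smul_apply, Module.End.mul_apply, map_sub, map_smul]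
        have e1 : ∀ u, om w (xU u) = -((1 / 2 : K) * om w u) := by
          intro u
          have e2 := hsk w u
          rw [hxw, map_smul, LinearMap.smul_apply, smul_eq_mul] at e2
          rw [e2, neg_neg]
        rw [e1, e1, smul_eq_mul]
        ring
      rw [h4, h5]

include hnd hωR hss hU in
/-- Square-zero elements of rank one from a normalizing square-zero operator. -/
theorem one_kern_sq (halt : AltDual R χ U) (hN : N.Normal)
    (hone : ∃ e ∈ lieT R χ, e * e = 0 ∧ finrank K (U.map e) = 1)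
    (hne : ∃ x ∈ lieT (rN R N) (cN χ N), ∃ u ∈ U, x u ≠ 0)
    {x : Module.End K X} (hx : x ∈ lieT R χ) (h2 : x * x = 0)
    (hxn : Normalizes R x) {v : X} (hv : v ∈ U) (hv0 : x v ≠ 0) :
    ∃ e ∈ lieT (rN R N) (cN χ N), e * e = 0 ∧ finrank K (U.map e) = 1 := by
  obtain ⟨Δ, hUΔ, om, hΔ, halt', hndl, homg, hsp, hall⟩ :=
    kern_data (N := N) ω hnd hωR hss hU halt hN hone hne
  have hst := lieT_stable ω hnd hωR hss hU.2.1 hx
  obtain ⟨xU, hxU⟩ : ∃ xU : Module.End K U, ∀ u : U, ((xU u : U) : X) = x u :=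
    ⟨x.restrict hst, fun u => rfl⟩
  obtain ⟨w, hw⟩ : ∃ w : U, (w : X) = v := ⟨⟨v, hv⟩, rfl⟩
  have hw0 : xU w ≠ 0 := fun h => hv0 (by rw [← hw, ← hxU, h]; rfl)
  obtain ⟨n, hn, hnw⟩ := hall w
  have hnn : ∀ y ∈ lieT (rN R N) (cN χ N), x * y - y * x ∈ lieT (rN R N) (cN χ N) :=
    fun y hy => hxn _ (fun g z hz => lieN_conj hN g hz) y hy
  have he : x * n * x ∈ lieT (rN R N) (cN χ N) := by
    have h4 := hnn _ (hnn n hn)
    have h5 : x * (x * n - n * x) - (x * n - n * x) * x = (-2 : K) • (x * n * x) := by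
      have h6 : x * (x * n - n * x) - (x * n - n * x) * x =
          (x * x) * n + n * (x * x) - (2 : K) • (x * n * x) := by
        rw [two_smul]
        noncomm_ring
      rw [h6, h2, zero_mul, mul_zero, add_zero, zero_sub, neg_smul]
    rw [h5] at h4
    exact (Submodule.smul_mem_iff _ (by norm_num)).1 h4
  refine ⟨x * n * x, he, ?_, ?_⟩
  · calc x * n * x * (x * n * x) = x * n * (x * x) * n * x := by noncomm_ring
    _ = 0 := by rw [h2]; noncomm_ring
  · have hsk : ∀ u u' : U, om (xU u) u' = -om u (xU u') := fun u u' =>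
      eq_neg_of_add_eq_zero_left (hsp xU ⟨x, hx, hxU⟩ u u')
    refine rank_map_one (Y := xU * ((om w).smulRight w) * xU) (fun u => ?_) (v := xU w)
      (φ := -om (xU w)) hw0 (fun h => hw0 (hndl _ fun u => ?_)) ?_
    · rw [Module.End.mul_apply, Module.End.mul_apply, hxU, hnw, hxU]
      rfl
    · have h4 := congrArg (fun F : Dual K U => F u) h
      exact neg_eq_zero.1 h4
    · refine LinearMap.ext fun u => ?_
      rw [Module.End.mul_apply, Module.End.mul_apply, LinearMap.smulRight_apply,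
        LinearMap.smulRight_apply, map_smul, LinearMap.neg_apply, hsk, neg_neg]

end one

/-- Conditions on the pieces. -/
structure KernPieces2 (R : Representation K Γ X) (χ : Γ →* K) (N : Subgroup Γ) : Prop where
  normal : N.Normal
  proj : HasProj (rN R N)
  alt : ∀ U, SI R U → AltDual R χ U
  one : ∀ U, SI R U → ∃ e ∈ lieT R χ, e * e = 0 ∧ finrank K (U.map e) = 1
  ne : ∀ U, SI R U → ∃ x ∈ lieT (rN R N) (cN χ N), ∃ u ∈ U, x u ≠ 0
  oneN : ∀ U, SI R U → ∃ e ∈ lieT (rN R N) (cN χ N), e * e = 0 ∧ finrank K (U.map e) = 1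

include hnd hωR hss in
theorem KernPieces2.rich (h : KernPieces2 R χ N) (U : Submodule K X) (hU : SI R U) :
    Rich (lieT (rN R N) (cN χ N)) U :=
  rich_of_kern ω hnd hωR hss hU (h.alt U hU) h.normal (h.one U hU) (h.ne U hU)

include hnd hωR hss in
/-- Tate forms for the normal subgroup. -/
theorem core_kern2 (h : KernPieces2 R χ N) {m : ℕ}
    (φ : MultilinearMap K (fun _ : Fin m × Fin 2 => X) K) (hφ : IsTate (rN R N) (cN χ N) m φ) :
    φ ∈ Submodule.span K (PT (rN R N) (cN χ N) m) := by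
  have hdu : ∀ U, SI R U → Du R χ U U := fun U hU => altDual_du (h.alt U hU)
  have hr := h.rich ω hnd hωR hss
  have hsi : ∀ U, SI (rN R N) U → SI R U := fun U hU =>
    si_of_kern ω hnd hωR hss h.normal hdu hr h.proj hU
  have haltN : ∀ U, SI (rN R N) U → AltDual (rN R N) (cN χ N) U := by
    intro U hU
    obtain ⟨Δ, hΔ, B, h0, hB, h1⟩ := h.alt U (hsi U hU)
    exact ⟨Δ.subgroupOf N, inferInstance, B, h0, hB, fun g hg => h1 g.1 hg⟩
  refine pt_of_noWeil ?_ (nil_det (R := rN R N) (χ := cN χ N) ω hnd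
    (fun g u v => hωR g.1 u v) ?_ h.proj ?_ ?_ φ hφ)
  · intro Q _ hQ L hL
    obtain ⟨q⟩ := hQ
    exact hL.2.1 q q (altDual_du (haltN _ (hL.1 q)))
  · intro U hU _
    exact h.oneN U (hsi U hU)
  · intro U hU h1
    have h2 := altDual_two_le (haltN U hU)
    omega
  · intro U U' hU _ _ hnot
    exact absurd (altDual_du (haltN U hU)) hnot

include hnd hωR hss in
/-- Bilinear Tate forms for the normal subgroup are Tate forms. -/
theorem tate2_of_kern2 (h : KernPieces2 R χ N) {B : X →ₗ[K] X →ₗ[K] K}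
    (hB : IsTate2 (rN R N) (cN χ N) B) : IsTate2 R χ B := by
  have hinj : Function.Injective ω := by
    rw [injective_iff_map_eq_zero]
    intro u hu
    exact hnd u fun v => by rw [hu]; rfl
  let e : X ≃ₗ[K] Dual K X := LinearEquiv.ofInjectiveOfFinrankEq ω hinj
    (Subspace.dual_finrank_eq).symm
  have he : ∀ u, e u = ω u := fun u => rfl
  obtain ⟨P, hP⟩ : ∃ P : Module.End K X, ∀ u v, ω (P u) v = B u v := by
    refine ⟨e.symm.toLinearMap.comp B, fun u v => ?_⟩
    rw [← he]
    change (e (e.symm (B u))) v = B u v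
    rw [e.apply_symm_apply]
  obtain ⟨Δ, hΔ, hB⟩ := hB
  have hPN : P ∈ comR (rN R N) := by
    refine ⟨Δ, hΔ, fun g hg u => ?_⟩
    rw [← sub_eq_zero]
    apply hnd
    intro v
    have h1 := hB g hg u (rN R N g⁻¹ v)
    have h2 : rN R N g (rN R N g⁻¹ v) = v := Rinv' g v
    rw [h2, ← hP, ← hP] at h1
    have h3 := hωR g.1 (P u) (R g.1⁻¹ v)
    rw [Rinv'] at h3
    rw [map_sub, LinearMap.sub_apply, h1]
    rw [sub_eq_zero]
    exact h3.symm
  obtain ⟨Δ', hΔ', hP'⟩ := comR_of_kern ω hnd hωR hss h.normal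
    (fun U hU => altDual_du (h.alt U hU)) (h.rich ω hnd hωR hss) hPN
  refine ⟨Δ', hΔ', fun g hg u v => ?_⟩
  rw [← hP, hP' g hg, hωR, hP]

/-- Operators that are skew for all the bilinear forms kill the products. -/
theorem kills_mmG {m : ℕ} {σ : Equiv.Perm (Fin m × Fin 2)} {B : Fin m → (X →ₗ[K] X →ₗ[K] K)}
    {x : Module.End K X} (hx : ∀ l u v, B l (x u) v + B l u (x v) = 0) :
    Kills x (mmG σ B) := by
  classical
  intro v
  rw [← Equiv.sum_comp σ, Fintype.sum_prod_type]
  refine Finset.sum_eq_zero fun l _ => ?_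
  rw [Fin.sum_univ_two]
  have h1 : ∀ (j : Fin 2) (l' : Fin m) (j' : Fin 2), (l', j') ≠ (l, j) →
      Function.update v (σ (l, j)) (x (v (σ (l, j)))) (σ (l', j')) = v (σ (l', j')) :=
    fun j l' j' h => Function.update_of_ne (fun h' => h (σ.injective h')) _ _
  have h2 : ∀ j : Fin 2, Function.update v (σ (l, j)) (x (v (σ (l, j)))) (σ (l, j)) =
      x (v (σ (l, j))) := fun j => Function.update_self _ _ _
  have h3 : ∀ j : Fin 2, ∏ s ∈ Finset.univ.erase l,
      B s (Function.update v (σ (l, j)) (x (v (σ (l, j)))) (σ (s, 0)))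
        (Function.update v (σ (l, j)) (x (v (σ (l, j)))) (σ (s, 1))) =
      ∏ s ∈ Finset.univ.erase l, B s (v (σ (s, 0))) (v (σ (s, 1))) := by
    intro j
    refine Finset.prod_congr rfl fun s hs => ?_
    have hsl : s ≠ l := Finset.ne_of_mem_erase hs
    rw [h1 j s 0 (fun h => hsl (congrArg Prod.fst h)), h1 j s 1 (fun h => hsl (congrArg Prod.fst h))]
  rw [mmG_apply, mmG_apply, ← Finset.mul_prod_erase _ _ (Finset.mem_univ l), h3 0,
    ← Finset.mul_prod_erase Finset.univ (fun s => B s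
      (Function.update v (σ (l, 1)) (x (v (σ (l, 1)))) (σ (s, 0)))
      (Function.update v (σ (l, 1)) (x (v (σ (l, 1)))) (σ (s, 1)))) (Finset.mem_univ l), h3 1,
    ← add_mul, h2, h1 0 l 1 (by simp), h1 1 l 0 (by simp), h2, hx, zero_mul]

include hnd hωR hss in
/-- An operator with the eigenvalues `1 / 2` and `- 1 / 2` that kills all forms invariant under the
normal subgroup. -/
theorem split_kern (h : KernPieces2 R χ N) : ∃ x : Module.End K X, x * x = (1 / 4 : K) • 1 ∧
    ∀ (m : ℕ) (φ : MultilinearMap K (fun _ : Fin m × Fin 2 => X) K),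
      IsTate (rN R N) (cN χ N) m φ → Kills x φ := by
  obtain ⟨x, hxx, hx⟩ := exists_split ω hnd hωR hss h.alt
  refine ⟨x, hxx, fun m φ hφ => ?_⟩
  have h1 := core_kern2 ω hnd hωR hss h φ hφ
  clear hφ
  induction h1 using Submodule.span_induction with
  | mem φ h1 =>
    obtain ⟨σ, B, hB, rfl⟩ := h1
    exact kills_mmG fun l => hx _ (tate2_of_kern2 ω hnd hωR hss h (hB l))
  | zero =>
    intro v
    exact Finset.sum_eq_zero fun k _ => rfl
  | add φ ψ _ _ h1 h2 =>
    intro v
    have h3 := congrArg₂ (fun a b : K => a + b) (h1 v) (h2 v)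
    simp only [add_zero] at h3
    rw [← h3, ← Finset.sum_add_distrib]
    rfl
  | smul c φ _ h1 =>
    intro v
    have h3 := congrArg (fun a : K => c * a) (h1 v)
    simp only [mul_zero] at h3
    rw [← h3, Finset.mul_sum]
    rfl

end

end Pool.Agent.R930
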