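import Mathlib
import Pool.Agent.R930.Kern2

/-!
# Normal subgroups and Frobenius elements with few slopes at one place
-/

set_option linter.unusedSectionVars false

namespace Pool.Agent.R930

open Module TensorProduct Polynomial Pool.Agent.H204R3.SP Pool.Agent.H204R3.GP
open Pool.Agent.W522.U Pool.Agent.TH118.CR Pool.Agent.W528.Odd Pool.Agent.Y126.Toric
open Pool.Agent.Y126.Notions
open Pool.Agent.W528.Tor (AltDual)

noncomputable section

variable {ℓ : ℕ} [Fact ℓ.Prime] {V Γ : Type} [AddCommGroup V] [Module ℚ_[ℓ] V]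
    [FiniteDimensional ℚ_[ℓ] V] [Group Γ] {ρ : Representation ℚ_[ℓ] Γ V} {χ : Γ →* ℚ_[ℓ]}
    {γ : Γ} {p a : ℕ} [Fact p.Prime] {P : ℤ[X]} {t : ℝ}

/-- The slope operators of a Frobenius element with three slopes. -/
theorem three_op' (hF : IsFrobenius ρ χ γ p a P) (ht : ThreeSlopes p a P t)
    (τ : rootField P (AlgebraicClosure ℚ_[ℓ]) →+* PadicAlgCl p) :
    ∃ x ∈ lieT (bcr ρ (AlgebraicClosure ℚ_[ℓ])) (bcc χ (AlgebraicClosure ℚ_[ℓ])),
      Normalizes (bcr ρ (AlgebraicClosure ℚ_[ℓ])) x ∧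
      x * x * x = (1 / 4 : AlgebraicClosure ℚ_[ℓ]) • x ∧
      ∀ v, v ∈ slopeSpace ρ γ τ t ↔ x v = (1 / 2 : AlgebraicClosure ℚ_[ℓ]) • v := by
  classical
  obtain ⟨ht0, ht2, hts⟩ := ht
  have hpa : 0 < ((p : ℝ) ^ a)⁻¹ := p_pow_pos
  have hr : 2 * Real.log t - Real.log ((p : ℝ) ^ a)⁻¹ ≠ 0 := by
    intro h
    apply ht2
    have h1 : Real.log (t * t) = Real.log ((p : ℝ) ^ a)⁻¹ := by
      rw [Real.log_mul ht0.ne' ht0.ne']
      linarith
    exact Real.log_injOn_pos (Set.mem_Ioi.2 (by positivity)) (Set.mem_Ioi.2 hpa) h1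
  obtain ⟨κ, hκ⟩ := exists_kappa (K := AlgebraicClosure ℚ_[ℓ]) _ hr 1
  have hκ' : 2 * κ (Real.log t) - κ (Real.log ((p : ℝ) ^ a)⁻¹) = 1 := by
    rw [← hκ, map_sub, two_mul, two_mul, map_add]
  obtain ⟨x, hx, hxs⟩ := slope_op hF τ κ
  have h1 : ∀ y, ‖τ y‖ = t → sval τ κ a y = 1 / 2 := by
    intro y hy
    unfold sval
    rw [hy]
    linear_combination (1 / 2 : AlgebraicClosure ℚ_[ℓ]) * hκ'
  have h2 : ∀ y : rootField P (AlgebraicClosure ℚ_[ℓ]), aeval (y : AlgebraicClosure ℚ_[ℓ]) P = 0 →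
      ‖τ y‖ ≠ t → sval τ κ a y = -(1 / 2) ∨ sval τ κ a y = 0 := by
    intro y hy0 hy
    rcases (hts _ (aeval_emb hy0 τ)).resolve_left hy with hy2 | hy2
    · left
      unfold sval
      have h3 : Real.log ‖τ y‖ = Real.log ((p : ℝ) ^ a)⁻¹ - Real.log t := by
        rw [← hy2, Real.log_mul _ ht0.ne']
        · ring
        · intro h0
          rw [h0, zero_mul] at hy2
          exact hpa.ne hy2
      rw [h3, map_sub]
      linear_combination (-(1 / 2) : AlgebraicClosure ℚ_[ℓ]) * hκ'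
    · right
      unfold sval
      have h4 : ‖τ y‖ ≠ 0 := by
        intro h0
        rw [h0, zero_mul] at hy2
        exact hpa.ne hy2
      have h3 : κ (Real.log ((p : ℝ) ^ a)⁻¹) = κ (Real.log ‖τ y‖) + κ (Real.log ‖τ y‖) := by
        rw [← hy2, Real.log_mul h4 h4, map_add]
      rw [h3]
      ring
  have h2' : ∀ y : rootField P (AlgebraicClosure ℚ_[ℓ]), aeval (y : AlgebraicClosure ℚ_[ℓ]) P = 0 →
      ‖τ y‖ ≠ t → sval τ κ a y ≠ 1 / 2 := by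
    intro y hy0 hy
    rcases h2 y hy0 hy with h | h
    · rw [h]
      exact half_ne
    · rw [h]
      intro h5
      have h6 : (1 : AlgebraicClosure ℚ_[ℓ]) = 0 := by linear_combination -2 * h5
      exact one_ne_zero h6
  refine ⟨x, hx, slope_normalizes hF τ κ hxs, ?_, mem_slopeSpace hF hxs h1 h2'⟩
  obtain ⟨b, a', hb⟩ := exists_eigenbasis hF.semisimple
  have hb' : ∀ i, bcr ρ (AlgebraicClosure ℚ_[ℓ]) γ (b i) = a' i • b i := hb
  have hroot : ∀ i, aeval (a' i) P = 0 := fun i => eig_root hF (b.ne_zero i) (hb' i)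
  refine b.ext fun i => ?_
  have h3 := hxs ⟨a' i, mem_rootField hF.monic (hroot i)⟩ (b i) (hb' i)
  rw [Module.End.mul_apply, Module.End.mul_apply, h3, map_smul, map_smul, h3, map_smul, h3,
    smul_smul, smul_smul, LinearMap.smul_apply, h3, smul_smul]
  congr 1
  by_cases hi : ‖τ ⟨a' i, mem_rootField hF.monic (hroot i)⟩‖ = t
  · rw [h1 _ hi]; norm_num
  · rcases h2 _ (hroot i) hi with h | h
    · rw [h]; norm_num
    · rw [h]; norm_num

/-- The operator of a pair of embeddings of a Frobenius element with two slopes. -/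
theorem pair_op' {t' : ℝ} (hF : IsFrobenius ρ χ γ p a P) (ht : TwoSlopes p a P t)
    (ht' : TwoSlopes p a P t')
    (τ τ' : rootField P (AlgebraicClosure ℚ_[ℓ]) →+* PadicAlgCl p) :
    ∃ x ∈ lieT (bcr ρ (AlgebraicClosure ℚ_[ℓ])) (bcc χ (AlgebraicClosure ℚ_[ℓ])),
      Normalizes (bcr ρ (AlgebraicClosure ℚ_[ℓ])) x ∧
      x * x * x = (1 / 4 : AlgebraicClosure ℚ_[ℓ]) • x ∧
      ∀ v, v ∈ slopeSpace ρ γ τ t ⊓ slopeSpace ρ γ τ' t' ↔
        x v = (1 / 2 : AlgebraicClosure ℚ_[ℓ]) • v := by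
  obtain ⟨x, hx, hxn, hxx, s, hxs, h1, h2⟩ := two_op' hF ht τ
  obtain ⟨x', hx', hxn', hxx', s', hxs', h1', h2'⟩ := two_op' hF ht' τ'
  have hm := mem_slopeSpace hF hxs h1 (fun y hy hne => by rw [h2 y hy hne]; exact half_ne)
  have hm' := mem_slopeSpace hF hxs' h1' (fun y hy hne => by rw [h2' y hy hne]; exact half_ne)
  obtain ⟨b, a', hb⟩ := exists_eigenbasis hF.semisimple
  have hb' : ∀ i, bcr ρ (AlgebraicClosure ℚ_[ℓ]) γ (b i) = a' i • b i := hb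
  have hroot : ∀ i, aeval (a' i) P = 0 := fun i => eig_root hF (b.ne_zero i) (hb' i)
  have hcomm : x * x' = x' * x := by
    refine b.ext fun i => ?_
    have h3 := hxs ⟨a' i, mem_rootField hF.monic (hroot i)⟩ (b i) (hb' i)
    have h3' := hxs' ⟨a' i, mem_rootField hF.monic (hroot i)⟩ (b i) (hb' i)
    rw [Module.End.mul_apply, Module.End.mul_apply, h3, h3', map_smul, map_smul, h3, h3',
      smul_comm]
  refine ⟨(1 / 2 : AlgebraicClosure ℚ_[ℓ]) • (x + x'), Submodule.smul_mem _ _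
    (Submodule.add_mem _ hx hx'), (hxn.add hxn').smul _, ?_, fun v => ?_⟩
  · have h4 : (x + x') * (x + x') * (x + x') = x + x' := by
      have h5 : (x + x') * (x + x') = (1 / 2 : AlgebraicClosure ℚ_[ℓ]) • 1 +
          (2 : AlgebraicClosure ℚ_[ℓ]) • (x * x') := by
        rw [mul_add, add_mul, add_mul, hxx, hxx', hcomm]
        module
      rw [h5]
      have h6 : x * x' * (x + x') = (1 / 4 : AlgebraicClosure ℚ_[ℓ]) • (x + x') := by
        have h7 : x * x' * (x + x') = x * x' * x + x * (x' * x') := by noncomm_ring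
        have h8 : x * x' * x = x' * (x * x) := by rw [hcomm, mul_assoc]
        rw [h7, h8, hxx, hxx', mul_smul_comm, mul_smul_comm, mul_one, mul_one]
        module
      rw [add_mul, smul_mul_assoc, smul_mul_assoc, one_mul, h6]
      module
    have h9 : ∀ c : AlgebraicClosure ℚ_[ℓ], ∀ w : Module.End (AlgebraicClosure ℚ_[ℓ])
        (AlgebraicClosure ℚ_[ℓ] ⊗[ℚ_[ℓ]] V), (c • w) * (c • w) * (c • w) =
        (c * c * c) • (w * w * w) := by
      intro c w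
      simp only [smul_mul_assoc, mul_smul_comm, smul_smul, mul_assoc]
    rw [h9, h4, smul_smul]
    congr 1
    norm_num
  · rw [Submodule.mem_inf, hm, hm']
    have hv : ((1 / 2 : AlgebraicClosure ℚ_[ℓ]) • (x + x')) v =
        (1 / 2 : AlgebraicClosure ℚ_[ℓ]) • (x v + x' v) := rfl
    rw [hv]
    constructor
    · rintro ⟨h, h'⟩
      rw [h, h']
      module
    · intro h
      have h5 : x v + x' v = v := by
        have h6 := congrArg (fun w => (2 : AlgebraicClosure ℚ_[ℓ]) • w) h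
        simp only [smul_smul] at h6
        norm_num at h6
        exact h6
      have hq : ∀ w, x (x w) = (1 / 4 : AlgebraicClosure ℚ_[ℓ]) • w := fun w =>
        congrArg (fun F : Module.End (AlgebraicClosure ℚ_[ℓ])
          (AlgebraicClosure ℚ_[ℓ] ⊗[ℚ_[ℓ]] V) => F w) hxx
      have hq' : ∀ w, x' (x' w) = (1 / 4 : AlgebraicClosure ℚ_[ℓ]) • w := fun w =>
        congrArg (fun F : Module.End (AlgebraicClosure ℚ_[ℓ])
          (AlgebraicClosure ℚ_[ℓ] ⊗[ℚ_[ℓ]] V) => F w) hxx'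
      have hc : ∀ w, x (x' w) = x' (x w) := fun w =>
        congrArg (fun F : Module.End (AlgebraicClosure ℚ_[ℓ])
          (AlgebraicClosure ℚ_[ℓ] ⊗[ℚ_[ℓ]] V) => F w) hcomm
      have h6 : x v = x' v := by
        have h7 := congrArg x h5
        have h8 := congrArg x' h5
        rw [map_add, hq] at h7
        rw [map_add, hq', ← hc] at h8
        exact h7.symm.trans ((add_comm _ _).trans h8)
      constructor
      · rw [← h6] at h5
        have h9 : (1 / 2 : AlgebraicClosure ℚ_[ℓ]) • v =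
            (1 / 2 : AlgebraicClosure ℚ_[ℓ]) • (x v + x v) := by rw [h5]
        rw [h9]
        module
      · rw [h6] at h5
        have h9 : (1 / 2 : AlgebraicClosure ℚ_[ℓ]) • v =
            (1 / 2 : AlgebraicClosure ℚ_[ℓ]) • (x' v + x' v) := by rw [h5]
        rw [h9]
        module


/-- The good symplectic pieces. -/
def GoodSymp (ρ : Representation ℚ_[ℓ] Γ V) (χ : Γ →* ℚ_[ℓ])
    (U : Submodule (AlgebraicClosure ℚ_[ℓ]) (AlgebraicClosure ℚ_[ℓ] ⊗[ℚ_[ℓ]] V)) : Prop :=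
  HasSimpleSlope ρ χ U ∨ (finrank (AlgebraicClosure ℚ_[ℓ]) U ≤ 4 ∧ HasSlope ρ χ U) ∨
  ∃ γ : Γ, (bcr ρ (AlgebraicClosure ℚ_[ℓ]) γ - 1) * (bcr ρ (AlgebraicClosure ℚ_[ℓ]) γ - 1) = 0 ∧
    (finrank (AlgebraicClosure ℚ_[ℓ]) (U.map (bcr ρ (AlgebraicClosure ℚ_[ℓ]) γ - 1)) = 1 ∨
    finrank (AlgebraicClosure ℚ_[ℓ]) (U.map (bcr ρ (AlgebraicClosure ℚ_[ℓ]) γ - 1)) = 2)

section ops

variable
    (ω : (AlgebraicClosure ℚ_[ℓ] ⊗[ℚ_[ℓ]] V) →ₗ[AlgebraicClosure ℚ_[ℓ]]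
      (AlgebraicClosure ℚ_[ℓ] ⊗[ℚ_[ℓ]] V) →ₗ[AlgebraicClosure ℚ_[ℓ]] AlgebraicClosure ℚ_[ℓ])
    (hnd : ∀ u, (∀ v, ω u v = 0) → u = 0)
    (hω : ∀ g u v, ω (bcr ρ (AlgebraicClosure ℚ_[ℓ]) g u) (bcr ρ (AlgebraicClosure ℚ_[ℓ]) g v) =
      bcc χ (AlgebraicClosure ℚ_[ℓ]) g * ω u v)
    (hss : HasProj (bcr ρ (AlgebraicClosure ℚ_[ℓ])))
    {U : Submodule (AlgebraicClosure ℚ_[ℓ]) (AlgebraicClosure ℚ_[ℓ] ⊗[ℚ_[ℓ]] V)}
    (hU : SI (bcr ρ (AlgebraicClosure ℚ_[ℓ])) U)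

include hnd hω hss hU in
theorem good_one (hP : LieGenerate (bcr ρ (AlgebraicClosure ℚ_[ℓ]))
      (bcc χ (AlgebraicClosure ℚ_[ℓ])))
    (halt : AltDual (bcr ρ (AlgebraicClosure ℚ_[ℓ])) (bcc χ (AlgebraicClosure ℚ_[ℓ])) U)
    (h : GoodSymp ρ χ U) :
    ∃ e ∈ lieT (bcr ρ (AlgebraicClosure ℚ_[ℓ])) (bcc χ (AlgebraicClosure ℚ_[ℓ])),
      e * e = 0 ∧ finrank (AlgebraicClosure ℚ_[ℓ]) (U.map e) = 1 := by
  rcases h with h | ⟨h4, h⟩ | ⟨γ, hγ, h | h⟩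
  · exact one_of_simple ω hnd hω hss hP hU halt h
  · exact one_of_four ω hnd hω hss hP hU halt h4 h
  · exact one_of_gcd ω hnd hω hss hU hγ
      fun p hp => ⟨1, Or.inl h.symm, hp.one_lt.ne' ∘ Nat.dvd_one.1⟩
  · exact one_of_alt ω hnd hω hss hU halt hγ (Or.inl h.symm) (Or.inl rfl)

include hnd hω hss hU in
theorem good_oneN {N : Subgroup Γ} (hN : N.Normal)
    (hP : LieGenerate (bcr ρ (AlgebraicClosure ℚ_[ℓ])) (bcc χ (AlgebraicClosure ℚ_[ℓ])))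
    (halt : AltDual (bcr ρ (AlgebraicClosure ℚ_[ℓ])) (bcc χ (AlgebraicClosure ℚ_[ℓ])) U)
    (hne : ∃ x ∈ lieT (rN (bcr ρ (AlgebraicClosure ℚ_[ℓ])) N)
      (cN (bcc χ (AlgebraicClosure ℚ_[ℓ])) N), ∃ u ∈ U, x u ≠ 0)
    (h : GoodSymp ρ χ U) :
    ∃ e ∈ lieT (rN (bcr ρ (AlgebraicClosure ℚ_[ℓ])) N) (cN (bcc χ (AlgebraicClosure ℚ_[ℓ])) N),
      e * e = 0 ∧ finrank (AlgebraicClosure ℚ_[ℓ]) (U.map e) = 1 := by
  have hone := good_one ω hnd hω hss hU hP halt h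
  have hv : ∀ S : Submodule (AlgebraicClosure ℚ_[ℓ]) (AlgebraicClosure ℚ_[ℓ] ⊗[ℚ_[ℓ]] V),
      S ⊓ U ≠ ⊥ → ∃ v ∈ U, v ≠ 0 ∧ v ∈ S := by
    intro S hS
    obtain ⟨v, hv, hv0⟩ := (Submodule.ne_bot_iff _).1 hS
    exact ⟨v, hv.2, hv0, hv.1⟩
  rcases h with ⟨γ, p, hp, a, P, hF, ⟨t, τ, ht, hr⟩ | ⟨t, t', τ, τ', ht, ht', hr⟩⟩ |
    ⟨-, γ, p, hp, a, P, t, τ, hF, ht, hne'⟩ | ⟨γ, hγ, h⟩
  · obtain ⟨x, hx, hxn, h3, hS⟩ := three_op' hF ht τ
    obtain ⟨v, hvU, hv0, hvS⟩ := hv _ (by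
      intro h0
      rw [h0, finrank_bot] at hr
      exact zero_ne_one hr)
    exact one_kern_three ω hnd hω hss hU halt hN hone hne hx h3 hxn hvU hv0 ((hS v).1 hvS)
  · obtain ⟨x, hx, hxn, h3, hS⟩ := pair_op' hF ht ht' τ τ'
    obtain ⟨v, hvU, hv0, hvS⟩ := hv _ (by
      intro h0
      rw [h0, finrank_bot] at hr
      exact zero_ne_one hr)
    exact one_kern_three ω hnd hω hss hU halt hN hone hne hx h3 hxn hvU hv0 ((hS v).1 hvS)
  · obtain ⟨x, hx, hxn, h3, hS⟩ := three_op' hF ht τ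
    obtain ⟨v, hvU, hv0, hvS⟩ := hv _ hne'
    exact one_kern_three ω hnd hω hss hU halt hN hone hne hx h3 hxn hvU hv0 ((hS v).1 hvS)
  · obtain ⟨v, hvU, hv0⟩ : ∃ v ∈ U, (bcr ρ (AlgebraicClosure ℚ_[ℓ]) γ - 1) v ≠ 0 := by
      by_contra hcon
      push Not at hcon
      have h0 : U.map (bcr ρ (AlgebraicClosure ℚ_[ℓ]) γ - 1) = ⊥ := by
        rw [eq_bot_iff]
        rintro _ ⟨v, hv, rfl⟩
        rw [Submodule.mem_bot]
        exact hcon v hv
      rw [h0, finrank_bot] at h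
      omega
    have hx : bcr ρ (AlgebraicClosure ℚ_[ℓ]) γ - 1 ∈
        lieT (bcr ρ (AlgebraicClosure ℚ_[ℓ])) (bcc χ (AlgebraicClosure ℚ_[ℓ])) :=
      unip_lieT _ _ γ hγ (unip_chi ω hnd hω γ hγ hv0)
    exact one_kern_sq ω hnd hω hss hU halt hN hone hne hx hγ (normalizes_unip hγ) hvU hv0

end ops

end

end Pool.Agent.R930
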