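import Mathlib
import Pool.Agent.R930.Kern2Ops
import Pool.Agent.R930.Notions

/-!
# Normal subgroups: the assembly for pieces with one good place
-/

set_option linter.unusedSectionVars false

namespace Pool.Agent.R930

open Module TensorProduct Pool.Agent.Y126.Notions
open Pool.Agent.H204R3.SP Pool.Agent.H204R3.GP Pool.Agent.W522.U Pool.Agent.Y126.Toric
open Pool.Agent.TH118.CR Pool.Agent.W528.Odd Pool.Agent.Y126.OT Pool.Agent.W529.Ta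
open Pool.Agent.W528.Tor (AltDual)

noncomputable section

variable {ℓ : ℕ} [Fact ℓ.Prime] {V Γ : Type} [AddCommGroup V] [Module ℚ_[ℓ] V]
    [FiniteDimensional ℚ_[ℓ] V] [Group Γ] [TopologicalSpace Γ]
    {ρ : Representation ℚ_[ℓ] Γ V} {χ : Γ →* ℚ_[ℓ]} {n : ℕ} {b : Basis (Fin n) ℚ_[ℓ] V}

theorem kern_pieces2 [IsTopologicalGroup Γ] (ω : V →ₗ[ℚ_[ℓ]] V →ₗ[ℚ_[ℓ]] ℚ_[ℓ])
    (halt : ∀ v, ω v v = 0)
    (hnondeg : ∀ u, (∀ v, ω v u = 0) → u = 0)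
    (hω : ∀ s u v, ω (ρ s u) (ρ s v) = χ s * ω u v)
    (hsemisimple : PotentiallySemisimple ρ)
    (hintegral : ∀ g i j, ‖LinearMap.toMatrix b b (ρ g) i j‖ ≤ 1)
    (hcontinuous : ∀ i j, Continuous fun g => LinearMap.toMatrix b b (ρ g) i j)
    (hfrobenius : Dense {γ | IsFrob ρ χ γ})
    (hpieces : ∀ U, SI (bcr ρ (AlgebraicClosure ℚ_[ℓ])) U →
      AltDual (bcr ρ (AlgebraicClosure ℚ_[ℓ])) (bcc χ (AlgebraicClosure ℚ_[ℓ])) U ∧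
      GoodSymp ρ χ U)
    (N : Subgroup Γ) (hN : N.Normal)
    (hker : ∀ U, SI (bcr ρ (AlgebraicClosure ℚ_[ℓ])) U → ∀ Δ : Subgroup Γ, Δ.FiniteIndex →
      ∃ g ∈ Δ, g ∈ N ∧ χ g = 1 ∧ ∃ u ∈ U, bcr ρ (AlgebraicClosure ℚ_[ℓ]) g u ≠ u) :
    KernPieces2 (bcr ρ (AlgebraicClosure ℚ_[ℓ])) (bcc χ (AlgebraicClosure ℚ_[ℓ])) N := by
  have hl1 : ∀ u, (∀ v, bcb (AlgebraicClosure ℚ_[ℓ]) ω u v = 0) → u = 0 := fun u hu =>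
    bcb_nondeg_left ω hnondeg (left_nondeg ω halt hnondeg) u hu
  have hinv := bcb_inv (Ω := AlgebraicClosure ℚ_[ℓ]) ρ χ ω hω
  have hpr : HasProj (bcr ρ (AlgebraicClosure ℚ_[ℓ])) := hasProj_bcr ρ _ hsemisimple
  have hlie := lieGenerate_of_dense hintegral hcontinuous hfrobenius
  have hne : ∀ U, SI (bcr ρ (AlgebraicClosure ℚ_[ℓ])) U →
      ∃ x ∈ lieT (rN (bcr ρ (AlgebraicClosure ℚ_[ℓ])) N)
        (cN (bcc χ (AlgebraicClosure ℚ_[ℓ])) N), ∃ u ∈ U, x u ≠ 0 :=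
    fun U hU => ne_kern hintegral hU (hker U hU)
  exact
    { normal := hN
      proj := proj_kern N hN hsemisimple
      alt := fun U hU => (hpieces U hU).1
      one := fun U hU => good_one (bcb _ ω) hl1 hinv hpr hU hlie (hpieces U hU).1
        (hpieces U hU).2
      ne := hne
      oneN := fun U hU => good_oneN (bcb _ ω) hl1 hinv hpr hU hN hlie (hpieces U hU).1 (hne U hU)
        (hpieces U hU).2 }

theorem core_kern2' (ω : V →ₗ[ℚ_[ℓ]] V →ₗ[ℚ_[ℓ]] ℚ_[ℓ]) (halt : ∀ v, ω v v = 0)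
    (hnondeg : ∀ u, (∀ v, ω v u = 0) → u = 0)
    (hω : ∀ s u v, ω (ρ s u) (ρ s v) = χ s * ω u v)
    (hsemisimple : PotentiallySemisimple ρ) {N : Subgroup Γ}
    (hK : KernPieces2 (bcr ρ (AlgebraicClosure ℚ_[ℓ])) (bcc χ (AlgebraicClosure ℚ_[ℓ])) N) (m : ℕ)
      (φ : MultilinearMap (AlgebraicClosure ℚ_[ℓ])
        (fun _ : Fin m × Fin 2 => AlgebraicClosure ℚ_[ℓ] ⊗[ℚ_[ℓ]] V) (AlgebraicClosure ℚ_[ℓ]))
      (hφ : IsTate (rN (bcr ρ (AlgebraicClosure ℚ_[ℓ])) N)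
        (cN (bcc χ (AlgebraicClosure ℚ_[ℓ])) N) m φ) :
      φ ∈ Submodule.span (AlgebraicClosure ℚ_[ℓ]) (PT (rN (bcr ρ (AlgebraicClosure ℚ_[ℓ])) N)
        (cN (bcc χ (AlgebraicClosure ℚ_[ℓ])) N) m) :=
    core_kern2 (bcb (AlgebraicClosure ℚ_[ℓ]) ω)
      (fun u hu => bcb_nondeg_left ω hnondeg (left_nondeg ω halt hnondeg) u hu)
      (bcb_inv (Ω := AlgebraicClosure ℚ_[ℓ]) ρ χ ω hω) (hasProj_bcr ρ _ hsemisimple) hK φ hφ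

theorem tate2_kern2 (ω : V →ₗ[ℚ_[ℓ]] V →ₗ[ℚ_[ℓ]] ℚ_[ℓ]) (halt : ∀ v, ω v v = 0)
    (hnondeg : ∀ u, (∀ v, ω v u = 0) → u = 0)
    (hω : ∀ s u v, ω (ρ s u) (ρ s v) = χ s * ω u v)
    (hsemisimple : PotentiallySemisimple ρ) {N : Subgroup Γ}
    (hK : KernPieces2 (bcr ρ (AlgebraicClosure ℚ_[ℓ])) (bcc χ (AlgebraicClosure ℚ_[ℓ])) N)
    {B : V →ₗ[ℚ_[ℓ]] V →ₗ[ℚ_[ℓ]] ℚ_[ℓ]} (hB : IsTate2 (rN ρ N) (cN χ N) B) : IsTate2 ρ χ B := by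
  have h1 : IsTate2 (bcr (rN ρ N) (AlgebraicClosure ℚ_[ℓ])) (bcc (cN χ N) (AlgebraicClosure ℚ_[ℓ]))
    (bcb (AlgebraicClosure ℚ_[ℓ]) B) := tate2_ext hB
  rw [bcr_rN, bcc_cN] at h1
  exact tate2_res (Ω := AlgebraicClosure ℚ_[ℓ])
    (tate2_of_kern2 (bcb (AlgebraicClosure ℚ_[ℓ]) ω)
      (fun u hu => bcb_nondeg_left ω hnondeg (left_nondeg ω halt hnondeg) u hu)
      (bcb_inv (Ω := AlgebraicClosure ℚ_[ℓ]) ρ χ ω hω) (hasProj_bcr ρ _ hsemisimple) hK h1)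

theorem split_kern' (ω : V →ₗ[ℚ_[ℓ]] V →ₗ[ℚ_[ℓ]] ℚ_[ℓ]) (halt : ∀ v, ω v v = 0)
    (hnondeg : ∀ u, (∀ v, ω v u = 0) → u = 0)
    (hω : ∀ s u v, ω (ρ s u) (ρ s v) = χ s * ω u v)
    (hsemisimple : PotentiallySemisimple ρ) {N : Subgroup Γ}
    (hK : KernPieces2 (bcr ρ (AlgebraicClosure ℚ_[ℓ])) (bcc χ (AlgebraicClosure ℚ_[ℓ])) N) :
    ∃ x : Module.End (AlgebraicClosure ℚ_[ℓ]) (AlgebraicClosure ℚ_[ℓ] ⊗[ℚ_[ℓ]] V),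
      x * x = (1 / 4 : AlgebraicClosure ℚ_[ℓ]) • 1 ∧ ∀ (m : ℕ)
      (φ : MultilinearMap (AlgebraicClosure ℚ_[ℓ])
        (fun _ : Fin m × Fin 2 => AlgebraicClosure ℚ_[ℓ] ⊗[ℚ_[ℓ]] V) (AlgebraicClosure ℚ_[ℓ])),
      IsTate (rN (bcr ρ (AlgebraicClosure ℚ_[ℓ])) N)
        (cN (bcc χ (AlgebraicClosure ℚ_[ℓ])) N) m φ → Kills x φ :=
  split_kern (bcb (AlgebraicClosure ℚ_[ℓ]) ω)
      (fun u hu => bcb_nondeg_left ω hnondeg (left_nondeg ω halt hnondeg) u hu)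
      (bcb_inv (Ω := AlgebraicClosure ℚ_[ℓ]) ρ χ ω hω) (hasProj_bcr ρ _ hsemisimple) hK

end

end Pool.Agent.R930
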