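import Mathlib
import Pool.Agent.R930.MTProd

/-!
# A subgroup of finite index that fixes all Tate forms
-/

set_option linter.unusedSectionVars false

namespace Pool.Agent.R930

open Module Pool.Agent.H204R3.GP Pool.Agent.Y126.Notions

noncomputable section

variable {k : Type} [Field k] {W Γ : Type} [AddCommGroup W] [Module k W] [Group Γ]

section noeth

variable {σ : Type} [Finite σ]

/-- The polynomials vanishing on the image of a subgroup. -/
def vanI (c : Γ → σ → k) (Δ : Subgroup Γ) : Ideal (MvPolynomial σ k) where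
  carrier := {P | ∀ g ∈ Δ, MvPolynomial.eval (c g) P = 0}
  zero_mem' := fun g _ => map_zero _
  add_mem' := fun {a b} ha hb g hg => by rw [map_add, ha g hg, hb g hg, add_zero]
  smul_mem' := fun r {a} ha g hg => by rw [smul_eq_mul, map_mul, ha g hg, mul_zero]

theorem mem_vanI {c : Γ → σ → k} {Δ : Subgroup Γ} {P : MvPolynomial σ k} :
    P ∈ vanI c Δ ↔ ∀ g ∈ Δ, MvPolynomial.eval (c g) P = 0 := Iff.rfl

theorem exists_conn (c : Γ → σ → k) : ∃ Δ₀ : Subgroup Γ, Δ₀.FiniteIndex ∧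
    ∀ (P : MvPolynomial σ k) (Δ : Subgroup Γ), Δ.FiniteIndex →
      (∀ g ∈ Δ, MvPolynomial.eval (c g) P = 0) → ∀ g ∈ Δ₀, MvPolynomial.eval (c g) P = 0 := by
  have hn : IsNoetherianRing (MvPolynomial σ k) := MvPolynomial.isNoetherianRing
  obtain ⟨I, ⟨Δ₀, hΔ₀, rfl⟩, hI⟩ := set_has_maximal_iff_noetherian.2 hn
    {I : Ideal (MvPolynomial σ k) | ∃ Δ : Subgroup Γ, Δ.FiniteIndex ∧ I = vanI c Δ}
    ⟨_, ⊤, inferInstance, rfl⟩
  refine ⟨Δ₀, hΔ₀, fun P Δ hΔ hP g hg => ?_⟩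
  have h1 : vanI c Δ₀ ≤ vanI c (Δ ⊓ Δ₀) := fun Q hQ g hg => hQ g hg.2
  have h2 : vanI c (Δ ⊓ Δ₀) = vanI c Δ₀ := by
    by_contra hne
    exact hI _ ⟨Δ ⊓ Δ₀, inferInstance, rfl⟩ (lt_of_le_of_ne h1 (Ne.symm hne))
  have h3 : P ∈ vanI c (Δ ⊓ Δ₀) := fun g hg => hP g hg.1
  rw [h2] at h3
  exact h3 g hg

end noeth

theorem finiteIndex_comap {G G' : Type} [Group G] [Group G'] (f : G →* G') {Δ : Subgroup G'}
    (hΔ : Δ.FiniteIndex) : (Δ.comap f).FiniteIndex :=
  ⟨by
    rw [Subgroup.index_comap]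
    have h : (Δ.subgroupOf f.range).FiniteIndex := inferInstance
    exact h.index_ne_zero⟩

/-- **Connectedness**: one subgroup of finite index fixes all Tate forms. -/
theorem exists_fix [FiniteDimensional k W] (τ : Representation k Γ W) (χ : Γ →* k) :
    ∃ Δ₀ : Subgroup Γ, Δ₀.FiniteIndex ∧ ∀ (s : ℕ) (j : ℤ)
      (φ : MultilinearMap k (fun _ : Fin s => W) k),
      (∃ Δ : Subgroup Γ, Δ.FiniteIndex ∧ ∀ g ∈ Δ, ∀ v : Fin s → W,
        φ (fun i => τ g (v i)) = χ g ^ j * φ v) →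
      ∀ g ∈ Δ₀, ∀ v : Fin s → W, φ (fun i => τ g (v i)) = χ g ^ j * φ v := by
  classical
  let b := Module.finBasis k W
  let n := finrank k W
  let c : Γ → (Fin n × Fin n) ⊕ Fin 2 → k := fun g =>
    Sum.elim (fun p => b.repr (τ g (b p.2)) p.1) ![χ g, (χ g)⁻¹]
  obtain ⟨Δ₀, hΔ₀, h⟩ := exists_conn c
  refine ⟨Δ₀, hΔ₀, fun s j φ hφ g hg v => ?_⟩
  obtain ⟨Δ, hΔ, hφ⟩ := hφ
  -- the polynomial of the inverse twist
  obtain ⟨Q, hQ⟩ : ∃ Q : MvPolynomial ((Fin n × Fin n) ⊕ Fin 2) k,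
      ∀ g, MvPolynomial.eval (c g) Q = χ g ^ (-j) := by
    rcases j with j | j
    · refine ⟨(MvPolynomial.X (Sum.inr 1)) ^ j, fun g => ?_⟩
      rw [map_pow, MvPolynomial.eval_X]
      change (χ g)⁻¹ ^ j = χ g ^ (-(j : ℤ))
      rw [zpow_neg, zpow_natCast, inv_pow]
    · refine ⟨(MvPolynomial.X (Sum.inr 0)) ^ (j + 1), fun g => ?_⟩
      rw [map_pow, MvPolynomial.eval_X]
      change χ g ^ (j + 1) = χ g ^ (-(Int.negSucc j))
      rw [Int.neg_negSucc, zpow_natCast]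
  let L : Fin s → Fin n → MvPolynomial ((Fin n × Fin n) ⊕ Fin 2) k := fun i a =>
    ∑ d, MvPolynomial.C (b.repr (v i) d) * MvPolynomial.X (Sum.inl (a, d))
  have hL : ∀ (g : Γ) (i : Fin s) (a : Fin n), MvPolynomial.eval (c g) (L i a) =
      b.repr (τ g (v i)) a := by
    intro g i a
    simp only [L, map_sum, map_mul, MvPolynomial.eval_C, MvPolynomial.eval_X]
    conv_rhs => rw [← b.sum_repr (v i), map_sum, map_sum, Finsupp.finsetSum_apply]
    refine Finset.sum_congr rfl fun d _ => ?_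
    rw [map_smul, map_smul, Finsupp.smul_apply, smul_eq_mul]
    rfl
  obtain ⟨P, hP⟩ : ∃ P : MvPolynomial ((Fin n × Fin n) ⊕ Fin 2) k,
      ∀ g, MvPolynomial.eval (c g) P = χ g ^ (-j) * φ (fun i => τ g (v i)) - φ v := by
    refine ⟨Q * (∑ J : Fin s → Fin n, (∏ i, L i (J i)) * MvPolynomial.C (φ fun i => b (J i))) -
      MvPolynomial.C (φ v), fun g => ?_⟩
    rw [map_sub, map_mul, hQ, MvPolynomial.eval_C, map_sum]
    congr 2
    have h1 : (fun i => τ g (v i)) = fun i => ∑ a, b.repr (τ g (v i)) a • b a := by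
      funext i
      exact (b.sum_repr _).symm
    rw [h1, MultilinearMap.map_sum]
    refine Finset.sum_congr rfl fun J _ => ?_
    rw [map_mul, map_prod, MvPolynomial.eval_C, MultilinearMap.map_smul_univ, smul_eq_mul]
    congr 1
    exact Finset.prod_congr rfl fun i _ => hL g i (J i)
  have h1 := h P Δ hΔ (fun g hg => by
    rw [hP, hφ g hg, ← mul_assoc, ← zpow_add₀ (char_ne χ g), neg_add_cancel, zpow_zero, one_mul,
      sub_self]) g hg
  rw [hP, sub_eq_zero] at h1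
  rw [← h1, ← mul_assoc, ← zpow_add₀ (char_ne χ g), add_neg_cancel, zpow_zero, one_mul]

/-- One subgroup of finite index for all the bilinear forms in a set that spans a finite-dimensional
space. -/
theorem exists_fix_two {k V H : Type} [Field k] [AddCommGroup V] [Module k V]
    [FiniteDimensional k V] [Group H] (R : Representation k H V) (ν : H →* k)
    (S : Set (V →ₗ[k] V →ₗ[k] k)) (hS : ∀ B ∈ S, IsTate2 R ν B) :
    ∃ H₀ : Subgroup H, H₀.FiniteIndex ∧ ∀ B ∈ S, ∀ h ∈ H₀, ∀ u v, B (R h u) (R h v) =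
      ν h * B u v := by
  classical
  obtain ⟨T, hTS, hT⟩ := exists_linearIndependent k S
  have hfin : Finite T := by
    have h1 : LinearIndependent k ((↑) : T → V →ₗ[k] V →ₗ[k] k) := hT.2
    exact h1.finite
  have h1 : ∀ B : T, ∃ Δ : Subgroup H, Δ.FiniteIndex ∧ ∀ s ∈ Δ, ∀ u v,
      (B : V →ₗ[k] V →ₗ[k] k) (R s u) (R s v) = ν s * (B : V →ₗ[k] V →ₗ[k] k) u v :=
    fun B => hS B (hTS B.2)
  choose Δ hΔ hB using h1
  have key : ∀ B ∈ Submodule.span k T, ∀ h ∈ ⨅ B, Δ B, ∀ u v, B (R h u) (R h v) =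
      ν h * B u v := by
    intro B h2 h hh
    rw [Subgroup.mem_iInf] at hh
    induction h2 using Submodule.span_induction with
    | mem B hB' => exact fun u v => hB ⟨B, hB'⟩ h (hh _) u v
    | zero => intro u v; simp
    | add B B' _ _ e1 e2 =>
      intro u v
      rw [LinearMap.add_apply, LinearMap.add_apply, LinearMap.add_apply, LinearMap.add_apply, e1,
        e2, mul_add]
    | smul a B _ e1 =>
      intro u v
      rw [LinearMap.smul_apply, LinearMap.smul_apply, LinearMap.smul_apply, LinearMap.smul_apply,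
        e1, smul_eq_mul, smul_eq_mul]
      ring
  refine ⟨⨅ B, Δ B, Subgroup.finiteIndex_iInf hΔ, fun B hBS => key B ?_⟩
  rw [hT.1]
  exact Submodule.subset_span hBS

end

end Pool.Agent.R930
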