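import Mathlib
import Pool.Agent.R930.Kern2Main
import Pool.Agent.R930.MTProd
import Pool.Agent.R855.MT.One
import Pool.Agent.Results.MP_021685_ag.ProductsOverNumberFields

/-!
# Normal subgroups and local operators from several places of arbitrary type

The operators built from the local monodromy operators and the slope operators of Frobenius elements by
linear combinations, commutators and components normalize all spaces of operators that are stable under
the group.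
-/

set_option linter.unusedSectionVars false

namespace Pool.Agent.R930

open Module TensorProduct Pool.Agent.Y126.Notions
open Pool.Agent.H204R3.SP Pool.Agent.H204R3.GP Pool.Agent.W522.U Pool.Agent.Y126.Toric
open Pool.Agent.TH118.CR Pool.Agent.W528.Odd Pool.Agent.Y126.OT Pool.Agent.W529.Ta
open Pool.Agent.W528.Tor (AltDual)
open Pool.Agent.R855.MT (IsGrading gradingOperator component IsLocal IsDefect HasLocalOperators
  component_mem local_mem one_of_local defect_of_bot)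
open Pool.Agent.Results.MP_021685_ag.ProductsOverNumberFields (KernelActs
  PotentiallyAbelian KuennethGenerated)

noncomputable section

section nrm

variable {K : Type} [Field K] {X : Type} [AddCommGroup X] [Module K X] {Γ : Type} [Group Γ]
  {R : Representation K Γ X} {χ : Γ →* K}

theorem Normalizes.bracket {x y : Module.End K X} (hx : Normalizes R x) (hy : Normalizes R y) :
    Normalizes R (x * y - y * x) := by
  intro 𝔫 h𝔫 n hn
  have h1 : (x * y - y * x) * n - n * (x * y - y * x) =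
      (x * (y * n - n * y) - (y * n - n * y) * x) - (y * (x * n - n * x) - (x * n - n * x) * y) := by
    noncomm_ring
  rw [h1]
  exact 𝔫.sub_mem (hx 𝔫 h𝔫 _ (hy 𝔫 h𝔫 n hn)) (hy 𝔫 h𝔫 _ (hx 𝔫 h𝔫 n hn))

/-- The normalizing operators. -/
def nrmSub (R : Representation K Γ X) : Submodule K (Module.End K X) where
  carrier := {x | Normalizes R x}
  zero_mem' := by
    intro 𝔫 _ n _
    rw [zero_mul, mul_zero, sub_zero]
    exact 𝔫.zero_mem
  add_mem' := fun hx hy => hx.add hy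
  smul_mem' := fun c _ hx => hx.smul c

theorem mem_nrmSub {x : Module.End K X} : x ∈ nrmSub R ↔ Normalizes R x := Iff.rfl

variable [CharZero K] [FiniteDimensional K X]

theorem grading_normalizes {n : ℕ} {b : Basis (Fin n) K X} {s : Fin n → K}
    (h : IsGrading R χ b s) : Normalizes R (gradingOperator b s) := by
  classical
  obtain ⟨F, a, c, w, hF, hc, hs⟩ := h
  refine normalizes_of_diag (γ := F) b (fun i => (a i : K)) (fun i => (a i).ne_zero) hF s
    (fun i => by rw [gradingOperator, Basis.constr_basis]) fun i j k l hij => ?_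
  have h1 : a i * (a j)⁻¹ = a k * (a l)⁻¹ := by
    apply Units.ext
    rw [Units.val_mul, Units.val_mul, Units.val_inv_eq_inv_val, Units.val_inv_eq_inv_val,
      ← div_eq_mul_inv, ← div_eq_mul_inv]
    exact hij
  have h2 := congrArg (fun u : Kˣ => w (Additive.ofMul u)) h1
  simp only [ofMul_mul, ofMul_inv, map_add, map_neg] at h2
  rw [hs, hs, hs, hs]
  linear_combination h2

/-- Local operators normalize. -/
theorem local_normalizes {y : Module.End K X} (h : IsLocal R χ y) : Normalizes R y := by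
  have hbr : ∀ x ∈ nrmSub R, ∀ y ∈ nrmSub R, x * y - y * x ∈ nrmSub R :=
    fun _ hx _ hy => Normalizes.bracket hx hy
  induction h with
  | inertia γ h => exact normalizes_unip h
  | slope b s h => exact grading_normalizes h
  | component b s h d y hy ih =>
    exact component_mem b s y (nrmSub R) hbr (grading_normalizes h) ih d
  | add x y hx hy ihx ihy => exact ihx.add ihy
  | smul t x hx ih => exact ih.smul t
  | commutator x y hx hy ihx ihy => exact ihx.bracket ihy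

end nrm

section one

variable {K : Type} [Field K] [CharZero K] [IsAlgClosed K] {X : Type} [AddCommGroup X] [Module K X]
  [FiniteDimensional K X] {Γ : Type} [Group Γ] {R : Representation K Γ X} {χ : Γ →* K}
  {N : Subgroup Γ}
  (ω : X →ₗ[K] X →ₗ[K] K) (hnd : ∀ u, (∀ v, ω u v = 0) → u = 0)
  (hωR : ∀ g u v, ω (R g u) (R g v) = χ g * ω u v) (hss : HasProj R)
  {U : Submodule K X} (hU : SI R U)

include hnd hωR hss hU in
/-- The local operator is not zero on the piece. -/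
theorem local_ne (halt : AltDual R χ U) (h : HasLocalOperators R χ U) :
    ∃ x, IsLocal R χ x ∧ x * x = 0 ∧ ∃ v ∈ U, x v ≠ 0 := by
  obtain ⟨N₀, hloc, hN2, hcase⟩ := h
  refine ⟨N₀, hloc, hN2, ?_⟩
  by_contra hcon
  push Not at hcon
  have h0 : U.map N₀ = ⊥ := by
    rw [eq_bot_iff]
    rintro _ ⟨u, hu, rfl⟩
    exact (Submodule.mem_bot K).2 (hcon u hu)
  rcases hcase with hd | ⟨-, d, hd, hd2⟩
  · obtain ⟨d, hd, h2⟩ := hd 2 Nat.prime_two
    apply h2
    rw [defect_of_bot ω hnd hωR hss hU h0 hd]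
    exact dvd_zero 2
  · have h2 : 2 ≤ finrank K U := altDual_two_le halt
    have hd0 : d = 0 := defect_of_bot ω hnd hωR hss hU h0 hd
    subst hd0
    rcases hd2 with h | ⟨h, -⟩ | ⟨h, -⟩
    · omega
    · exact absurd h (by decide)
    · rw [Nat.coprime_zero_left] at h
      omega

include hnd hωR hss hU in
theorem oneN_of_local (halt : AltDual R χ U) (hN : N.Normal)
    (hne : ∃ x ∈ lieT (rN R N) (cN χ N), ∃ u ∈ U, x u ≠ 0) (h : HasLocalOperators R χ U) :
    ∃ e ∈ lieT (rN R N) (cN χ N), e * e = 0 ∧ finrank K (U.map e) = 1 := by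
  obtain ⟨x, hx, h2, v, hv, hv0⟩ := local_ne ω hnd hωR hss hU halt h
  exact one_kern_sq ω hnd hωR hss hU halt hN (one_of_local ω hnd hωR hss hU h) hne
    (local_mem ω hnd hωR hx) h2 (local_normalizes hx) hv hv0

end one

section main

variable {ℓ : ℕ} [Fact ℓ.Prime] {V Γ : Type} [AddCommGroup V] [Module ℚ_[ℓ] V]
    [FiniteDimensional ℚ_[ℓ] V] [Group Γ]
    {ρ : Representation ℚ_[ℓ] Γ V} {χ : Γ →* ℚ_[ℓ]} {n : ℕ} {b : Basis (Fin n) ℚ_[ℓ] V}

theorem kern_pieces_local (ω : V →ₗ[ℚ_[ℓ]] V →ₗ[ℚ_[ℓ]] ℚ_[ℓ])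
    (halt : ∀ v, ω v v = 0)
    (hnondeg : ∀ u, (∀ v, ω v u = 0) → u = 0)
    (hω : ∀ s u v, ω (ρ s u) (ρ s v) = χ s * ω u v)
    (hsemisimple : PotentiallySemisimple ρ)
    (hintegral : ∀ g i j, ‖LinearMap.toMatrix b b (ρ g) i j‖ ≤ 1)
    (hpieces : ∀ U, SI (bcr ρ (AlgebraicClosure ℚ_[ℓ])) U →
      AltDual (bcr ρ (AlgebraicClosure ℚ_[ℓ])) (bcc χ (AlgebraicClosure ℚ_[ℓ])) U ∧
      HasLocalOperators (bcr ρ (AlgebraicClosure ℚ_[ℓ])) (bcc χ (AlgebraicClosure ℚ_[ℓ])) U)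
    (N : Subgroup Γ) (hN : N.Normal)
    (hker : ∀ U, SI (bcr ρ (AlgebraicClosure ℚ_[ℓ])) U → ∀ Δ : Subgroup Γ, Δ.FiniteIndex →
      ∃ g ∈ Δ, g ∈ N ∧ χ g = 1 ∧ ∃ u ∈ U, bcr ρ (AlgebraicClosure ℚ_[ℓ]) g u ≠ u) :
    KernPieces2 (bcr ρ (AlgebraicClosure ℚ_[ℓ])) (bcc χ (AlgebraicClosure ℚ_[ℓ])) N := by
  let _ : TopologicalSpace Γ := ⊥
  have hl1 : ∀ u, (∀ v, bcb (AlgebraicClosure ℚ_[ℓ]) ω u v = 0) → u = 0 := fun u hu =>
    bcb_nondeg_left ω hnondeg (left_nondeg ω halt hnondeg) u hu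
  have hinv := bcb_inv (Ω := AlgebraicClosure ℚ_[ℓ]) ρ χ ω hω
  have hpr : HasProj (bcr ρ (AlgebraicClosure ℚ_[ℓ])) := hasProj_bcr ρ _ hsemisimple
  have hne : ∀ U, SI (bcr ρ (AlgebraicClosure ℚ_[ℓ])) U →
      ∃ x ∈ lieT (rN (bcr ρ (AlgebraicClosure ℚ_[ℓ])) N)
        (cN (bcc χ (AlgebraicClosure ℚ_[ℓ])) N), ∃ u ∈ U, x u ≠ 0 :=
    fun U hU => ne_kern hintegral hU (hker U hU)
  exact
    { normal := hN
      proj := proj_kern N hN hsemisimple
      alt := fun U hU => (hpieces U hU).1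
      one := fun U hU => one_of_local (bcb _ ω) hl1 hinv hpr hU (hpieces U hU).2
      ne := hne
      oneN := fun U hU => oneN_of_local (bcb _ ω) hl1 hinv hpr hU (hpieces U hU).1 hN (hne U hU)
        (hpieces U hU).2 }

/-- The kernel of the actions on `W` and on the character acts on the pieces. -/
theorem kernel_acts {W : Type} [AddCommGroup W] [Module ℚ_[ℓ] W]
    (hpieces : ∀ U, SI (bcr ρ (AlgebraicClosure ℚ_[ℓ])) U →
      AltDual (bcr ρ (AlgebraicClosure ℚ_[ℓ])) (bcc χ (AlgebraicClosure ℚ_[ℓ])) U)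
    (τ : Representation ℚ_[ℓ] Γ W)
    (hW : PotentiallyAbelian τ ∨ KernelActs (bcr ρ (AlgebraicClosure ℚ_[ℓ]))
      (bcc χ (AlgebraicClosure ℚ_[ℓ])) τ) :
    ∀ U, SI (bcr ρ (AlgebraicClosure ℚ_[ℓ])) U → ∀ Δ : Subgroup Γ, Δ.FiniteIndex →
      ∃ g ∈ Δ, g ∈ MonoidHom.ker τ ⊓ MonoidHom.ker χ ∧ χ g = 1 ∧
        ∃ u ∈ U, bcr ρ (AlgebraicClosure ℚ_[ℓ]) g u ≠ u := by
  intro U hU Δ hΔ
  rcases hW with ⟨Δ₀, hΔ₀, hab⟩ | h
  · obtain ⟨g, hg, h, hh, u, hu, hne⟩ := comm_acts hU (altDual_two_le (hpieces U hU))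
      (Δ ⊓ Δ₀) inferInstance
    refine ⟨g * h * g⁻¹ * h⁻¹, Δ.mul_mem (Δ.mul_mem (Δ.mul_mem hg.1 hh.1) (Δ.inv_mem hg.1))
      (Δ.inv_mem hh.1), ?_, comm_char χ g h, u, hu, hne⟩
    exact (mem_kk τ χ _).2 ⟨comm_kernel (hab g hg.2 h hh.2), comm_char χ g h⟩
  · obtain ⟨g, hg, h1, h2, h3⟩ := h U hU Δ hΔ
    have h4 : χ g = 1 := (algebraMap ℚ_[ℓ] (AlgebraicClosure ℚ_[ℓ])).injective (by
      rw [map_one]; exact h2)
    exact ⟨g, hg, (mem_kk τ χ _).2 ⟨h1, h4⟩, h4, h3⟩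

theorem kuenneth_local (ω : V →ₗ[ℚ_[ℓ]] V →ₗ[ℚ_[ℓ]] ℚ_[ℓ]) (halt : ∀ v, ω v v = 0)
    (hnondeg : ∀ u, (∀ v, ω v u = 0) → u = 0)
    (hω : ∀ s u v, ω (ρ s u) (ρ s v) = χ s * ω u v)
    (hsemisimple : PotentiallySemisimple ρ)
    (hintegral : ∀ g i j, ‖LinearMap.toMatrix b b (ρ g) i j‖ ≤ 1)
    (hpieces : ∀ U, SI (bcr ρ (AlgebraicClosure ℚ_[ℓ])) U →
      AltDual (bcr ρ (AlgebraicClosure ℚ_[ℓ])) (bcc χ (AlgebraicClosure ℚ_[ℓ])) U ∧
      HasLocalOperators (bcr ρ (AlgebraicClosure ℚ_[ℓ])) (bcc χ (AlgebraicClosure ℚ_[ℓ])) U)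
    {W : Type} [AddCommGroup W] [Module ℚ_[ℓ] W] [FiniteDimensional ℚ_[ℓ] W]
    (τ : Representation ℚ_[ℓ] Γ W)
    (hW : PotentiallyAbelian τ ∨ KernelActs (bcr ρ (AlgebraicClosure ℚ_[ℓ]))
      (bcc χ (AlgebraicClosure ℚ_[ℓ])) τ) : KuennethGenerated ρ χ τ := by
  have hker := kernel_acts (fun U hU => (hpieces U hU).1) τ hW
  obtain ⟨N, hNd⟩ : ∃ N : Subgroup Γ, N = MonoidHom.ker τ ⊓ MonoidHom.ker χ := ⟨_, rfl⟩
  have hNn : N.Normal := by rw [hNd]; infer_instance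
  have hNk : ∀ g ∈ N, τ g = 1 ∧ χ g = 1 := fun g hg => (mem_kk τ χ g).1 (by rw [← hNd]; exact hg)
  rw [← hNd] at hker
  have hK := kern_pieces_local ω halt hnondeg hω hsemisimple hintegral hpieces N hNn hker
  let _ : TopologicalSpace Γ := ⊥
  refine ⟨fun n a ha f hf => ?_, fun n m f hf => ?_⟩
  · obtain ⟨x, hxx, hx⟩ := split_kern' ω halt hnondeg hω hsemisimple hK
    exact mixed_odd hxx hx hNk ha f hf
  · exact mixed_even (generated_kern (gen_kern (core_kern2' ω halt hnondeg hω hsemisimple hK)))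
      (fun B hB => tate2_kern2 ω halt hnondeg hω hsemisimple hK hB) hNk f hf

end main

end

end Pool.Agent.R930
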